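import Pool.Agent.H303.NY.StmD
import Pool.Graph.R_pool_sql_team_seeded_3997aac3.Q73.AD.TG2
import Pool.Graph.R_pool_sql_team_seeded_3997aac3.Q73.AD.YQF

/-!
# D1: the areas of small discs (helper328)
-/

set_option autoImplicit false
open MeasureTheory Filter Topology Complex Metric
open scoped ContDiff ENNReal NNReal

namespace Pool.Agent.H303.NY

open Pool.Agent.Q73.NL Pool.Agent.Q73.AD Pool.Agent.H303.NP

universe u v

namespace D1L

theorem haus_le (E : Set ℂ) : (μH[2] : Measure ℂ) E ≤ ENNReal.ofReal 4 * volume E := by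
  have h1 := (qf_lip'.lipschitzOnWith
    (s := (Complex.measurableEquivPi : ℂ → (Fin 2 → ℝ)) '' E)).hausdorffMeasure_image_le
    (d := 2) (by norm_num)
  rw [← Set.image_comp] at h1
  have h2 : (Complex.measurableEquivPi.symm : (Fin 2 → ℝ) → ℂ) ∘
      (Complex.measurableEquivPi : ℂ → (Fin 2 → ℝ)) = id := by
    funext z; simp
  rw [h2, Set.image_id, qf_haus, qf_vol] at h1
  have h3 : ((2 : ℝ≥0) : ℝ≥0∞) ^ (2 : ℝ) = ENNReal.ofReal 4 := by
    rw [show (2 : ℝ) = ((2 : ℕ) : ℝ) by norm_num, ENNReal.rpow_natCast]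
    rw [show (4 : ℝ) = ((4 : ℕ) : ℝ) by norm_num, ENNReal.ofReal_natCast]
    norm_num
  rw [h3] at h1
  exact h1

theorem vol_ball (w : ℂ) {s : ℝ} (hs : 0 ≤ s) :
    volume (ball w s) = ENNReal.ofReal (Real.pi * s ^ 2) := by
  rw [Complex.volume_ball, ENNReal.ofReal_mul Real.pi_pos.le, ENNReal.ofReal_pow hs, mul_comm]
  congr 1
  rw [← NNReal.coe_real_pi, ENNReal.ofReal_coe_nnreal]

theorem vol_closedBall (w : ℂ) {s : ℝ} (hs : 0 ≤ s) :
    volume (closedBall w s) = ENNReal.ofReal (Real.pi * s ^ 2) := by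
  rw [Complex.volume_closedBall, ENNReal.ofReal_mul Real.pi_pos.le, ENNReal.ofReal_pow hs, mul_comm]
  congr 1
  rw [← NNReal.coe_real_pi, ENNReal.ofReal_coe_nnreal]

/-- one point of a good piece -/
theorem one_piece {M : Type u} [MetricSpace M] [MeasurableSpace M] [BorelSpace M] {φ : ℂ → M}
    {ρ : ℂ → ℝ} {V : Set ℂ} {z : ℂ} {R c L δ c' : ℝ} (hG : Good φ ρ V z R c L δ) (hc' : 0 < c')
    (hlow : ∀ (φ : ℂ → M) (E : Set ℂ),
      (∀ w ∈ E, ∀ w' ∈ E, c * ‖w - w'‖ ≤ dist (φ w) (φ w')) →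
      ENNReal.ofReal c' * volume E ≤ μH[2] (φ '' E)) {w : ℂ} (hw : w ∈ closedBall z R) {r : ℝ}
    (hr : 0 < r) (hrδ : r ≤ δ) (hrR : r ≤ R) :
    ENNReal.ofReal (c' * Real.pi * c ^ 2 * r ^ 2) ≤ (μH[2] : Measure M) (ball (φ w) r) ∧
    (μH[2] : Measure M) (ball (φ w) r) ≤ ENNReal.ofReal (4 * Real.pi / c ^ 4 * r ^ 2) := by
  have hc := hG.c_pos
  have hR := hG.R_pos
  rw [mem_closedBall] at hw
  constructor
  · have hsub : ball w (c * r) ⊆ closedBall z (2 * R) := by
      intro w' hw'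
      rw [mem_ball] at hw'
      rw [mem_closedBall]
      have h1 : c * r ≤ R := by
        have := mul_le_mul_of_nonneg_right hG.c_le hr.le
        linarith
      linarith [dist_triangle w' w z]
    have himg : φ '' ball w (c * r) ⊆ ball (φ w) r := by
      rintro _ ⟨w', hw', rfl⟩
      have h1 := (hG.lip w' (hsub hw') w (hsub (mem_ball_self (mul_pos hc hr)))).2
      rw [mem_ball, dist_eq_norm] at hw'
      rw [mem_ball]
      have h2 : c * dist (φ w') (φ w) < c * r := lt_of_le_of_lt h1 hw'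
      exact lt_of_mul_lt_mul_left h2 hc.le
    have h1 := hlow φ (ball w (c * r)) fun a ha b hb => (hG.lip a (hsub ha) b (hsub hb)).1
    refine le_trans (le_of_eq ?_) (h1.trans (measure_mono himg))
    rw [vol_ball w (mul_pos hc hr).le, ← ENNReal.ofReal_mul hc'.le]
    congr 1
    ring
  · set E : Set ℂ := closedBall z (2 * R) ∩ closedBall w (r / c) with hE
    have hw2 : w ∈ closedBall z (2 * R) := by
      rw [mem_closedBall]
      linarith
    have hsub : ball (φ w) r ⊆ φ '' E := by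
      intro y hy
      have hw3 : w ∈ closedBall z (3 * R / 2) := by
        rw [mem_closedBall]
        linarith
      obtain ⟨w', hw', rfl⟩ := hG.surj w hw3 (ball_subset_ball hrδ hy)
      refine ⟨w', ⟨hw', ?_⟩, rfl⟩
      have h1 := (hG.lip w' hw' w hw2).1
      rw [mem_ball] at hy
      rw [mem_closedBall, dist_eq_norm, le_div_iff₀ hc, mul_comm]
      linarith
    have hlip : LipschitzOnWith (Real.toNNReal c)⁻¹ φ E := by
      refine LipschitzOnWith.of_dist_le_mul ?_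
      intro a ha b hb
      rw [NNReal.coe_inv, Real.coe_toNNReal c hc.le, inv_mul_eq_div, le_div_iff₀ hc, mul_comm,
        dist_eq_norm a b]
      exact (hG.lip a ha.1 b hb.1).2
    have h1 := hlip.hausdorffMeasure_image_le (d := 2) (by norm_num)
    have hc0 : (Real.toNNReal c : ℝ≥0) ≠ 0 := by
      rw [Ne, Real.toNNReal_eq_zero]; linarith
    have h3 : (((Real.toNNReal c)⁻¹ : ℝ≥0) : ℝ≥0∞) = ENNReal.ofReal c⁻¹ := by
      rw [ENNReal.coe_inv hc0, ENNReal.ofReal_inv_of_pos hc]; rfl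
    have h4 : (((Real.toNNReal c)⁻¹ : ℝ≥0) : ℝ≥0∞) ^ (2 : ℝ) = ENNReal.ofReal (c⁻¹ ^ 2) := by
      rw [h3, show (2 : ℝ) = ((2 : ℕ) : ℝ) by norm_num, ENNReal.rpow_natCast,
        ENNReal.ofReal_pow (inv_pos.2 hc).le]
    rw [h4] at h1
    have h5 : (μH[2] : Measure ℂ) E ≤ ENNReal.ofReal (4 * (Real.pi * (r / c) ^ 2)) := by
      refine (haus_le E).trans ?_
      rw [ENNReal.ofReal_mul (by norm_num), ← vol_closedBall w (div_pos hr hc).le]
      exact mul_le_mul_right (measure_mono Set.inter_subset_right) _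
    refine (measure_mono hsub).trans (h1.trans ((mul_le_mul_right h5 _).trans (le_of_eq ?_)))
    rw [← ENNReal.ofReal_mul (by positivity)]
    congr 1
    field_simp

end D1L

open D1L in
/-- D1 -/
theorem td1 : D1.{u, v} := by
  intro M ι _ _ _ _ U φ ρ hA
  obtain ⟨n, i, z, R, c, L, δ, hG, hcov⟩ := tg2 M ι U φ ρ hA
  by_cases hM : Nonempty M
  · obtain ⟨x0⟩ := hM
    obtain ⟨a0, -⟩ := hcov x0
    have hc := (hG a0).c_pos
    have hδ := (hG a0).δ_pos
    obtain ⟨c', hc', hlow⟩ := ((tqf.{u, v} M).1 c hc)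
    obtain ⟨Rm, hRm, -, hRle⟩ := TG2.pos_lb Finset.univ R fun a _ => (hG a).R_pos
    refine ⟨c' * Real.pi * c ^ 2, 4 * Real.pi / c ^ 4, min δ Rm, ?_, ?_, lt_min hδ hRm, ?_⟩
    · have := Real.pi_pos
      positivity
    · have := Real.pi_pos
      positivity
    · intro x r hr hrr
      obtain ⟨a, w, hw, rfl⟩ := hcov x
      exact one_piece (hG a) hc' hlow hw hr (hrr.trans (min_le_left _ _))
        ((hrr.trans (min_le_right _ _)).trans (hRle a (Finset.mem_univ a)))
  · exact ⟨1, 1, 1, one_pos, one_pos, one_pos, fun x => absurd ⟨x⟩ hM⟩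

end Pool.Agent.H303.NY
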