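import Pool.Agent.H303.NY.StmD

set_option autoImplicit false
open MeasureTheory Filter Topology Complex Metric
open scoped ContDiff ENNReal

namespace Pool.Agent.H303.NY

open Pool.Agent.Q73.NL Pool.Agent.Q73.AD Pool.Agent.H303.NP

universe u v

namespace TD2

/-- Disjoint small balls inside a set. -/
theorem card_le {M : Type u} [MetricSpace M] [MeasurableSpace M] [BorelSpace M] (μ : Measure M)
    [IsFiniteMeasure μ] (a r₀ : ℝ)
    (h : ∀ (x : M) (r : ℝ), 0 < r → r ≤ r₀ → a * r ^ 2 ≤ μ.real (ball x r))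
    (r : ℝ) (hr : 0 < r) (hr₀ : 4 * r ≤ r₀) (s : Finset M)
    (hs : ∀ x ∈ s, ∀ y ∈ s, x ≠ y → r ≤ dist x y) (T : Set M)
    (hT : ∀ x ∈ s, ball x (r / 2) ⊆ T) : s.card * (a / 4 * r ^ 2) ≤ μ.real T := by
  have h1 : μ.real (⋃ x ∈ s, ball x (r / 2)) = ∑ x ∈ s, μ.real (ball x (r / 2)) := by
    refine measureReal_biUnion_finset ?_ ?_
    · intro x hx y hy hxy
      apply ball_disjoint_ball
      have := hs x hx y hy hxy
      linarith
    · intro x _
      exact measurableSet_ball
  have h2 : μ.real (⋃ x ∈ s, ball x (r / 2)) ≤ μ.real T := by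
    exact measureReal_mono (Set.iUnion₂_subset hT)
  have h3 : ∑ _x ∈ s, (a / 4 * r ^ 2) ≤ ∑ x ∈ s, μ.real (ball x (r / 2)) := by
    apply Finset.sum_le_sum
    intro x _
    have := h x (r / 2) (by linarith) (by linarith)
    calc a / 4 * r ^ 2 = a * (r / 2) ^ 2 := by ring
      _ ≤ _ := this
  rw [Finset.sum_const, nsmul_eq_mul] at h3
  linarith

end TD2

theorem td2 : D2.{u} := by
  classical
  intro M _ _ _ _ μ a b r₀ hμ ha hb hr₀ hball
  have hlow : ∀ (x : M) (r : ℝ), 0 < r → r ≤ r₀ → a * r ^ 2 ≤ μ.real (ball x r) := by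
    intro x r h1 h2
    have := (hball x r h1 h2).1
    rw [measureReal_def]
    exact (ENNReal.ofReal_le_iff_le_toReal (measure_ne_top μ _)).1 this
  have hup : ∀ (x : M) (r : ℝ), 0 < r → r ≤ r₀ → μ.real (ball x r) ≤ b * r ^ 2 := by
    intro x r h1 h2
    have := (hball x r h1 h2).2
    rw [measureReal_def]
    exact ENNReal.toReal_le_of_le_ofReal (by positivity) this
  refine ⟨25 * b / a, by positivity, fun r hr hr4 => ?_⟩
  let sep : Finset M → Prop := fun s => ∀ x ∈ s, ∀ y ∈ s, x ≠ y → r ≤ dist x y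
  have hcard : ∀ s : Finset M, sep s → (s.card : ℝ) * (a / 4 * r ^ 2) ≤ μ.real Set.univ :=
    fun s hs => TD2.card_le μ a r₀ hlow r hr hr4 s hs Set.univ fun _ _ => Set.subset_univ _
  have har : 0 < a / 4 * r ^ 2 := by positivity
  obtain ⟨s, hs, hmax⟩ : ∃ s, sep s ∧ ∀ t, sep t → t.card ≤ s.card := by
    let P : ℕ → Prop := fun n => ∃ s, sep s ∧ s.card = n
    let N : ℕ := ⌊μ.real Set.univ / (a / 4 * r ^ 2)⌋₊
    have hN : ∀ s, sep s → s.card ≤ N := by
      intro s hs
      apply Nat.le_floor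
      rw [le_div_iff₀ har]
      exact hcard s hs
    have h0 : P 0 := ⟨∅, fun x hx => absurd hx (Finset.notMem_empty x), rfl⟩
    obtain ⟨s, hs, hsc⟩ : P (Nat.findGreatest P N) := Nat.findGreatest_spec (Nat.zero_le N) h0
    refine ⟨s, hs, fun t ht => ?_⟩
    rw [hsc]
    exact Nat.le_findGreatest (hN t ht) ⟨t, ht, rfl⟩
  have hcov : ∀ y : M, ∃ x ∈ s, dist y x < r := by
    intro y
    by_contra hcon
    push Not at hcon
    have hy : y ∉ s := by
      intro hy
      have := hcon y hy
      rw [dist_self] at this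
      linarith
    have h1 : sep (insert y s) := by
      intro u hu v hv huv
      rw [Finset.mem_insert] at hu hv
      rcases hu with rfl | hu
      · rcases hv with rfl | hv
        · exact absurd rfl huv
        · exact hcon v hv
      · rcases hv with rfl | hv
        · rw [dist_comm]
          exact hcon u hu
        · exact hs u hu v hv huv
    have h2 := hmax _ h1
    rw [Finset.card_insert_of_notMem hy] at h2
    omega
  let x : Fin s.card → M := fun i => (s.equivFin.symm i : M)
  have hxs : ∀ i, x i ∈ s := fun i => (s.equivFin.symm i).2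
  have hxi : Function.Injective x := by
    intro i j hij
    exact s.equivFin.symm.injective (Subtype.ext hij)
  have hxsurj : ∀ y ∈ s, ∃ i, x i = y := by
    intro y hy
    exact ⟨s.equivFin ⟨y, hy⟩, by simp [x]⟩
  refine ⟨s.card, x, fun i j hij => hs _ (hxs i) _ (hxs j) fun h => hij (hxi h), ?_, ?_, ?_,
    hcard s hs⟩
  · intro y
    obtain ⟨z, hz, hyz⟩ := hcov y
    obtain ⟨i, rfl⟩ := hxsurj z hz
    exact ⟨i, hyz⟩
  · intro y
    let I : Finset (Fin s.card) := Finset.univ.filter fun i => y ∈ ball (x i) (2 * r)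
    have hI : {i | y ∈ ball (x i) (2 * r)} = (I : Set (Fin s.card)) := by
      ext i
      simp [I]
    rw [hI, Set.ncard_coe_finset]
    have h1 := TD2.card_le μ a r₀ hlow r hr hr4 (I.image x)
      (by
        intro u hu v hv huv
        obtain ⟨i, _, rfl⟩ := Finset.mem_image.1 hu
        obtain ⟨j, _, rfl⟩ := Finset.mem_image.1 hv
        exact hs _ (hxs i) _ (hxs j) huv) (ball y (5 * r / 2))
      (by
        intro u hu
        obtain ⟨i, hi, rfl⟩ := Finset.mem_image.1 hu
        have hi' : dist y (x i) < 2 * r := by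
          have := (Finset.mem_filter.1 hi).2
          exact mem_ball.1 this
        apply ball_subset_ball'
        rw [dist_comm]
        linarith)
    rw [Finset.card_image_of_injective _ hxi] at h1
    have h2 := hup y (5 * r / 2) (by linarith) (by linarith)
    rw [le_div_iff₀ ha]
    have h3 : (I.card : ℝ) * (a / 4 * r ^ 2) ≤ b * (5 * r / 2) ^ 2 := h1.trans h2
    have h4 : (0 : ℝ) < r ^ 2 / 4 := by positivity
    have h5 : (I.card : ℝ) * a * (r ^ 2 / 4) ≤ 25 * b * (r ^ 2 / 4) := by nlinarith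
    exact le_of_mul_le_mul_right h5 h4
  · have h1 : μ.real Set.univ ≤ μ.real (⋃ x ∈ s, ball x r) := by
      refine measureReal_mono ?_ (measure_ne_top μ _)
      intro y _
      obtain ⟨z, hz, hyz⟩ := hcov y
      exact Set.mem_iUnion₂.2 ⟨z, hz, hyz⟩
    have h2 : μ.real (⋃ x ∈ s, ball x r) ≤ ∑ x ∈ s, μ.real (ball x r) :=
      measureReal_biUnion_finset_le s fun x => ball x r
    have h3 : ∑ x ∈ s, μ.real (ball x r) ≤ ∑ _x ∈ s, (b * r ^ 2) :=
      Finset.sum_le_sum fun x _ => hup x r hr (by linarith)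
    rw [Finset.sum_const, nsmul_eq_mul] at h3
    linarith

end Pool.Agent.H303.NY
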