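import Pool.Agent.H303.NY.StmD

/-!
# D3: power means and limit measures
-/

set_option autoImplicit false
open MeasureTheory Filter Topology Complex Metric
open scoped ContDiff ENNReal

namespace Pool.Agent.H303.NY.D3p

noncomputable section

universe u

variable {M : Type u} [MetricSpace M] [CompactSpace M] [MeasurableSpace M] [BorelSpace M]

lemma step1 (m : Measure M) [IsFiniteMeasure m] (g : C(M, ℝ)) (hg : ∀ x, 0 ≤ g x) (r w : ℝ)
    (hw0 : 0 ≤ w) (hw : ∀ x y, dist x y < r → g x ≤ g y + w) (k : ℕ) (x : Fin k → M)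
    (hcov : ∀ y, ∃ i, y ∈ ball (x i) r) :
    ∫ y, g y ∂m ≤ ∑ i, (g (x i) + w) * m.real (ball (x i) r) := by
  have hi : ∀ i, Integrable ((ball (x i) r).indicator (fun _ => g (x i) + w)) m := fun i =>
    (integrable_const _).indicator measurableSet_ball
  have h1 : ∫ y, g y ∂m ≤ ∫ y, ∑ i, (ball (x i) r).indicator (fun _ => g (x i) + w) y ∂m := by
    refine integral_mono ?_ (integrable_finset_sum _ fun i _ => hi i) ?_
    · exact g.continuous.integrable_of_hasCompactSupport (HasCompactSupport.of_compactSpace _)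
    · intro y
      obtain ⟨i, hy⟩ := hcov y
      have h2 : (ball (x i) r).indicator (fun _ => g (x i) + w) y ≤
          ∑ j, (ball (x j) r).indicator (fun _ => g (x j) + w) y := by
        refine Finset.single_le_sum (f := fun j => (ball (x j) r).indicator (fun _ => g (x j) + w) y)
          (fun j _ => ?_) (Finset.mem_univ i)
        exact Set.indicator_nonneg (fun _ _ => add_nonneg (hg _) hw0) _
      rw [Set.indicator_of_mem hy] at h2
      exact (hw y (x i) (mem_ball.1 hy)).trans h2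
  refine h1.trans (le_of_eq ?_)
  rw [integral_finset_sum _ fun i _ => hi i]
  refine Finset.sum_congr rfl fun i _ => ?_
  rw [integral_indicator_const _ measurableSet_ball, smul_eq_mul, mul_comm]

lemma step2 (μ : Measure M) [IsFiniteMeasure μ] (a r₀ : ℝ) (ha : 0 < a)
    (hμ : ∀ (x : M) (r : ℝ), 0 < r → r ≤ r₀ → ENNReal.ofReal (a * r ^ 2) ≤ μ (ball x r))
    (g : C(M, ℝ)) (hg : ∀ x, 0 ≤ g x) (r w q : ℝ) (hr : 0 < r) (hr0 : r ≤ r₀) (hq : 0 < q)
    (hw0 : 0 ≤ w) (hw : ∀ x y, dist x y < r → g x ≤ g y + w) (k : ℕ) (x : Fin k → M)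
    (hsep : ∀ i j, i ≠ j → r ≤ dist (x i) (x j)) :
    (∑ i, (g (x i) + w) ^ q) * (a / 4 * r ^ 2) ≤ ∫ y, (g y + 2 * w) ^ q ∂μ := by
  have hi : ∀ i, Integrable ((ball (x i) (r / 2)).indicator (fun _ => (g (x i) + w) ^ q)) μ :=
    fun i => (integrable_const _).indicator measurableSet_ball
  have hc : Continuous fun y => (g y + 2 * w) ^ q :=
    (g.continuous.add continuous_const).rpow_const fun y => Or.inr hq.le
  have h1 : ∫ y, ∑ i, (ball (x i) (r / 2)).indicator (fun _ => (g (x i) + w) ^ q) y ∂μ ≤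
      ∫ y, (g y + 2 * w) ^ q ∂μ := by
    refine integral_mono (integrable_finset_sum _ fun i _ => hi i)
      (hc.integrable_of_hasCompactSupport (HasCompactSupport.of_compactSpace _)) ?_
    intro y
    have hpos : 0 ≤ (g y + 2 * w) ^ q := Real.rpow_nonneg (by linarith [hg y]) _
    by_cases hy : ∃ i, y ∈ ball (x i) (r / 2)
    · obtain ⟨i, hy⟩ := hy
      have h2 : ∑ j, (ball (x j) (r / 2)).indicator (fun _ => (g (x j) + w) ^ q) y =
          (ball (x i) (r / 2)).indicator (fun _ => (g (x i) + w) ^ q) y := by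
        refine Finset.sum_eq_single i (fun j _ hj => ?_) (fun h => absurd (Finset.mem_univ i) h)
        refine Set.indicator_of_notMem (fun hj' => ?_) _
        have h3 := hsep j i hj
        have h4 := dist_triangle_left (x j) (x i) y
        have h5 := mem_ball.1 hy
        have h6 := mem_ball.1 hj'
        linarith
      show ∑ j, (ball (x j) (r / 2)).indicator (fun _ => (g (x j) + w) ^ q) y ≤ (g y + 2 * w) ^ q
      rw [h2, Set.indicator_of_mem hy]
      refine Real.rpow_le_rpow (add_nonneg (hg _) hw0) ?_ hq.le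
      have h5 := mem_ball'.1 hy
      have := hw (x i) y (by linarith)
      linarith
    · push Not at hy
      show ∑ j, (ball (x j) (r / 2)).indicator (fun _ => (g (x j) + w) ^ q) y ≤ (g y + 2 * w) ^ q
      rw [Finset.sum_eq_zero fun j _ => Set.indicator_of_notMem (hy j) _]
      exact hpos
  refine le_trans ?_ h1
  rw [integral_finset_sum _ fun i _ => hi i, Finset.sum_mul]
  refine Finset.sum_le_sum fun i _ => ?_
  rw [integral_indicator_const _ measurableSet_ball, smul_eq_mul, mul_comm]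
  refine mul_le_mul_of_nonneg_right ?_ (Real.rpow_nonneg (add_nonneg (hg _) hw0) _)
  have h7 := hμ (x i) (r / 2) (by linarith) (by linarith)
  have h8 : a * (r / 2) ^ 2 ≤ μ.real (ball (x i) (r / 2)) :=
    (ENNReal.ofReal_le_iff_le_toReal (measure_ne_top μ _)).1 h7
  linarith [h8, show a * (r / 2) ^ 2 = a / 4 * r ^ 2 by ring]

/-- the estimate at one scale -/
lemma step3 (m μ : Measure M) [IsFiniteMeasure m] [IsFiniteMeasure μ] (a r₀ : ℝ) (ha : 0 < a)
    (hμ : ∀ (x : M) (r : ℝ), 0 < r → r ≤ r₀ → ENNReal.ofReal (a * r ^ 2) ≤ μ (ball x r))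
    (g : C(M, ℝ)) (hg : ∀ x, 0 ≤ g x) (lam w α B : ℝ) (hlam : 0 < lam)
    (hr0 : 1 / Real.sqrt lam ≤ r₀) (hα : 1 < α) (hB : 0 < B)
    (hw0 : 0 ≤ w) (hw : ∀ x y, dist x y < 1 / Real.sqrt lam → g x ≤ g y + w) (k : ℕ)
    (x : Fin k → M) (hcov : ∀ y, ∃ i, y ∈ ball (x i) (1 / Real.sqrt lam))
    (hsep : ∀ i j, i ≠ j → 1 / Real.sqrt lam ≤ dist (x i) (x j))
    (hA : ∑ i, (lam * m.real (ball (x i) (1 / Real.sqrt lam))) ^ α ≤ B * lam) :
    ∫ y, g y ∂m ≤ B ^ (1 / α) * (4 / a) ^ ((α - 1) / α) *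
      (∫ y, (g y + 2 * w) ^ (α / (α - 1)) ∂μ) ^ ((α - 1) / α) := by
  have hα0 : 0 < α := by linarith
  have hα1 : 0 < α - 1 := by linarith
  have hs : 0 < Real.sqrt lam := Real.sqrt_pos.2 hlam
  have hr : 0 < 1 / Real.sqrt lam := by positivity
  have hr2 : (1 / Real.sqrt lam) ^ 2 = 1 / lam := by
    rw [div_pow, one_pow, Real.sq_sqrt hlam.le]
  have hq0 : 0 < α / (α - 1) := by positivity
  have hpq : α.HolderConjugate (α / (α - 1)) := by
    rw [Real.holderConjugate_iff]
    refine ⟨hα, ?_⟩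
    field_simp
    ring
  have h1 := step1 m g hg _ w hw0 hw k x hcov
  have h2 := step2 μ a r₀ ha hμ g hg _ w (α / (α - 1)) hr hr0 hq0 hw0 hw k x hsep
  rw [hr2] at h2
  set I := ∫ y, (g y + 2 * w) ^ (α / (α - 1)) ∂μ with hI
  have hI0 : 0 ≤ I := integral_nonneg fun y => Real.rpow_nonneg (by linarith [hg y]) _
  set T := ∑ i, (g (x i) + w) ^ (α / (α - 1)) with hT
  have hT0 : 0 ≤ T := Finset.sum_nonneg fun i _ => Real.rpow_nonneg (by linarith [hg (x i)]) _
  have h3 : T ≤ 4 / a * lam * I := by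
    have h4 : T = (T * (a / 4 * (1 / lam))) * (4 / a * lam) := by field_simp
    rw [h4, mul_comm]
    exact mul_le_mul_of_nonneg_left h2 (by positivity)
  have h5 := Real.inner_le_Lp_mul_Lq_of_nonneg (s := Finset.univ)
    (f := fun i => lam * m.real (ball (x i) (1 / Real.sqrt lam)))
    (g := fun i => g (x i) + w) hpq (fun i _ => by positivity)
    (fun i _ => add_nonneg (hg _) hw0)
  have h6 : (1 : ℝ) / (α / (α - 1)) = (α - 1) / α := by
    rw [one_div_div]
  rw [h6] at h5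
  have h7 : (∑ i, (lam * m.real (ball (x i) (1 / Real.sqrt lam))) ^ α) ^ (1 / α) ≤
      (B * lam) ^ (1 / α) := by
    refine Real.rpow_le_rpow (Finset.sum_nonneg fun i _ => Real.rpow_nonneg (by positivity) _) hA
      (by positivity)
  have h8 : T ^ ((α - 1) / α) ≤ (4 / a * lam * I) ^ ((α - 1) / α) :=
    Real.rpow_le_rpow hT0 h3 (by positivity)
  have h9 : ∑ i, (g (x i) + w) * m.real (ball (x i) (1 / Real.sqrt lam)) =
      lam⁻¹ * ∑ i, lam * m.real (ball (x i) (1 / Real.sqrt lam)) * (g (x i) + w) := by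
    rw [Finset.mul_sum]
    refine Finset.sum_congr rfl fun i _ => ?_
    field_simp
  rw [h9] at h1
  refine h1.trans ?_
  have h10 : ∑ i, lam * m.real (ball (x i) (1 / Real.sqrt lam)) * (g (x i) + w) ≤
      (B * lam) ^ (1 / α) * (4 / a * lam * I) ^ ((α - 1) / α) :=
    h5.trans (mul_le_mul h7 h8 (Real.rpow_nonneg hT0 _) (Real.rpow_nonneg (by positivity) _))
  refine (mul_le_mul_of_nonneg_left h10 (by positivity)).trans (le_of_eq ?_)
  have h11 : lam ^ (1 / α) * lam ^ ((α - 1) / α) = lam := by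
    rw [← Real.rpow_add hlam]
    have : 1 / α + (α - 1) / α = 1 := by field_simp; ring
    rw [this, Real.rpow_one]
  rw [Real.mul_rpow hB.le hlam.le, Real.mul_rpow (by positivity) hI0,
    Real.mul_rpow (by positivity) hlam.le]
  calc lam⁻¹ * (B ^ (1 / α) * lam ^ (1 / α) *
        ((4 / a) ^ ((α - 1) / α) * lam ^ ((α - 1) / α) * I ^ ((α - 1) / α)))
      = lam⁻¹ * (lam ^ (1 / α) * lam ^ ((α - 1) / α)) *
        (B ^ (1 / α) * (4 / a) ^ ((α - 1) / α) * I ^ ((α - 1) / α)) := by ring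
    _ = B ^ (1 / α) * (4 / a) ^ ((α - 1) / α) * I ^ ((α - 1) / α) := by
        rw [h11, inv_mul_cancel₀ hlam.ne', one_mul]

/-- the limit `w → 0` -/
lemma step4 (μ : Measure M) [IsFiniteMeasure μ] (g : C(M, ℝ)) (hg : ∀ x, 0 ≤ g x) (q s : ℝ)
    (hq : 0 < q) (hs : 0 < s) :
    Tendsto (fun n : ℕ => (∫ y, (g y + 2 * (1 / ((n : ℝ) + 1))) ^ q ∂μ) ^ s) atTop
      (𝓝 ((∫ y, g y ^ q ∂μ) ^ s)) := by
  have h1 : Tendsto (fun n : ℕ => ∫ y, (g y + 2 * (1 / ((n : ℝ) + 1))) ^ q ∂μ) atTop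
      (𝓝 (∫ y, g y ^ q ∂μ)) := by
    refine tendsto_integral_of_dominated_convergence (fun _ => (‖g‖ + 2) ^ q) ?_
      (integrable_const _) ?_ ?_
    · intro n
      exact ((g.continuous.add continuous_const).rpow_const
        fun y => Or.inr hq.le).aestronglyMeasurable
    · intro n
      refine ae_of_all _ fun y => ?_
      have h2 : (1 : ℝ) / ((n : ℝ) + 1) ≤ 1 := by
        rw [div_le_one (by positivity)]
        linarith [Nat.cast_nonneg (α := ℝ) n]
      have h2' : (0 : ℝ) ≤ 1 / ((n : ℝ) + 1) := by positivity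
      have h3 : g y ≤ ‖g‖ := (le_abs_self _).trans (g.norm_coe_le_norm y)
      have h4 : 0 ≤ g y + 2 * (1 / ((n : ℝ) + 1)) := by linarith [hg y]
      rw [Real.norm_of_nonneg (Real.rpow_nonneg h4 _)]
      exact Real.rpow_le_rpow h4 (by linarith) hq.le
    · refine ae_of_all _ fun y => ?_
      have h5 : Tendsto (fun n : ℕ => g y + 2 * (1 / ((n : ℝ) + 1))) atTop (𝓝 (g y + 2 * 0)) :=
        tendsto_const_nhds.add (tendsto_one_div_add_atTop_nhds_zero_nat.const_mul 2)
      rw [mul_zero, add_zero] at h5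
      exact h5.rpow_const (Or.inr hq.le)
  exact h1.rpow_const (Or.inr hs.le)

end

end Pool.Agent.H303.NY.D3p

namespace Pool.Agent.H303.NY

open D3p

universe u

theorem td3 (h2 : D2.{u}) : D3.{u} := by
  intro M _ _ _ _ μ a b r₀ hfin ha hb hr₀ hμ α hα A
  obtain ⟨C₁, hC₁, hD⟩ := h2 M μ a b r₀ hfin ha hb hr₀ hμ
  have hα1 : 0 < α - 1 := by linarith
  have hα0 : 0 < α := by linarith
  rcases isEmpty_or_nonempty M with hM | hM
  · refine ⟨1, one_pos, ?_⟩
    intro lam m ν hlam hmf hνf hlim hP g hg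
    have h1 : ∫ x, g x ∂ν = 0 := by
      rw [Measure.eq_zero_of_isEmpty ν, integral_zero_measure]
    rw [h1]
    refine mul_nonneg zero_le_one (Real.rpow_nonneg (integral_nonneg fun x => ?_) _)
    exact Real.rpow_nonneg (hg x) _
  have hS : 0 < μ.real Set.univ := by
    obtain ⟨x⟩ := hM
    have h1 := (hμ x r₀ hr₀ le_rfl).1
    have h2 : a * r₀ ^ 2 ≤ μ.real (ball x r₀) :=
      (ENNReal.ofReal_le_iff_le_toReal (measure_ne_top μ _)).1 h1
    have h3 : μ.real (ball x r₀) ≤ μ.real Set.univ := measureReal_mono (Set.subset_univ _)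
    have h4 : 0 < a * r₀ ^ 2 := by positivity
    linarith
  set S := μ.real Set.univ with hSdef
  set C₂ := max (b / S) (4 * S / a) with hC₂def
  have hC₂ : 0 < C₂ := lt_of_lt_of_le (by positivity) (le_max_left _ _)
  set B := |A C₁ C₂| + 1 with hBdef
  have hB : 0 < B := by positivity
  refine ⟨B ^ (1 / α) * (4 / a) ^ ((α - 1) / α), by positivity, ?_⟩
  intro lam m ν hlam hmf hνf hlim hP g hg
  have hcont := step4 μ g hg (α / (α - 1)) ((α - 1) / α) (by positivity) (by positivity)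
  refine ge_of_tendsto' (hcont.const_mul _) fun N => ?_
  have hw : (0 : ℝ) < 1 / ((N : ℝ) + 1) := by positivity
  set w := (1 : ℝ) / ((N : ℝ) + 1) with hwdef
  have huc : UniformContinuous g := CompactSpace.uniformContinuous_of_continuous g.continuous
  obtain ⟨δ, hδ, hδ'⟩ := Metric.uniformContinuous_iff.1 huc w hw
  refine le_of_tendsto (hlim g) ?_
  have hev : ∀ᶠ n in atTop, max 1 (max ((1 / δ) ^ 2) ((4 / r₀) ^ 2)) ≤ lam n :=
    hlam.eventually_ge_atTop _
  filter_upwards [hev] with n hn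
  have hn1 : 1 ≤ lam n := (le_max_left _ _).trans hn
  have hn2 : (1 / δ) ^ 2 ≤ lam n := (le_max_left _ _).trans ((le_max_right _ _).trans hn)
  have hn3 : (4 / r₀) ^ 2 ≤ lam n := (le_max_right _ _).trans ((le_max_right _ _).trans hn)
  have hl0 : 0 < lam n := by linarith
  have hs : 0 < Real.sqrt (lam n) := Real.sqrt_pos.2 hl0
  have hs2 : 1 / δ ≤ Real.sqrt (lam n) := Real.le_sqrt_of_sq_le hn2
  have hs3 : 4 / r₀ ≤ Real.sqrt (lam n) := Real.le_sqrt_of_sq_le hn3
  have hr : 0 < 1 / Real.sqrt (lam n) := by positivity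
  have hrδ : 1 / Real.sqrt (lam n) ≤ δ := by
    rw [div_le_iff₀ hs]
    rw [div_le_iff₀ hδ] at hs2
    linarith
  have hr4 : 4 * (1 / Real.sqrt (lam n)) ≤ r₀ := by
    rw [div_le_iff₀ hr₀] at hs3
    rw [mul_one_div, div_le_iff₀ hs]
    linarith
  have hr2 : (1 / Real.sqrt (lam n)) ^ 2 = 1 / lam n := by
    rw [div_pow, one_pow, Real.sq_sqrt hl0.le]
  obtain ⟨k, x, hsep, hcov, hmul, hk1, hk2⟩ := hD (1 / Real.sqrt (lam n)) hr hr4
  rw [hr2] at hk1 hk2
  haveI := hmf n
  haveI := hfin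
  refine step3 (m n) μ a r₀ ha (fun x r h h' => (hμ x r h h').1) g hg (lam n) w α B hl0
    (by linarith) hα hB hw.le ?_ k x hcov hsep ?_
  · intro y z hyz
    have h1 := hδ' (lt_of_lt_of_le hyz hrδ)
    rw [Real.dist_eq] at h1
    linarith [le_abs_self (g y - g z)]
  · refine (hP C₁ C₂ hC₁ hC₂ n k x hl0 ?_ ?_ ?_).trans ?_
    · intro y
      refine le_trans ?_ (hmul y)
      have : Set.ncard {i | y ∈ ball (x i) (1 / Real.sqrt (lam n))} ≤
          Set.ncard {i | y ∈ ball (x i) (2 * (1 / Real.sqrt (lam n)))} := by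
        refine Set.ncard_le_ncard (fun i hi => ?_) (Set.toFinite _)
        exact ball_subset_ball (by linarith) hi
      exact_mod_cast this
    · have h1 : b / S ≤ C₂ := le_max_left _ _
      have h2 : S ≤ k * (b * (1 / lam n)) := hk1
      have h3 : C₂⁻¹ ≤ (b / S)⁻¹ := inv_anti₀ (by positivity) h1
      refine (mul_le_mul_of_nonneg_right h3 hl0.le).trans ?_
      rw [inv_div]
      have h4 : S / b * lam n ≤ (k * (b * (1 / lam n))) / b * lam n := by gcongr
      refine h4.trans (le_of_eq ?_)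
      field_simp
    · have h1 : 4 * S / a ≤ C₂ := le_max_right _ _
      have h2 : k * (a / 4 * (1 / lam n)) ≤ S := hk2
      refine le_trans ?_ (mul_le_mul_of_nonneg_right h1 hl0.le)
      have h4 : (k : ℝ) = 4 * (k * (a / 4 * (1 / lam n))) / a * lam n := by field_simp
      rw [h4]
      gcongr
    · refine mul_le_mul_of_nonneg_right ?_ hl0.le
      linarith [le_abs_self (A C₁ C₂)]

end Pool.Agent.H303.NY
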