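import Pool.Agent.H303.NY.StmD

/-!
# D4: densities in `L^α` (helper972)
-/

set_option autoImplicit false
open MeasureTheory Filter Topology Complex Metric
open scoped ContDiff ENNReal

namespace Pool.Agent.H303.NY

namespace D4P

universe u

variable {M : Type u} [MetricSpace M] [CompactSpace M] [MeasurableSpace M] [BorelSpace M]

/-- continuous approximations with the same bounds, a.e. convergence -/
theorem approx (lam : Measure M) [IsFiniteMeasure lam] {g : M → ℝ} {B : ℝ} (hg : Measurable g)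
    (hg0 : ∀ x, 0 ≤ g x) (hgB : ∀ x, g x ≤ B) :
    ∃ h : ℕ → C(M, ℝ), (∀ n x, 0 ≤ h n x) ∧ (∀ n x, h n x ≤ B) ∧
      ∀ᵐ x ∂lam, Tendsto (fun n => h n x) atTop (𝓝 (g x)) := by
  have hgi : Integrable g lam := by
    refine Integrable.of_bound hg.aestronglyMeasurable B (Eventually.of_forall fun x => ?_)
    rw [Real.norm_of_nonneg (hg0 x)]
    exact hgB x
  choose G hG hGi using fun n : ℕ => hgi.exists_boundedContinuous_integral_sub_le
    (show (0 : ℝ) < 1 / ((n : ℝ) + 1) by positivity)
  by_cases hB : 0 ≤ B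
  swap
  · -- M is empty
    have hM : IsEmpty M := ⟨fun x => hB ((hg0 x).trans (hgB x))⟩
    exact ⟨fun _ => 0, fun _ x => (hM.false x).elim, fun _ x => (hM.false x).elim,
      Eventually.of_forall fun x => (hM.false x).elim⟩
  obtain ⟨H, hH⟩ : ∃ H : ℕ → C(M, ℝ), ∀ n x, H n x = max 0 (min (G n x) B) :=
    ⟨fun n => ⟨fun x => max 0 (min (G n x) B), by fun_prop⟩, fun n x => rfl⟩
  have hd : ∀ n x, |H n x - g x| ≤ |g x - G n x| := by
    intro n x
    rw [hH]
    have h0 := hg0 x
    have h1 := hgB x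
    rw [abs_le]
    constructor
    · rcases le_total (G n x) B with h | h
      · rw [min_eq_left h]
        have := le_max_right 0 (G n x)
        have := le_abs_self (g x - G n x)
        linarith
      · rw [min_eq_right h]
        have := le_max_right 0 B
        have := abs_nonneg (g x - G n x)
        linarith
    · rcases le_total (G n x) 0 with h | h
      · rw [max_eq_left ((min_le_left _ _).trans h)]
        have := abs_nonneg (g x - G n x)
        linarith
      · rw [max_eq_right (le_min h hB)]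
        have := min_le_left (G n x) B
        have := neg_abs_le (g x - G n x)
        linarith
  have hHint : ∀ n, Integrable (fun x => H n x - g x) lam := by
    intro n
    refine Integrable.mono' ((hgi.sub (hGi n)).norm) ((H n).continuous.measurable.sub hg).aestronglyMeasurable
      (Eventually.of_forall fun x => ?_)
    exact hd n x
  have hI : ∀ n, ∫ x, ‖H n x - g x‖ ∂lam ≤ 1 / ((n : ℝ) + 1) := by
    intro n
    refine le_trans ?_ (hG n)
    exact integral_mono (hHint n).norm (hgi.sub (hGi n)).norm fun x => hd n x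
  have hL : Tendsto (fun n => eLpNorm ((fun x => H n x) - g) 1 lam) atTop (𝓝 0) := by
    have h1 : ∀ n, eLpNorm ((fun x => H n x) - g) 1 lam ≤ ENNReal.ofReal (1 / ((n : ℝ) + 1)) := by
      intro n
      rw [eLpNorm_one_eq_lintegral_enorm]
      have := ofReal_integral_norm_eq_lintegral_enorm (hHint n)
      calc ∫⁻ x, ‖((fun x => H n x) - g) x‖ₑ ∂lam = ∫⁻ x, ‖H n x - g x‖ₑ ∂lam := rfl
        _ = ENNReal.ofReal (∫ x, ‖H n x - g x‖ ∂lam) := this.symm
        _ ≤ _ := ENNReal.ofReal_le_ofReal (hI n)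
    refine tendsto_of_tendsto_of_tendsto_of_le_of_le tendsto_const_nhds ?_ (fun _ => zero_le) h1
    have := ENNReal.tendsto_ofReal (tendsto_one_div_add_atTop_nhds_zero_nat (𝕜 := ℝ))
    rwa [ENNReal.ofReal_zero] at this
  have hTM := tendstoInMeasure_of_tendsto_eLpNorm (p := 1) one_ne_zero
    (fun n => (H n).continuous.aestronglyMeasurable) hg.aestronglyMeasurable hL
  obtain ⟨ns, -, hns⟩ := hTM.exists_seq_tendsto_ae
  refine ⟨fun n => H (ns n), ?_, ?_, hns⟩
  · intro n x
    rw [hH]
    exact le_max_left _ _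
  · intro n x
    rw [hH]
    exact max_le hB (min_le_right _ _)

/-- the inequality for bounded measurable functions -/
theorem ext_ineq {μ ν : Measure M} [IsFiniteMeasure μ] [IsFiniteMeasure ν] {q s K : ℝ} (hq : 0 < q)
    (hs : 0 ≤ s)
    (h : ∀ g : C(M, ℝ), (∀ x, 0 ≤ g x) → ∫ x, g x ∂ν ≤ K * (∫ x, g x ^ q ∂μ) ^ s)
    {g : M → ℝ} {B : ℝ} (hg : Measurable g) (hg0 : ∀ x, 0 ≤ g x) (hgB : ∀ x, g x ≤ B) :
    ∫ x, g x ∂ν ≤ K * (∫ x, g x ^ q ∂μ) ^ s := by
  obtain ⟨H, hH0, hHB, hHt⟩ := approx (μ + ν) hg hg0 hgB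
  rw [ae_add_measure_iff] at hHt
  obtain ⟨hμt, hνt⟩ := hHt
  have h1 : Tendsto (fun n => ∫ x, H n x ∂ν) atTop (𝓝 (∫ x, g x ∂ν)) := by
    apply tendsto_integral_of_dominated_convergence (fun _ => B)
    · exact fun n => (H n).continuous.aestronglyMeasurable
    · exact integrable_const B
    · intro n
      refine Eventually.of_forall fun x => ?_
      rw [Real.norm_of_nonneg (hH0 n x)]
      exact hHB n x
    · exact hνt
  have h2 : Tendsto (fun n => ∫ x, H n x ^ q ∂μ) atTop (𝓝 (∫ x, g x ^ q ∂μ)) := by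
    apply tendsto_integral_of_dominated_convergence (fun _ => B ^ q)
    · exact fun n => ((H n).continuous.rpow_const fun x => Or.inr hq.le).aestronglyMeasurable
    · exact integrable_const _
    · intro n
      refine Eventually.of_forall fun x => ?_
      rw [Real.norm_of_nonneg (Real.rpow_nonneg (hH0 n x) _)]
      exact Real.rpow_le_rpow (hH0 n x) (hHB n x) hq.le
    · filter_upwards [hμt] with x hx
      exact hx.rpow_const (Or.inr hq.le)
  have h3 : Tendsto (fun n => K * (∫ x, H n x ^ q ∂μ) ^ s) atTop (𝓝 (K * (∫ x, g x ^ q ∂μ) ^ s)) :=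
    (h2.rpow_const (Or.inr hs)).const_mul K
  exact le_of_tendsto_of_tendsto' h1 h3 fun n => h (H n) (hH0 n)

end D4P

open D4P

/-- D4 -/
theorem td4.{u} : D4.{u} := by
  intro M _ _ _ _ μ ν α K hμ hν hα hK h
  have hα1 : 0 < α - 1 := by linarith
  have hα0 : 0 < α := by linarith
  have hq : 0 < α / (α - 1) := by positivity
  have hs : 0 < (α - 1) / α := by positivity
  have hext : ∀ (g : M → ℝ) (B : ℝ), Measurable g → (∀ x, 0 ≤ g x) → (∀ x, g x ≤ B) →
      ∫ x, g x ∂ν ≤ K * (∫ x, g x ^ (α / (α - 1)) ∂μ) ^ ((α - 1) / α) :=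
    fun g B hg hg0 hgB => ext_ineq hq hs.le h hg hg0 hgB
  -- absolute continuity
  have hac : ν.AbsolutelyContinuous μ := by
    refine Measure.AbsolutelyContinuous.mk fun S hS hS0 => ?_
    have h1 := hext (S.indicator fun _ => 1) 1 (measurable_const.indicator hS)
      (fun x => Set.indicator_nonneg (fun _ _ => zero_le_one) x)
      (fun x => Set.indicator_le_self' (fun _ _ => zero_le_one) x)
    rw [integral_indicator_const _ hS] at h1
    have h2 : ∫ x, (S.indicator (fun _ => (1 : ℝ)) x) ^ (α / (α - 1)) ∂μ = 0 := by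
      rw [integral_eq_zero_of_ae]
      have : ∀ᵐ x ∂μ, x ∉ S := measure_eq_zero_iff_ae_notMem.1 hS0
      filter_upwards [this] with x hx
      rw [Set.indicator_of_notMem hx, Real.zero_rpow hq.ne']
      rfl
    rw [h2, Real.zero_rpow hs.ne', mul_zero, smul_eq_mul, mul_one] at h1
    have h3 : ν.real S = 0 := le_antisymm h1 measureReal_nonneg
    exact (measureReal_eq_zero_iff).1 h3
  refine ⟨hac, ?_⟩
  have hr : Measurable (ν.rnDeriv μ) := Measure.measurable_rnDeriv ν μ
  -- truncated densities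
  have hm : ∀ m : ℕ, ∫⁻ x, (min (ν.rnDeriv μ x) m) ^ α ∂μ ≤ ENNReal.ofReal (K ^ α) := by
    intro m
    obtain ⟨T, hT⟩ : ∃ T : M → ℝ, T = fun x => (min (ν.rnDeriv μ x) m).toReal := ⟨_, rfl⟩
    have hfin : ∀ x, min (ν.rnDeriv μ x) (m : ℝ≥0∞) ≠ ⊤ := fun x =>
      ((min_le_right _ _).trans_lt (ENNReal.natCast_lt_top m)).ne
    have hTm : Measurable T := by
      rw [hT]
      exact (hr.min measurable_const).ennreal_toReal
    have hT0 : ∀ x, 0 ≤ T x := fun x => by rw [hT]; exact ENNReal.toReal_nonneg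
    have hTB : ∀ x, T x ≤ m := by
      intro x
      rw [hT]
      have := ENNReal.toReal_mono (ENNReal.natCast_ne_top m) (min_le_right (ν.rnDeriv μ x) (m : ℝ≥0∞))
      simpa using this
    have hTe : ∀ x, ENNReal.ofReal (T x) = min (ν.rnDeriv μ x) m := by
      intro x
      rw [hT]
      exact ENNReal.ofReal_toReal (hfin x)
    obtain ⟨I, hI⟩ : ∃ I : ℝ, I = ∫ x, T x ^ α ∂μ := ⟨_, rfl⟩
    have hTint : Integrable (fun x => T x ^ α) μ := by
      refine Integrable.of_bound (hTm.pow_const α).aestronglyMeasurable ((m : ℝ) ^ α)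
        (Eventually.of_forall fun x => ?_)
      rw [Real.norm_of_nonneg (Real.rpow_nonneg (hT0 x) _)]
      exact Real.rpow_le_rpow (hT0 x) (hTB x) hα0.le
    have hI0 : 0 ≤ I := by
      rw [hI]
      exact integral_nonneg fun x => Real.rpow_nonneg (hT0 x) _
    have hIe : ENNReal.ofReal I = ∫⁻ x, (min (ν.rnDeriv μ x) m) ^ α ∂μ := by
      rw [hI, ofReal_integral_eq_lintegral_ofReal hTint
        (Eventually.of_forall fun x => Real.rpow_nonneg (hT0 x) _)]
      refine lintegral_congr fun x => ?_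
      rw [← ENNReal.ofReal_rpow_of_nonneg (hT0 x) hα0.le, hTe]
    -- the test function
    have hgm : Measurable fun x => T x ^ (α - 1) := hTm.pow_const _
    have hg0 : ∀ x, 0 ≤ T x ^ (α - 1) := fun x => Real.rpow_nonneg (hT0 x) _
    have hgB : ∀ x, T x ^ (α - 1) ≤ (m : ℝ) ^ (α - 1) := fun x =>
      Real.rpow_le_rpow (hT0 x) (hTB x) hα1.le
    have h1 := hext (fun x => T x ^ (α - 1)) _ hgm hg0 hgB
    have h2 : ∫ x, (T x ^ (α - 1)) ^ (α / (α - 1)) ∂μ = I := by
      rw [hI]
      refine integral_congr_ae (Eventually.of_forall fun x => ?_)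
      show (T x ^ (α - 1)) ^ (α / (α - 1)) = T x ^ α
      rw [← Real.rpow_mul (hT0 x)]
      congr 1
      field_simp
    rw [h2] at h1
    have h3 : I ≤ ∫ x, T x ^ (α - 1) ∂ν := by
      have hgi : Integrable (fun x => T x ^ (α - 1)) ν := by
        refine Integrable.of_bound hgm.aestronglyMeasurable ((m : ℝ) ^ (α - 1))
          (Eventually.of_forall fun x => ?_)
        rw [Real.norm_of_nonneg (hg0 x)]
        exact hgB x
      have h4 : ENNReal.ofReal I ≤ ENNReal.ofReal (∫ x, T x ^ (α - 1) ∂ν) := by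
        rw [hIe, ofReal_integral_eq_lintegral_ofReal hgi (Eventually.of_forall hg0),
          ← lintegral_rnDeriv_mul hac hgm.ennreal_ofReal.aemeasurable]
        refine lintegral_mono fun x => ?_
        rw [← ENNReal.ofReal_rpow_of_nonneg (hT0 x) hα1.le, hTe]
        calc (min (ν.rnDeriv μ x) m) ^ α
            = (min (ν.rnDeriv μ x) m) ^ (1 + (α - 1)) := by congr 1; ring
          _ = (min (ν.rnDeriv μ x) m) ^ (1 : ℝ) * (min (ν.rnDeriv μ x) m) ^ (α - 1) :=
              ENNReal.rpow_add_of_nonneg _ _ zero_le_one hα1.le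
          _ ≤ ν.rnDeriv μ x * (min (ν.rnDeriv μ x) m) ^ (α - 1) := by
              rw [ENNReal.rpow_one]
              exact mul_le_mul' (min_le_left _ _) le_rfl
      exact (ENNReal.ofReal_le_ofReal_iff (integral_nonneg hg0)).1 h4
    rw [← hIe]
    apply ENNReal.ofReal_le_ofReal
    rcases hI0.eq_or_lt with h0 | hpos
    · rw [← h0]
      positivity
    · have h5 : I ≤ K * I ^ ((α - 1) / α) := h3.trans h1
      have h6 : I = I ^ (1 / α) * I ^ ((α - 1) / α) := by
        rw [← Real.rpow_add hpos]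
        have : 1 / α + (α - 1) / α = 1 := by field_simp; ring
        rw [this, Real.rpow_one]
      have h7 : I ^ (1 / α) ≤ K := by
        have hp : 0 < I ^ ((α - 1) / α) := Real.rpow_pos_of_pos hpos _
        rw [h6] at h5
        have h8 : I ^ (1 / α) * I ^ ((α - 1) / α) ≤ K * I ^ ((α - 1) / α) := by
          rw [← h6]
          exact h3.trans h1
        exact le_of_mul_le_mul_right h8 hp
      calc I = (I ^ (1 / α)) ^ α := by
            rw [← Real.rpow_mul hI0, one_div, inv_mul_cancel₀ hα0.ne', Real.rpow_one]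
        _ ≤ K ^ α := Real.rpow_le_rpow (Real.rpow_nonneg hI0 _) h7 hα0.le
  -- monotone convergence
  have hlim : Tendsto (fun m : ℕ => ∫⁻ x, (min (ν.rnDeriv μ x) m) ^ α ∂μ) atTop
      (𝓝 (∫⁻ x, (ν.rnDeriv μ x) ^ α ∂μ)) := by
    apply lintegral_tendsto_of_tendsto_of_monotone
    · exact fun m => ((hr.min measurable_const).pow_const α).aemeasurable
    · refine Eventually.of_forall fun x => ?_
      intro m m' hmm
      apply ENNReal.rpow_le_rpow _ hα0.le
      exact min_le_min le_rfl (by exact_mod_cast hmm)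
    · refine Eventually.of_forall fun x => ?_
      apply Tendsto.ennrpow_const α
      have h1 : Tendsto (fun m : ℕ => (m : ℝ≥0∞)) atTop (𝓝 ⊤) := ENNReal.tendsto_nat_nhds_top
      have h2 := (tendsto_const_nhds (x := ν.rnDeriv μ x)).min h1
      rwa [min_eq_left le_top] at h2
  exact le_of_tendsto' hlim hm

end Pool.Agent.H303.NY
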