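import Pool.Agent.H303.NY.StmD
import Pool.Graph.R_pool_sql_team_seeded_3997aac3.Q73.AD.TG2
import Pool.Graph.R_pool_sql_team_seeded_3997aac3.Q73.AD.YQB
import Pool.Graph.R_pool_sql_team_seeded_3997aac3.Q73.AD.YQF

/-!
# D5: lower bound of the length of the nodal set in discs
-/

set_option autoImplicit false
open MeasureTheory Filter Topology Complex Metric
open scoped ContDiff ENNReal NNReal

namespace Pool.Agent.H303.NY

open Pool.Agent.Q73.NL Pool.Agent.Q73.AD Pool.Agent.H303.NP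

universe u v

namespace TD5

/-- the length of the image under an expanding map -/
lemma transfer {M : Type u} [MetricSpace M] [MeasurableSpace M] [BorelSpace M] (c : ℝ) (hc : 0 < c)
    (φ : ℂ → M) (E : Set ℂ) (hE : ∀ w ∈ E, ∀ w' ∈ E, c * ‖w - w'‖ ≤ dist (φ w) (φ w')) :
    ENNReal.ofReal c * (μH[1] : Measure ℂ) E ≤ (μH[1] : Measure M) (φ '' E) := by
  have hinj : Set.InjOn φ E := by
    intro w hw w' hw' h
    have h1 := hE w hw w' hw'
    rw [h, dist_self] at h1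
    have h2 : ‖w - w'‖ ≤ 0 := by
      by_contra hcon
      push Not at hcon
      have := mul_pos hc hcon
      linarith
    exact sub_eq_zero.1 (norm_le_zero_iff.1 h2)
  have himg : (Function.invFunOn φ E) '' (φ '' E) = E := by
    ext z
    constructor
    · rintro ⟨_, ⟨w, hw, rfl⟩, rfl⟩
      exact Function.invFunOn_mem ⟨w, hw, rfl⟩
    · intro hz
      exact ⟨φ z, ⟨z, hz, rfl⟩, hinj.leftInvOn_invFunOn hz⟩
  have hlip : LipschitzOnWith (Real.toNNReal c)⁻¹ (Function.invFunOn φ E) (φ '' E) := by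
    refine LipschitzOnWith.of_dist_le_mul ?_
    rintro _ ⟨w, hw, rfl⟩ _ ⟨w', hw', rfl⟩
    rw [hinj.leftInvOn_invFunOn hw, hinj.leftInvOn_invFunOn hw', dist_eq_norm,
      NNReal.coe_inv, Real.coe_toNNReal c hc.le, inv_mul_eq_div, le_div_iff₀ hc, mul_comm]
    exact hE w hw w' hw'
  have h1 := hlip.hausdorffMeasure_image_le (d := 1) (by norm_num)
  rw [himg, ENNReal.rpow_one] at h1
  have hc0 : (Real.toNNReal c : ℝ≥0) ≠ 0 := by
    rw [Ne, Real.toNNReal_eq_zero]; linarith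
  have h3 : (((Real.toNNReal c)⁻¹ : ℝ≥0) : ℝ≥0∞) = (ENNReal.ofReal c)⁻¹ := by
    rw [ENNReal.coe_inv hc0]; rfl
  rw [h3] at h1
  have hofne : ENNReal.ofReal c ≠ 0 := by
    rw [Ne, ENNReal.ofReal_eq_zero]; linarith
  calc ENNReal.ofReal c * (μH[1] : Measure ℂ) E ≤
      ENNReal.ofReal c * ((ENNReal.ofReal c)⁻¹ * (μH[1] : Measure M) (φ '' E)) := by gcongr
    _ = (μH[1] : Measure M) (φ '' E) := by
        rw [← mul_assoc, ENNReal.mul_inv_cancel hofne ENNReal.ofReal_ne_top, one_mul]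

/-- the grid points -/
noncomputable def gp (w : ℂ) (t : ℝ) (a b : ℕ) : ℂ := ⟨w.re + 4 * t * a, w.im + 4 * t * b⟩

lemma gp_re (w : ℂ) (t : ℝ) (a b : ℕ) : (gp w t a b).re = w.re + 4 * t * a := rfl
lemma gp_im (w : ℂ) (t : ℝ) (a b : ℕ) : (gp w t a b).im = w.im + 4 * t * b := rfl

lemma gp_ball (w z : ℂ) (t s : ℝ) (m a b : ℕ) (ht : 0 < t) (hm : 8 * t * m ≤ s) (ha : a < m)
    (hb : b < m) (h1 : |(z - gp w t a b).re| ≤ 2 * t) (h2 : |(z - gp w t a b).im| ≤ 2 * t) :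
    z ∈ ball w s := by
  rw [mem_ball, dist_eq_norm]
  have ha' : (a : ℝ) + 1 ≤ m := by exact_mod_cast ha
  have hb' : (b : ℝ) + 1 ≤ m := by exact_mod_cast hb
  have ha0 : (0 : ℝ) ≤ a := Nat.cast_nonneg a
  have hb0 : (0 : ℝ) ≤ b := Nat.cast_nonneg b
  rw [Complex.sub_re, gp_re, abs_le] at h1
  rw [Complex.sub_im, gp_im, abs_le] at h2
  have e1 : 4 * t * (a + 1) ≤ 4 * t * m := mul_le_mul_of_nonneg_left ha' (by positivity)
  have e2 : 4 * t * (b + 1) ≤ 4 * t * m := mul_le_mul_of_nonneg_left hb' (by positivity)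
  have e3 : 0 ≤ 4 * t * a := by positivity
  have e4 : 0 ≤ 4 * t * b := by positivity
  have h3 : |(z - w).re| ≤ 4 * t * m - 2 * t := by
    rw [Complex.sub_re, abs_le]
    constructor <;> linarith [h1.1, h1.2]
  have h4 : |(z - w).im| ≤ 4 * t * m - 2 * t := by
    rw [Complex.sub_im, abs_le]
    constructor <;> linarith [h2.1, h2.2]
  have h5 := Complex.norm_le_abs_re_add_abs_im (z - w)
  linarith

lemma gp_cl (w z ζ : ℂ) (t r : ℝ) (a b : ℕ) (hr : r ≤ t) (h1 : |(ζ - gp w t a b).re| ≤ t)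
    (h2 : |(ζ - gp w t a b).im| ≤ t) (h : ‖z - ζ‖ ≤ r) :
    |(z - gp w t a b).re| ≤ 2 * t ∧ |(z - gp w t a b).im| ≤ 2 * t := by
  have h3 : |(z - ζ).re| ≤ r := (Complex.abs_re_le_norm _).trans h
  have h4 : |(z - ζ).im| ≤ r := (Complex.abs_im_le_norm _).trans h
  simp only [Complex.sub_re, Complex.sub_im, abs_le] at *
  refine ⟨⟨?_, ?_⟩, ?_, ?_⟩ <;> linarith [h1.1, h1.2, h2.1, h2.2, h3.1, h3.2, h4.1, h4.2]

lemma gp_op (w z ζ : ℂ) (t r : ℝ) (a b : ℕ) (hr : r ≤ t) (h1 : |(ζ - gp w t a b).re| ≤ t)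
    (h2 : |(ζ - gp w t a b).im| ≤ t) (h : ‖z - ζ‖ < r) :
    |(z - gp w t a b).re| < 2 * t ∧ |(z - gp w t a b).im| < 2 * t := by
  have h3 : |(z - ζ).re| < r := (Complex.abs_re_le_norm _).trans_lt h
  have h4 : |(z - ζ).im| < r := (Complex.abs_im_le_norm _).trans_lt h
  simp only [Complex.sub_re, Complex.sub_im, abs_le, abs_lt] at *
  refine ⟨⟨?_, ?_⟩, ?_, ?_⟩ <;> linarith [h1.1, h1.2, h2.1, h2.2, h3.1, h3.2, h4.1, h4.2]

lemma nat_sep (t x c : ℝ) (a a' : ℕ) (ht : 0 < t) (h : |x - (c + 4 * t * a)| < 2 * t)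
    (h' : |x - (c + 4 * t * a')| < 2 * t) : a = a' := by
  rw [abs_lt] at h h'
  have h1 : 4 * t * ((a : ℝ) - a') < 4 * t * 1 := by linarith [h.1, h'.2, h.2, h'.1]
  have h2 : 4 * t * ((a' : ℝ) - a) < 4 * t * 1 := by linarith [h.1, h'.2, h.2, h'.1]
  have h3 := lt_of_mul_lt_mul_left h1 (by positivity)
  have h4 := lt_of_mul_lt_mul_left h2 (by positivity)
  have h5 : a < a' + 1 := by
    have : (a : ℝ) < a' + 1 := by linarith
    exact_mod_cast this
  have h6 : a' < a + 1 := by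
    have : (a' : ℝ) < a + 1 := by linarith
    exact_mod_cast this
  omega

/-- the planar lower bound -/
lemma planar (h10 : N10) (lam ρ₀ L s t r₁ : ℝ) (w : ℂ) (ρ h : ℂ → ℝ) (m : ℕ) (hlam : 0 < lam)
    (hρ₀ : 0 < ρ₀) (ht : 0 < t) (hr : 0 < r₁) (hrt : r₁ ≤ t) (hL : 0 ≤ L)
    (h1 : lam * L * r₁ ^ 2 ≤ 1) (hbig : Real.pi ^ 2 < 2 * ρ₀ * lam * t ^ 2) (hm : 8 * t * m ≤ s)
    (hsol : ∀ z ∈ ball w s, ContDiffAt ℝ ∞ h z ∧ ρ₀ ≤ ρ z ∧ ρ z ≤ L ∧
      lap h z + lam * ρ z * h z = 0) :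
    ENNReal.ofReal ((m : ℝ) ^ 2 * (r₁ / 2)) ≤ (μH[1] : Measure ℂ) (nod (ball w s) h) := by
  have hz : ∀ a : Fin m × Fin m, ∃ z : ℂ, |(z - gp w t a.1 a.2).re| ≤ t ∧
      |(z - gp w t a.1 a.2).im| ≤ t ∧ h z = 0 := by
    intro a
    refine tqb lam ρ₀ t (gp w t a.1 a.2) ρ h hlam hρ₀ ht hbig fun z h2 h3 => ?_
    obtain ⟨g1, g2, -, g4⟩ := hsol z (gp_ball w z t s m a.1 a.2 ht hm a.1.2 a.2.2
      (h2.trans (by linarith)) (h3.trans (by linarith)))
    exact ⟨g1, g2, g4⟩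
  choose ζ hζ1 hζ2 hζ3 using hz
  have hloc : ∀ a : Fin m × Fin m, ENNReal.ofReal (r₁ / 2) ≤
      (μH[1] : Measure ℂ) (nod (ball (ζ a) r₁) h) := by
    intro a
    refine h10 lam L r₁ (ζ a) ρ h hlam hr hL h1 ?_ (hζ3 a)
    intro z hz
    rw [mem_closedBall, dist_eq_norm] at hz
    obtain ⟨k1, k2⟩ := gp_cl w z (ζ a) t r₁ a.1 a.2 hrt (hζ1 a) (hζ2 a) hz
    obtain ⟨g1, g2, g3, g4⟩ := hsol z (gp_ball w z t s m a.1 a.2 ht hm a.1.2 a.2.2 k1 k2)
    exact ⟨g1, hρ₀.le.trans g2, g3, g4⟩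
  have hdisj : Pairwise (Function.onFun Disjoint fun a : Fin m × Fin m => ball (ζ a) r₁) := by
    intro a b hab
    refine Set.disjoint_left.2 fun z hz hz' => hab ?_
    rw [mem_ball, dist_eq_norm] at hz hz'
    obtain ⟨k1, k2⟩ := gp_op w z (ζ a) t r₁ a.1 a.2 hrt (hζ1 a) (hζ2 a) hz
    obtain ⟨l1, l2⟩ := gp_op w z (ζ b) t r₁ b.1 b.2 hrt (hζ1 b) (hζ2 b) hz'
    rw [Complex.sub_re, gp_re] at k1 l1
    rw [Complex.sub_im, gp_im] at k2 l2
    exact Prod.ext (Fin.ext (nat_sep t _ _ _ _ ht k1 l1)) (Fin.ext (nat_sep t _ _ _ _ ht k2 l2))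
  have hsub : (⋃ a : Fin m × Fin m, ball (ζ a) r₁) ⊆ ball w s := by
    refine Set.iUnion_subset fun a z hz => ?_
    rw [mem_ball, dist_eq_norm] at hz
    obtain ⟨k1, k2⟩ := gp_cl w z (ζ a) t r₁ a.1 a.2 hrt (hζ1 a) (hζ2 a) hz.le
    exact gp_ball w z t s m a.1 a.2 ht hm a.1.2 a.2.2 k1 k2
  have hnod : ∀ B : Set ℂ, MeasurableSet B → (μH[1] : Measure ℂ) (nod B h) =
      (μH[1] : Measure ℂ).restrict {z | h z = 0} B := by
    intro B hB
    rw [Measure.restrict_apply hB]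
    rfl
  rw [hnod _ measurableSet_ball]
  calc ENNReal.ofReal ((m : ℝ) ^ 2 * (r₁ / 2)) = ∑ a : Fin m × Fin m, ENNReal.ofReal (r₁ / 2) := by
        rw [Finset.sum_const, Finset.card_univ, Fintype.card_prod, Fintype.card_fin, nsmul_eq_mul,
          ENNReal.ofReal_mul (by positivity), ENNReal.ofReal_pow (by positivity),
          ENNReal.ofReal_natCast, Nat.cast_mul, sq]
    _ ≤ ∑ a : Fin m × Fin m, (μH[1] : Measure ℂ).restrict {z | h z = 0} (ball (ζ a) r₁) := by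
        refine Finset.sum_le_sum fun a _ => ?_
        rw [← hnod _ measurableSet_ball]
        exact hloc a
    _ = (μH[1] : Measure ℂ).restrict {z | h z = 0} (⋃ a : Fin m × Fin m, ball (ζ a) r₁) := by
        rw [measure_iUnion hdisj fun a => measurableSet_ball, tsum_fintype]
    _ ≤ _ := measure_mono hsub

end TD5

open TD5

/-- D5 -/
theorem td5 (h10 : N10) : D5.{u, v} := by
  classical
  intro M ι _ _ _ _ _ U φ ρ hA hpos
  obtain ⟨n, i, z, R, c, L, δ, hG, hcov⟩ := tg2 M ι U φ ρ hA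
  -- a common lower bound for the densities
  have hlb : ∀ a : Fin n, ∃ b : ℝ, 0 < b ∧ ∀ w ∈ closedBall (z a) (2 * R a), b ≤ ρ (i a) w := by
    intro a
    have hR := (hG a).R_pos
    obtain ⟨y, hy, hmin⟩ := (isCompact_closedBall (z a) (2 * R a)).exists_isMinOn
      ⟨z a, mem_closedBall_self (by positivity)⟩
      ((hA.dens (i a)).continuousOn.mono (hG a).sub)
    exact ⟨ρ (i a) y, hpos _ _ ((hG a).sub hy), fun w hw => hmin hw⟩
  choose b hb hbl using hlb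
  obtain ⟨ρ₀, hρ₀, -, hρb⟩ := TG2.pos_lb (Finset.univ : Finset (Fin n)) b fun a _ => hb a
  obtain ⟨r₀, hr₀, -, hr₀b⟩ := TG2.pos_lb (Finset.univ : Finset (Fin n)) R fun a _ => (hG a).R_pos
  by_cases hn : Nonempty (Fin n)
  swap
  · refine ⟨1, 1, 1, one_pos, one_pos, one_pos, fun lam r x f _ _ _ _ _ => ?_⟩
    obtain ⟨a, -⟩ := hcov x
    exact absurd ⟨a⟩ hn
  obtain ⟨a₀⟩ := hn
  have hc : 0 < c := (hG a₀).c_pos
  have hc1 : c ≤ 1 := (hG a₀).c_le
  have hL : 1 ≤ L := (hG a₀).L_ge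
  have hL0 : 0 < L := by linarith
  obtain ⟨K₁, hK₁⟩ : ∃ K₁ : ℝ, K₁ = Real.pi / Real.sqrt ρ₀ := ⟨_, rfl⟩
  have hK0 : 0 < K₁ := by rw [hK₁]; have := Real.pi_pos; positivity
  have hK2 : ρ₀ * K₁ ^ 2 = Real.pi ^ 2 := by
    rw [hK₁, div_pow, Real.sq_sqrt hρ₀.le]; field_simp
  obtain ⟨q, hq⟩ : ∃ q : ℝ, q = min K₁ (1 / Real.sqrt L) := ⟨_, rfl⟩
  have hq0 : 0 < q := by rw [hq]; exact lt_min hK0 (by positivity)
  have hqK : q ≤ K₁ := by rw [hq]; exact min_le_left _ _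
  have hqL : L * q ^ 2 ≤ 1 := by
    have h1 : q ≤ 1 / Real.sqrt L := by rw [hq]; exact min_le_right _ _
    have h2 : q ^ 2 ≤ (1 / Real.sqrt L) ^ 2 := pow_le_pow_left₀ hq0.le h1 2
    rw [div_pow, one_pow, Real.sq_sqrt hL0.le] at h2
    calc L * q ^ 2 ≤ L * (1 / L) := by gcongr
      _ = 1 := by field_simp
  refine ⟨c ^ 3 * q / (512 * K₁ ^ 2), 8 * K₁ / c, r₀, by positivity, by positivity, hr₀,
    fun lam r x f hlam hE hne hKr hrr => ?_⟩
  obtain ⟨a, w, hw, rfl⟩ := hcov x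
  have hs0 : 0 < Real.sqrt lam := Real.sqrt_pos.2 hlam
  have hs2 : Real.sqrt lam ^ 2 = lam := Real.sq_sqrt hlam.le
  have hr0 : 0 < r := by
    have h1 : 0 < r * Real.sqrt lam := lt_of_lt_of_le (by positivity) hKr
    exact pos_of_mul_pos_left h1 hs0.le
  have hrR : r ≤ R a := hrr.trans (hr₀b a (Finset.mem_univ a))
  obtain ⟨s, hs⟩ : ∃ s : ℝ, s = c * r := ⟨_, rfl⟩
  have hsp : 0 < s := by rw [hs]; positivity
  have hsr : s ≤ r := by rw [hs]; nlinarith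
  have hsub : ball w s ⊆ closedBall (z a) (2 * R a) := by
    intro y hy
    rw [mem_ball] at hy
    rw [mem_closedBall] at hw ⊢
    have := dist_triangle y w (z a)
    linarith
  obtain ⟨t, ht⟩ : ∃ t : ℝ, t = K₁ / Real.sqrt lam := ⟨_, rfl⟩
  have ht0 : 0 < t := by rw [ht]; positivity
  have htl : t * Real.sqrt lam = K₁ := by rw [ht]; field_simp
  obtain ⟨m, hm⟩ : ∃ m : ℕ, m = ⌊s / (8 * t)⌋₊ := ⟨_, rfl⟩
  have hm1 : (m : ℝ) ≤ s / (8 * t) := by rw [hm]; exact Nat.floor_le (by positivity)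
  have hst : 1 ≤ s / (8 * t) := by
    rw [le_div_iff₀ (by positivity), one_mul, hs]
    rw [div_le_iff₀ hc] at hKr
    have h1 : 8 * t * Real.sqrt lam ≤ c * r * Real.sqrt lam := by
      calc 8 * t * Real.sqrt lam = 8 * K₁ := by rw [mul_assoc, htl]
        _ ≤ r * Real.sqrt lam * c := hKr
        _ = _ := by ring
    exact le_of_mul_le_mul_right h1 hs0
  have hm2 : s / (16 * t) ≤ m := by
    have h1 : s / (8 * t) < m + 1 := by rw [hm]; exact Nat.lt_floor_add_one _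
    have h2 : (1 : ℝ) ≤ m := by
      have : 1 ≤ m := by rw [hm]; exact Nat.one_le_floor_iff _ |>.2 hst
      exact_mod_cast this
    have h3 : s / (16 * t) = s / (8 * t) / 2 := by field_simp; ring
    rw [h3]; linarith
  have hr₁t : q / Real.sqrt lam ≤ t := by rw [ht]; gcongr
  have hplan := planar h10 lam ρ₀ L s t (q / Real.sqrt lam) w (ρ (i a)) (fun y => f (φ (i a) y)) m
    hlam hρ₀ ht0 (by positivity) hr₁t hL0.le (by
      rw [div_pow, hs2]
      calc lam * L * (q ^ 2 / lam) = L * q ^ 2 := by field_simp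
        _ ≤ 1 := hqL) (by
      have h1 : lam * t ^ 2 = K₁ ^ 2 := by rw [← htl, mul_pow, hs2]; ring
      have h2 : 2 * ρ₀ * lam * t ^ 2 = 2 * (ρ₀ * K₁ ^ 2) := by rw [← h1]; ring
      rw [h2, hK2]
      have := Real.pi_pos
      have h3 : 0 < Real.pi ^ 2 := by positivity
      linarith) (by
      have h1 := mul_le_mul_of_nonneg_left hm1 (show 0 ≤ 8 * t by positivity)
      rwa [mul_div_cancel₀ _ (by positivity : 8 * t ≠ 0)] at h1) (by
      intro y hy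
      have hy2 := hsub hy
      have hyU := (hG a).sub hy2
      obtain ⟨g1, g2⟩ := hE (i a)
      refine ⟨g1.contDiffAt ((hA.dom (i a)).mem_nhds hyU),
        (hρb a (Finset.mem_univ a)).trans (hbl a y hy2), ?_, g2 y hyU⟩
      exact (le_abs_self _).trans ((hG a).bd y hy2).1)
  have htr := transfer c hc (φ (i a)) (nod (ball w s) (fun y => f (φ (i a) y))) (by
    intro y hy y' hy'
    exact ((hG a).lip y (hsub hy.1) y' (hsub hy'.1)).1)
  have himg : φ (i a) '' nod (ball w s) (fun y => f (φ (i a) y)) ⊆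
      {y | y ∈ ball (φ (i a) w) r ∧ f y = 0} := by
    rintro _ ⟨y, ⟨hy1, hy2⟩, rfl⟩
    refine ⟨?_, hy2⟩
    have h1 := ((hG a).lip y (hsub hy1) w (hsub (mem_ball_self hsp))).2
    rw [mem_ball, dist_eq_norm] at hy1
    rw [mem_ball]
    have h2 : c * dist (φ (i a) y) (φ (i a) w) < c * r := by
      rw [hs] at hy1
      exact h1.trans_lt hy1
    exact lt_of_mul_lt_mul_left h2 hc.le
  calc ENNReal.ofReal (c ^ 3 * q / (512 * K₁ ^ 2) * r ^ 2 * Real.sqrt lam) ≤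
      ENNReal.ofReal (c * ((m : ℝ) ^ 2 * (q / Real.sqrt lam / 2))) := by
        refine ENNReal.ofReal_le_ofReal ?_
        have h1 : (s / (16 * t)) ^ 2 ≤ (m : ℝ) ^ 2 := pow_le_pow_left₀ (by positivity) hm2 2
        calc c ^ 3 * q / (512 * K₁ ^ 2) * r ^ 2 * Real.sqrt lam =
            c * ((s / (16 * t)) ^ 2 * (q / Real.sqrt lam / 2)) := by
              rw [hs, ht]
              field_simp
              ring
          _ ≤ _ := by gcongr
    _ = ENNReal.ofReal c * ENNReal.ofReal ((m : ℝ) ^ 2 * (q / Real.sqrt lam / 2)) :=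
        ENNReal.ofReal_mul hc.le
    _ ≤ ENNReal.ofReal c * (μH[1] : Measure ℂ) (nod (ball w s) (fun y => f (φ (i a) y))) := by
        gcongr
    _ ≤ _ := htr
    _ ≤ _ := measure_mono himg

end Pool.Agent.H303.NY
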