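import Pool.Agent.H303.NY.StmD

/-!
# Lower bound of the limit measures
-/

set_option autoImplicit false
open MeasureTheory Filter Topology Complex Metric
open scoped ContDiff ENNReal

namespace Pool.Agent.H303.NY

noncomputable section

universe u

namespace D6k

/-- integral of a finite sum of constants on balls -/
lemma int_sum {M : Type u} [MetricSpace M] [MeasurableSpace M] [BorelSpace M]
    (μ : Measure M) [IsFiniteMeasure μ] {n : ℕ} (x : Fin n → M) (r : ℝ) (h : Fin n → ℝ) :
    Integrable (fun y => ∑ i, (ball (x i) r).indicator (fun _ => h i) y) μ ∧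
    ∫ y, ∑ i, (ball (x i) r).indicator (fun _ => h i) y ∂μ = ∑ i, h i * μ.real (ball (x i) r) := by
  have hint : ∀ i ∈ (Finset.univ : Finset (Fin n)),
      Integrable (fun y => (ball (x i) r).indicator (fun _ => h i) y) μ := by
    intro i _
    exact (integrable_const (h i)).indicator measurableSet_ball
  refine ⟨integrable_finset_sum _ hint, ?_⟩
  rw [integral_finset_sum _ hint]
  apply Finset.sum_congr rfl
  intro i _
  rw [integral_indicator_const _ measurableSet_ball, smul_eq_mul, mul_comm]

/-- the comparison for continuous functions -/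
lemma cont_case {M : Type u} [MetricSpace M] [CompactSpace M] [MeasurableSpace M]
    [BorelSpace M] (h2 : D2.{u}) (μ : Measure M) (a b r₀ : ℝ) (hμ : IsFiniteMeasure μ) (ha : 0 < a)
    (hb : 0 < b) (hr₀ : 0 < r₀)
    (hball : ∀ (x : M) (r : ℝ), 0 < r → r ≤ r₀ → ENNReal.ofReal (a * r ^ 2) ≤ μ (ball x r) ∧
      μ (ball x r) ≤ ENNReal.ofReal (b * r ^ 2)) (c : ℝ) (hc : 0 < c)
    (m : ℕ → Measure M) (ν : Measure M) (hm : ∀ n, IsFiniteMeasure (m n))
    (hlim : ∀ g : C(M, ℝ), Tendsto (fun n => ∫ x, g x ∂(m n)) atTop (𝓝 (∫ x, g x ∂ν)))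
    (hlow : ∀ r : ℝ, 0 < r → r ≤ r₀ → ∀ᶠ n in atTop, ∀ x : M, c * r ^ 2 ≤ (m n).real (ball x r))
    (g : C(M, ℝ)) (hg : ∀ x, 0 ≤ g x) :
    c / (4 * b) * ∫ x, g x ∂μ ≤ ∫ x, g x ∂ν := by
  have hcb : 0 < c / (4 * b) := by positivity
  have gint : ∀ (κ : Measure M) [IsFiniteMeasure κ], Integrable (fun x => g x) κ := by
    intro κ _
    exact (BoundedContinuousFunction.mkOfCompact g).integrable κ
  obtain ⟨C₁, _, hsep⟩ := h2 M μ a b r₀ hμ ha hb hr₀ hball
  have h1 : ∀ ε : ℝ, 0 < ε →
      c / (4 * b) * (∫ x, g x ∂μ - 2 * ε * μ.real Set.univ) ≤ ∫ x, g x ∂ν := by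
    intro ε hε
    obtain ⟨δ, hδ, huc⟩ := Metric.uniformContinuous_iff.mp
      (CompactSpace.uniformContinuous_of_continuous g.continuous) ε hε
    set r : ℝ := min δ (r₀ / 4) with hr
    have hr0 : 0 < r := lt_min hδ (by linarith)
    have hrδ : r ≤ δ := min_le_left _ _
    have hr4 : 4 * r ≤ r₀ := by
      have : r ≤ r₀ / 4 := min_le_right _ _
      linarith
    obtain ⟨n, x, hs, hcov, _, _, _⟩ := hsep r hr0 hr4
    set h : Fin n → ℝ := fun i => max (g (x i) - ε) 0 with hh
    have hnn : ∀ i, 0 ≤ h i := fun i => le_max_right _ _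
    have hgc : ∀ (i : Fin n) (y : M), y ∈ ball (x i) r → |g y - g (x i)| < ε := by
      intro i y hy
      have h3 := huc (a := y) (b := x i) (lt_of_lt_of_le hy hrδ)
      rwa [Real.dist_eq] at h3
    -- upper bound of the integral against μ
    have hup : ∫ y, g y ∂μ - 2 * ε * μ.real Set.univ ≤ ∑ i, h i * μ.real (ball (x i) r) := by
      obtain ⟨i1, i2⟩ := int_sum μ x r h
      have e1 : ∫ y, (g y - 2 * ε) ∂μ = ∫ y, g y ∂μ - 2 * ε * μ.real Set.univ := by
        rw [integral_sub (gint μ) (integrable_const _), integral_const, smul_eq_mul]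
        ring
      rw [← e1, ← i2]
      apply integral_mono ((gint μ).sub (integrable_const _)) i1
      intro y
      show g y - 2 * ε ≤ ∑ i, (ball (x i) r).indicator (fun _ => h i) y
      obtain ⟨i, hi⟩ := hcov y
      have h3 : (ball (x i) r).indicator (fun _ => h i) y ≤
          ∑ i, (ball (x i) r).indicator (fun _ => h i) y :=
        Finset.single_le_sum (f := fun i => (ball (x i) r).indicator (fun _ => h i) y)
          (fun j _ => Set.indicator_nonneg (fun _ _ => hnn j) y) (Finset.mem_univ i)
      refine le_trans ?_ h3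
      rw [Set.indicator_of_mem hi]
      have h4 := abs_lt.mp (hgc i y hi)
      have h5 : g (x i) - ε ≤ h i := le_max_left _ _
      linarith [h4.2]
    -- lower bound of the integral against m k
    have hlo : ∀ᶠ k in atTop, c / (4 * b) * (∫ x, g x ∂μ - 2 * ε * μ.real Set.univ) ≤
        ∫ x, g x ∂(m k) := by
      filter_upwards [hlow (r / 2) (by linarith) (by linarith)] with k hk
      have _ := hm k
      obtain ⟨i1, i2⟩ := int_sum (m k) x (r / 2) h
      have h6 : ∑ i, h i * (m k).real (ball (x i) (r / 2)) ≤ ∫ y, g y ∂(m k) := by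
        rw [← i2]
        apply integral_mono i1 (gint (m k))
        intro y
        show ∑ i, (ball (x i) (r / 2)).indicator (fun _ => h i) y ≤ g y
        by_cases hy : ∃ i, y ∈ ball (x i) (r / 2)
        · obtain ⟨i, hi⟩ := hy
          rw [Finset.sum_eq_single i]
          · rw [Set.indicator_of_mem hi]
            have h3 := abs_lt.mp (hgc i y (ball_subset_ball (by linarith) hi))
            exact max_le (by linarith [h3.1]) (hg y)
          · intro j _ hj
            apply Set.indicator_of_notMem
            intro hyj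
            have h7 := hs j i hj
            have h8 : dist (x j) (x i) ≤ dist (x j) y + dist y (x i) := dist_triangle _ _ _
            have h9 : dist (x j) y < r / 2 := by rw [dist_comm]; exact hyj
            have h10 : dist y (x i) < r / 2 := hi
            linarith
          · intro hn
            exact absurd (Finset.mem_univ i) hn
        · push Not at hy
          rw [Finset.sum_eq_zero]
          · exact hg y
          · intro i _
            exact Set.indicator_of_notMem (hy i) _
      have h11 : c / (4 * b) * ∑ i, h i * μ.real (ball (x i) r) ≤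
          ∑ i, h i * (m k).real (ball (x i) (r / 2)) := by
        rw [Finset.mul_sum]
        apply Finset.sum_le_sum
        intro i _
        have h12 : μ.real (ball (x i) r) ≤ b * r ^ 2 := by
          have := (hball (x i) r hr0 (by linarith)).2
          rw [Measure.real]
          exact ENNReal.toReal_le_of_le_ofReal (by positivity) this
        have h13 : c * (r / 2) ^ 2 ≤ (m k).real (ball (x i) (r / 2)) := hk (x i)
        have h14 : c / (4 * b) * μ.real (ball (x i) r) ≤ c * (r / 2) ^ 2 := by
          calc c / (4 * b) * μ.real (ball (x i) r) ≤ c / (4 * b) * (b * r ^ 2) :=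
                mul_le_mul_of_nonneg_left h12 hcb.le
            _ = c * (r / 2) ^ 2 := by
                field_simp
                ring
        calc c / (4 * b) * (h i * μ.real (ball (x i) r))
            = h i * (c / (4 * b) * μ.real (ball (x i) r)) := by ring
          _ ≤ h i * (m k).real (ball (x i) (r / 2)) :=
              mul_le_mul_of_nonneg_left (le_trans h14 h13) (hnn i)
      exact le_trans (mul_le_mul_of_nonneg_left hup hcb.le) (le_trans h11 h6)
    exact ge_of_tendsto (hlim g) hlo
  apply le_of_forall_pos_le_add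
  intro η hη
  have hM : 0 ≤ μ.real Set.univ := measureReal_nonneg
  set D : ℝ := 2 * (c / (4 * b)) * μ.real Set.univ + 1 with hD
  have hD0 : 0 < D := by positivity
  have h3 := h1 (η / D) (by positivity)
  have h4 : 2 * (c / (4 * b)) * μ.real Set.univ * (η / D) ≤ η := by
    have h5 : 2 * (c / (4 * b)) * μ.real Set.univ ≤ D := by linarith
    calc 2 * (c / (4 * b)) * μ.real Set.univ * (η / D) ≤ D * (η / D) :=
          mul_le_mul_of_nonneg_right h5 (by positivity)
      _ = η := by field_simp
  have h6 : c / (4 * b) * (∫ x, g x ∂μ - 2 * (η / D) * μ.real Set.univ) =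
      c / (4 * b) * ∫ x, g x ∂μ - 2 * (c / (4 * b)) * μ.real Set.univ * (η / D) := by ring
  rw [h6] at h3
  linarith

end D6k

open D6k in
theorem td6 (h2 : D2.{u}) : D6.{u} := by
  intro M _ _ _ _ μ a b r₀ hμ ha hb hr₀ hball c hc
  refine ⟨c / (4 * b), by positivity, ?_⟩
  intro m ν hm hν hlim hlow B hB
  have _ := hμ
  have _ := hν
  have hcb : 0 < c / (4 * b) := by positivity
  have key := cont_case h2 μ a b r₀ hμ ha hb hr₀ hball c hc m ν hm hlim hlow
  -- closed sets
  have hclosed : ∀ F : Set M, IsClosed F → ENNReal.ofReal (c / (4 * b)) * μ F ≤ ν F := by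
    intro F hF
    obtain ⟨δs, hδanti, hδpos, hδlim⟩ := exists_seq_strictAnti_tendsto (0 : ℝ)
    have t1 := tendsto_lintegral_thickenedIndicator_of_isClosed μ hF hδpos hδlim
    have t2 := tendsto_lintegral_thickenedIndicator_of_isClosed ν hF hδpos hδlim
    have t3 := ENNReal.Tendsto.const_mul (a := ENNReal.ofReal (c / (4 * b))) t1
      (Or.inr ENNReal.ofReal_ne_top)
    refine le_of_tendsto_of_tendsto t3 t2 (Eventually.of_forall ?_)
    intro k
    set G := thickenedIndicator (hδpos k) F with hG
    let g : C(M, ℝ) := ⟨fun x => (G x : ℝ), NNReal.continuous_coe.comp G.continuous⟩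
    have hg0 : ∀ x, 0 ≤ g x := fun x => NNReal.coe_nonneg _
    have hk := key g hg0
    have conv : ∀ (κ : Measure M) [IsFiniteMeasure κ],
        ∫⁻ x, (G x : ℝ≥0∞) ∂κ = ENNReal.ofReal (∫ x, g x ∂κ) := by
      intro κ _
      have hgi : Integrable (fun x => g x) κ :=
        (BoundedContinuousFunction.mkOfCompact g).integrable κ
      rw [ofReal_integral_eq_lintegral_ofReal hgi (Eventually.of_forall hg0)]
      apply lintegral_congr
      intro x
      show (G x : ℝ≥0∞) = ENNReal.ofReal (G x : ℝ)
      rw [ENNReal.ofReal_coe_nnreal]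
    show ENNReal.ofReal (c / (4 * b)) * ∫⁻ x, (G x : ℝ≥0∞) ∂μ ≤ ∫⁻ x, (G x : ℝ≥0∞) ∂ν
    rw [conv μ, conv ν, ← ENNReal.ofReal_mul hcb.le]
    exact ENNReal.ofReal_le_ofReal hk
  rw [hB.measure_eq_iSup_isClosed_of_ne_top (measure_ne_top μ B), ENNReal.mul_iSup]
  refine iSup_le ?_
  intro K
  rw [ENNReal.mul_iSup]
  refine iSup_le ?_
  intro hK
  rw [ENNReal.mul_iSup]
  refine iSup_le ?_
  intro hKc
  exact le_trans (hclosed K hKc) (measure_mono hK)

end

end Pool.Agent.H303.NY
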