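import Pool.Agent.H303.NY.StmE
import Pool.Agent.H303.NP.W1

set_option autoImplicit false
open MeasureTheory Filter Topology Complex Metric
open scoped ENNReal

namespace Pool.Agent.H303.NY

open Pool.Agent.H303.NP Pool.Agent.H303.NP.Tw1 Pub

noncomputable section

namespace TkD7

lemma spher_eq (s φ : ℝ) : spher (s, φ) = pt s φ := by
  apply ext3 <;> rfl

lemma spher_cont : Continuous spher := by
  have h : spher = GS.of ∘ (fun p : ℝ × ℝ => (⟨!₂[Real.sin p.1 * Real.cos p.2,
      Real.sin p.1 * Real.sin p.2, Real.cos p.1], (spher p).2⟩ : Metric.sphere (0 : E3) 1)) := by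
    funext p
    rfl
  rw [h]
  refine GS.of_cont.comp ?_
  refine Continuous.subtype_mk ?_ _
  fun_prop

/-- the isometric parametrization of a meridian -/
def ga (φ : ℝ) (t : Set.Icc (0 : ℝ) Real.pi) : GS := pt t φ

lemma ga_iso (φ : ℝ) : Isometry (ga φ) := by
  apply Isometry.of_dist_eq
  rintro ⟨a, ha⟩ ⟨b, hb⟩
  rw [Subtype.dist_eq, Real.dist_eq]
  unfold ga
  rcases le_total a b with h | h
  · rw [dist_merid h (by linarith [ha.1, hb.2]), abs_sub_comm, abs_of_nonneg (by linarith)]
  · rw [dist_comm, dist_merid h (by linarith [hb.1, ha.2]), abs_of_nonneg (by linarith)]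

/-- the meridian -/
def me (φ : ℝ) : Set GS := Set.range (ga φ)

lemma me_closed (φ : ℝ) : IsClosed (me φ) :=
  (isCompact_range (ga_iso φ).continuous).isClosed

lemma val_meas : Measure.map (Subtype.val : Set.Icc (0 : ℝ) Real.pi → ℝ) μH[1] =
    (volume : Measure ℝ).restrict (Set.Icc 0 Real.pi) := by
  have h : Isometry (Subtype.val : Set.Icc (0 : ℝ) Real.pi → ℝ) := isometry_subtype_coe
  rw [h.map_hausdorffMeasure (Or.inl zero_le_one), Subtype.range_coe, hausdorffMeasure_real]

lemma me_meas (φ : ℝ) : (μH[1] : Measure GS) (me φ) = ENNReal.ofReal Real.pi := by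
  have h1 := (ga_iso φ).hausdorffMeasure_image (d := 1) (Or.inl zero_le_one) Set.univ
  rw [Set.image_univ] at h1
  rw [me, h1]
  have h2 : (Measure.map (Subtype.val : Set.Icc (0 : ℝ) Real.pi → ℝ) μH[1]) Set.univ =
      ((volume : Measure ℝ).restrict (Set.Icc 0 Real.pi)) Set.univ := by rw [val_meas]
  rw [Measure.map_apply measurable_subtype_coe MeasurableSet.univ, Set.preimage_univ,
    Measure.restrict_apply MeasurableSet.univ, Set.univ_inter, Real.volume_Icc, sub_zero] at h2
  exact h2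

lemma me_int (φ : ℝ) (g : C(GS, ℝ)) :
    ∫ x in me φ, g x ∂(μH[1] : Measure GS) = ∫ θ in Set.Icc 0 Real.pi, g (pt θ φ) := by
  have hi := ga_iso φ
  have h1 := hi.map_hausdorffMeasure (d := 1) (Or.inl zero_le_one)
  rw [me, ← h1, integral_map hi.continuous.aemeasurable
    (g.continuous.aestronglyMeasurable)]
  rw [← val_meas, integral_map measurable_subtype_coe.aemeasurable]
  · rfl
  · have : Continuous fun θ : ℝ => g (pt θ φ) := by
      have h2 : (fun θ : ℝ => g (pt θ φ)) = fun θ => g (spher (θ, φ)) := by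
        funext θ
        rw [spher_eq]
      rw [h2]
      exact g.continuous.comp (spher_cont.comp (by fun_prop))
    exact this.aestronglyMeasurable

/-- the longitudes of the nodal meridians -/
def ph (L k : ℕ) : ℝ := (2 * (k : ℝ) + 1) * Real.pi / (2 * L)

lemma pt_pole {s φ φ' : ℝ} (h : Real.sin s = 0) : pt s φ = pt s φ' := by
  apply ext3
  · unfold pt
    rw [mk3_v0, mk3_v0, h, zero_mul, zero_mul]
  · unfold pt
    rw [mk3_v1, mk3_v1, h, zero_mul, zero_mul]
  · rfl

lemma pt_per {s φ φ' : ℝ} (q : ℤ) (h : φ = φ' + q * (2 * Real.pi)) : pt s φ = pt s φ' := by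
  have h1 : Real.cos φ = Real.cos φ' := by rw [h, Real.cos_add_int_mul_two_pi]
  have h2 : Real.sin φ = Real.sin φ' := by rw [h, Real.sin_add_int_mul_two_pi]
  apply ext3
  · unfold pt
    rw [mk3_v0, mk3_v0, h1]
  · unfold pt
    rw [mk3_v1, mk3_v1, h2]
  · rfl

lemma sN_le_pi (x : GS) : sN x ≤ Real.pi := Real.arccos_le_pi _

lemma nodal_eq {L : ℕ} (hL : 1 ≤ L) : nodalSet (har L) = ⋃ k : Fin (2 * L), me (ph L k) := by
  have hL0 : (0 : ℝ) < L := by exact_mod_cast hL
  have hpi := Real.pi_pos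
  ext x
  rw [Set.mem_iUnion]
  constructor
  · intro hx
    have hx' : har L x = 0 := hx
    have e := eq_pt x
    set s := sN x with hs
    set α := Complex.arg (ze x) with hα
    have hs0 : 0 ≤ s := sN_nonneg x
    have hs1 : s ≤ Real.pi := sN_le_pi x
    rw [e, har_pt] at hx'
    rcases mul_eq_zero.1 hx' with h | h
    · have h1 : Real.sin s = 0 := by
        by_contra hne
        exact pow_ne_zero _ hne h
      refine ⟨⟨0, by omega⟩, ⟨s, hs0, hs1⟩, ?_⟩
      rw [e]
      exact pt_pole h1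
    · rw [Real.cos_eq_zero_iff] at h
      obtain ⟨j, hj⟩ := h
      have h2L : (0 : ℤ) < 2 * (L : ℤ) := by positivity
      have hm0 := Int.emod_nonneg j h2L.ne'
      have hm1 := Int.emod_lt_of_pos j h2L
      have hdm := Int.emod_add_mul_ediv j (2 * (L : ℤ))
      obtain ⟨k, hk⟩ := Int.eq_ofNat_of_zero_le hm0
      have hk1 : k < 2 * L := by
        rw [hk] at hm1
        exact_mod_cast hm1
      refine ⟨⟨k, hk1⟩, ⟨s, hs0, hs1⟩, ?_⟩
      rw [e]
      symm
      apply pt_per (j / (2 * (L : ℤ)))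
      have h3 : (j : ℝ) = (k : ℝ) + 2 * (L : ℝ) * ((j / (2 * (L : ℤ)) : ℤ) : ℝ) := by
        have h4 : j = (k : ℤ) + 2 * (L : ℤ) * (j / (2 * (L : ℤ))) := by
          rw [← hk]
          exact hdm.symm
        have h5 := congrArg (fun z : ℤ => (z : ℝ)) h4
        push_cast at h5
        exact h5
      have h6 : α = (2 * (j : ℝ) + 1) * Real.pi / (2 * L) := by
        rw [eq_div_iff (by positivity)]
        linarith
      rw [h6, ph, h3]
      field_simp
      ring
  · rintro ⟨k, ⟨a, ha⟩, rfl⟩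
    show har L (pt a (ph L k)) = 0
    rw [har_pt]
    have h1 : Real.cos (L * ph L k) = 0 := by
      rw [Real.cos_eq_zero_iff]
      refine ⟨(k : ℕ), ?_⟩
      rw [ph]
      push_cast
      field_simp
    rw [h1, mul_zero]

lemma me_disj {φ φ' : ℝ} (hne : φ ≠ φ') (hclose : |φ - φ'| < 2 * Real.pi) :
    AEDisjoint (μH[1] : Measure GS) (me φ) (me φ') := by
  have hna : NullSingletonClass (μH[1] : Measure GS) :=
    Measure.nullSingletonClass_hausdorff GS one_pos
  have hsub : me φ ∩ me φ' ⊆ {pt 0 0} ∪ {pt Real.pi 0} := by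
    rintro x ⟨⟨⟨a, ha⟩, rfl⟩, ⟨⟨b, hb⟩, hab⟩⟩
    unfold ga at hab ⊢
    simp only at hab ⊢
    have hcos : Real.cos b = Real.cos a := by
      have := congrArg (fun x : GS => x.v 2) hab
      exact this
    have hba : b = a := Real.injOn_cos hb ha hcos
    subst hba
    rcases eq_or_lt_of_le ha.1 with h0 | h0
    · left
      rw [← h0]
      exact pt_pole Real.sin_zero
    rcases eq_or_lt_of_le ha.2 with h1 | h1
    · right
      rw [h1]
      exact pt_pole Real.sin_pi
    exfalso
    have hsin : 0 < Real.sin b := Real.sin_pos_of_pos_of_lt_pi h0 h1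
    have c0 : (pt b φ').v 0 = (pt b φ).v 0 := by rw [hab]
    have c1 : (pt b φ').v 1 = (pt b φ).v 1 := by rw [hab]
    unfold pt at c0 c1
    rw [mk3_v0, mk3_v0] at c0
    rw [mk3_v1, mk3_v1] at c1
    have d0 := mul_left_cancel₀ hsin.ne' c0
    have d1 := mul_left_cancel₀ hsin.ne' c1
    have h5 : Real.cos (φ - φ') = 1 := by
      rw [Real.cos_sub, d0, d1]
      have := Real.sin_sq_add_cos_sq φ
      linear_combination this
    obtain ⟨h6, h7⟩ := abs_lt.1 hclose
    have h8 := (Real.cos_eq_one_iff_of_lt_of_lt h6 h7).1 h5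
    exact hne (by linarith)
  refine measure_mono_null hsub ?_
  rw [measure_union_null_iff]
  exact ⟨measure_singleton _, measure_singleton _⟩

lemma ph_disj {L : ℕ} (hL : 1 ≤ L) :
    Pairwise (Function.onFun (AEDisjoint (μH[1] : Measure GS)) fun k : Fin (2 * L) => me (ph L k)) := by
  intro i j hij
  have hL0 : (0 : ℝ) < L := by exact_mod_cast hL
  have hpi := Real.pi_pos
  apply me_disj
  · intro h
    unfold ph at h
    rw [div_left_inj' (by positivity)] at h
    have h1 := mul_right_cancel₀ hpi.ne' h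
    apply hij
    apply Fin.ext
    have h2 : ((i : ℕ) : ℝ) = ((j : ℕ) : ℝ) := by linarith
    exact_mod_cast h2
  · have hb : ∀ k : Fin (2 * L), 0 < ph L k ∧ ph L k < 2 * Real.pi := by
      intro k
      unfold ph
      constructor
      · positivity
      · rw [div_lt_iff₀ (by positivity)]
        have h1 : ((k : ℕ) : ℝ) + 1 ≤ 2 * L := by
          have := k.2
          exact_mod_cast this
        nlinarith
    have h1 := hb i
    have h2 := hb j
    rw [abs_lt]
    constructor <;> linarith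

lemma nodal_meas {L : ℕ} (hL : 1 ≤ L) :
    (μH[1] : Measure GS) (nodalSet (har L)) = ENNReal.ofReal (2 * L * Real.pi) := by
  rw [nodal_eq hL, measure_iUnion₀ (ph_disj hL) fun k => (me_closed _).measurableSet.nullMeasurableSet]
  simp only [me_meas]
  rw [tsum_fintype, Finset.sum_const, Finset.card_univ, Fintype.card_fin, nsmul_eq_mul,
    ENNReal.ofReal_mul (by positivity), ← ENNReal.ofReal_natCast]
  push_cast
  rfl

lemma nodal_int {L : ℕ} (hL : 1 ≤ L) (g : C(GS, ℝ)) :
    ∫ x in nodalSet (har L), g x ∂(μH[1] : Measure GS) =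
      ∑ k : Fin (2 * L), ∫ θ in Set.Icc 0 Real.pi, g (pt θ (ph L k)) := by
  have hfin : (μH[1] : Measure GS) (⋃ k : Fin (2 * L), me (ph L k)) ≠ ⊤ := by
    rw [← nodal_eq hL, nodal_meas hL]
    exact ENNReal.ofReal_ne_top
  rw [nodal_eq hL, integral_iUnion_ae (fun k => (me_closed _).measurableSet.nullMeasurableSet)
    (ph_disj hL), tsum_fintype]
  · exact Finset.sum_congr rfl fun k _ => me_int _ g
  · refine IntegrableOn.of_bound (C := ‖g‖) hfin.lt_top ?_ ?_
    · exact g.continuous.aestronglyMeasurable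
    · exact ae_of_all _ fun x => g.norm_coe_le_norm x

/-- the integral over a meridian -/
def GG (g : C(GS, ℝ)) (φ : ℝ) : ℝ := ∫ θ in Set.Icc 0 Real.pi, g (pt θ φ)

lemma pt_cont2 (g : C(GS, ℝ)) : Continuous fun p : ℝ × ℝ => g (pt p.1 p.2) := by
  have h2 : (fun p : ℝ × ℝ => g (pt p.1 p.2)) = fun p => g (spher p) := by
    funext p
    rw [show p = (p.1, p.2) from rfl, spher_eq]
  rw [h2]
  exact g.continuous.comp spher_cont

lemma GG_cont (g : C(GS, ℝ)) : Continuous (GG g) := by
  have h0 : (Function.uncurry fun (φ : ℝ) (θ : ℝ) => g (pt θ φ)) =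
      (fun p : ℝ × ℝ => g (pt p.1 p.2)) ∘ Prod.swap := by
    funext p
    rfl
  have h : Continuous (Function.uncurry fun (φ : ℝ) (θ : ℝ) => g (pt θ φ)) := by
    rw [h0]
    exact (pt_cont2 g).comp continuous_swap
  exact continuous_parametric_integral_of_continuous h isCompact_Icc

lemma riemann {F : ℝ → ℝ} (hF : Continuous F) :
    Tendsto (fun l : ℕ => (1 / (2 * ((l + 1 : ℕ) : ℝ) * Real.pi)) *
      ∑ k ∈ Finset.range (2 * (l + 1)), F (ph (l + 1) k)) atTop
      (𝓝 (1 / (2 * Real.pi ^ 2) * ∫ φ in (0 : ℝ)..(2 * Real.pi), F φ)) := by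
  have hpi := Real.pi_pos
  rw [Metric.tendsto_atTop]
  intro ε hε
  have huc := (isCompact_Icc (a := (0 : ℝ)) (b := 2 * Real.pi)).uniformContinuousOn_of_continuous
    hF.continuousOn
  rw [Metric.uniformContinuousOn_iff] at huc
  obtain ⟨δ, hδ, hd⟩ := huc (ε / 2) (by positivity)
  obtain ⟨N, hN⟩ := exists_nat_gt (Real.pi / δ)
  refine ⟨N, fun l hl => ?_⟩
  set L : ℕ := l + 1 with hL
  have hL0 : (0 : ℝ) < L := by positivity
  have hLN : (N : ℝ) ≤ L := by
    have : N ≤ L := by omega
    exact_mod_cast this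
  have hLδ : Real.pi / L < δ := by
    rw [div_lt_iff₀ hL0]
    rw [div_lt_iff₀ hδ] at hN
    nlinarith
  have hint : ∀ a b : ℝ, IntervalIntegrable F volume a b := fun a b => hF.intervalIntegrable a b
  have hsum : ∑ k ∈ Finset.range (2 * L),
      ∫ φ in ((k : ℝ) * (Real.pi / L))..(((k + 1 : ℕ) : ℝ) * (Real.pi / L)), F φ =
      ∫ φ in (0 : ℝ)..(2 * Real.pi), F φ := by
    have h := intervalIntegral.sum_integral_adjacent_intervals (f := F) (μ := volume)
      (a := fun k : ℕ => (k : ℝ) * (Real.pi / L)) (n := 2 * L) (fun k _ => hint _ _)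
    rw [h]
    congr 1
    · simp
    · push_cast
      field_simp
  have hdiff : ∀ k ∈ Finset.range (2 * L),
      |(∫ φ in ((k : ℝ) * (Real.pi / L))..(((k + 1 : ℕ) : ℝ) * (Real.pi / L)), F φ) -
        (Real.pi / L) * F (ph L k)| ≤ (ε / 2) * (Real.pi / L) := by
    intro k hk
    have hk1 : (k : ℝ) + 1 ≤ 2 * L := by
      have := Finset.mem_range.1 hk
      exact_mod_cast this
    have hle : (k : ℝ) * (Real.pi / L) ≤ ((k + 1 : ℕ) : ℝ) * (Real.pi / L) := by
      push_cast
      have : 0 < Real.pi / L := by positivity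
      nlinarith
    have hw : ((k + 1 : ℕ) : ℝ) * (Real.pi / L) - (k : ℝ) * (Real.pi / L) = Real.pi / L := by
      push_cast
      ring
    have hph : ph L k = (k : ℝ) * (Real.pi / L) + (Real.pi / L) / 2 := by
      unfold ph
      field_simp
    have h1 : (Real.pi / L) * F (ph L k) =
        ∫ φ in ((k : ℝ) * (Real.pi / L))..(((k + 1 : ℕ) : ℝ) * (Real.pi / L)), F (ph L k) := by
      rw [intervalIntegral.integral_const, hw, smul_eq_mul]
    rw [h1, ← intervalIntegral.integral_sub (hint _ _) (by simp)]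
    have h2 := intervalIntegral.norm_integral_le_of_norm_le_const (f := fun φ => F φ - F (ph L k))
      (C := ε / 2) (a := (k : ℝ) * (Real.pi / L)) (b := ((k + 1 : ℕ) : ℝ) * (Real.pi / L)) ?_
    · rw [hw, abs_of_pos (by positivity : 0 < Real.pi / L)] at h2
      exact h2
    · intro x hx
      rw [Set.uIoc_of_le hle] at hx
      have hx1 := hx.1
      have hx2 := hx.2
      have hpL : 0 < Real.pi / L := by positivity
      have hk0 : (0 : ℝ) ≤ k := by positivity
      have htop : ((k + 1 : ℕ) : ℝ) * (Real.pi / L) ≤ 2 * Real.pi := by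
        push_cast
        calc ((k : ℝ) + 1) * (Real.pi / L) ≤ (2 * L) * (Real.pi / L) :=
              mul_le_mul_of_nonneg_right hk1 hpL.le
          _ = 2 * Real.pi := by field_simp
      have hbot : 0 ≤ (k : ℝ) * (Real.pi / L) := by positivity
      refine (hd x ⟨by linarith, by linarith⟩ (ph L k) ⟨?_, ?_⟩ ?_).le
      · rw [hph]
        linarith
      · rw [hph]
        linarith
      · rw [Real.dist_eq, hph, abs_lt]
        constructor <;> linarith
  have htot : |(∫ φ in (0 : ℝ)..(2 * Real.pi), F φ) -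
      (Real.pi / L) * ∑ k ∈ Finset.range (2 * L), F (ph L k)| ≤ (2 * L : ℝ) * ((ε / 2) * (Real.pi / L)) := by
    rw [← hsum, Finset.mul_sum, ← Finset.sum_sub_distrib]
    refine (Finset.abs_sum_le_sum_abs _ _).trans ?_
    refine (Finset.sum_le_sum hdiff).trans ?_
    rw [Finset.sum_const, Finset.card_range, nsmul_eq_mul]
    push_cast
    exact le_rfl
  rw [Real.dist_eq]
  have e1 : (1 / (2 * (L : ℝ) * Real.pi)) * ∑ k ∈ Finset.range (2 * L), F (ph L k) -
      1 / (2 * Real.pi ^ 2) * ∫ φ in (0 : ℝ)..(2 * Real.pi), F φ =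
      (1 / (2 * Real.pi ^ 2)) * (-((∫ φ in (0 : ℝ)..(2 * Real.pi), F φ) -
      (Real.pi / L) * ∑ k ∈ Finset.range (2 * L), F (ph L k))) := by
    field_simp
    ring
  rw [e1, abs_mul, abs_neg, abs_of_pos (by positivity : 0 < 1 / (2 * Real.pi ^ 2))]
  have e2 : (2 * L : ℝ) * ((ε / 2) * (Real.pi / L)) = ε * Real.pi := by
    field_simp
  rw [e2] at htot
  calc (1 / (2 * Real.pi ^ 2)) * |(∫ φ in (0 : ℝ)..(2 * Real.pi), F φ) -
      (Real.pi / L) * ∑ k ∈ Finset.range (2 * L), F (ph L k)|
      ≤ (1 / (2 * Real.pi ^ 2)) * (ε * Real.pi) := mul_le_mul_of_nonneg_left htot (by positivity)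
    _ = ε * (1 / (2 * Real.pi)) := by field_simp
    _ < ε * 1 := by
      apply mul_lt_mul_of_pos_left _ hε
      rw [div_lt_one (by positivity)]
      linarith [Real.pi_gt_three]
    _ = ε := mul_one ε

lemma nodal_measure_int {L : ℕ} (hL : 1 ≤ L) (g : C(GS, ℝ)) :
    ∫ x, g x ∂(nodalMeasure (har L)) =
      (1 / (2 * (L : ℝ) * Real.pi)) * ∑ k ∈ Finset.range (2 * L), GG g (ph L k) := by
  unfold nodalMeasure
  rw [integral_smul_measure, nodal_int hL, nodal_meas hL, ENNReal.toReal_inv,
    ENNReal.toReal_ofReal (by positivity), smul_eq_mul, one_div,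
    ← Fin.sum_univ_eq_sum_range (fun k => GG g (ph L k))]
  rfl

lemma mer_int (g : C(GS, ℝ)) :
    ∫ x, g x ∂merMeasure = 1 / (2 * Real.pi ^ 2) * ∫ φ in (0 : ℝ)..(2 * Real.pi), GG g φ := by
  have hpi := Real.pi_pos
  unfold merMeasure
  rw [integral_smul_measure, ENNReal.toReal_ofReal (by positivity), smul_eq_mul]
  congr 1
  rw [integral_map spher_cont.aemeasurable g.continuous.aestronglyMeasurable]
  have hcont : Continuous fun p : ℝ × ℝ => g (spher p) := g.continuous.comp spher_cont
  rw [Measure.volume_eq_prod, ← Measure.prod_restrict, integral_prod_symm]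
  · rw [intervalIntegral.integral_of_le (by positivity), ← integral_Icc_eq_integral_Ioc]
    unfold GG
    simp only [spher_eq]
  · rw [Measure.prod_restrict]
    exact hcont.continuousOn.integrableOn_compact (isCompact_Icc.prod isCompact_Icc)

lemma mer_fin : IsFiniteMeasure merMeasure := by
  unfold merMeasure
  have h : IsFiniteMeasure ((volume : Measure (ℝ × ℝ)).restrict
      (Set.Icc 0 Real.pi ×ˢ Set.Icc 0 (2 * Real.pi))) := by
    constructor
    rw [Measure.restrict_apply_univ]
    exact (isCompact_Icc.prod isCompact_Icc).measure_lt_top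
  exact Measure.smul_finite _ ENNReal.ofReal_ne_top

end TkD7

theorem td7 : D7 := by
  refine ⟨TkD7.mer_fin, fun g => ?_⟩
  have h := TkD7.riemann (TkD7.GG_cont g)
  rw [TkD7.mer_int]
  refine h.congr fun l => ?_
  rw [TkD7.nodal_measure_int (by omega)]

end

end Pool.Agent.H303.NY
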