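import Pool.Agent.H303.NY.StmE

/-!
# The density of the meridian measure is not square integrable
-/

set_option autoImplicit false
open MeasureTheory Filter Topology Complex Metric
open scoped ENNReal

namespace Pool.Agent.H303.NY

open Pool.Agent.H303.NP Pub

namespace D8T

lemma spher_cont : Continuous spher := by
  have h : Continuous (fun p : ℝ × ℝ => (!₂[Real.sin p.1 * Real.cos p.2,
      Real.sin p.1 * Real.sin p.2, Real.cos p.1] : E3)) := by
    refine (PiLp.continuous_toLp 2 _).comp (continuous_pi fun i => ?_)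
    fin_cases i
    · show Continuous fun p : ℝ × ℝ => Real.sin p.1 * Real.cos p.2
      fun_prop
    · show Continuous fun p : ℝ × ℝ => Real.sin p.1 * Real.sin p.2
      fun_prop
    · show Continuous fun p : ℝ × ℝ => Real.cos p.1
      fun_prop
  exact GS.of_cont.comp (Continuous.subtype_mk h fun p => (spher p).2)

lemma dist_spher {θ φ : ℝ} (h0 : 0 ≤ θ) (hπ : θ ≤ Real.pi) :
    dist (spher (θ, φ)) (spher (0, 0)) = θ := by
  rw [GS.dist_eq, InnerProductGeometry.angle, GS.norm_v, GS.norm_v]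
  have h1 : (inner ℝ (spher (θ, φ)).v (spher (0, 0)).v : ℝ) = Real.cos θ := by
    show (inner ℝ (!₂[Real.sin θ * Real.cos φ, Real.sin θ * Real.sin φ, Real.cos θ] : E3)
      (!₂[Real.sin 0 * Real.cos 0, Real.sin 0 * Real.sin 0, Real.cos 0] : E3) : ℝ) = _
    rw [PiLp.inner_apply, Fin.sum_univ_three]
    simp
  rw [h1, mul_one, div_one, Real.arccos_cos h0 hπ]

lemma mer_finite : IsFiniteMeasure merMeasure := by
  unfold merMeasure
  have : IsFiniteMeasure ((volume : Measure (ℝ × ℝ)).restrict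
      (Set.Icc 0 Real.pi ×ˢ Set.Icc 0 (2 * Real.pi))) := by
    constructor
    rw [Measure.restrict_apply_univ]
    exact (isCompact_Icc.prod isCompact_Icc).measure_lt_top
  exact Measure.smul_finite _ ENNReal.ofReal_ne_top

lemma mer_ball {a : ℝ} (ha : 0 < a) (haπ : a ≤ Real.pi) :
    ENNReal.ofReal (a / Real.pi) ≤ merMeasure (ball (spher (0, 0)) a) := by
  have hm : Measurable spher := spher_cont.measurable
  have hsub : Set.Ico 0 a ×ˢ Set.Icc 0 (2 * Real.pi) ⊆
      spher ⁻¹' (ball (spher (0, 0)) a) ∩ Set.Icc 0 Real.pi ×ˢ Set.Icc 0 (2 * Real.pi) := by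
    rintro ⟨θ, φ⟩ ⟨h1, h2⟩
    have h1' : 0 ≤ θ ∧ θ < a := h1
    refine ⟨?_, ⟨h1'.1, (h1'.2.le).trans haπ⟩, h2⟩
    show dist (spher (θ, φ)) (spher (0, 0)) < a
    rw [dist_spher h1'.1 ((h1'.2.le).trans haπ)]
    exact h1'.2
  unfold merMeasure
  rw [Measure.smul_apply, Measure.map_apply hm measurableSet_ball,
    Measure.restrict_apply (hm measurableSet_ball), smul_eq_mul]
  have h2 : (volume : Measure (ℝ × ℝ)) (Set.Ico 0 a ×ˢ Set.Icc 0 (2 * Real.pi)) =
      ENNReal.ofReal (a * (2 * Real.pi)) := by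
    rw [Measure.volume_eq_prod, Measure.prod_prod, Real.volume_Ico, Real.volume_Icc,
      ← ENNReal.ofReal_mul (by linarith), sub_zero, sub_zero]
  calc ENNReal.ofReal (a / Real.pi)
      = ENNReal.ofReal (1 / (2 * Real.pi ^ 2)) * ENNReal.ofReal (a * (2 * Real.pi)) := by
        rw [← ENNReal.ofReal_mul (by positivity)]
        congr 1
        field_simp
    _ ≤ _ := by
        rw [← h2]
        exact mul_le_mul_right (measure_mono hsub) _

end D8T

open D8T in
theorem td8 : D8 := by
  rintro ⟨b, r₀, hb, hr₀, hball⟩ hfin hac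
  by_contra hne
  have hfm := mer_finite
  have hwd : (μH[2] : Measure GS).withDensity (merMeasure.rnDeriv μH[2]) = merMeasure :=
    Measure.withDensity_rnDeriv_eq _ _ hac
  have hmeas : Measurable (merMeasure.rnDeriv (μH[2] : Measure GS)) :=
    Measure.measurable_rnDeriv _ _
  have hπ := Real.pi_pos
  have hm0 : 0 < min r₀ Real.pi := lt_min hr₀ hπ
  let a : ℕ → ℝ := fun n => min r₀ Real.pi / ((n : ℝ) + 1)
  have ha0 : ∀ n, 0 < a n := fun n => by positivity
  have ha1 : ∀ n, a n ≤ min r₀ Real.pi := fun n => by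
    rw [div_le_iff₀ (by positivity)]
    have : (0 : ℝ) ≤ n := Nat.cast_nonneg n
    nlinarith
  have hat : Tendsto a atTop (𝓝 0) := by
    have h := (tendsto_const_div_atTop_nhds_zero_nat (min r₀ Real.pi)).comp
      (tendsto_add_atTop_nat 1)
    refine h.congr fun n => ?_
    simp only [a, Function.comp, Nat.cast_add, Nat.cast_one]
  have hμ0 : Tendsto ((μH[2] : Measure GS) ∘ fun n => ball (spher (0, 0)) (a n)) atTop (𝓝 0) := by
    refine tendsto_of_tendsto_of_tendsto_of_le_of_le tendsto_const_nhds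
      (h := fun n => ENNReal.ofReal (b * a n ^ 2)) ?_ (fun n => zero_le) fun n =>
      hball _ _ (ha0 n) ((ha1 n).trans (min_le_left _ _))
    have h1 : Tendsto (fun n => b * a n ^ 2) atTop (𝓝 0) := by
      have := (hat.pow 2).const_mul b
      simpa using this
    have h2 := ENNReal.tendsto_ofReal h1
    rwa [ENNReal.ofReal_zero] at h2
  have hlim := tendsto_setLIntegral_zero hne hμ0
  -- lower bound
  have key : ∀ n, ENNReal.ofReal (1 / (Real.pi ^ 2 * b)) ≤
      ∫⁻ x in ball (spher (0, 0)) (a n), (merMeasure.rnDeriv μH[2] x) ^ (2 : ℝ) ∂μH[2] := by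
    intro n
    have h1 := mer_ball (ha0 n) ((ha1 n).trans (min_le_right _ _))
    rw [← hwd, withDensity_apply _ measurableSet_ball] at h1
    have h2 := ENNReal.lintegral_mul_le_Lp_mul_Lq
      ((μH[2] : Measure GS).restrict (ball (spher (0, 0)) (a n)))
      Real.HolderConjugate.two_two (f := merMeasure.rnDeriv μH[2]) (g := fun _ => 1)
      hmeas.aemeasurable aemeasurable_const
    simp only [Pi.mul_apply, mul_one, ENNReal.one_rpow, lintegral_const, one_mul,
      Measure.restrict_apply_univ] at h2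
    have h3 := hball (spher (0, 0)) (a n) (ha0 n) ((ha1 n).trans (min_le_left _ _))
    set X := ∫⁻ x in ball (spher (0, 0)) (a n), (merMeasure.rnDeriv μH[2] x) ^ (2 : ℝ) ∂μH[2]
      with hX
    have h4 : ENNReal.ofReal (a n / Real.pi) ≤ X ^ (1 / 2 : ℝ) *
        (ENNReal.ofReal (b * a n ^ 2)) ^ (1 / 2 : ℝ) := by
      refine h1.trans (h2.trans ?_)
      gcongr
    have h5 : ENNReal.ofReal (a n / Real.pi) ^ (2 : ℝ) ≤ X * ENNReal.ofReal (b * a n ^ 2) := by
      have h6 := ENNReal.rpow_le_rpow h4 (show (0 : ℝ) ≤ 2 by norm_num)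
      rw [ENNReal.mul_rpow_of_nonneg _ _ (by norm_num), ← ENNReal.rpow_mul, ← ENNReal.rpow_mul,
        one_div, inv_mul_cancel₀ (by norm_num), ENNReal.rpow_one, ENNReal.rpow_one] at h6
      exact h6
    rw [ENNReal.ofReal_rpow_of_nonneg (by have := ha0 n; positivity) (by norm_num),
      Real.rpow_two] at h5
    have h7 : (a n / Real.pi) ^ 2 = 1 / (Real.pi ^ 2 * b) * (b * a n ^ 2) := by
      field_simp
    rw [h7, ENNReal.ofReal_mul (by positivity)] at h5
    have h8 : 0 < b * a n ^ 2 := by have := ha0 n; positivity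
    exact (ENNReal.mul_le_mul_iff_left (by simpa using h8) ENNReal.ofReal_ne_top).1 h5
  have h9 : ENNReal.ofReal (1 / (Real.pi ^ 2 * b)) ≤ 0 :=
    le_of_tendsto_of_tendsto' tendsto_const_nhds hlim key
  have h10 : 0 < 1 / (Real.pi ^ 2 * b) := by positivity
  have h11 := ENNReal.ofReal_pos.2 h10
  exact absurd h9 (not_le.2 h11)

end Pool.Agent.H303.NY
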