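import Pool.Agent.H303.NY.StmF

/-!
# D9: from weak limits to domains (helper784 for helper303)
-/

set_option autoImplicit false
open MeasureTheory Filter Topology Metric
open scoped ENNReal

namespace Pool.Agent.H303.NY

open Pool.Agent.H303.NP Pool.Agent.H303.NP.Pub Pub

universe u

namespace D9x

section

variable {M : Type u} [MetricSpace M] [CompactSpace M] [MeasurableSpace M] [BorelSpace M]

omit [CompactSpace M] in
theorem prob (f : M → ℝ) (h0 : (μH[1] : Measure M) (nodalSet f) ≠ 0)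
    (h1 : (μH[1] : Measure M) (nodalSet f) ≠ ⊤) : IsProbabilityMeasure (nodalMeasure f) := by
  constructor
  unfold nodalMeasure
  rw [Measure.smul_apply, Measure.restrict_apply_univ, smul_eq_mul]
  exact ENNReal.inv_mul_cancel h0 h1

/-- compactness -/
theorem extract (f : ℕ → M → ℝ) (h : ∀ n, IsProbabilityMeasure (nodalMeasure (f n))) :
    ∃ (φ : ℕ → ℕ) (ν : Measure M), StrictMono φ ∧ IsFiniteMeasure ν ∧
      WeakLimit (fun n => nodalMeasure (f (φ n))) ν ∧
      ∀ D : Set M, ν (frontier D) = 0 →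
        Tendsto (fun n => (nodalMeasure (f (φ n)) D).toReal) atTop (𝓝 (ν D).toReal) := by
  set P : ℕ → ProbabilityMeasure M := fun n => ⟨nodalMeasure (f n), h n⟩ with hP
  obtain ⟨a, φ, hφ, ha⟩ := CompactSpace.tendsto_subseq P
  refine ⟨φ, (a : Measure M), hφ, inferInstance, ⟨inferInstance, fun g => ?_⟩, fun D hD => ?_⟩
  · have h1 := (ProbabilityMeasure.tendsto_iff_forall_integral_tendsto.mp ha)
      (BoundedContinuousFunction.mkOfCompact g)
    exact h1
  · have h2 := ProbabilityMeasure.tendsto_measure_of_null_frontier_of_tendsto' ha (E := D) hD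
    have h3 := (ENNReal.tendsto_toReal (measure_ne_top (a : Measure M) D)).comp h2
    exact h3

/-- Hoelder -/
theorem holder (μ ν : Measure M) [IsFiniteMeasure μ] [IsFiniteMeasure ν]
    (hac : ν.AbsolutelyContinuous μ) (p K : ℝ) (hp : 1 < p)
    (hK : ∫⁻ x, (ν.rnDeriv μ x) ^ p ∂μ ≤ ENNReal.ofReal K) (D : Set M) (hD : MeasurableSet D) :
    (ν D).toReal ≤ (max K 0) ^ (1 / p) * (μ D).toReal ^ (1 - 1 / p) := by
  have hp0 : 0 < p := by linarith
  have hpq : p.HolderConjugate (p / (p - 1)) := Real.HolderConjugate.conjExponent hp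
  have hq : 1 / (p / (p - 1)) = 1 - 1 / p := by
    have : p - 1 ≠ 0 := by linarith
    field_simp
  have h1p : 0 ≤ 1 - 1 / p := by
    have : 1 / p ≤ 1 := by
      rw [div_le_one hp0]; exact hp.le
    linarith
  have hν : ν D = ∫⁻ x in D, ν.rnDeriv μ x ∂μ := by
    conv_lhs => rw [← Measure.withDensity_rnDeriv_eq ν μ hac]
    rw [withDensity_apply _ hD]
  have h1 := ENNReal.lintegral_mul_le_Lp_mul_Lq (μ.restrict D) hpq
    (f := ν.rnDeriv μ) (g := fun _ => 1) (Measure.measurable_rnDeriv ν μ).aemeasurable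
    aemeasurable_const
  have h3 : ∫⁻ _x in D, ((1 : ℝ≥0∞)) ^ (p / (p - 1)) ∂μ = μ D := by
    simp
  simp only [Pi.mul_apply, mul_one] at h1
  rw [← hν, h3, hq] at h1
  have h4 : (∫⁻ x in D, (ν.rnDeriv μ x) ^ p ∂μ) ^ (1 / p) ≤ (ENNReal.ofReal (max K 0)) ^ (1 / p) := by
    refine ENNReal.rpow_le_rpow ?_ (by positivity)
    refine (setLIntegral_le_lintegral D _).trans (hK.trans ?_)
    exact ENNReal.ofReal_le_ofReal (le_max_left _ _)
  have h5 : ν D ≤ (ENNReal.ofReal (max K 0)) ^ (1 / p) * (μ D) ^ (1 - 1 / p) :=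
    h1.trans (mul_le_mul' h4 le_rfl)
  have h6 : (ENNReal.ofReal (max K 0)) ^ (1 / p) * (μ D) ^ (1 - 1 / p) ≠ ⊤ :=
    ENNReal.mul_ne_top (ENNReal.rpow_ne_top_of_nonneg (by positivity) ENNReal.ofReal_ne_top)
      (ENNReal.rpow_ne_top_of_nonneg h1p (measure_ne_top μ D))
  refine (ENNReal.toReal_mono h6 h5).trans (le_of_eq ?_)
  rw [ENNReal.toReal_mul, ← ENNReal.toReal_rpow, ← ENNReal.toReal_rpow,
    ENNReal.toReal_ofReal (le_max_right _ _)]

end

end D9x

open D9x in
theorem td9 : D9.{u} := by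
  intro M _ _ _ _ Eigen hfin hN hL
  obtain ⟨⟨c, hc, hlow⟩, hup⟩ := hL
  have hfin' := hfin
  -- a contradiction argument, common part
  have main : ∀ (D : Set M) (Q : (M → ℝ) → Prop), (μH[2] : Measure M) (frontier D) = 0 →
      (∀ Λ : ℝ, ∃ (lam : ℝ) (f : M → ℝ), 0 < lam ∧ Λ ≤ lam ∧ Eigen lam f ∧ Q f) →
      ∃ (lam : ℕ → ℝ) (f : ℕ → M → ℝ) (ν : Measure M), Tendsto lam atTop atTop ∧
        (∀ n, 0 < lam n) ∧ (∀ n, Eigen (lam n) (f n)) ∧ (∀ n, Q (f n)) ∧
        IsFiniteMeasure ν ∧ WeakLimit (fun n => nodalMeasure (f n)) ν ∧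
        Tendsto (fun n => (nodalMeasure (f n) D).toReal) atTop (𝓝 (ν D).toReal) := by
    intro D Q hD hex
    choose lam f h1 h2 h3 h4 using fun n : ℕ => hex (n : ℝ)
    have hpr : ∀ n, IsProbabilityMeasure (nodalMeasure (f n)) := fun n =>
      prob (f n) (hN _ _ (h1 n) (h3 n)).1 (hN _ _ (h1 n) (h3 n)).2.1
    obtain ⟨φ, ν, hφ, hνf, hw, hport⟩ := extract f hpr
    have hlam : Tendsto (fun n => lam (φ n)) atTop atTop := by
      have h5 : Tendsto lam atTop atTop :=
        tendsto_atTop_mono h2 tendsto_natCast_atTop_atTop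
      exact h5.comp hφ.tendsto_atTop
    obtain ⟨K, hK⟩ := hup (3 / 2) (by norm_num) (by norm_num)
    have hac := (hK (fun n => lam (φ n)) (fun n => f (φ n)) ν hlam (fun n => h1 _) (fun n => h3 _)
      hw).1
    exact ⟨fun n => lam (φ n), fun n => f (φ n), ν, hlam, fun n => h1 _, fun n => h3 _,
      fun n => h4 _, hνf, hw, hport D (hac hD)⟩
  refine ⟨⟨c, hc, ?_⟩, ?_⟩
  · intro D ε hDm hD hε
    by_contra hcon
    push Not at hcon
    obtain ⟨lam, f, ν, hl, hpos, hE, hQ, hνf, hw, ht⟩ := main D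
      (fun f => (nodalMeasure f D).toReal < c * ((μH[2] : Measure M) D).toReal - ε) hD hcon
    have h1 := hlow lam f ν hl hpos hE hw D hDm
    have h2 : (ν D).toReal ≤ c * ((μH[2] : Measure M) D).toReal - ε :=
      le_of_tendsto' ht (fun n => (hQ n).le)
    have h3 : c * ((μH[2] : Measure M) D).toReal ≤ (ν D).toReal := by
      have h4 := ENNReal.toReal_mono (measure_ne_top ν D) h1
      rwa [ENNReal.toReal_mul, ENNReal.toReal_ofReal hc.le] at h4
    linarith
  · intro p hp1 hp2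
    obtain ⟨K, hK⟩ := hup p hp1 hp2
    refine ⟨(max K 0) ^ (1 / p), ?_⟩
    intro D ε hDm hD hε
    by_contra hcon
    push Not at hcon
    obtain ⟨lam, f, ν, hl, hpos, hE, hQ, hνf, hw, ht⟩ := main D
      (fun f => (max K 0) ^ (1 / p) * ((μH[2] : Measure M) D).toReal ^ (1 - 1 / p) + ε <
        (nodalMeasure f D).toReal) hD hcon
    obtain ⟨hac, hint⟩ := hK lam f ν hl hpos hE hw
    have h1 := holder (μH[2] : Measure M) ν hac p K hp1 hint D hDm
    have h2 : (max K 0) ^ (1 / p) * ((μH[2] : Measure M) D).toReal ^ (1 - 1 / p) + ε ≤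
        (ν D).toReal := ge_of_tendsto' ht (fun n => (hQ n).le)
    linarith

end Pool.Agent.H303.NY
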