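import Pool.Agent.H303.NP.Sph

/-!
# The round sphere: the power means of the nodal lengths, statement
-/

set_option autoImplicit false
open MeasureTheory Filter Topology Complex Metric
open scoped ENNReal

namespace Pool.Agent.H303.NP

noncomputable instance : MeasurableSpace GS := borel GS

instance : BorelSpace GS := ⟨rfl⟩

end Pool.Agent.H303.NP

namespace Pool.Agent.H303.NY

open Pool.Agent.H303.NP

noncomputable section

/-- W5: lower bound of the power means of the nodal lengths of `har l` in discs of radius `C / √(l (l + 1))`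
which cover the sphere -/
def W5 : Prop := (∀ l : ℕ, 1 ≤ l → (μH[1] : Measure GS) {y | har l y = 0} < ⊤) →
  ∀ C C₂ p : ℝ, 0 < C → 0 < C₂ → 2 ≤ p → ∃ c : ℝ, 0 < c ∧ ∃ l₀ : ℕ, ∀ l : ℕ, l₀ ≤ l →
  ∀ (κ : Type) [Fintype κ] (x : κ → GS),
    (∀ y : GS, ∃ i, y ∈ Metric.ball (x i) (C / Real.sqrt (ev l))) →
    ((Fintype.card κ : ℝ) ≤ C₂ * ev l) →
    c * (if p = 2 then Real.log l else (l : ℝ) ^ (p - 2)) ≤
      (∑ i, (Real.sqrt (ev l) * ((μH[1] : Measure GS)
        {y | y ∈ Metric.ball (x i) (C / Real.sqrt (ev l)) ∧ har l y = 0}).toReal) ^ p) / Fintype.card κ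

end

end Pool.Agent.H303.NY
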