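import Pool.Agent.H303.NP.Def
import Pool.Agent.H303.NY.Sph5

/-!
# The statement: the length of the nodal sets of eigenfunctions on closed surfaces
-/

set_option autoImplicit false
open MeasureTheory Filter Topology Complex Bundle
open scoped ContDiff Manifold ENNReal

namespace Pool.Agent.H303.NY.Pub

open Pool.Agent.H303.NP Pool.Agent.H303.NP.Pub

noncomputable section

universe u v

/-- the nodal set of `f` -/
def nodalSet {M : Type u} (f : M → ℝ) : Set M := {x | f x = 0}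

/-- Yau's bounds: the length (one-dimensional Hausdorff measure) of the nodal set of an eigenfunction
`f` with eigenvalue `lam` is comparable with `√lam` -/
def YauBounds {M : Type u} [MetricSpace M] [MeasurableSpace M] [BorelSpace M]
    (Eigen : ℝ → (M → ℝ) → Prop) : Prop :=
  ∃ c A : ℝ, 0 < c ∧ 0 < A ∧ ∀ (lam : ℝ) (f : M → ℝ), 0 < lam → Eigen lam f →
    ENNReal.ofReal (c * Real.sqrt lam) ≤ (μH[1] : Measure M) (nodalSet f) ∧
    (μH[1] : Measure M) (nodalSet f) ≤ ENNReal.ofReal (A * Real.sqrt lam)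

/-- The areas of the tubular neighbourhoods of the nodal set with the radii `δ ≤ 1 / √lam` are comparable
with `δ √lam` (the area is the two-dimensional Hausdorff measure, a constant multiple of the Riemannian
area) -/
def TubeBounds {M : Type u} [MetricSpace M] [MeasurableSpace M] [BorelSpace M]
    (Eigen : ℝ → (M → ℝ) → Prop) : Prop :=
  ∃ c A : ℝ, 0 < c ∧ 0 < A ∧ ∀ (lam δ : ℝ) (f : M → ℝ), 0 < lam → Eigen lam f → 0 < δ →
    δ * Real.sqrt lam ≤ 1 →
    ENNReal.ofReal (c * δ * Real.sqrt lam) ≤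
      (μH[2] : Measure M) (Metric.thickening δ (nodalSet f)) ∧
    (μH[2] : Measure M) (Metric.thickening δ (nodalSet f)) ≤ ENNReal.ofReal (A * δ * Real.sqrt lam)

/-- the discs of radius `C / √lam` with centres `x i` form a family of multiplicity at most `C₁`, and
their number is between `lam / C₂` and `C₂ lam` -/
structure DiscFamily {M : Type u} [MetricSpace M] (lam C C₁ C₂ : ℝ) {κ : Type} [Fintype κ]
    (x : κ → M) : Prop where
  mult : ∀ y : M, ({i | y ∈ Metric.ball (x i) (C / Real.sqrt lam)}.ncard : ℝ) ≤ C₁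
  lower : C₂⁻¹ * lam ≤ Fintype.card κ
  upper : (Fintype.card κ : ℝ) ≤ C₂ * lam

/-- the mean of the `p`-th powers of `√lam` times the lengths of the parts of the nodal set in the discs
of radius `C / √lam` with centres `x i` -/
def lengthMean {M : Type u} [MetricSpace M] [MeasurableSpace M] [BorelSpace M] (f : M → ℝ)
    (lam C p : ℝ) {κ : Type} [Fintype κ] (x : κ → M) : ℝ :=
  (∑ i, (Real.sqrt lam * ((μH[1] : Measure M)
    {y | y ∈ Metric.ball (x i) (C / Real.sqrt lam) ∧ f y = 0}).toReal) ^ p) / Fintype.card κ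

/-- The bounds for the power means of the local lengths: for `0 < p < 2` the means over families of
discs are bounded; for `p ≥ 2` they are `O((1 + lam) ^ (p / 2 - 1 + ε))` for every `ε > 0`. -/
def LengthMeanBounds {M : Type u} [MetricSpace M] [MeasurableSpace M] [BorelSpace M]
    (Eigen : ℝ → (M → ℝ) → Prop) : Prop :=
  ∀ C C₁ C₂ : ℝ, 0 < C → 0 < C₁ → 0 < C₂ →
    (∀ p : ℝ, 0 < p → p < 2 → ∃ A : ℝ, ∀ (lam : ℝ) (f : M → ℝ), 0 < lam → Eigen lam f →
      ∀ (κ : Type) [Fintype κ] (x : κ → M), DiscFamily lam C C₁ C₂ x →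
        lengthMean f lam C p x ≤ A) ∧
    ∀ p ε : ℝ, 2 ≤ p → 0 < ε → ∃ A : ℝ, ∀ (lam : ℝ) (f : M → ℝ), 0 < lam → Eigen lam f →
      ∀ (κ : Type) [Fintype κ] (x : κ → M), DiscFamily lam C C₁ C₂ x →
        lengthMean f lam C p x ≤ A * (1 + lam) ^ (p / 2 - 1 + ε)

/-- The exponents are sharp on the round sphere: for the eigenfunctions `har l = Re (x₀ + i x₁) ^ l` with
eigenvalue `ev l = l (l + 1)` there are families of discs which cover the sphere, and for all such
families the mean of the squares is `≥ c log lam`, the mean of the `p`-th powers is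
`≥ c lam ^ (p / 2 - 1)`. -/
def SphereLengthSharp : Prop :=
  RiemannianSurface stU stc stρ ∧ (∀ l : ℕ, IsEigenfunction stU stc stρ (ev l) (har l)) ∧
  (∃ C C₁ C₂ : ℝ, 0 < C ∧ 0 < C₁ ∧ 0 < C₂ ∧ ∀ l : ℕ, 1 ≤ l → ∃ (n : ℕ) (x : Fin n → GS),
    DiscFamily (ev l) C C₁ C₂ x ∧ ∀ y : GS, ∃ i, y ∈ Metric.ball (x i) (C / Real.sqrt (ev l))) ∧
  ∀ C C₁ C₂ : ℝ, 0 < C → 0 < C₁ → 0 < C₂ →
    (∃ c : ℝ, 0 < c ∧ ∃ l₀ : ℕ, ∀ l : ℕ, l₀ ≤ l → ∀ (κ : Type) [Fintype κ] (x : κ → GS),
      DiscFamily (ev l) C C₁ C₂ x → (∀ y : GS, ∃ i, y ∈ Metric.ball (x i) (C / Real.sqrt (ev l))) →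
        c * Real.log (ev l) ≤ lengthMean (har l) (ev l) C 2 x) ∧
    ∀ p : ℝ, 2 ≤ p → ∃ c : ℝ, 0 < c ∧ ∃ l₀ : ℕ, ∀ l : ℕ, l₀ ≤ l → ∀ (κ : Type) [Fintype κ]
      (x : κ → GS), DiscFamily (ev l) C C₁ C₂ x →
        (∀ y : GS, ∃ i, y ∈ Metric.ball (x i) (C / Real.sqrt (ev l))) →
        c * ev l ^ (p / 2 - 1) ≤ lengthMean (har l) (ev l) C p x

end

end Pool.Agent.H303.NY.Pub
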