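import Pool.Agent.H303.NY.Def

/-!
# The statement: weak limits of the nodal measures on closed surfaces
-/

set_option autoImplicit false
open MeasureTheory Filter Topology Complex Bundle
open scoped ContDiff Manifold ENNReal

namespace Pool.Agent.H303.NY.Pub

open Pool.Agent.H303.NP Pool.Agent.H303.NP.Pub

noncomputable section

universe u v

/-- the normalized nodal measure of `f`: the length on the nodal set, divided by its total length -/
def nodalMeasure {M : Type u} [MetricSpace M] [MeasurableSpace M] [BorelSpace M] (f : M → ℝ) :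
    Measure M :=
  ((μH[1] : Measure M) (nodalSet f))⁻¹ • (μH[1] : Measure M).restrict (nodalSet f)

/-- the finite measure `ν` is the weak limit of the measures `m n` -/
def WeakLimit {M : Type u} [MetricSpace M] [MeasurableSpace M] [BorelSpace M] (m : ℕ → Measure M)
    (ν : Measure M) : Prop :=
  IsFiniteMeasure ν ∧ ∀ g : C(M, ℝ), Tendsto (fun n => ∫ x, g x ∂(m n)) atTop (𝓝 (∫ x, g x ∂ν))

/-- Bounds for the weak limits `ν` of the normalized nodal measures of eigenfunctions with eigenvalues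
tending to infinity: `ν ≥ c · area`, `ν` is absolutely continuous and its density is in `L^p` for every
`p < 2`, with bounds `c`, `K` which depend only on the surface and on `p` (the area is the two-dimensional
Hausdorff measure, a constant multiple of the Riemannian area). -/
def LimitBounds {M : Type u} [MetricSpace M] [MeasurableSpace M] [BorelSpace M]
    (Eigen : ℝ → (M → ℝ) → Prop) : Prop :=
  (∃ c : ℝ, 0 < c ∧ ∀ (lam : ℕ → ℝ) (f : ℕ → M → ℝ) (ν : Measure M), Tendsto lam atTop atTop →
    (∀ n, 0 < lam n) → (∀ n, Eigen (lam n) (f n)) → WeakLimit (fun n => nodalMeasure (f n)) ν →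
    ∀ B : Set M, MeasurableSet B → ENNReal.ofReal c * (μH[2] : Measure M) B ≤ ν B) ∧
  ∀ p : ℝ, 1 < p → p < 2 → ∃ K : ℝ, ∀ (lam : ℕ → ℝ) (f : ℕ → M → ℝ) (ν : Measure M),
    Tendsto lam atTop atTop → (∀ n, 0 < lam n) → (∀ n, Eigen (lam n) (f n)) →
    WeakLimit (fun n => nodalMeasure (f n)) ν →
    ν.AbsolutelyContinuous μH[2] ∧ ∫⁻ x, (ν.rnDeriv μH[2] x) ^ p ∂μH[2] ≤ ENNReal.ofReal K

/-- Bounds for the part of the nodal set in a domain `D` whose boundary has area zero (asymptotically,
uniformly in the eigenfunctions): it is at least `c · area D` and at most `K · (area D) ^ (1 - 1 / p)` for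
every `p < 2` -/
def DomainBounds {M : Type u} [MetricSpace M] [MeasurableSpace M] [BorelSpace M]
    (Eigen : ℝ → (M → ℝ) → Prop) : Prop :=
  (∃ c : ℝ, 0 < c ∧ ∀ (D : Set M) (ε : ℝ), MeasurableSet D → (μH[2] : Measure M) (frontier D) = 0 →
    0 < ε → ∃ Λ : ℝ, ∀ (lam : ℝ) (f : M → ℝ), 0 < lam → Λ ≤ lam → Eigen lam f →
      c * ((μH[2] : Measure M) D).toReal - ε ≤ (nodalMeasure f D).toReal) ∧
  ∀ p : ℝ, 1 < p → p < 2 → ∃ K : ℝ, ∀ (D : Set M) (ε : ℝ), MeasurableSet D →
    (μH[2] : Measure M) (frontier D) = 0 → 0 < ε →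
    ∃ Λ : ℝ, ∀ (lam : ℝ) (f : M → ℝ), 0 < lam → Λ ≤ lam → Eigen lam f →
      (nodalMeasure f D).toReal ≤ K * ((μH[2] : Measure M) D).toReal ^ (1 - 1 / p) + ε

/-- the point of the sphere with colatitude `p.1` and longitude `p.2` -/
def spher (p : ℝ × ℝ) : GS :=
  ⟨!₂[Real.sin p.1 * Real.cos p.2, Real.sin p.1 * Real.sin p.2, Real.cos p.1], by
    rw [mem_sphere_zero_iff_norm]
    have h2 : ‖(!₂[Real.sin p.1 * Real.cos p.2, Real.sin p.1 * Real.sin p.2,
        Real.cos p.1] : E3)‖ ^ 2 = 1 := by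
      rw [EuclideanSpace.norm_sq_eq, Fin.sum_univ_three]
      simp only [Real.norm_eq_abs, sq_abs]
      simp
      nlinarith [Real.sin_sq_add_cos_sq p.1, Real.sin_sq_add_cos_sq p.2]
    have h3 := norm_nonneg (!₂[Real.sin p.1 * Real.cos p.2, Real.sin p.1 * Real.sin p.2,
        Real.cos p.1] : E3)
    nlinarith⟩

/-- the probability measure `(2 π²)⁻¹ dθ dφ` in spherical coordinates, colatitude `θ ∈ [0, π]`,
longitude `φ ∈ [0, 2π]` (its density with respect to the area is proportional to `1 / sin θ`) -/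
def merMeasure : Measure GS :=
  ENNReal.ofReal (1 / (2 * Real.pi ^ 2)) • Measure.map spher
    ((volume : Measure (ℝ × ℝ)).restrict (Set.Icc 0 Real.pi ×ˢ Set.Icc 0 (2 * Real.pi)))

/-- The exponent `2` is sharp on the round sphere: the normalized nodal measures of
`har l = Re (x₀ + i x₁) ^ l` tend to `merMeasure`, and the density of this measure is not in `L²`. -/
def SphereLimit : Prop :=
  RiemannianSurface stU stc stρ ∧ (∀ l : ℕ, IsEigenfunction stU stc stρ (ev l) (har l)) ∧
  WeakLimit (fun l => nodalMeasure (har (l + 1))) merMeasure ∧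
  merMeasure.AbsolutelyContinuous μH[2] ∧
  ∫⁻ x, (merMeasure.rnDeriv μH[2] x) ^ (2 : ℝ) ∂μH[2] = ⊤

end

end Pool.Agent.H303.NY.Pub
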