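import Pool.Agent.H303.NY.StmK
import Pool.Graph.R_pool_sql_team_seeded_3997aac3.Q73.AD.YQB
import Pool.Graph.R_pool_sql_team_seeded_3997aac3.Q73.AD.YQF
import Pool.Graph.R_pool_sql_team_seeded_3997aac3.Q73.AD.YQH
import Pool.Graph.R_pool_sql_team_seeded_3997aac3.Q73.AD.TG2
import Pool.Graph.R_pool_sql_team_seeded_3997aac3.Q73.NL.T10

/-!
# Area of the tubular neighbourhoods of the nodal set: lower bound
-/

set_option autoImplicit false
open MeasureTheory Filter Topology Complex Metric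
open scoped ContDiff ENNReal

namespace Pool.Agent.H303.NY

open Pool.Agent.Q73.NL Pool.Agent.Q73.AD Pool.Agent.H303.NP

universe u v

namespace Tmkl

/-! ### A zero in the plane -/

/-- every circle around a zero contains a zero -/
lemma zero_on_circle {V h : ℂ → ℝ} {w : ℂ} {r M t : ℝ} (ht : 0 < t) (htr : t < r)
    (hM : M * r ^ 2 ≤ 1)
    (hsol : ∀ z ∈ ball w r, ContDiffAt ℝ ∞ h z ∧ 0 ≤ V z ∧ V z ≤ M ∧ lap h z + V z * h z = 0)
    (hw : h w = 0) : ∃ y ∈ ball w r, h y = 0 ∧ ‖w - y‖ = t := by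
  have hr : 0 < r := ht.trans htr
  have hM0 : 0 ≤ M := by
    have := hsol w (mem_ball_self hr)
    exact this.2.1.trans this.2.2.1
  have h1 : w ∈ circ2 t (nod (ball w r) h) := by
    refine t6f (ball w r) V h w t M isOpen_ball ⟨fun z hz => (hsol z hz).1.contDiffWithinAt,
      fun z hz => (hsol z hz).2.2.2⟩ ht (fun z hz => ⟨(hsol z hz).2.1, (hsol z hz).2.2.1⟩) ?_
      (closedBall_subset_ball htr) ⟨w, mem_ball_self ht, hw⟩
    have h2 : M * t ^ 2 ≤ M * r ^ 2 := by gcongr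
    have h3 := Real.pi_gt_three
    nlinarith
  obtain ⟨y, hy, -, -, -, hy2, -⟩ := h1
  exact ⟨y, hy.1, hy.2, hy2⟩

/-- discs around zeros near a zero -/
lemma key_planar {V h : ℂ → ℝ} {w : ℂ} {r M s : ℝ} (hr : 0 < r) (hs : 0 < s) (hsr : s ≤ r / 4)
    (hM : M * r ^ 2 ≤ 1)
    (hsol : ∀ z ∈ ball w r, ContDiffAt ℝ ∞ h z ∧ 0 ≤ V z ∧ V z ≤ M ∧ lap h z + V z * h z = 0)
    (hw : h w = 0) : ∃ E : Set ℂ, MeasurableSet E ∧ E ⊆ closedBall w r ∧
      (∀ x ∈ E, ∃ y ∈ ball w r, h y = 0 ∧ ‖x - y‖ < s) ∧ ENNReal.ofReal (r * s / 4) ≤ volume E := by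
  set n : ℕ := ⌊r / (4 * s)⌋₊ with hn
  have h4s : 0 < 4 * s := by positivity
  have hn1 : 1 ≤ r / (4 * s) := by
    rw [le_div_iff₀ h4s]
    linarith
  have hn2 : (n : ℝ) ≤ r / (4 * s) := Nat.floor_le (by positivity)
  have hn3 : 1 ≤ n := Nat.one_le_floor_iff _ |>.2 hn1
  have hn4 : r / (4 * s) < n + 1 := Nat.lt_floor_add_one _
  have hn3' : (1 : ℝ) ≤ n := by exact_mod_cast hn3
  have hnr : 4 * s * n ≤ r := by
    rw [le_div_iff₀ h4s] at hn2
    linarith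
  have hnr2 : r ≤ 8 * s * n := by
    rw [div_lt_iff₀ h4s] at hn4
    nlinarith
  have hex : ∀ k : ℕ, 1 ≤ k → k ≤ n → ∃ y ∈ ball w r, h y = 0 ∧ ‖w - y‖ = 3 * s * k := by
    intro k hk1 hk2
    have hk1' : (1 : ℝ) ≤ k := by exact_mod_cast hk1
    have hk2' : (k : ℝ) ≤ n := by exact_mod_cast hk2
    have h1 : 0 < 3 * s * k := by positivity
    have h2 : 3 * s * k < r := by
      have : 3 * s * k ≤ 3 * s * n := by gcongr
      nlinarith
    exact zero_on_circle h1 h2 hM hsol hw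
  choose! y hy using hex
  refine ⟨⋃ k ∈ Finset.Icc 1 n, ball (y k) s, ?_, ?_, ?_, ?_⟩
  · exact Finset.measurableSet_biUnion _ fun k _ => measurableSet_ball
  · intro x hx
    simp only [Set.mem_iUnion, Finset.mem_Icc] at hx
    obtain ⟨k, ⟨hk1, hk2⟩, hx⟩ := hx
    have hk2' : (k : ℝ) ≤ n := by exact_mod_cast hk2
    obtain ⟨-, -, h3⟩ := hy k hk1 hk2
    rw [mem_closedBall, dist_comm, dist_eq_norm]
    rw [mem_ball, dist_eq_norm] at hx
    have h4 : w - x = (w - y k) - (x - y k) := by ring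
    have h5 : ‖w - x‖ ≤ ‖w - y k‖ + ‖x - y k‖ := by
      rw [h4]
      exact norm_sub_le _ _
    have h6 : 3 * s * k ≤ 3 * s * n := by gcongr
    nlinarith
  · intro x hx
    simp only [Set.mem_iUnion, Finset.mem_Icc] at hx
    obtain ⟨k, ⟨hk1, hk2⟩, hx⟩ := hx
    obtain ⟨h1, h2, -⟩ := hy k hk1 hk2
    rw [mem_ball, dist_eq_norm] at hx
    exact ⟨y k, h1, h2, hx⟩
  · rw [measure_biUnion_finset]
    · have h1 : ∑ k ∈ Finset.Icc 1 n, volume (ball (y k) s) =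
          ENNReal.ofReal (n * (s ^ 2 * Real.pi)) := by
        have h2 : ∀ k ∈ Finset.Icc 1 n, volume (ball (y k) s) = ENNReal.ofReal (s ^ 2 * Real.pi) := by
          intro k _
          rw [Complex.volume_ball, ENNReal.ofReal_mul (by positivity), ENNReal.ofReal_pow hs.le]
          congr 1
          rw [← ENNReal.ofReal_coe_nnreal]
          rfl
        have h9 : ENNReal.ofReal (n * (s ^ 2 * Real.pi)) =
            (n : ℝ≥0∞) * ENNReal.ofReal (s ^ 2 * Real.pi) := by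
          rw [ENNReal.ofReal_mul (by positivity : (0 : ℝ) ≤ n), ENNReal.ofReal_natCast]
        rw [h9, Finset.sum_congr rfl h2, Finset.sum_const, Nat.card_Icc, nsmul_eq_mul,
          Nat.add_sub_cancel]
      rw [h1]
      apply ENNReal.ofReal_le_ofReal
      have h3 := Real.pi_gt_three
      have h4 : 0 ≤ (n : ℝ) * s ^ 2 := by positivity
      nlinarith
    · intro k hk j hj hkj
      rw [Finset.mem_coe, Finset.mem_Icc] at hk hj
      apply ball_disjoint_ball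
      obtain ⟨-, -, h3⟩ := hy k hk.1 hk.2
      obtain ⟨-, -, h4⟩ := hy j hj.1 hj.2
      have h5 : |‖w - y k‖ - ‖w - y j‖| ≤ dist (y k) (y j) := by
        refine (abs_norm_sub_norm_le _ _).trans ?_
        rw [dist_eq_norm, norm_sub_rev (y k) (y j)]
        apply le_of_eq
        congr 1
        ring
      refine le_trans ?_ h5
      rw [h3, h4, ← mul_sub, abs_mul, abs_of_pos (by positivity : (0 : ℝ) < 3 * s)]
      have h6 : (1 : ℝ) ≤ |(k : ℝ) - j| := by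
        have h7 : ((k : ℤ) - (j : ℤ)) ≠ 0 := by
          intro h
          apply hkj
          omega
        have h8 := Int.one_le_abs h7
        exact_mod_cast h8
      nlinarith
    · intro k _
      exact measurableSet_ball

/-! ### Transfer to the surface -/

lemma transfer {M : Type u} [MetricSpace M] {φ : ℂ → M} {ρ : ℂ → ℝ} {V : Set ℂ} {z : ℂ}
    {R c L δ₀ : ℝ} (hG : Good φ ρ V z R c L δ₀) {f : M → ℝ} {E : Set ℂ} {δ s : ℝ}
    (hE : E ⊆ closedBall z (2 * R)) (hs : s ≤ c * δ)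
    (h : ∀ x ∈ E, ∃ y ∈ closedBall z (2 * R), f (φ y) = 0 ∧ ‖x - y‖ < s) :
    φ '' E ⊆ thickening δ {x | f x = 0} := by
  rintro _ ⟨x, hx, rfl⟩
  obtain ⟨y, hy1, hy2, hy3⟩ := h x hx
  rw [mem_thickening_iff]
  refine ⟨φ y, hy2, ?_⟩
  have h1 := (hG.lip x (hE hx) y hy1).2
  have hc := hG.c_pos
  have h2 : c * dist (φ x) (φ y) < c * δ := lt_of_le_of_lt h1 (lt_of_lt_of_le hy3 hs)
  exact lt_of_mul_lt_mul_left h2 hc.le

/-- the equation in a good piece -/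
lemma sol_piece {M : Type u} {ι : Type v} [MetricSpace M] {U : ι → Set ℂ} {φ : ι → ℂ → M}
    {ρ : ι → ℂ → ℝ} {i : ι} {z : ℂ} {R c L δ₀ lam : ℝ} {f : M → ℝ}
    (hG : Good (φ i) (ρ i) (U i) z R c L δ₀) (hpos : ∀ i, ∀ z ∈ U i, 0 < ρ i z) (hlam : 0 < lam)
    (hf : Eig U φ ρ lam f) {y : ℂ} (hy : y ∈ closedBall z (2 * R)) :
    ContDiffAt ℝ ∞ (fun w => f (φ i w)) y ∧ 0 ≤ lam * ρ i y ∧ lam * ρ i y ≤ lam * L ∧
      lap (fun w => f (φ i w)) y + lam * ρ i y * f (φ i y) = 0 := by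
  have hyU : y ∈ U i := hG.sub hy
  have hnh : U i ∈ 𝓝 y := hG.opn.mem_nhds hyU
  have h1 := (hG.bd y hy).1
  have h2 := hpos i y hyU
  refine ⟨(hf i).1.contDiffAt hnh, by positivity, ?_, (hf i).2 y hyU⟩
  have h3 := (le_abs_self _).trans h1
  gcongr

/-! ### Bounded eigenvalues -/

lemma bounded (M : Type u) (ι : Type v) [MetricSpace M] [CompactSpace M] [ConnectedSpace M]
    [MeasurableSpace M] [BorelSpace M] (U : ι → Set ℂ) (φ : ι → ℂ → M) (ρ : ι → ℂ → ℝ)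
    (hA : Atl U φ ρ) (hpos : ∀ i, ∀ z ∈ U i, 0 < ρ i z) (Λ : ℝ) (hΛ : 0 < Λ) : ∃ c : ℝ, 0 < c ∧
    ∀ (lam δ : ℝ) (f : M → ℝ), 0 < lam → lam ≤ Λ → Eig U φ ρ lam f → 0 < δ →
      δ * Real.sqrt lam ≤ 1 →
      ENNReal.ofReal (c * δ * Real.sqrt lam) ≤ (μH[2] : Measure M) (thickening δ {x | f x = 0}) := by
  obtain ⟨n, i, z, R, c, L, δ₀, hG, hcov⟩ := tg2.{u, v} M ι U φ ρ hA
  obtain ⟨a₀, -⟩ := hcov (Classical.arbitrary M)
  have hc := (hG a₀).c_pos
  have hL := (hG a₀).L_ge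
  have hL0 : 0 < L := by linarith
  obtain ⟨Rm, hRm, hRm2⟩ := YQH.exists_lb R (fun a => (hG a).R_pos)
  obtain ⟨c', hc', hF⟩ := (tqf.{u, v} M).1 c hc
  obtain ⟨r, hr⟩ : ∃ r : ℝ, r = min Rm (Real.sqrt (1 / (Λ * L))) := ⟨_, rfl⟩
  have hr0 : 0 < r := by rw [hr]; positivity
  have hrR : r ≤ Rm := by rw [hr]; exact min_le_left _ _
  have hrL : Λ * L * r ^ 2 ≤ 1 := by
    have h3 : r ≤ Real.sqrt (1 / (Λ * L)) := by rw [hr]; exact min_le_right _ _
    have h4 : r ^ 2 ≤ 1 / (Λ * L) := by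
      calc r ^ 2 ≤ Real.sqrt (1 / (Λ * L)) ^ 2 := pow_le_pow_left₀ hr0.le h3 2
        _ = 1 / (Λ * L) := Real.sq_sqrt (by positivity)
    calc Λ * L * r ^ 2 ≤ Λ * L * (1 / (Λ * L)) := by gcongr
      _ = 1 := by field_simp
  have hsΛ : 0 < Real.sqrt Λ := Real.sqrt_pos.2 hΛ
  refine ⟨min (c' * r * c / (4 * Real.sqrt Λ)) (c' * r ^ 2 / 16), by positivity, ?_⟩
  intro lam δ f hlam hlamΛ hf hδ hδ1
  obtain ⟨x, hx⟩ := YQH.has_zero hA hpos hlam hf
  obtain ⟨a, w, hw, hwx⟩ := hcov x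
  have hRa := hRm2 a
  have hfw : f (φ (i a) w) = 0 := by rw [hwx]; exact hx
  have hwr : closedBall w r ⊆ closedBall (z a) (2 * R a) := by
    refine closedBall_subset_closedBall' ?_
    have : dist w (z a) ≤ R a := hw
    linarith
  obtain ⟨s, hs⟩ : ∃ s : ℝ, s = min (c * δ) (r / 4) := ⟨_, rfl⟩
  have hs0 : 0 < s := by rw [hs]; positivity
  have hs1 : s ≤ c * δ := by rw [hs]; exact min_le_left _ _
  have hs2 : s ≤ r / 4 := by rw [hs]; exact min_le_right _ _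
  have hMr : lam * L * r ^ 2 ≤ 1 := by
    refine le_trans ?_ hrL
    gcongr
  obtain ⟨E, -, hE2, hE3, hE4⟩ := key_planar (V := fun y => lam * ρ (i a) y)
    (h := fun y => f (φ (i a) y)) (w := w) hr0 hs0 hs2 hMr
    (fun y hy => sol_piece (hG a) hpos hlam hf (hwr (ball_subset_closedBall hy))) hfw
  have hEs : E ⊆ closedBall (z a) (2 * R a) := hE2.trans hwr
  have h1 := transfer (hG a) (f := f) hEs hs1 (fun x hx => by
    obtain ⟨y, hy1, hy2, hy3⟩ := hE3 x hx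
    exact ⟨y, hwr (ball_subset_closedBall hy1), hy2, hy3⟩)
  have h2 := hF (φ (i a)) E (fun w hw w' hw' => ((hG a).lip w (hEs hw) w' (hEs hw')).1)
  refine le_trans ?_ (h2.trans (measure_mono h1))
  refine le_trans ?_ (mul_le_mul_right hE4 (ENNReal.ofReal c'))
  rw [← ENNReal.ofReal_mul hc'.le]
  apply ENNReal.ofReal_le_ofReal
  have hsl : Real.sqrt lam ≤ Real.sqrt Λ := Real.sqrt_le_sqrt hlamΛ
  have hsl0 : 0 ≤ Real.sqrt lam := Real.sqrt_nonneg _
  rcases le_total (c * δ) (r / 4) with h | h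
  · have hs' : s = c * δ := by rw [hs]; exact min_eq_left h
    rw [hs']
    calc min (c' * r * c / (4 * Real.sqrt Λ)) (c' * r ^ 2 / 16) * δ * Real.sqrt lam
        ≤ (c' * r * c / (4 * Real.sqrt Λ)) * δ * Real.sqrt Λ := by
          gcongr
          exact min_le_left _ _
      _ = c' * (r * (c * δ) / 4) := by field_simp
  · have hs' : s = r / 4 := by rw [hs]; exact min_eq_right h
    rw [hs', mul_assoc]
    calc min (c' * r * c / (4 * Real.sqrt Λ)) (c' * r ^ 2 / 16) * (δ * Real.sqrt lam)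
        ≤ (c' * r ^ 2 / 16) * 1 := by
          gcongr
          exact min_le_right _ _
      _ = c' * (r * (r / 4) / 4) := by ring

/-! ### Large eigenvalues -/

lemma large (M : Type u) (ι : Type v) [MetricSpace M] [CompactSpace M] [ConnectedSpace M]
    [MeasurableSpace M] [BorelSpace M] (U : ι → Set ℂ) (φ : ι → ℂ → M) (ρ : ι → ℂ → ℝ)
    (hA : Atl U φ ρ) (hpos : ∀ i, ∀ z ∈ U i, 0 < ρ i z) : ∃ c lam₀ : ℝ, 0 < c ∧ 0 < lam₀ ∧
    ∀ (lam δ : ℝ) (f : M → ℝ), lam₀ ≤ lam → Eig U φ ρ lam f → 0 < δ →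
      δ * Real.sqrt lam ≤ 1 →
      ENNReal.ofReal (c * δ * Real.sqrt lam) ≤ (μH[2] : Measure M) (thickening δ {x | f x = 0}) := by
  obtain ⟨n, i', z', R', c, L, δ₀, hG', hcov⟩ := tg2.{u, v} M ι U φ ρ hA
  obtain ⟨a₀, -⟩ := hcov (Classical.arbitrary M)
  obtain ⟨i, hi⟩ : ∃ i, i = i' a₀ := ⟨_, rfl⟩
  obtain ⟨z, hz⟩ : ∃ z, z = z' a₀ := ⟨_, rfl⟩
  obtain ⟨R, hR⟩ : ∃ R, R = R' a₀ := ⟨_, rfl⟩
  have hG : Good (φ i) (ρ i) (U i) z R c L δ₀ := by rw [hi, hz, hR]; exact hG' a₀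
  have hc := hG.c_pos
  have hL := hG.L_ge
  have hR0 := hG.R_pos
  have hL0 : 0 < L := by linarith
  obtain ⟨c', hc', hF⟩ := (tqf.{u, v} M).1 c hc
  -- lower bound of the density
  have hcomp : IsCompact (closedBall z (2 * R)) := isCompact_closedBall _ _
  have hcont : ContinuousOn (ρ i) (closedBall z (2 * R)) := hG.smooth.continuousOn.mono hG.sub
  obtain ⟨y₀, hy₀, hmin⟩ := hcomp.exists_isMinOn ⟨z, mem_closedBall_self (by positivity)⟩ hcont
  obtain ⟨ρ₀, hρ₀⟩ : ∃ ρ₀, ρ₀ = ρ i y₀ := ⟨_, rfl⟩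
  have hρ₀0 : 0 < ρ₀ := by rw [hρ₀]; exact hpos i y₀ (hG.sub hy₀)
  have hρmin : ∀ y ∈ closedBall z (2 * R), ρ₀ ≤ ρ i y := fun y hy => by rw [hρ₀]; exact hmin hy
  obtain ⟨K, hK⟩ : ∃ K : ℝ, K = Real.pi / Real.sqrt ρ₀ := ⟨_, rfl⟩
  have hK0 : 0 < K := by rw [hK]; positivity
  have hK2 : ρ₀ * K ^ 2 = Real.pi ^ 2 := by
    rw [hK, div_pow, Real.sq_sqrt hρ₀0.le]
    field_simp
  obtain ⟨r₁, hr₁⟩ : ∃ r₁ : ℝ, r₁ = min K (Real.sqrt (1 / L)) := ⟨_, rfl⟩
  have hr₁0 : 0 < r₁ := by rw [hr₁]; positivity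
  have hr₁K : r₁ ≤ K := by rw [hr₁]; exact min_le_left _ _
  have hr₁L : L * r₁ ^ 2 ≤ 1 := by
    have h3 : r₁ ≤ Real.sqrt (1 / L) := by rw [hr₁]; exact min_le_right _ _
    have h4 : r₁ ^ 2 ≤ 1 / L := by
      calc r₁ ^ 2 ≤ Real.sqrt (1 / L) ^ 2 := pow_le_pow_left₀ hr₁0.le h3 2
        _ = 1 / L := Real.sq_sqrt (by positivity)
    calc L * r₁ ^ 2 ≤ L * (1 / L) := by gcongr
      _ = 1 := by field_simp
  refine ⟨c' * (R / (40 * K)) ^ 2 * r₁ * min c (r₁ / 4) / 4, (20 * K / R) ^ 2, by positivity,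
    by positivity, ?_⟩
  intro lam δ f hlam hf hδ hδ1
  have hlam0 : 0 < lam := lt_of_lt_of_le (by positivity) hlam
  obtain ⟨σ, hσ⟩ : ∃ σ : ℝ, σ = Real.sqrt lam := ⟨_, rfl⟩
  have hσ0 : 0 < σ := by rw [hσ]; exact Real.sqrt_pos.2 hlam0
  have hσ2 : σ ^ 2 = lam := by rw [hσ]; exact Real.sq_sqrt hlam0.le
  have hσK : 20 * K / R ≤ σ := by
    rw [hσ]
    exact Real.le_sqrt_of_sq_le hlam
  have hσK' : 20 * K ≤ σ * R := by
    rw [div_le_iff₀ hR0] at hσK
    exact hσK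
  rw [← hσ] at hδ1 ⊢
  -- the number of squares
  obtain ⟨m, hm⟩ : ∃ m : ℕ, m = ⌊R * σ / (20 * K)⌋₊ := ⟨_, rfl⟩
  have h20 : 0 < 20 * K := by positivity
  have hm1 : 1 ≤ R * σ / (20 * K) := by
    rw [le_div_iff₀ h20]
    linarith
  have hm2 : (m : ℝ) ≤ R * σ / (20 * K) := by rw [hm]; exact Nat.floor_le (by positivity)
  have hm4 : R * σ / (20 * K) < m + 1 := by rw [hm]; exact Nat.lt_floor_add_one _
  have hm3 : (1 : ℝ) ≤ m := by
    have : 1 ≤ m := by rw [hm]; exact Nat.one_le_floor_iff _ |>.2 hm1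
    exact_mod_cast this
  have hm5 : R / (40 * K) * σ ≤ m := by
    have h1 : R * σ / (20 * K) ≤ 2 * m := by linarith
    have h2 : R / (40 * K) * σ = (R * σ / (20 * K)) / 2 := by field_simp; norm_num
    rw [h2]
    linarith
  -- the centres
  obtain ⟨g, hg⟩ : ∃ g : ℝ, g = 10 * K / σ := ⟨_, rfl⟩
  have hg0 : 0 < g := by rw [hg]; positivity
  have hgm : g * m ≤ R / 2 := by
    rw [hg]
    calc 10 * K / σ * m ≤ 10 * K / σ * (R * σ / (20 * K)) := by gcongr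
      _ = R / 2 := by field_simp; norm_num
  have hgR : 2 * g ≤ R := by nlinarith
  obtain ⟨η, hη⟩ : ∃ η : ℝ, η = K / σ := ⟨_, rfl⟩
  have hη0 : 0 < η := by rw [hη]; positivity
  have hgη : g = 10 * η := by rw [hg, hη]; ring
  have hρη : Real.pi ^ 2 < 2 * ρ₀ * lam * η ^ 2 := by
    have h1 : 2 * ρ₀ * lam * η ^ 2 = 2 * (ρ₀ * K ^ 2) := by
      rw [hη, ← hσ2]
      field_simp
    rw [h1, hK2]
    have := Real.pi_pos
    nlinarith [sq_nonneg Real.pi, mul_pos this this]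
  set P : Fin m × Fin m → ℂ := fun q => z + ⟨g * (q.1 : ℕ), g * (q.2 : ℕ)⟩ with hP
  have hPre : ∀ q : Fin m × Fin m, (P q).re = z.re + g * (q.1 : ℕ) := fun q => rfl
  have hPim : ∀ q : Fin m × Fin m, (P q).im = z.im + g * (q.2 : ℕ) := fun q => rfl
  have hnear : ∀ q : Fin m × Fin m, ∀ y : ℂ, |(y - P q).re| ≤ 2 * η → |(y - P q).im| ≤ 2 * η →
      y ∈ closedBall z (2 * R) := by
    intro q y h1 h2
    rw [mem_closedBall, dist_eq_norm]
    have hq1 : ((q.1 : ℕ) : ℝ) ≤ m := by exact_mod_cast q.1.2.le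
    have hq2 : ((q.2 : ℕ) : ℝ) ≤ m := by exact_mod_cast q.2.2.le
    have hq1' : (0 : ℝ) ≤ ((q.1 : ℕ) : ℝ) := Nat.cast_nonneg _
    have hq2' : (0 : ℝ) ≤ ((q.2 : ℕ) : ℝ) := Nat.cast_nonneg _
    have e1 : g * (q.1 : ℕ) ≤ R / 2 := le_trans (by gcongr) hgm
    have e2 : g * (q.2 : ℕ) ≤ R / 2 := le_trans (by gcongr) hgm
    have e3 : 0 ≤ g * ((q.1 : ℕ) : ℝ) := by positivity
    have e4 : 0 ≤ g * ((q.2 : ℕ) : ℝ) := by positivity
    rw [Complex.sub_re, hPre, abs_le] at h1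
    rw [Complex.sub_im, hPim, abs_le] at h2
    have h3 : |(y - z).re| ≤ R / 2 + 2 * η := by
      rw [Complex.sub_re, abs_le]
      constructor <;> linarith
    have h4 : |(y - z).im| ≤ R / 2 + 2 * η := by
      rw [Complex.sub_im, abs_le]
      constructor <;> linarith
    refine (Complex.norm_le_abs_re_add_abs_im _).trans ?_
    linarith
  have hzero : ∀ q : Fin m × Fin m, ∃ w : ℂ, |(w - P q).re| ≤ η ∧ |(w - P q).im| ≤ η ∧
      f (φ i w) = 0 := by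
    intro q
    refine tqb lam ρ₀ η (P q) (ρ i) (fun w => f (φ i w)) hlam0 hρ₀0 hη0 hρη ?_
    intro y h1 h2
    have hy : y ∈ closedBall z (2 * R) := hnear q y (by linarith) (by linarith)
    obtain ⟨e1, -, -, e4⟩ := sol_piece hG hpos hlam0 hf hy
    exact ⟨e1, hρmin y hy, e4⟩
  choose w hw1 hw2 hw3 using hzero
  obtain ⟨r, hr⟩ : ∃ r : ℝ, r = r₁ / σ := ⟨_, rfl⟩
  have hr0 : 0 < r := by rw [hr]; positivity
  have hrη : r ≤ η := by rw [hr, hη]; gcongr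
  have hMr : lam * L * r ^ 2 ≤ 1 := by
    have h1 : lam * L * r ^ 2 = L * r₁ ^ 2 := by
      rw [hr, ← hσ2]
      field_simp
    rw [h1]
    exact hr₁L
  obtain ⟨s, hs⟩ : ∃ s : ℝ, s = min (c * δ) (r / 4) := ⟨_, rfl⟩
  have hs0 : 0 < s := by rw [hs]; positivity
  have hs1 : s ≤ c * δ := by rw [hs]; exact min_le_left _ _
  have hs2 : s ≤ r / 4 := by rw [hs]; exact min_le_right _ _
  have hs3 : min c (r₁ / 4) * δ ≤ s := by
    rw [hs]
    refine le_min ?_ ?_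
    · gcongr
      exact min_le_left _ _
    · have h1 : δ ≤ 1 / σ := by
        rw [le_div_iff₀ hσ0]
        exact hδ1
      calc min c (r₁ / 4) * δ ≤ r₁ / 4 * (1 / σ) := by
            gcongr
            exact min_le_right _ _
        _ = r / 4 := by rw [hr]; ring
  have hwin : ∀ q : Fin m × Fin m, ∀ y ∈ closedBall (w q) r,
      |(y - P q).re| ≤ 2 * η ∧ |(y - P q).im| ≤ 2 * η := by
    intro q y hy
    rw [mem_closedBall, dist_eq_norm] at hy
    have h1 := (Complex.abs_re_le_norm (y - w q)).trans (hy.trans hrη)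
    have h2 := (Complex.abs_im_le_norm (y - w q)).trans (hy.trans hrη)
    have h3 := hw1 q
    have h4 := hw2 q
    rw [Complex.sub_re, abs_le] at h1 h3
    rw [Complex.sub_im, abs_le] at h2 h4
    rw [Complex.sub_re, Complex.sub_im, abs_le, abs_le]
    refine ⟨⟨?_, ?_⟩, ⟨?_, ?_⟩⟩ <;> linarith
  have hwr : ∀ q : Fin m × Fin m, closedBall (w q) r ⊆ closedBall z (2 * R) := by
    intro q y hy
    obtain ⟨h1, h2⟩ := hwin q y hy
    exact hnear q y h1 h2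
  have hkey := fun q : Fin m × Fin m => key_planar (V := fun y => lam * ρ i y)
    (h := fun y => f (φ i y)) (w := w q) hr0 hs0 hs2 hMr
    (fun y hy => sol_piece hG hpos hlam0 hf (hwr q (ball_subset_closedBall hy))) (hw3 q)
  choose E hE1 hE2 hE3 hE4 using hkey
  have hEs : (⋃ q ∈ (Finset.univ : Finset (Fin m × Fin m)), E q) ⊆ closedBall z (2 * R) := by
    intro x hx
    simp only [Set.mem_iUnion] at hx
    obtain ⟨q, -, hx⟩ := hx
    exact hwr q (hE2 q hx)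
  have h1 := transfer hG (f := f) hEs hs1 (fun x hx => by
    simp only [Set.mem_iUnion] at hx
    obtain ⟨q, -, hx⟩ := hx
    obtain ⟨y, hy1, hy2, hy3⟩ := hE3 q x hx
    exact ⟨y, hwr q (ball_subset_closedBall hy1), hy2, hy3⟩)
  have h2 := hF (φ i) _ (fun w hw w' hw' => (hG.lip w (hEs hw) w' (hEs hw')).1)
  have hdisj : (↑(Finset.univ : Finset (Fin m × Fin m)) : Set (Fin m × Fin m)).PairwiseDisjoint E := by
    intro q _ q' _ hqq
    rw [Function.onFun, Set.disjoint_left]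
    intro x hx hx'
    obtain ⟨e1, e2⟩ := hwin q x (hE2 q hx)
    obtain ⟨e3, e4⟩ := hwin q' x (hE2 q' hx')
    rw [Complex.sub_re, hPre, abs_le] at e1 e3
    rw [Complex.sub_im, hPim, abs_le] at e2 e4
    have key : ∀ a b : ℕ, |g * (a : ℝ) - g * b| ≤ 4 * η → a = b := by
      intro a b hab
      by_contra hne
      have h7 : ((a : ℤ) - (b : ℤ)) ≠ 0 := by
        intro h
        apply hne
        omega
      have h8 := Int.one_le_abs h7
      have h9 : (1 : ℝ) ≤ |(a : ℝ) - b| := by exact_mod_cast h8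
      rw [← mul_sub, abs_mul, abs_of_pos hg0] at hab
      nlinarith
    apply hqq
    refine Prod.ext (Fin.ext (key _ _ ?_)) (Fin.ext (key _ _ ?_))
    · rw [abs_le]
      constructor <;> linarith
    · rw [abs_le]
      constructor <;> linarith
  have h3 : ENNReal.ofReal (m ^ 2 * (r * s / 4)) ≤
      volume (⋃ q ∈ (Finset.univ : Finset (Fin m × Fin m)), E q) := by
    rw [measure_biUnion_finset hdisj (fun q _ => hE1 q)]
    have h4 : ENNReal.ofReal ((m : ℝ) ^ 2 * (r * s / 4)) =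
        ∑ q ∈ (Finset.univ : Finset (Fin m × Fin m)), ENNReal.ofReal (r * s / 4) := by
      rw [Finset.sum_const, Finset.card_univ, Fintype.card_prod, Fintype.card_fin, nsmul_eq_mul,
        ENNReal.ofReal_mul (by positivity), ENNReal.ofReal_pow (by positivity),
        ENNReal.ofReal_natCast, Nat.cast_mul, sq]
    rw [h4]
    exact Finset.sum_le_sum fun q _ => hE4 q
  refine le_trans ?_ (h2.trans (measure_mono h1))
  refine le_trans ?_ (mul_le_mul_right h3 (ENNReal.ofReal c'))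
  rw [← ENNReal.ofReal_mul hc'.le]
  apply ENNReal.ofReal_le_ofReal
  calc c' * (R / (40 * K)) ^ 2 * r₁ * min c (r₁ / 4) / 4 * δ * σ
      = c' * ((R / (40 * K) * σ) ^ 2 * ((r₁ / σ) * (min c (r₁ / 4) * δ) / 4)) := by
        field_simp
    _ ≤ c' * ((m : ℝ) ^ 2 * (r * s / 4)) := by
        rw [← hr]
        gcongr

end Tmkl

/-- MKL -/
theorem tmkl : MKL.{u, v} := by
  intro M ι _ _ _ _ _ U φ ρ hA hpos
  obtain ⟨c₂, lam₀, hc₂, hlam₀, h2⟩ := Tmkl.large M ι U φ ρ hA hpos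
  obtain ⟨c₁, hc₁, h1⟩ := Tmkl.bounded M ι U φ ρ hA hpos lam₀ hlam₀
  refine ⟨min c₁ c₂, lt_min hc₁ hc₂, ?_⟩
  intro lam δ f hlam hf _ hδ hδ1
  have hs := Real.sqrt_nonneg lam
  rcases le_total lam lam₀ with h | h
  · refine le_trans (ENNReal.ofReal_le_ofReal ?_) (h1 lam δ f hlam h hf hδ hδ1)
    gcongr
    exact min_le_left _ _
  · refine le_trans (ENNReal.ofReal_le_ofReal ?_) (h2 lam δ f h hf hδ hδ1)
    gcongr
    exact min_le_right _ _

end Pool.Agent.H303.NY
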