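import Pool.Agent.H303.NY.StmK
import Pool.Graph.R_pool_sql_team_seeded_3997aac3.Q73.AD.TG2
import Pool.Graph.R_pool_sql_team_seeded_3997aac3.Q73.AD.YQF

/-!
# MKU: the area of the neighbourhoods of the nodal set, upper bound
-/

set_option autoImplicit false
open MeasureTheory Filter Topology Complex Metric
open scoped ContDiff ENNReal NNReal

namespace Pool.Agent.H303.NY

open Pool.Agent.Q73.NL Pool.Agent.Q73.AD Pool.Agent.H303.NP

universe u v

namespace TKU

theorem haus_le (E : Set ℂ) : (μH[2] : Measure ℂ) E ≤ 4 * volume E := by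
  have h1 := (qf_lip'.lipschitzOnWith
    (s := (Complex.measurableEquivPi : ℂ → (Fin 2 → ℝ)) '' E)).hausdorffMeasure_image_le
    (d := 2) (by norm_num)
  rw [← Set.image_comp] at h1
  have h2 : (Complex.measurableEquivPi.symm : (Fin 2 → ℝ) → ℂ) ∘
      (Complex.measurableEquivPi : ℂ → (Fin 2 → ℝ)) = id := by
    funext z; simp
  rw [h2, Set.image_id, qf_haus, qf_vol] at h1
  refine h1.trans (le_of_eq ?_)
  congr 1
  rw [show (2 : ℝ) = ((2 : ℕ) : ℝ) by norm_num, ENNReal.rpow_natCast]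
  norm_num

theorem haus_ball (w : ℂ) {t : ℝ} (ht : 0 ≤ t) :
    (μH[2] : Measure ℂ) (ball w t) ≤ ENNReal.ofReal (4 * Real.pi * t ^ 2) := by
  refine (haus_le _).trans (le_of_eq ?_)
  rw [Complex.volume_ball, ENNReal.ofReal_mul (by positivity), ENNReal.ofReal_pow ht,
    ENNReal.ofReal_mul (by norm_num)]
  have h1 : ENNReal.ofReal 4 = 4 := by norm_num
  have h2 : ENNReal.ofReal Real.pi = (NNReal.pi : ℝ≥0∞) := by
    rw [← NNReal.coe_real_pi, ENNReal.ofReal_coe_nnreal]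
  rw [h1, h2]
  ring

section
variable {M : Type u} [MetricSpace M] [MeasurableSpace M] [BorelSpace M]

theorem expand {c : ℝ} (hc : 0 < c) (φ : ℂ → M) (E : Set ℂ)
    (hE : ∀ w ∈ E, ∀ w' ∈ E, c * ‖w - w'‖ ≤ dist (φ w) (φ w')) :
    ENNReal.ofReal c * (μH[1] : Measure ℂ) E ≤ (μH[1] : Measure M) (φ '' E) := by
  have hinj : Set.InjOn φ E := by
    intro w hw w' hw' h
    have h1 := hE w hw w' hw'
    rw [h, dist_self] at h1
    have h2 : ‖w - w'‖ ≤ 0 := by
      by_contra hcon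
      push Not at hcon
      have := mul_pos hc hcon
      linarith
    exact sub_eq_zero.1 (norm_le_zero_iff.1 h2)
  have himg : (Function.invFunOn φ E) '' (φ '' E) = E := by
    ext z
    constructor
    · rintro ⟨_, ⟨w, hw, rfl⟩, rfl⟩
      exact Function.invFunOn_mem ⟨w, hw, rfl⟩
    · intro hz
      refine ⟨φ z, ⟨z, hz, rfl⟩, ?_⟩
      exact hinj.leftInvOn_invFunOn hz
  have hlip : LipschitzOnWith (Real.toNNReal c)⁻¹ (Function.invFunOn φ E) (φ '' E) := by
    refine LipschitzOnWith.of_dist_le_mul ?_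
    rintro _ ⟨w, hw, rfl⟩ _ ⟨w', hw', rfl⟩
    rw [hinj.leftInvOn_invFunOn hw, hinj.leftInvOn_invFunOn hw', dist_eq_norm,
      NNReal.coe_inv, Real.coe_toNNReal c hc.le, inv_mul_eq_div, le_div_iff₀ hc, mul_comm]
    exact hE w hw w' hw'
  have h1 := hlip.hausdorffMeasure_image_le (d := 1) (by norm_num)
  rw [himg] at h1
  have hc0 : (Real.toNNReal c : ℝ≥0) ≠ 0 := by
    rw [Ne, Real.toNNReal_eq_zero]; linarith
  have h3 : (((Real.toNNReal c)⁻¹ : ℝ≥0) : ℝ≥0∞) = (ENNReal.ofReal c)⁻¹ := by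
    rw [ENNReal.coe_inv hc0]; rfl
  rw [h3, ENNReal.rpow_one] at h1
  have hofne : ENNReal.ofReal c ≠ 0 := by
    rw [Ne, ENNReal.ofReal_eq_zero]; linarith
  calc ENNReal.ofReal c * μH[1] E ≤
      ENNReal.ofReal c * ((ENNReal.ofReal c)⁻¹ * μH[1] (φ '' E)) := mul_le_mul_right h1 _
    _ = μH[1] (φ '' E) := by
        rw [← mul_assoc, ENNReal.mul_inv_cancel hofne ENNReal.ofReal_ne_top, one_mul]

/-- the area of small discs -/
theorem disc {φ : ℂ → M} {ρ : ℂ → ℝ} {V : Set ℂ} {z : ℂ} {R c L δ₀ : ℝ}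
    (h : Good φ ρ V z R c L δ₀) {x : M} (hx : x ∈ φ '' closedBall z R) {s : ℝ} (hs : 0 < s)
    (hs' : s ≤ δ₀) :
    (μH[2] : Measure M) (ball x s) ≤ ENNReal.ofReal ((c⁻¹) ^ 2 * (4 * Real.pi * (s / c) ^ 2)) := by
  obtain ⟨w, hw, rfl⟩ := hx
  have hc := h.c_pos
  have hR := h.R_pos
  have hw2 : w ∈ closedBall z (2 * R) := closedBall_subset_closedBall (by linarith) hw
  have hw3 : w ∈ closedBall z (3 * R / 2) := closedBall_subset_closedBall (by linarith) hw
  have hsub : ball (φ w) s ⊆ φ '' (closedBall z (2 * R) ∩ ball w (s / c)) := by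
    intro y hy
    obtain ⟨w', hw', rfl⟩ := h.surj w hw3 (ball_subset_ball hs' hy)
    refine ⟨w', ⟨hw', ?_⟩, rfl⟩
    rw [mem_ball, dist_eq_norm, lt_div_iff₀ hc, mul_comm]
    exact ((h.lip w' hw' w hw2).1).trans_lt hy
  have hlip : LipschitzOnWith (Real.toNNReal c)⁻¹ φ (closedBall z (2 * R) ∩ ball w (s / c)) := by
    refine LipschitzOnWith.of_dist_le_mul ?_
    intro w1 hw1 w2 hw2
    rw [NNReal.coe_inv, Real.coe_toNNReal c hc.le, inv_mul_eq_div, le_div_iff₀ hc, mul_comm,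
      dist_eq_norm w1 w2]
    exact (h.lip w1 hw1.1 w2 hw2.1).2
  have h1 := hlip.hausdorffMeasure_image_le (d := 2) (by norm_num)
  have hc0 : (Real.toNNReal c : ℝ≥0) ≠ 0 := by
    rw [Ne, Real.toNNReal_eq_zero]; linarith
  have h3 : (((Real.toNNReal c)⁻¹ : ℝ≥0) : ℝ≥0∞) = ENNReal.ofReal c⁻¹ := by
    rw [ENNReal.coe_inv hc0, ENNReal.ofReal_inv_of_pos hc]; rfl
  rw [h3, ENNReal.rpow_two] at h1
  rw [ENNReal.ofReal_mul (by positivity), ENNReal.ofReal_pow (by positivity)]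
  refine (measure_mono hsub).trans (h1.trans ?_)
  refine mul_le_mul_right ?_ _
  exact (measure_mono Set.inter_subset_right).trans (haus_ball w (div_pos hs hc).le)

/-- the length of the nodal set near a zero -/
theorem low (h10 : N10) {φ : ℂ → M} {ρ : ℂ → ℝ} {V : Set ℂ} {z : ℂ} {R c L δ₀ : ℝ}
    (h : Good φ ρ V z R c L δ₀) (hρ : ∀ w ∈ V, 0 < ρ w) {f : M → ℝ} {lam : ℝ} (hlam : 0 < lam)
    (hsm : ContDiffOn ℝ ∞ (fun w => f (φ w)) V)
    (heq : ∀ w ∈ V, lap (fun w => f (φ w)) w + lam * ρ w * f (φ w) = 0)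
    {x : M} (hx : x ∈ φ '' closedBall z R) (hfx : f x = 0) {r δ : ℝ} (hr : 0 < r) (hrR : r ≤ R)
    (hrL : lam * L * r ^ 2 ≤ 1) (hrδ : r ≤ c * (δ / 2)) :
    ENNReal.ofReal (c * (r / 2)) ≤ (μH[1] : Measure M) (ball x (δ / 2) ∩ {y | f y = 0}) := by
  obtain ⟨w, hw, rfl⟩ := hx
  have hc := h.c_pos
  have hsub : closedBall w r ⊆ closedBall z (2 * R) := by
    intro y hy
    rw [mem_closedBall] at *
    have := dist_triangle y w z
    linarith
  have h1 := h10 lam L r w ρ (fun w => f (φ w)) hlam hr (by linarith [h.L_ge]) hrL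
    (fun y hy => by
      have hyV : y ∈ V := h.sub (hsub hy)
      exact ⟨(hsm y hyV).contDiffAt (h.opn.mem_nhds hyV), (hρ y hyV).le,
        (le_abs_self _).trans (h.bd y (hsub hy)).1, heq y hyV⟩) hfx
  have h2 := expand hc φ (nod (ball w r) (fun w => f (φ w))) (fun a ha b hb =>
    (h.lip a (hsub (ball_subset_closedBall ha.1)) b (hsub (ball_subset_closedBall hb.1))).1)
  rw [ENNReal.ofReal_mul hc.le]
  refine (mul_le_mul_right h1 _).trans (h2.trans (measure_mono ?_))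
  rintro _ ⟨y, ⟨hy, hy0⟩, rfl⟩
  refine ⟨?_, hy0⟩
  have h3 := (h.lip y (hsub (ball_subset_closedBall hy)) w (hsub (mem_closedBall_self hr.le))).2
  rw [mem_ball, dist_eq_norm] at hy
  rw [mem_ball]
  have h4 : c * dist (φ y) (φ w) < c * (δ / 2) := by linarith
  exact lt_of_mul_lt_mul_left h4 hc.le

end

/-- a maximal separated set -/
theorem exists_sep {M : Type u} [MetricSpace M] (Z : Set M) (δ K : ℝ) (hδ : 0 < δ)
    (hK : ∀ S : Finset M, (S : Set M) ⊆ Z → (∀ x ∈ S, ∀ y ∈ S, x ≠ y → δ ≤ dist x y) →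
      (S.card : ℝ) ≤ K) :
    ∃ S : Finset M, (S : Set M) ⊆ Z ∧ (∀ x ∈ S, ∀ y ∈ S, x ≠ y → δ ≤ dist x y) ∧
      ∀ y ∈ Z, ∃ x ∈ S, dist y x < δ := by
  classical
  let P : ℕ → Prop := fun n => ∃ S : Finset M, (S : Set M) ⊆ Z ∧
    (∀ x ∈ S, ∀ y ∈ S, x ≠ y → δ ≤ dist x y) ∧ S.card = n
  have hP0 : P 0 := ⟨∅, by simp, by simp, rfl⟩
  have hPb : ∀ n, P n → n ≤ ⌊K⌋₊ := by
    rintro n ⟨S, h1, h2, rfl⟩
    exact Nat.le_floor (hK S h1 h2)
  obtain ⟨S, h1, h2, h3⟩ := Nat.findGreatest_spec (P := P) (Nat.zero_le ⌊K⌋₊) hP0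
  refine ⟨S, h1, h2, ?_⟩
  intro y hy
  by_contra hcon
  push Not at hcon
  have hyS : y ∉ S := by
    intro hyS
    have := hcon y hyS
    rw [dist_self] at this
    linarith
  have h4 : P (S.card + 1) := by
    refine ⟨insert y S, ?_, ?_, Finset.card_insert_of_notMem hyS⟩
    · rw [Finset.coe_insert]
      exact Set.insert_subset hy h1
    · intro a ha b hb hab
      rcases Finset.mem_insert.1 ha with rfl | ha1
      · rcases Finset.mem_insert.1 hb with rfl | hb1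
        · exact absurd rfl hab
        · exact hcon b hb1
      · rcases Finset.mem_insert.1 hb with rfl | hb1
        · rw [dist_comm]; exact hcon a ha1
        · exact h2 a ha1 b hb1 hab
  have h5 := Nat.le_findGreatest (P := P) (hPb _ h4) h4
  omega

end TKU

open TKU in
/-- MKU -/
theorem tmku (hY : YU.{u, v}) (hg : GAP.{u, v}) (h10 : N10) : MKU.{u, v} := by
  classical
  intro M ι _ _ _ _ _ U φ ρ hA hρ
  obtain ⟨A₁, hA₁, hY'⟩ := hY M ι U φ ρ hA hρ
  obtain ⟨g, hg0, hg'⟩ := hg M ι U φ ρ hA hρ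
  obtain ⟨n, i, z, R, c, L, δ₀, hG, hcov⟩ := tg2.{u, v} M ι U φ ρ hA
  have hfin : μH[2] (Set.univ : Set M) < ⊤ := (tqf.{u, v} M).2 ι U φ ρ hA
  -- there is a piece
  obtain ⟨x₀⟩ : Nonempty M := inferInstance
  obtain ⟨a₀, -⟩ := hcov x₀
  have hc := (hG a₀).c_pos
  have hc1 := (hG a₀).c_le
  have hL := (hG a₀).L_ge
  have hδ₀ := (hG a₀).δ_pos
  obtain ⟨R₀, hR₀, -, hR₀'⟩ := TG2.pos_lb (Finset.univ : Finset (Fin n)) R
    (fun a _ => (hG a).R_pos)
  have hsg : 0 < Real.sqrt g := Real.sqrt_pos.2 hg0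
  obtain ⟨c₁, hc₁⟩ : ∃ c₁ : ℝ, c₁ = min (c / 2) (min (1 / L) (R₀ * Real.sqrt g)) := ⟨_, rfl⟩
  have hL0 : 0 < L := by linarith
  have hc₁0 : 0 < c₁ := by
    rw [hc₁]
    exact lt_min (by linarith) (lt_min (by positivity) (by positivity))
  have hc₁a : c₁ ≤ c / 2 := by rw [hc₁]; exact min_le_left _ _
  have hc₁b : c₁ ≤ 1 / L := by rw [hc₁]; exact (min_le_right _ _).trans (min_le_left _ _)
  have hc₁c : c₁ ≤ R₀ * Real.sqrt g := by
    rw [hc₁]; exact (min_le_right _ _).trans (min_le_right _ _)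
  obtain ⟨W, hW⟩ : ∃ W : ℝ, W = (μH[2] (Set.univ : Set M)).toReal := ⟨_, rfl⟩
  have hW0 : 0 ≤ W := by rw [hW]; exact ENNReal.toReal_nonneg
  have hWe : μH[2] (Set.univ : Set M) = ENNReal.ofReal W := by
    rw [hW, ENNReal.ofReal_toReal hfin.ne]
  obtain ⟨A₂, hA₂⟩ : ∃ A₂ : ℝ, A₂ = 64 * Real.pi * A₁ / (c ^ 5 * c₁) := ⟨_, rfl⟩
  obtain ⟨A₃, hA₃⟩ : ∃ A₃ : ℝ, A₃ = W / (δ₀ / 2 * Real.sqrt g) := ⟨_, rfl⟩
  have hA₂0 : 0 < A₂ := by rw [hA₂]; positivity
  have hA₃0 : 0 ≤ A₃ := by rw [hA₃]; positivity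
  refine ⟨A₂ + A₃, by linarith, ?_⟩
  intro lam δ f hlam hf hf0 hδ hδl
  have hsl : 0 < Real.sqrt lam := Real.sqrt_pos.2 hlam
  have hgl : Real.sqrt g ≤ Real.sqrt lam := Real.sqrt_le_sqrt (hg' lam f hlam hf hf0)
  have hYf := hY' lam f hlam hf hf0
  rcases le_or_gt (2 * δ) δ₀ with hsmall | hlarge
  swap
  · -- large radius
    refine (measure_mono (Set.subset_univ _)).trans ?_
    rw [hWe]
    apply ENNReal.ofReal_le_ofReal
    have h1 : W = A₃ * (δ₀ / 2 * Real.sqrt g) := by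
      rw [hA₃, div_mul_cancel₀ _ (by positivity)]
    have h2 : δ₀ / 2 * Real.sqrt g ≤ δ * Real.sqrt lam :=
      mul_le_mul (by linarith) hgl hsg.le hδ.le
    calc W = A₃ * (δ₀ / 2 * Real.sqrt g) := h1
      _ ≤ A₃ * (δ * Real.sqrt lam) := mul_le_mul_of_nonneg_left h2 hA₃0
      _ ≤ (A₂ + A₃) * (δ * Real.sqrt lam) :=
          mul_le_mul_of_nonneg_right (by linarith) (by positivity)
      _ = (A₂ + A₃) * δ * Real.sqrt lam := by ring
  · -- small radius
    obtain ⟨r, hr⟩ : ∃ r : ℝ, r = c₁ * δ := ⟨_, rfl⟩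
    have hr0 : 0 < r := by rw [hr]; positivity
    have hrR : ∀ a, r ≤ R a := by
      intro a
      have h1 : r ≤ R₀ * (δ * Real.sqrt g) := by
        rw [hr]
        calc c₁ * δ ≤ R₀ * Real.sqrt g * δ := mul_le_mul_of_nonneg_right hc₁c hδ.le
          _ = R₀ * (δ * Real.sqrt g) := by ring
      have h2 : δ * Real.sqrt g ≤ 1 := (mul_le_mul_of_nonneg_left hgl hδ.le).trans hδl
      have h3 : R₀ * (δ * Real.sqrt g) ≤ R₀ * 1 := mul_le_mul_of_nonneg_left h2 hR₀.le
      have h4 := hR₀' a (Finset.mem_univ a)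
      linarith
    have hrL : lam * L * r ^ 2 ≤ 1 := by
      have h1 : lam * L * r ^ 2 = (δ * Real.sqrt lam) ^ 2 * (L * c₁ ^ 2) := by
        rw [hr, mul_pow, mul_pow, Real.sq_sqrt hlam.le]
        ring
      have h2 : (δ * Real.sqrt lam) ^ 2 ≤ 1 := pow_le_one₀ (by positivity) hδl
      have h3 : L * c₁ ≤ 1 := by
        calc L * c₁ ≤ L * (1 / L) := mul_le_mul_of_nonneg_left hc₁b hL0.le
          _ = 1 := by field_simp
      have h4 : c₁ ≤ 1 := by linarith
      have h5 : L * c₁ ^ 2 ≤ 1 := by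
        have : L * c₁ ^ 2 = (L * c₁) * c₁ := by ring
        rw [this]
        exact mul_le_one₀ h3 hc₁0.le h4
      rw [h1]
      exact mul_le_one₀ h2 (by positivity) h5
    have hrδ : r ≤ c * (δ / 2) := by
      rw [hr]
      calc c₁ * δ ≤ c / 2 * δ := mul_le_mul_of_nonneg_right hc₁a hδ.le
        _ = c * (δ / 2) := by ring
    have hlow : ∀ x : M, f x = 0 →
        ENNReal.ofReal (c * (r / 2)) ≤ (μH[1] : Measure M) (ball x (δ / 2) ∩ {y | f y = 0}) := by
      intro x hx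
      obtain ⟨a, ha⟩ := hcov x
      exact low h10 (hG a) (hρ (i a)) hlam (hf (i a)).1 (hf (i a)).2 ha hx hr0 (hrR a) hrL hrδ
    -- the number of separated points
    have hcard : ∀ S : Finset M, (S : Set M) ⊆ {y | f y = 0} →
        (∀ x ∈ S, ∀ y ∈ S, x ≠ y → δ ≤ dist x y) →
        (S.card : ℝ) ≤ A₁ * Real.sqrt lam / (c * (r / 2)) := by
      intro S hS1 hS2
      have h1 : (μH[1] : Measure M).restrict {y | f y = 0} (⋃ x ∈ S, ball x (δ / 2)) =
          ∑ x ∈ S, (μH[1] : Measure M).restrict {y | f y = 0} (ball x (δ / 2)) := by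
        refine measure_biUnion_finset ?_ (fun x _ => measurableSet_ball)
        intro x hx y hy hxy
        refine ball_disjoint_ball ?_
        have := hS2 x hx y hy hxy
        linarith
      have h2 : ∀ x ∈ S, ENNReal.ofReal (c * (r / 2)) ≤
          (μH[1] : Measure M).restrict {y | f y = 0} (ball x (δ / 2)) := by
        intro x hx
        rw [Measure.restrict_apply measurableSet_ball]
        exact hlow x (hS1 hx)
      have h3 : (S.card : ℝ≥0∞) * ENNReal.ofReal (c * (r / 2)) ≤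
          ENNReal.ofReal (A₁ * Real.sqrt lam) := by
        calc (S.card : ℝ≥0∞) * ENNReal.ofReal (c * (r / 2))
            = ∑ x ∈ S, ENNReal.ofReal (c * (r / 2)) := by
              rw [Finset.sum_const, nsmul_eq_mul]
          _ ≤ ∑ x ∈ S, (μH[1] : Measure M).restrict {y | f y = 0} (ball x (δ / 2)) :=
              Finset.sum_le_sum h2
          _ = (μH[1] : Measure M).restrict {y | f y = 0} (⋃ x ∈ S, ball x (δ / 2)) := h1.symm
          _ ≤ (μH[1] : Measure M).restrict {y | f y = 0} Set.univ :=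
              measure_mono (Set.subset_univ _)
          _ = (μH[1] : Measure M) {y | f y = 0} := Measure.restrict_apply_univ _
          _ ≤ ENNReal.ofReal (A₁ * Real.sqrt lam) := hYf
      have h4 : (S.card : ℝ≥0∞) = ENNReal.ofReal (S.card : ℝ) := (ENNReal.ofReal_natCast _).symm
      rw [h4, ← ENNReal.ofReal_mul (Nat.cast_nonneg _),
        ENNReal.ofReal_le_ofReal_iff (by positivity)] at h3
      rw [le_div_iff₀ (by positivity)]
      exact h3
    obtain ⟨S, hS1, hS2, hS3⟩ := exists_sep {y | f y = 0} δ _ hδ hcard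
    have hSc := hcard S hS1 hS2
    have hsub : thickening δ {y | f y = 0} ⊆ ⋃ x ∈ S, ball x (2 * δ) := by
      intro y hy
      obtain ⟨y', hy', hyy⟩ := mem_thickening_iff.1 hy
      obtain ⟨x, hx, hxy⟩ := hS3 y' hy'
      rw [Set.mem_iUnion₂]
      refine ⟨x, hx, ?_⟩
      rw [mem_ball]
      have := dist_triangle y y' x
      linarith
    have hdisc : ∀ x : M, (μH[2] : Measure M) (ball x (2 * δ)) ≤
        ENNReal.ofReal ((c⁻¹) ^ 2 * (4 * Real.pi * (2 * δ / c) ^ 2)) := by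
      intro x
      obtain ⟨a, ha⟩ := hcov x
      exact disc (hG a) ha (by linarith) hsmall
    calc (μH[2] : Measure M) (thickening δ {y | f y = 0})
        ≤ (μH[2] : Measure M) (⋃ x ∈ S, ball x (2 * δ)) := measure_mono hsub
      _ ≤ ∑ x ∈ S, (μH[2] : Measure M) (ball x (2 * δ)) := measure_biUnion_finset_le _ _
      _ ≤ ∑ x ∈ S, ENNReal.ofReal ((c⁻¹) ^ 2 * (4 * Real.pi * (2 * δ / c) ^ 2)) :=
          Finset.sum_le_sum fun x _ => hdisc x
      _ = ENNReal.ofReal ((S.card : ℝ) * ((c⁻¹) ^ 2 * (4 * Real.pi * (2 * δ / c) ^ 2))) := by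
          rw [Finset.sum_const, nsmul_eq_mul, ENNReal.ofReal_mul (Nat.cast_nonneg _),
            ENNReal.ofReal_natCast]
      _ ≤ ENNReal.ofReal ((A₂ + A₃) * δ * Real.sqrt lam) := by
          apply ENNReal.ofReal_le_ofReal
          calc (S.card : ℝ) * ((c⁻¹) ^ 2 * (4 * Real.pi * (2 * δ / c) ^ 2))
              ≤ A₁ * Real.sqrt lam / (c * (r / 2)) *
                ((c⁻¹) ^ 2 * (4 * Real.pi * (2 * δ / c) ^ 2)) :=
                mul_le_mul_of_nonneg_right hSc (by positivity)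
            _ = 32 * Real.pi * A₁ / (c ^ 5 * c₁) * δ * Real.sqrt lam := by
                rw [hr]
                field_simp
                ring
            _ ≤ (A₂ + A₃) * δ * Real.sqrt lam := by
                have h1 : 32 * Real.pi * A₁ / (c ^ 5 * c₁) ≤ A₂ + A₃ := by
                  have h2 : 32 * Real.pi * A₁ / (c ^ 5 * c₁) ≤ A₂ := by
                    rw [hA₂]
                    apply div_le_div_of_nonneg_right _ (by positivity)
                    have : 0 < Real.pi * A₁ := by positivity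
                    linarith
                  linarith
                exact mul_le_mul_of_nonneg_right (mul_le_mul_of_nonneg_right h1 hδ.le) hsl.le

end Pool.Agent.H303.NY
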