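import Pool.Agent.H303.NY.Stm

/-!
# N1: `log (q + ε)` is almost subharmonic

`q = |∇u|² + u²`, `Δu + V u = 0`, `|V|, |∇V| ≤ 1`. All derivatives are computed at the point, the final
inequality is a real polynomial inequality in their values.
-/

set_option autoImplicit false
open MeasureTheory Filter Topology Complex Metric
open scoped ContDiff ENNReal

namespace Pool.Agent.H303.NY

open Pool.Agent.Q73.NL Pool.Agent.Q73.AD Pool.Agent.H303.NP

namespace T1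

/-- directional derivatives are smooth -/
theorem cdv {f : ℂ → ℝ} {z : ℂ} (hf : ContDiffAt ℝ ∞ f z) (v : ℂ) :
    ContDiffAt ℝ ∞ (fun z => fderiv ℝ f z v) z :=
  (hf.fderiv_right (m := ∞) (by simp)).clm_apply contDiffAt_const

theorem fmul {f g : ℂ → ℝ} {z : ℂ} (v : ℂ) (hf : DifferentiableAt ℝ f z)
    (hg : DifferentiableAt ℝ g z) :
    fderiv ℝ (fun z => f z * g z) z v = fderiv ℝ f z v * g z + f z * fderiv ℝ g z v := by
  have h1 := (hf.hasFDerivAt.mul hg.hasFDerivAt).fderiv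
  have h2 : fderiv ℝ (fun z => f z * g z) z = _ := h1
  rw [h2]
  simp only [add_apply, smul_apply, smul_eq_mul]
  ring

/-- the first derivatives of `q` -/
theorem dq {u : ℂ → ℝ} {z : ℂ} (hu : ContDiffAt ℝ ∞ u z) (v : ℂ) :
    fderiv ℝ (en u) z v = 2 * (dx u z * fderiv ℝ (dx u) z v + dy u z * fderiv ℝ (dy u) z v +
      u z * fderiv ℝ u z v) := by
  have da : DifferentiableAt ℝ (dx u) z := (cdv hu 1).differentiableAt (by simp)
  have db : DifferentiableAt ℝ (dy u) z := (cdv hu I).differentiableAt (by simp)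
  have du : DifferentiableAt ℝ u z := hu.differentiableAt (by simp)
  have e : en u = fun z => (dx u z * dx u z + dy u z * dy u z) + u z * u z := by
    funext z
    simp only [en]
    ring
  have e1 := fderiv_fun_add (x := z) (f := fun z => dx u z * dx u z + dy u z * dy u z)
    (g := fun z => u z * u z) ((da.mul da).add (db.mul db)) (du.mul du)
  have e2 := fderiv_fun_add (x := z) (f := fun z => dx u z * dx u z)
    (g := fun z => dy u z * dy u z) (da.mul da) (db.mul db)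
  rw [e, e1, e2]
  simp only [add_apply]
  rw [fmul v da da, fmul v db db, fmul v du du]
  ring

theorem cq {u : ℂ → ℝ} {z : ℂ} (hu : ContDiffAt ℝ ∞ u z) : ContDiffAt ℝ ∞ (en u) z := by
  have ha : ContDiffAt ℝ ∞ (dx u) z := cdv hu 1
  have hb : ContDiffAt ℝ ∞ (dy u) z := cdv hu I
  exact ((ha.pow 2).add (hb.pow 2)).add (hu.pow 2)

/-- the second derivatives of `q` -/
theorem ddq {u : ℂ → ℝ} {z : ℂ} (hue : ∀ᶠ w in 𝓝 z, ContDiffAt ℝ ∞ u w) (v : ℂ) :
    fderiv ℝ (fun z => fderiv ℝ (en u) z v) z v =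
      2 * (fderiv ℝ (dx u) z v ^ 2 + dx u z * fderiv ℝ (fun z => fderiv ℝ (dx u) z v) z v +
        fderiv ℝ (dy u) z v ^ 2 + dy u z * fderiv ℝ (fun z => fderiv ℝ (dy u) z v) z v +
        fderiv ℝ u z v ^ 2 + u z * fderiv ℝ (fun z => fderiv ℝ u z v) z v) := by
  have hu : ContDiffAt ℝ ∞ u z := hue.self_of_nhds
  have ha : ContDiffAt ℝ ∞ (dx u) z := cdv hu 1
  have hb : ContDiffAt ℝ ∞ (dy u) z := cdv hu I
  have da : DifferentiableAt ℝ (dx u) z := ha.differentiableAt (by simp)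
  have db : DifferentiableAt ℝ (dy u) z := hb.differentiableAt (by simp)
  have du : DifferentiableAt ℝ u z := hu.differentiableAt (by simp)
  have dav : DifferentiableAt ℝ (fun z => fderiv ℝ (dx u) z v) z :=
    (cdv ha v).differentiableAt (by simp)
  have dbv : DifferentiableAt ℝ (fun z => fderiv ℝ (dy u) z v) z :=
    (cdv hb v).differentiableAt (by simp)
  have duv : DifferentiableAt ℝ (fun z => fderiv ℝ u z v) z :=
    (cdv hu v).differentiableAt (by simp)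
  have h1 : (fun z => fderiv ℝ (en u) z v) =ᶠ[𝓝 z] fun z =>
      ((dx u z * fderiv ℝ (dx u) z v + dy u z * fderiv ℝ (dy u) z v) +
      u z * fderiv ℝ u z v) + ((dx u z * fderiv ℝ (dx u) z v + dy u z * fderiv ℝ (dy u) z v) +
      u z * fderiv ℝ u z v) := by
    filter_upwards [hue] with w hw
    rw [dq hw v]
    ring
  have e1 := fderiv_fun_add (x := z)
    (f := fun z => dx u z * fderiv ℝ (dx u) z v + dy u z * fderiv ℝ (dy u) z v)
    (g := fun z => u z * fderiv ℝ u z v) ((da.mul dav).add (db.mul dbv)) (du.mul duv)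
  have e2 := fderiv_fun_add (x := z) (f := fun z => dx u z * fderiv ℝ (dx u) z v)
    (g := fun z => dy u z * fderiv ℝ (dy u) z v) (da.mul dav) (db.mul dbv)
  have d3 : DifferentiableAt ℝ (fun z =>
      ((dx u z * fderiv ℝ (dx u) z v + dy u z * fderiv ℝ (dy u) z v) +
      u z * fderiv ℝ u z v)) z := ((da.mul dav).add (db.mul dbv)).add (du.mul duv)
  have e3 := fderiv_fun_add (x := z) d3 d3
  rw [h1.fderiv_eq, e3, e1, e2]
  simp only [add_apply]
  rw [fmul v da dav, fmul v db dbv, fmul v du duv]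
  ring

/-- first derivatives of a logarithm -/
theorem dlog {q : ℂ → ℝ} {z : ℂ} (v : ℂ) (ε : ℝ) (hq : DifferentiableAt ℝ q z)
    (h0 : 0 < q z + ε) :
    fderiv ℝ (fun z => Real.log (q z + ε)) z v = fderiv ℝ q z v * (q z + ε)⁻¹ := by
  have h1 : HasFDerivAt (fun z => q z + ε) (fderiv ℝ q z) z := hq.hasFDerivAt.add_const ε
  have h2 := (h1.log h0.ne').fderiv
  rw [h2]
  simp only [smul_apply, smul_eq_mul]
  ring

theorem dinv {q : ℂ → ℝ} {z : ℂ} (v : ℂ) (ε : ℝ) (hq : DifferentiableAt ℝ q z)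
    (h0 : 0 < q z + ε) :
    fderiv ℝ (fun z => (q z + ε)⁻¹) z v = -(fderiv ℝ q z v * ((q z + ε) ^ 2)⁻¹) := by
  have h1 : HasFDerivAt (fun z => q z + ε) (fderiv ℝ q z) z := hq.hasFDerivAt.add_const ε
  have h2 := (hasDerivAt_inv h0.ne').comp_hasFDerivAt z h1
  have h3 : fderiv ℝ (fun z => (q z + ε)⁻¹) z = _ := h2.fderiv
  rw [h3]
  simp only [smul_apply, smul_eq_mul]
  ring

/-- second derivatives of a logarithm -/
theorem ddlog {q : ℂ → ℝ} {z : ℂ} (v : ℂ) (ε : ℝ) (hqe : ∀ᶠ w in 𝓝 z, ContDiffAt ℝ ∞ q w)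
    (h0 : 0 < q z + ε) :
    fderiv ℝ (fun z => fderiv ℝ (fun z => Real.log (q z + ε)) z v) z v =
      fderiv ℝ (fun z => fderiv ℝ q z v) z v * (q z + ε)⁻¹ -
        fderiv ℝ q z v ^ 2 * ((q z + ε) ^ 2)⁻¹ := by
  have hq : ContDiffAt ℝ ∞ q z := hqe.self_of_nhds
  have dq : DifferentiableAt ℝ q z := hq.differentiableAt (by simp)
  have h1 : (fun z => fderiv ℝ (fun z => Real.log (q z + ε)) z v) =ᶠ[𝓝 z]
      fun z => fderiv ℝ q z v * (q z + ε)⁻¹ := by
    have h2 : ∀ᶠ w in 𝓝 z, 0 < q w + ε :=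
      (hq.continuousAt.add continuousAt_const).eventually (lt_mem_nhds h0)
    filter_upwards [hqe, h2] with w hw hw2
    exact dlog v ε (hw.differentiableAt (by simp)) hw2
  have dqv : DifferentiableAt ℝ (fun z => fderiv ℝ q z v) z :=
    (cdv hq v).differentiableAt (by simp)
  have di : DifferentiableAt ℝ (fun z => (q z + ε)⁻¹) z := (dq.add_const ε).inv h0.ne'
  rw [h1.fderiv_eq, fmul v dqv di, dinv v ε dq h0]
  ring

/-- symmetry of the second derivatives -/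
theorem symm {f : ℂ → ℝ} {z : ℂ} (hf : ContDiffAt ℝ ∞ f z) : dx (dy f) z = dy (dx f) z := by
  have hd : DifferentiableAt ℝ (fderiv ℝ f) z :=
    (hf.fderiv_right (m := ∞) (by simp)).differentiableAt (by simp)
  have e1 : ∀ v w : ℂ, fderiv ℝ (fun ζ => fderiv ℝ f ζ v) z w = fderiv ℝ (fderiv ℝ f) z w v := by
    intro v w
    have h3 := (hd.hasFDerivAt.clm_apply (hasFDerivAt_const v z)).fderiv
    have h4 : fderiv ℝ (fun ζ => fderiv ℝ f ζ v) z = _ := h3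
    rw [h4]
    simp
  have hsym : IsSymmSndFDerivAt ℝ f z := hf.isSymmSndFDerivAt
    (by rw [minSmoothness_of_isRCLikeNormedField]; exact WithTop.coe_le_coe.2 le_top)
  have e2 : dx (dy f) z = fderiv ℝ (fderiv ℝ f) z 1 I := e1 I 1
  have e3 : dy (dx f) z = fderiv ℝ (fderiv ℝ f) z I 1 := e1 1 I
  rw [e2, e3]
  exact hsym 1 I

/-- the derivatives of the Laplacian -/
theorem lap_dx {f : ℂ → ℝ} {z : ℂ} (hfe : ∀ᶠ w in 𝓝 z, ContDiffAt ℝ ∞ f w) :
    lap (dx f) z = dx (lap f) z := by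
  have hf : ContDiffAt ℝ ∞ f z := hfe.self_of_nhds
  have hx : ContDiffAt ℝ ∞ (dx f) z := cdv hf 1
  have hy : ContDiffAt ℝ ∞ (dy f) z := cdv hf I
  have hxx : ContDiffAt ℝ ∞ (dx (dx f)) z := cdv hx 1
  have hyy : ContDiffAt ℝ ∞ (dy (dy f)) z := cdv hy I
  have e1 : dy (dy (dx f)) z = dx (dy (dy f)) z := by
    have h1 : dy (dx f) =ᶠ[𝓝 z] dx (dy f) := by
      filter_upwards [hfe] with w hw
      exact (symm hw).symm
    have h2 : dy (dy (dx f)) z = dy (dx (dy f)) z := by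
      show fderiv ℝ (dy (dx f)) z I = fderiv ℝ (dx (dy f)) z I
      rw [h1.fderiv_eq]
    rw [h2]
    exact (symm hy).symm
  have e2 := fderiv_fun_add (x := z) (f := dx (dx f)) (g := dy (dy f))
    (hxx.differentiableAt (by simp)) (hyy.differentiableAt (by simp))
  have e3 : dx (lap f) z = dx (dx (dx f)) z + dx (dy (dy f)) z := by
    show fderiv ℝ (fun z => dx (dx f) z + dy (dy f) z) z 1 = _
    rw [e2]
    rfl
  rw [e3, ← e1]
  rfl

theorem lap_dy {f : ℂ → ℝ} {z : ℂ} (hfe : ∀ᶠ w in 𝓝 z, ContDiffAt ℝ ∞ f w) :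
    lap (dy f) z = dy (lap f) z := by
  have hf : ContDiffAt ℝ ∞ f z := hfe.self_of_nhds
  have hx : ContDiffAt ℝ ∞ (dx f) z := cdv hf 1
  have hy : ContDiffAt ℝ ∞ (dy f) z := cdv hf I
  have hxx : ContDiffAt ℝ ∞ (dx (dx f)) z := cdv hx 1
  have hyy : ContDiffAt ℝ ∞ (dy (dy f)) z := cdv hy I
  have e1 : dx (dx (dy f)) z = dy (dx (dx f)) z := by
    have h1 : dx (dy f) =ᶠ[𝓝 z] dy (dx f) := by
      filter_upwards [hfe] with w hw
      exact symm hw
    have h2 : dx (dx (dy f)) z = dx (dy (dx f)) z := by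
      show fderiv ℝ (dx (dy f)) z 1 = fderiv ℝ (dy (dx f)) z 1
      rw [h1.fderiv_eq]
    rw [h2]
    exact symm hx
  have e2 := fderiv_fun_add (x := z) (f := dx (dx f)) (g := dy (dy f))
    (hxx.differentiableAt (by simp)) (hyy.differentiableAt (by simp))
  have e3 : dy (lap f) z = dy (dx (dx f)) z + dy (dy (dy f)) z := by
    show fderiv ℝ (fun z => dx (dx f) z + dy (dy f) z) z I = _
    rw [e2]
    rfl
  rw [e3, ← e1]
  rfl

/-- the gradient is bounded by the norm of the derivative -/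
theorem grad_one {f : ℂ → ℝ} {z : ℂ} (h : ‖fderiv ℝ f z‖ ≤ 1) : dx f z ^ 2 + dy f z ^ 2 ≤ 1 := by
  obtain ⟨L, hL⟩ : ∃ L, L = fderiv ℝ f z := ⟨_, rfl⟩
  have h1 : dx f z = L 1 := by rw [hL]; rfl
  have h2 : dy f z = L I := by rw [hL]; rfl
  rw [h1, h2]
  rw [← hL] at h
  have h3 : L ((L 1 : ℝ) + (L I : ℝ) * I) = L 1 ^ 2 + L I ^ 2 := by
    have e : (((L 1 : ℝ) : ℂ) + ((L I : ℝ) : ℂ) * I) = (L 1) • (1 : ℂ) + (L I) • I := by
      simp [Complex.real_smul]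
    rw [e, map_add, map_smul, map_smul]
    simp only [smul_eq_mul]
    ring
  have h4 : ‖(((L 1 : ℝ) : ℂ) + ((L I : ℝ) : ℂ) * I)‖ ^ 2 = L 1 ^ 2 + L I ^ 2 := by
    rw [Complex.sq_norm, Complex.normSq_add_mul_I]
  have h5 := L.le_of_opNorm_le h (((L 1 : ℝ) : ℂ) + ((L I : ℝ) : ℂ) * I)
  rw [h3, one_mul, Real.norm_eq_abs] at h5
  obtain ⟨r, hr⟩ : ∃ r, r = ‖(((L 1 : ℝ) : ℂ) + ((L I : ℝ) : ℂ) * I)‖ := ⟨_, rfl⟩
  rw [← hr] at h4 h5
  have hr0 : 0 ≤ r := hr ▸ norm_nonneg _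
  have h6 := (le_abs_self _).trans h5
  rw [← h4] at h6 ⊢
  nlinarith

/-- the final inequality; `A = u_xx`, `B = u_xy`, `D = u_yy`, `v = V`, `X = V_x`, `Y = V_y` -/
theorem alg {a b u v X Y A B D ε : ℝ} (hε : 0 < ε) (hv : |v| ≤ 1) (hX : X ^ 2 + Y ^ 2 ≤ 1)
    (hAD : A + D = -(v * u)) :
    -12 ≤ 2 * (A ^ 2 + 2 * B ^ 2 + D ^ 2 + a * (-(X * u + v * a)) + b * (-(Y * u + v * b)) +
      (a ^ 2 + b ^ 2) + u * (-(v * u))) * (a ^ 2 + b ^ 2 + u ^ 2 + ε)⁻¹ -
      ((2 * (a * A + b * B + u * a)) ^ 2 + (2 * (a * B + b * D + u * b)) ^ 2) *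
        ((a ^ 2 + b ^ 2 + u ^ 2 + ε) ^ 2)⁻¹ := by
  set q : ℝ := a ^ 2 + b ^ 2 + u ^ 2 with hq
  have hq0 : 0 ≤ q := by positivity
  obtain ⟨hv1, hv2⟩ := abs_le.1 hv
  -- the traceless part
  obtain ⟨s, hs⟩ : ∃ s, s = (A - D) / 2 := ⟨_, rfl⟩
  obtain ⟨c, hc⟩ : ∃ c, c = 1 - v / 2 := ⟨_, rfl⟩
  have hA : A = s + (-(v * u) / 2) := by rw [hs, ← hAD]; ring
  have hD : D = -s + (-(v * u) / 2) := by rw [hs, ← hAD]; ring
  have hc2 : 4 * c ^ 2 ≤ 9 := by rw [hc]; nlinarith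
  have hP : 4 * (s ^ 2 + B ^ 2) - 3 * q ≤ 2 * (A ^ 2 + 2 * B ^ 2 + D ^ 2 +
      a * (-(X * u + v * a)) + b * (-(Y * u + v * b)) + (a ^ 2 + b ^ 2) + u * (-(v * u))) := by
    have h1 : -2 * u * (a * X + b * Y) ≥ -q := by
      have h2 : (a * X + b * Y) ^ 2 ≤ a ^ 2 + b ^ 2 := by
        have h3 : 0 ≤ (a * Y - b * X) ^ 2 := sq_nonneg _
        have h4 : (a ^ 2 + b ^ 2) * (X ^ 2 + Y ^ 2) ≤ (a ^ 2 + b ^ 2) * 1 :=
          mul_le_mul_of_nonneg_left hX (by positivity)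
        nlinarith
      have h5 : 0 ≤ (u - (a * X + b * Y)) ^ 2 := sq_nonneg _
      nlinarith
    have h6 : v * q ≤ q := by nlinarith
    have e1 : 2 * (A ^ 2 + 2 * B ^ 2 + D ^ 2 +
      a * (-(X * u + v * a)) + b * (-(Y * u + v * b)) + (a ^ 2 + b ^ 2) + u * (-(v * u))) =
      4 * (s ^ 2 + B ^ 2) + (v * u) ^ 2 + (-2 * u * (a * X + b * Y)) - 2 * (v * q) +
        2 * (a ^ 2 + b ^ 2) := by
      rw [hA, hD, hq]; ring
    rw [e1]
    have h7 : 0 ≤ (v * u) ^ 2 := sq_nonneg _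
    have h8 : 0 ≤ a ^ 2 + b ^ 2 := by positivity
    linarith
  have hQ : (2 * (a * A + b * B + u * a)) ^ 2 + (2 * (a * B + b * D + u * b)) ^ 2 ≤
      4 * (s ^ 2 + B ^ 2) * q + 9 * q ^ 2 := by
    have e1 : (2 * (a * A + b * B + u * a)) ^ 2 + (2 * (a * B + b * D + u * b)) ^ 2 =
        4 * (s ^ 2 + B ^ 2) * q + 4 * c ^ 2 * ((a ^ 2 + b ^ 2) * q) -
          4 * ((s * u - c * (a ^ 2 - b ^ 2)) ^ 2 + (B * u - 2 * c * (a * b)) ^ 2) := by
      rw [hA, hD, hq, hc]; ring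
    have h1 : (a ^ 2 + b ^ 2) * q ≤ q * q := by
      apply mul_le_mul_of_nonneg_right _ hq0
      rw [hq]
      nlinarith [sq_nonneg u]
    have h2 : 0 ≤ (a ^ 2 + b ^ 2) * q := by positivity
    have h3 : 4 * c ^ 2 * ((a ^ 2 + b ^ 2) * q) ≤ 9 * (q * q) :=
      mul_le_mul hc2 h1 h2 (by norm_num)
    have h4 : 0 ≤ (s * u - c * (a ^ 2 - b ^ 2)) ^ 2 + (B * u - 2 * c * (a * b)) ^ 2 := by
      positivity
    rw [e1]
    nlinarith
  have hqe : 0 < q + ε := by positivity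
  obtain ⟨P, hPe⟩ : ∃ P, P = 2 * (A ^ 2 + 2 * B ^ 2 + D ^ 2 + a * (-(X * u + v * a)) +
    b * (-(Y * u + v * b)) + (a ^ 2 + b ^ 2) + u * (-(v * u))) := ⟨_, rfl⟩
  obtain ⟨Q, hQe⟩ : ∃ Q, Q = (2 * (a * A + b * B + u * a)) ^ 2 +
    (2 * (a * B + b * D + u * b)) ^ 2 := ⟨_, rfl⟩
  rw [← hPe] at hP
  rw [← hQe] at hQ
  rw [← hPe, ← hQe]
  have e2 : P * (q + ε)⁻¹ - Q * ((q + ε) ^ 2)⁻¹ = (P * (q + ε) - Q) / (q + ε) ^ 2 := by
    field_simp
  rw [e2, le_div_iff₀ (by positivity)]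
  have h9 : (4 * (s ^ 2 + B ^ 2) - 3 * q) * (q + ε) ≤ P * (q + ε) :=
    mul_le_mul_of_nonneg_right hP hqe.le
  have h10 : 0 ≤ (s ^ 2 + B ^ 2) * ε := by positivity
  have h11 : 0 ≤ q * ε := by positivity
  nlinarith [sq_nonneg ε]

end T1

open T1

/-- N1: `log (q + ε)` is almost subharmonic -/
theorem tn1 : N1 := by
  intro ε V u hε hsol z hz
  have hzc : z ∈ closedBall (0 : ℂ) 8 := ball_subset_closedBall hz
  obtain ⟨hu, hV, hV1, hV2, heq⟩ := hsol z hzc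
  have hue : ∀ᶠ w in 𝓝 z, ContDiffAt ℝ ∞ u w := by
    filter_upwards [isOpen_ball.mem_nhds hz] with w hw
    exact (hsol w (ball_subset_closedBall hw)).1
  have hq : ContDiffAt ℝ ∞ (en u) z := cq hu
  have hqe : ∀ᶠ w in 𝓝 z, ContDiffAt ℝ ∞ (en u) w := hue.mono fun w hw => cq hw
  have h0 : 0 < en u z + ε := by
    simp only [en]
    positivity
  refine ⟨(hq.add contDiffAt_const).log h0.ne', ?_⟩
  have hx : ContDiffAt ℝ ∞ (dx u) z := cdv hu 1
  have hy : ContDiffAt ℝ ∞ (dy u) z := cdv hu I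
  -- the equation near `z`
  have hlap : lap u =ᶠ[𝓝 z] fun w => -(V w * u w) := by
    filter_upwards [isOpen_ball.mem_nhds hz] with w hw
    have := (hsol w (ball_subset_closedBall hw)).2.2.2.2
    linarith
  have dV : DifferentiableAt ℝ V z := hV.differentiableAt (by simp)
  have du : DifferentiableAt ℝ u z := hu.differentiableAt (by simp)
  have hlv : ∀ v : ℂ, fderiv ℝ (lap u) z v = -(fderiv ℝ V z v * u z + V z * fderiv ℝ u z v) := by
    intro v
    rw [hlap.fderiv_eq]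
    have e1 : fderiv ℝ (fun w => -(V w * u w)) z = -fderiv ℝ (fun w => V w * u w) z :=
      fderiv_fun_neg
    rw [e1, neg_apply, fmul v dV du]
  have h1 : lap (dx u) z = -(dx V z * u z + V z * dx u z) := by
    rw [lap_dx hue]
    exact hlv 1
  have h2 : lap (dy u) z = -(dy V z * u z + V z * dy u z) := by
    rw [lap_dy hue]
    exact hlv I
  have h3 : dx (dy u) z = dy (dx u) z := symm hu
  have h4 : dx (dx u) z + dy (dy u) z = -(V z * u z) := by
    have : lap u z = dx (dx u) z + dy (dy u) z := rfl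
    linarith
  have hgV : dx V z ^ 2 + dy V z ^ 2 ≤ 1 := grad_one hV2
  -- the derivatives
  have e1 := ddlog 1 ε hqe h0
  have e2 := ddlog I ε hqe h0
  rw [dq hu 1, ddq hue 1] at e1
  rw [dq hu I, ddq hue I] at e2
  have e3 : lap (Lg ε u) z =
      fderiv ℝ (fun z => fderiv ℝ (fun z => Real.log (en u z + ε)) z 1) z 1 +
      fderiv ℝ (fun z => fderiv ℝ (fun z => Real.log (en u z + ε)) z I) z I := rfl
  rw [e3, e1, e2]
  have hfin := alg (a := dx u z) (b := dy u z) (u := u z) (v := V z) (X := dx V z) (Y := dy V z)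
    (A := dx (dx u) z) (B := dy (dx u) z) (D := dy (dy u) z) hε hV1 hgV h4
  refine hfin.trans (le_of_eq ?_)
  have l1 : lap (dx u) z = fderiv ℝ (fun z => fderiv ℝ (dx u) z 1) z 1 +
    fderiv ℝ (fun z => fderiv ℝ (dx u) z I) z I := rfl
  have l2 : lap (dy u) z = fderiv ℝ (fun z => fderiv ℝ (dy u) z 1) z 1 +
    fderiv ℝ (fun z => fderiv ℝ (dy u) z I) z I := rfl
  have l3 : dx (dx u) z = fderiv ℝ (dx u) z 1 := rfl
  have l4 : dy (dx u) z = fderiv ℝ (dx u) z I := rfl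
  have l5 : dx (dy u) z = fderiv ℝ (dy u) z 1 := rfl
  have l6 : dy (dy u) z = fderiv ℝ (dy u) z I := rfl
  have l7 : fderiv ℝ u z 1 = dx u z := rfl
  have l8 : fderiv ℝ u z I = dy u z := rfl
  have l9 : lap u z = fderiv ℝ (fun z => fderiv ℝ u z 1) z 1 +
    fderiv ℝ (fun z => fderiv ℝ u z I) z I := rfl
  have l10 : lap u z = -(V z * u z) := by linarith
  rw [l5, l4] at h3
  rw [l1] at h1
  rw [l2] at h2
  rw [l9] at l10
  rw [l3, l4, l6, l7, l8, ← h1, ← h2, h3, ← l10]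
  simp only [en]
  ring

end Pool.Agent.H303.NY
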