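import Pool.Agent.H303.NY.Stm
import Pool.Graph.R_pool_sql_team_seeded_3997aac3.Q73.NL.T10

/-!
# The length of the nodal set near a zero, from below (N10)
-/

set_option autoImplicit false
open MeasureTheory Filter Topology Complex Metric
open scoped ContDiff ENNReal

namespace Pool.Agent.H303.NY

open Pool.Agent.Q73.NL

/-- N10. -/
theorem tn10 : N10 := by
  intro lam L r w ρ φ hlam hr hL hle hz hw
  have hsol : Sol (ball w r) (fun z => lam * ρ z) φ :=
    ⟨fun z hz' => (hz z (ball_subset_closedBall hz')).1.contDiffWithinAt,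
      fun z hz' => (hz z (ball_subset_closedBall hz')).2.2.2⟩
  have hcirc : ∀ t : ℝ, 0 < t → t < r → w ∈ circ2 t (nod (ball w r) φ) := by
    intro t ht htr
    refine t6f (ball w r) (fun z => lam * ρ z) φ w t (lam * L) isOpen_ball hsol ht
      (fun z hz' => ?_) ?_ (closedBall_subset_ball htr) ⟨w, mem_ball_self ht, hw⟩
    · obtain ⟨-, h1, h2, -⟩ := hz z (ball_subset_closedBall hz')
      exact ⟨mul_nonneg hlam.le h1, mul_le_mul_of_nonneg_left h2 hlam.le⟩
    · have h1 : t ^ 2 ≤ r ^ 2 := pow_le_pow_left₀ ht.le htr.le 2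
      have h2 : lam * L * t ^ 2 ≤ lam * L * r ^ 2 :=
        mul_le_mul_of_nonneg_left h1 (mul_nonneg hlam.le hL)
      have h3 := Real.pi_gt_three
      nlinarith
  obtain ⟨g, hg⟩ : ∃ g : ℂ → ℝ, g = fun y => dist y w := ⟨_, rfl⟩
  have hlip : LipschitzWith 1 g := by
    rw [hg]
    exact LipschitzWith.dist_left w
  have hsub : Set.Ioo 0 r ⊆ g '' nod (ball w r) φ := by
    intro t ht
    obtain ⟨y, hy, -, -, -, hyt, -⟩ := hcirc t ht.1 ht.2
    refine ⟨y, hy, ?_⟩
    rw [hg]
    show dist y w = t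
    rw [dist_comm, dist_eq_norm, hyt]
  have h1 := (hlip.lipschitzOnWith (s := nod (ball w r) φ)).hausdorffMeasure_image_le
    (d := 1) zero_le_one
  rw [ENNReal.coe_one, ENNReal.one_rpow, one_mul] at h1
  refine le_trans ?_ h1
  refine le_trans ?_ (measure_mono hsub)
  rw [hausdorffMeasure_real, Real.volume_Ioo, sub_zero]
  exact ENNReal.ofReal_le_ofReal (by linarith)

end Pool.Agent.H303.NY
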