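import Pool.Agent.H303.NY.Stm
import Pool.Graph.R_pool_sql_team_seeded_3997aac3.Q73.NL.T5

/-!
# N2: the gradient estimate

Comparison with an explicit function in half squares: if `|u| ≤ M`, `|Δu| ≤ F` in the square of half
side `d` and centre `0`, then `u (z) - u (conj z)` is at most
`2 (M / d² (x² + y (2 d - y)) + F y (d - y) / 2)` in the upper half square, thus
`|∂u/∂y (0)| ≤ 2 M / d + F d / 2`.
-/

set_option autoImplicit false
open MeasureTheory Filter Topology Complex Metric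
open scoped ContDiff ENNReal ComplexConjugate

namespace Pool.Agent.H303.NY.T2

open Pool.Agent.Q73.NL

/-- the comparison function -/
noncomputable def psi (d M F : ℝ) (z : ℂ) : ℝ :=
  M / d ^ 2 * (z.re ^ 2 + z.im * (2 * d - z.im)) + F / 2 * (z.im * (d - z.im))

theorem psi_smooth (d M F : ℝ) : ContDiff ℝ ∞ (psi d M F) := by
  unfold psi
  have h1 : ContDiff ℝ ∞ fun z : ℂ => z.re := reCLM.contDiff
  have h2 : ContDiff ℝ ∞ fun z : ℂ => z.im := imCLM.contDiff
  exact (contDiff_const.mul ((h1.pow 2).add (h2.mul (contDiff_const.sub h2)))).add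
    (contDiff_const.mul (h2.mul (contDiff_const.sub h2)))

theorem psi_lap (d M F : ℝ) (z : ℂ) : lap (psi d M F) z = -F := by
  have hs : ContDiffAt ℝ 2 (psi d M F) z := (psi_smooth d M F).contDiffAt.of_le (by norm_cast)
  have e1 : fderiv ℝ (fun w => fderiv ℝ (psi d M F) w 1) z 1 = M / d ^ 2 * 2 := by
    refine dd_eq hs (g' := fun s => M / d ^ 2 * (2 * (z.re + s))) ?_ ?_
    · intro s
      have h1 : (fun s : ℝ => psi d M F (z + s • (1 : ℂ))) = fun s =>
          M / d ^ 2 * ((z.re + s) ^ 2 + z.im * (2 * d - z.im)) + F / 2 * (z.im * (d - z.im)) := by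
        funext s
        simp [psi]
      rw [h1]
      have h2 : HasDerivAt (fun s : ℝ => z.re + s) 1 s := (hasDerivAt_id s).const_add z.re
      have h3 := (((h2.pow 2).add_const (z.im * (2 * d - z.im))).const_mul
        (M / d ^ 2)).add_const (F / 2 * (z.im * (d - z.im)))
      exact h3.congr_deriv (by simp)
    · have h2 : HasDerivAt (fun s : ℝ => z.re + s) 1 0 := (hasDerivAt_id (0 : ℝ)).const_add z.re
      exact ((h2.const_mul 2).const_mul (M / d ^ 2)).congr_deriv (by ring)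
  have e2 : fderiv ℝ (fun w => fderiv ℝ (psi d M F) w I) z I = M / d ^ 2 * (-2) - F := by
    refine dd_eq hs (g' := fun s => M / d ^ 2 * (2 * d - 2 * (z.im + s)) +
      F / 2 * (d - 2 * (z.im + s))) ?_ ?_
    · intro s
      have h1 : (fun s : ℝ => psi d M F (z + s • I)) = fun s =>
          M / d ^ 2 * (z.re ^ 2 + (z.im + s) * (2 * d - (z.im + s))) +
            F / 2 * ((z.im + s) * (d - (z.im + s))) := by
        funext s
        simp [psi]
      rw [h1]
      have h2 : HasDerivAt (fun s : ℝ => z.im + s) 1 s := (hasDerivAt_id s).const_add z.im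
      have h3 := ((h2.mul (h2.const_sub (2 * d))).const_add (z.re ^ 2)).const_mul (M / d ^ 2)
      have h4 := (h2.mul (h2.const_sub d)).const_mul (F / 2)
      exact (h3.add h4).congr_deriv (by ring)
    · have h2 : HasDerivAt (fun s : ℝ => z.im + s) 1 0 := (hasDerivAt_id (0 : ℝ)).const_add z.im
      have h3 := ((h2.const_mul 2).const_sub (2 * d)).const_mul (M / d ^ 2)
      have h4 := ((h2.const_mul 2).const_sub d).const_mul (F / 2)
      exact (h3.add h4).congr_deriv (by ring)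
  have e3 : lap (psi d M F) z = fderiv ℝ (fun w => fderiv ℝ (psi d M F) w 1) z 1 +
    fderiv ℝ (fun w => fderiv ℝ (psi d M F) w I) z I := rfl
  rw [e3, e1, e2]
  ring

/-- comparison -/
theorem cmp {g : ℂ → ℝ} {d M F : ℝ} (hd : 0 < d) (hM : 0 ≤ M) (hF : 0 ≤ F)
    (hg : ∀ z : ℂ, |z.re| ≤ d → |z.im| ≤ d → ContDiffAt ℝ 2 g z ∧ g z ≤ M ∧ -F ≤ lap g z)
    (h0 : ∀ z : ℂ, z.im = 0 → g z ≤ 0) (z : ℂ) (hz1 : |z.re| ≤ d) (hz2 : 0 ≤ z.im)
    (hz3 : z.im ≤ d) : g z ≤ psi d M F z := by
  set K : Set ℂ := Set.Icc (-d) d ×ℂ Set.Icc 0 d with hK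
  have hKc : IsCompact K := isCompact_Icc.reProdIm isCompact_Icc
  have hKi : interior K = Set.Ioo (-d) d ×ℂ Set.Ioo 0 d := by
    rw [hK, Complex.interior_reProdIm, interior_Icc, interior_Icc]
  have hmem : ∀ w ∈ K, |w.re| ≤ d ∧ 0 ≤ w.im ∧ w.im ≤ d ∧ |w.im| ≤ d := by
    rintro w ⟨⟨h1, h2⟩, h3, h4⟩
    exact ⟨abs_le.2 ⟨h1, h2⟩, h3, h4, by rw [abs_of_nonneg h3]; exact h4⟩
  have hps : ∀ w, ContDiffAt ℝ 2 (psi d M F) w := fun w =>
    (psi_smooth d M F).contDiffAt.of_le (by norm_cast)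
  have hMd : 0 ≤ M / d ^ 2 := by positivity
  have key := t4 K (fun _ => 0) (fun w => psi d M F w - g w) 0 (1 / d) hKc (by positivity)
    (by
      intro w hw
      obtain ⟨h1, -, -, h2⟩ := hmem w hw
      have hpi := Real.pi_gt_three
      rw [sub_zero, one_div_mul_eq_div, one_div_mul_eq_div]
      constructor
      · have : |w.re| / d ≤ 1 := (div_le_one hd).2 h1
        linarith
      · have : |w.im| / d ≤ 1 := (div_le_one hd).2 h2
        linarith)
    (by
      intro w hw
      obtain ⟨h1, -, -, h2⟩ := hmem w hw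
      exact ((hps w).continuousAt.sub (hg w h1 h2).1.continuousAt).continuousWithinAt)
    (by
      intro w hw
      obtain ⟨h1, -, -, h2⟩ := hmem w (interior_subset hw)
      exact (hps w).sub (hg w h1 h2).1)
    (fun w _ => by positivity)
    (by
      intro w hw
      obtain ⟨h1, -, -, h2⟩ := hmem w (interior_subset hw)
      rw [zero_mul, add_zero, lap_sub (hps w) (hg w h1 h2).1, psi_lap]
      have := (hg w h1 h2).2.2
      linarith)
    (by
      intro w hw
      rw [hKc.isClosed.frontier_eq] at hw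
      obtain ⟨hwK, hwi⟩ := hw
      obtain ⟨h1, h2, h3, h4⟩ := hmem w hwK
      have hgw := (hg w h1 h4).2.1
      have hF1 : 0 ≤ F / 2 * (w.im * (d - w.im)) := by
        have : 0 ≤ d - w.im := by linarith
        positivity
      have hb : w.im = 0 ∨ d ^ 2 ≤ w.re ^ 2 + w.im * (2 * d - w.im) := by
        by_contra hcon
        push Not at hcon
        obtain ⟨c1, c2⟩ := hcon
        apply hwi
        rw [hKi]
        have him : 0 < w.im := lt_of_le_of_ne h2 (Ne.symm c1)
        have him2 : w.im < d := by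
          by_contra h5
          have h6 : w.im = d := le_antisymm h3 (not_lt.1 h5)
          rw [h6] at c2
          nlinarith [sq_nonneg w.re]
        have hre : |w.re| < d := by
          by_contra h5
          have h6 : d ≤ |w.re| := not_lt.1 h5
          have h7 : d ^ 2 ≤ w.re ^ 2 := by
            rw [← sq_abs w.re]
            exact pow_le_pow_left₀ hd.le h6 2
          have h8 : 0 ≤ w.im * (2 * d - w.im) := mul_nonneg h2 (by linarith)
          linarith
        exact ⟨abs_lt.1 hre, him, him2⟩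
      rcases hb with hb | hb
      · have h5 := h0 w hb
        have h6 : psi d M F w = M / d ^ 2 * w.re ^ 2 := by
          unfold psi
          rw [hb]
          ring
        rw [h6]
        have : 0 ≤ M / d ^ 2 * w.re ^ 2 := by positivity
        linarith
      · have h5 : M ≤ M / d ^ 2 * (w.re ^ 2 + w.im * (2 * d - w.im)) := by
          calc M = M / d ^ 2 * d ^ 2 := by field_simp
            _ ≤ _ := mul_le_mul_of_nonneg_left hb hMd
        unfold psi
        linarith)
  have h1 := key z ⟨abs_le.1 hz1, hz2, hz3⟩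
  linarith

/-- second derivatives of a composition with an affine map -/
theorem dd_comp {f : ℂ → ℝ} (L : ℂ →L[ℝ] ℂ) (w z e : ℂ) (hf : ContDiffAt ℝ 2 f (w + L z)) :
    fderiv ℝ (fun y => fderiv ℝ (fun x => f (w + L x)) y e) z e =
      fderiv ℝ (fun y => fderiv ℝ f y (L e)) (w + L z) (L e) := by
  have hA : ∀ y, HasFDerivAt (fun x => w + L x) L y := fun y => L.hasFDerivAt.const_add w
  have hAc : ContinuousAt (fun x => w + L x) z := (hA z).continuousAt
  have h1 : (fun y => fderiv ℝ (fun x => f (w + L x)) y e) =ᶠ[𝓝 z]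
      fun y => fderiv ℝ f (w + L y) (L e) := by
    have h2 : ∀ᶠ v in 𝓝 (w + L z), ContDiffAt ℝ 2 f v := hf.eventually (by simp)
    filter_upwards [hAc.eventually h2] with y hy
    have h3 : HasFDerivAt (fun x => f (w + L x)) ((fderiv ℝ f (w + L y)).comp L) y :=
      HasFDerivAt.comp y (hy.differentiableAt (by simp)).hasFDerivAt (hA y)
    rw [h3.fderiv]
    rfl
  rw [h1.fderiv_eq]
  have h4 : DifferentiableAt ℝ (fun v => fderiv ℝ f v (L e)) (w + L z) := by
    have h5 : ContDiffAt ℝ 1 (fderiv ℝ f) (w + L z) := hf.fderiv_right (by norm_num)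
    exact (h5.differentiableAt (by simp)).clm_apply (differentiableAt_const _)
  have h6 : HasFDerivAt (fun y => fderiv ℝ f (w + L y) (L e))
      ((fderiv ℝ (fun v => fderiv ℝ f v (L e)) (w + L z)).comp L) z :=
    HasFDerivAt.comp (g := fun v => fderiv ℝ f v (L e)) z h4.hasFDerivAt (hA z)
  rw [h6.fderiv]
  rfl

theorem dd_neg (f : ℂ → ℝ) (z e : ℂ) :
    fderiv ℝ (fun y => fderiv ℝ f y (-e)) z (-e) = fderiv ℝ (fun y => fderiv ℝ f y e) z e := by
  have h1 : (fun y => fderiv ℝ f y (-e)) = fun y => -(fderiv ℝ f y e) := by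
    funext y
    rw [map_neg]
  rw [h1, fderiv_fun_neg, neg_apply, map_neg, neg_neg]

theorem lap_dd (f : ℂ → ℝ) (z : ℂ) : lap f z =
    fderiv ℝ (fun w => fderiv ℝ f w 1) z 1 + fderiv ℝ (fun w => fderiv ℝ f w I) z I := rfl

/-- the reflection -/
theorem lap_conj {f : ℂ → ℝ} {z : ℂ} (hf : ContDiffAt ℝ 2 f (conj z)) :
    lap (fun x => f (conj x)) z = lap f (conj z) := by
  have h1 := dd_comp (conjCLE : ℂ →L[ℝ] ℂ) 0 z 1 (by simpa using hf)
  have h2 := dd_comp (conjCLE : ℂ →L[ℝ] ℂ) 0 z I (by simpa using hf)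
  simp only [ContinuousLinearEquiv.coe_coe, conjCLE_apply, zero_add, map_one, conj_I] at h1 h2
  rw [lap_dd, h1, h2, dd_neg, ← lap_dd]

/-- translations -/
theorem lap_add (f : ℂ → ℝ) (w z : ℂ) (hf : ContDiffAt ℝ 2 f (w + z)) :
    lap (fun x => f (w + x)) z = lap f (w + z) := by
  have h1 := dd_comp (ContinuousLinearMap.id ℝ ℂ) w z 1 hf
  have h2 := dd_comp (ContinuousLinearMap.id ℝ ℂ) w z I hf
  simp only [ContinuousLinearMap.id_apply] at h1 h2
  rw [lap_dd, h1, h2, ← lap_dd]

/-- multiplication by `I` -/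
noncomputable def mI : ℂ →L[ℝ] ℂ := ContinuousLinearMap.mul ℝ ℂ I

theorem mI_apply (z : ℂ) : mI z = I * z := rfl

theorem lap_rot (f : ℂ → ℝ) (w z : ℂ) (hf : ContDiffAt ℝ 2 f (w + I * z)) :
    lap (fun x => f (w + I * x)) z = lap f (w + I * z) := by
  have h1 := dd_comp mI w z 1 hf
  have h2 := dd_comp mI w z I hf
  simp only [mI_apply, mul_one, I_mul_I] at h1 h2
  rw [lap_dd, h1, h2, dd_neg, add_comm, ← lap_dd]

/-- the estimate of one partial derivative at the centre of a square -/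
theorem core {u : ℂ → ℝ} {d M F : ℝ} (hd : 0 < d)
    (hu : ∀ z : ℂ, |z.re| ≤ d → |z.im| ≤ d →
      ContDiffAt ℝ 2 u z ∧ |u z| ≤ M ∧ |lap u z| ≤ F) : |dy u 0| ≤ 2 * M / d + F * d / 2 := by
  have hu0 := hu 0 (by simpa using hd.le) (by simpa using hd.le)
  have hM : 0 ≤ M := (abs_nonneg _).trans hu0.2.1
  have hF : 0 ≤ F := (abs_nonneg _).trans hu0.2.2
  have hcj : ∀ z : ℂ, |z.re| ≤ d → |z.im| ≤ d →
      ContDiffAt ℝ 2 u (conj z) ∧ |u (conj z)| ≤ M ∧ |lap u (conj z)| ≤ F := by
    intro z h1 h2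
    exact hu (conj z) (by simpa using h1) (by simpa using h2)
  have hcs : ∀ z : ℂ, |z.re| ≤ d → |z.im| ≤ d → ContDiffAt ℝ 2 (fun x => u (conj x)) z := by
    intro z h1 h2
    exact (hcj z h1 h2).1.comp z (conjCLE : ℂ ≃L[ℝ] ℂ).contDiff.contDiffAt
  have hconj0 : ∀ z : ℂ, z.im = 0 → (conj z : ℂ) = z := fun z hz => conj_eq_iff_im.2 hz
  have k1 := cmp (g := fun z => u z - u (conj z)) (M := 2 * M) (F := 2 * F) hd (by positivity)
    (by positivity) (by
      intro z h1 h2
      obtain ⟨a1, a2, a3⟩ := hu z h1 h2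
      obtain ⟨b1, b2, b3⟩ := hcj z h1 h2
      rw [abs_le] at a2 a3 b2 b3
      refine ⟨a1.sub (hcs z h1 h2), by linarith, ?_⟩
      rw [lap_sub a1 (hcs z h1 h2), lap_conj b1]
      linarith) (by
      intro z hz
      rw [hconj0 z hz, sub_self])
  have k2 := cmp (g := fun z => u (conj z) - u z) (M := 2 * M) (F := 2 * F) hd (by positivity)
    (by positivity) (by
      intro z h1 h2
      obtain ⟨a1, a2, a3⟩ := hu z h1 h2
      obtain ⟨b1, b2, b3⟩ := hcj z h1 h2
      rw [abs_le] at a2 a3 b2 b3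
      refine ⟨(hcs z h1 h2).sub a1, by linarith, ?_⟩
      rw [lap_sub (hcs z h1 h2) a1, lap_conj b1]
      linarith) (by
      intro z hz
      rw [hconj0 z hz, sub_self])
  set C : ℝ := 4 * M / d + F * d with hC
  have hpsi : ∀ y : ℝ, 0 ≤ y → psi d (2 * M) (2 * F) (y * I) ≤ C * y := by
    intro y hy
    have h1 : psi d (2 * M) (2 * F) (y * I) =
        C * y - (2 * M / d ^ 2 * y ^ 2 + F * y ^ 2) := by
      unfold psi
      simp only [mul_re, ofReal_re, I_re, mul_zero, ofReal_im, I_im, mul_one, sub_self, mul_im,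
        add_zero]
      rw [hC]
      field_simp
      ring
    rw [h1]
    have h2 : 0 ≤ 2 * M / d ^ 2 * y ^ 2 + F * y ^ 2 := by positivity
    linarith
  have hcy : ∀ y : ℝ, (conj ((y : ℂ) * I) : ℂ) = ((-y : ℝ) : ℂ) * I := by
    intro y
    rw [map_mul, conj_ofReal, conj_I]
    push_cast
    ring
  have hbound : ∀ y : ℝ, 0 ≤ y → y ≤ d → |u (y * I) - u ((-y : ℝ) * I)| ≤ C * y := by
    intro y hy hyd
    have h1 := k1 (y * I) (by simpa using hd.le) (by simpa using hy) (by simpa using hyd)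
    have h2 := k2 (y * I) (by simpa using hd.le) (by simpa using hy) (by simpa using hyd)
    simp only [hcy] at h1 h2
    have h3 := hpsi y hy
    rw [abs_le]
    constructor <;> linarith
  have hder : HasDerivAt (fun y : ℝ => u (y * I) - u ((-y : ℝ) * I)) (2 * dy u 0) 0 := by
    have h1 : HasDerivAt (fun y : ℝ => (y : ℂ) * I) I 0 := by
      have := (ofRealCLM.hasDerivAt (x := (0 : ℝ))).mul_const I
      simpa using this
    have h2 : HasDerivAt (fun y : ℝ => ((-y : ℝ) : ℂ) * I) (-I) 0 := by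
      have h3 : HasDerivAt (fun y : ℝ => -((y : ℂ) * I)) (-I) 0 := h1.neg
      refine h3.congr_of_eventuallyEq (Eventually.of_forall fun y => ?_)
      push_cast
      ring
    have hf : HasFDerivAt u (fderiv ℝ u 0) 0 := (hu0.1.differentiableAt (by simp)).hasFDerivAt
    have hf1 : HasFDerivAt u (fderiv ℝ u 0) (((0 : ℝ) : ℂ) * I) := by simpa using hf
    have hf2 : HasFDerivAt u (fderiv ℝ u 0) (((-0 : ℝ) : ℂ) * I) := by simpa using hf
    have h4 := hf1.comp_hasDerivAt (0 : ℝ) h1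
    have h5 := hf2.comp_hasDerivAt (0 : ℝ) h2
    refine (h4.sub h5).congr_deriv ?_
    rw [map_neg]
    unfold dy
    ring
  have hlip : ‖2 * dy u 0‖ ≤ C := by
    refine hder.le_of_lip' (by positivity) ?_
    have h1 : ∀ᶠ y in 𝓝 (0 : ℝ), |y| < d := by
      filter_upwards [ball_mem_nhds (0 : ℝ) hd] with y hy
      simpa using hy
    filter_upwards [h1] with y hy
    have e0 : u (((0 : ℝ) : ℂ) * I) - u (((-0 : ℝ) : ℂ) * I) = 0 := by simp
    rw [e0, sub_zero, sub_zero, Real.norm_eq_abs, Real.norm_eq_abs]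
    rcases le_total 0 y with h2 | h2
    · rw [abs_of_nonneg h2] at hy ⊢
      exact hbound y h2 hy.le
    · rw [abs_of_nonpos h2] at hy ⊢
      have h3 := hbound (-y) (by linarith) hy.le
      rw [neg_neg, abs_sub_comm] at h3
      exact h3
  rw [Real.norm_eq_abs, abs_mul, abs_of_pos (show (0 : ℝ) < 2 by norm_num)] at hlip
  have e : 2 * M / d + F * d / 2 = C / 2 := by
    rw [hC]
    ring
  rw [e]
  linarith

end Pool.Agent.H303.NY.T2

namespace Pool.Agent.H303.NY

open Pool.Agent.Q73.NL Pool.Agent.Q73.AD Pool.Agent.H303.NP T2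

theorem tn2 : N2 := by
  refine ⟨38, by norm_num, fun V u hS z hz => ?_⟩
  set S : ℝ := Pool.Agent.Q73.AD.sn u (closedBall 0 8) with hSdef
  have hcont : ContinuousOn (fun x => |u x|) (closedBall (0 : ℂ) 8) := fun x hx =>
    ((hS x hx).1.continuousAt.abs).continuousWithinAt
  have hbdd : BddAbove ((fun x => |u x|) '' closedBall (0 : ℂ) 8) :=
    ((isCompact_closedBall (0 : ℂ) 8).image_of_continuousOn hcont).bddAbove
  have hle : ∀ x ∈ closedBall (0 : ℂ) 8, |u x| ≤ S := fun x hx => le_csSup hbdd ⟨x, hx, rfl⟩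
  have hsmooth : ∀ x ∈ closedBall (0 : ℂ) 8, ContDiffAt ℝ 2 u x := fun x hx =>
    (hS x hx).1.of_le (by norm_cast)
  have hlap : ∀ x ∈ closedBall (0 : ℂ) 8, |lap u x| ≤ S := by
    intro x hx
    obtain ⟨-, -, h3, -, h5⟩ := hS x hx
    have e : lap u x = -(V x * u x) := by linarith
    rw [e, abs_neg, abs_mul]
    calc |V x| * |u x| ≤ 1 * |u x| := mul_le_mul_of_nonneg_right h3 (abs_nonneg _)
      _ ≤ S := by rw [one_mul]; exact hle x hx
  have hzn : ‖z‖ ≤ 7 := by simpa using hz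
  have hmem : ∀ x y : ℂ, |x.re| ≤ 1 / 2 → |x.im| ≤ 1 / 2 → ‖y‖ = ‖x‖ →
      z + y ∈ closedBall (0 : ℂ) 8 := by
    intro x y h1 h2 h3
    rw [mem_closedBall_zero_iff]
    have h4 := Complex.norm_le_abs_re_add_abs_im x
    calc ‖z + y‖ ≤ ‖z‖ + ‖y‖ := norm_add_le _ _
      _ ≤ 8 := by rw [h3]; linarith
  have hd1 : DifferentiableAt ℝ u z := by
    have h1 := hmem 0 0 (by simp) (by simp) rfl
    rw [add_zero] at h1
    exact (hsmooth z h1).differentiableAt (by simp)
  have hc1 := core (u := fun x => u (z + x)) (d := 1 / 2) (M := S) (F := S) (by norm_num) (by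
    intro x h1 h2
    have h3 := hmem x x h1 h2 rfl
    refine ⟨(hsmooth _ h3).comp x (contDiffAt_const.add contDiffAt_id), hle _ h3, ?_⟩
    rw [T2.lap_add u z x (hsmooth _ h3)]
    exact hlap _ h3)
  have hc2 := core (u := fun x => u (z + I * x)) (d := 1 / 2) (M := S) (F := S) (by norm_num) (by
    intro x h1 h2
    have h3 := hmem x (I * x) h1 h2 (by rw [norm_mul, norm_I, one_mul])
    refine ⟨(hsmooth _ h3).comp x (contDiffAt_const.add (contDiffAt_const.mul contDiffAt_id)),
      hle _ h3, ?_⟩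
    rw [T2.lap_rot u z x (hsmooth _ h3)]
    exact hlap _ h3)
  have e1 : dy (fun x => u (z + x)) 0 = dy u z := by
    have h1 : HasFDerivAt (fun x : ℂ => z + x) (ContinuousLinearMap.id ℝ ℂ) 0 :=
      (hasFDerivAt_id (0 : ℂ)).const_add z
    have h2 : HasFDerivAt u (fderiv ℝ u z) (z + 0) := by
      rw [add_zero]
      exact hd1.hasFDerivAt
    have h3 := HasFDerivAt.comp (0 : ℂ) h2 h1
    unfold dy
    have h4 : fderiv ℝ (fun x => u (z + x)) 0 = (fderiv ℝ u z).comp (ContinuousLinearMap.id ℝ ℂ) :=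
      h3.fderiv
    rw [h4]
    rfl
  have e2 : dy (fun x => u (z + I * x)) 0 = -dx u z := by
    have h1 : HasFDerivAt (fun x : ℂ => z + I * x) mI 0 := mI.hasFDerivAt.const_add z
    have h2 : HasFDerivAt u (fderiv ℝ u z) (z + I * 0) := by
      rw [mul_zero, add_zero]
      exact hd1.hasFDerivAt
    have h3 := HasFDerivAt.comp (0 : ℂ) h2 h1
    unfold dy dx
    have h4 : fderiv ℝ (fun x => u (z + I * x)) 0 = (fderiv ℝ u z).comp mI := h3.fderiv
    rw [h4, ContinuousLinearMap.comp_apply, mI_apply, I_mul_I, map_neg]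
  rw [e1] at hc1
  rw [e2, abs_neg] at hc2
  have h8 : z ∈ closedBall (0 : ℂ) 8 := by
    rw [mem_closedBall_zero_iff]
    linarith
  have hu := hle z h8
  have hS0 : 0 ≤ S := (abs_nonneg _).trans hu
  have b1 : dy u z ^ 2 ≤ (17 / 4 * S) ^ 2 := by
    rw [← sq_abs (dy u z)]
    refine pow_le_pow_left₀ (abs_nonneg _) ?_ 2
    calc |dy u z| ≤ 2 * S / (1 / 2) + S * (1 / 2) / 2 := hc1
      _ = 17 / 4 * S := by ring
  have b2 : dx u z ^ 2 ≤ (17 / 4 * S) ^ 2 := by
    rw [← sq_abs (dx u z)]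
    refine pow_le_pow_left₀ (abs_nonneg _) ?_ 2
    calc |dx u z| ≤ 2 * S / (1 / 2) + S * (1 / 2) / 2 := hc2
      _ = 17 / 4 * S := by ring
  have b3 : u z ^ 2 ≤ S ^ 2 := by
    rw [← sq_abs (u z)]
    exact pow_le_pow_left₀ (abs_nonneg _) hu 2
  unfold en
  nlinarith [sq_nonneg S]

end Pool.Agent.H303.NY
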