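import Pool.Agent.H303.NY.Stm

/-!
# The gradient of `log (q + ε)` (N3)
-/

set_option autoImplicit false
open MeasureTheory Filter Topology Complex Metric
open scoped ContDiff ENNReal

namespace Pool.Agent.H303.NY

open Pool.Agent.Q73.NL Pool.Agent.H303.NP

namespace T3

/-- the comparison polynomial -/
noncomputable def P (z : ℂ) : ℝ := 3 * (z.re ^ 2 + z.im ^ 2)

theorem hasFDerivAt_P (z : ℂ) :
    HasFDerivAt P ((6 * z.re) • reCLM + (6 * z.im) • imCLM : ℂ →L[ℝ] ℝ) z := by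
  have h1 : HasFDerivAt (fun z : ℂ => z.re) reCLM z := reCLM.hasFDerivAt
  have h2 : HasFDerivAt (fun z : ℂ => z.im) imCLM z := imCLM.hasFDerivAt
  have h3 := ((h1.pow 2).add (h2.pow 2)).const_mul 3
  refine h3.congr_fderiv ?_
  ext <;> (simp; ring)

theorem contDiff_P : ContDiff ℝ ∞ P := by
  have h1 : ContDiff ℝ ∞ (fun z : ℂ => z.re) := reCLM.contDiff
  have h2 : ContDiff ℝ ∞ (fun z : ℂ => z.im) := imCLM.contDiff
  exact contDiff_const.mul ((h1.pow 2).add (h2.pow 2))

theorem dx_P : dx P = fun z => 6 * z.re := by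
  ext z
  unfold dx
  rw [(hasFDerivAt_P z).fderiv]
  simp

theorem dy_P : dy P = fun z => 6 * z.im := by
  ext z
  unfold dy
  rw [(hasFDerivAt_P z).fderiv]
  simp

theorem lap_P (z : ℂ) : lap P z = 12 := by
  unfold lap
  rw [dx_P, dy_P]
  have h1 : HasFDerivAt (fun z : ℂ => 6 * z.re) ((6 : ℝ) • reCLM : ℂ →L[ℝ] ℝ) z :=
    (reCLM.hasFDerivAt).const_mul 6
  have h2 : HasFDerivAt (fun z : ℂ => 6 * z.im) ((6 : ℝ) • imCLM : ℂ →L[ℝ] ℝ) z :=
    (imCLM.hasFDerivAt).const_mul 6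
  unfold dx dy
  rw [h1.fderiv, h2.fderiv]
  simp
  norm_num

theorem P_le {z : ℂ} {R : ℝ} (hR : ‖z‖ ≤ R) : P z ≤ 3 * R ^ 2 := by
  unfold P
  have h1 : z.re ^ 2 + z.im ^ 2 = ‖z‖ ^ 2 := by
    rw [Complex.sq_norm, Complex.normSq_apply]; ring
  rw [h1]
  have := norm_nonneg z
  nlinarith

/-- `dx` and `dy` of a sum with a smooth function and a constant -/
theorem dx_add {f : ℂ → ℝ} {z : ℂ} (c : ℝ) (hf : DifferentiableAt ℝ f z) :
    dx (fun w => f w + P w - c) z = dx f z + 6 * z.re := by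
  have h1 : HasFDerivAt (fun w => f w + P w - c)
      (fderiv ℝ f z + ((6 * z.re) • reCLM + (6 * z.im) • imCLM : ℂ →L[ℝ] ℝ)) z :=
    (hf.hasFDerivAt.add (hasFDerivAt_P z)).sub_const c
  unfold dx
  rw [h1.fderiv]
  simp

theorem dy_add {f : ℂ → ℝ} {z : ℂ} (c : ℝ) (hf : DifferentiableAt ℝ f z) :
    dy (fun w => f w + P w - c) z = dy f z + 6 * z.im := by
  have h1 : HasFDerivAt (fun w => f w + P w - c)
      (fderiv ℝ f z + ((6 * z.re) • reCLM + (6 * z.im) • imCLM : ℂ →L[ℝ] ℝ)) z :=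
    (hf.hasFDerivAt.add (hasFDerivAt_P z)).sub_const c
  unfold dy
  rw [h1.fderiv]
  simp

theorem differentiableAt_dx {f : ℂ → ℝ} {z : ℂ} (hf : ContDiffAt ℝ 2 f z) :
    DifferentiableAt ℝ (dx f) z := by
  have h1 : ContDiffAt ℝ 1 (fderiv ℝ f) z := hf.fderiv_right (by norm_num)
  have h2 : DifferentiableAt ℝ (fderiv ℝ f) z := h1.differentiableAt (by norm_num)
  exact h2.clm_apply (differentiableAt_const _)

theorem differentiableAt_dy {f : ℂ → ℝ} {z : ℂ} (hf : ContDiffAt ℝ 2 f z) :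
    DifferentiableAt ℝ (dy f) z := by
  have h1 : ContDiffAt ℝ 1 (fderiv ℝ f) z := hf.fderiv_right (by norm_num)
  have h2 : DifferentiableAt ℝ (fderiv ℝ f) z := h1.differentiableAt (by norm_num)
  exact h2.clm_apply (differentiableAt_const _)

theorem lap_add {f : ℂ → ℝ} {z : ℂ} (c : ℝ) (hf : ContDiffAt ℝ 2 f z) :
    lap (fun w => f w + P w - c) z = lap f z + 12 := by
  have hev : ∀ᶠ w in 𝓝 z, DifferentiableAt ℝ f w := by
    have := hf.eventually (by norm_num)
    filter_upwards [this] with w hw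
    exact hw.differentiableAt (by norm_num)
  have h1 : dx (fun w => f w + P w - c) =ᶠ[𝓝 z] fun w => dx f w + 6 * w.re := by
    filter_upwards [hev] with w hw
    exact dx_add c hw
  have h2 : dy (fun w => f w + P w - c) =ᶠ[𝓝 z] fun w => dy f w + 6 * w.im := by
    filter_upwards [hev] with w hw
    exact dy_add c hw
  have h3 : HasFDerivAt (fun w : ℂ => dx f w + 6 * w.re)
      (fderiv ℝ (dx f) z + (6 : ℝ) • reCLM) z :=
    (differentiableAt_dx hf).hasFDerivAt.add ((reCLM.hasFDerivAt).const_mul 6)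
  have h4 : HasFDerivAt (fun w : ℂ => dy f w + 6 * w.im)
      (fderiv ℝ (dy f) z + (6 : ℝ) • imCLM) z :=
    (differentiableAt_dy hf).hasFDerivAt.add ((imCLM.hasFDerivAt).const_mul 6)
  show fderiv ℝ (dx (fun w => f w + P w - c)) z 1 + fderiv ℝ (dy (fun w => f w + P w - c)) z I =
    fderiv ℝ (dx f) z 1 + fderiv ℝ (dy f) z I + 12
  rw [h1.fderiv_eq, h2.fderiv_eq, h3.fderiv, h4.fderiv]
  simp
  ring

theorem lap_congr {f g : ℂ → ℝ} {z : ℂ} (h : f =ᶠ[𝓝 z] g) : lap f z = lap g z := by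
  have h1 : fderiv ℝ f =ᶠ[𝓝 z] fderiv ℝ g := h.fderiv
  have h2 : dx f =ᶠ[𝓝 z] dx g := h1.mono (fun w hw => by unfold dx; rw [hw])
  have h3 : dy f =ᶠ[𝓝 z] dy g := h1.mono (fun w hw => by unfold dy; rw [hw])
  show fderiv ℝ (dx f) z 1 + fderiv ℝ (dy f) z I = fderiv ℝ (dx g) z 1 + fderiv ℝ (dy g) z I
  rw [h2.fderiv_eq, h3.fderiv_eq]

end T3

open T3 in
theorem tn3 (h1 : N1) (h2 : N2) (hL : LB) (hM : MV) : N3 := by
  obtain ⟨C2, hC2, hN2⟩ := h2
  obtain ⟨CL, hCL, hLB⟩ := hL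
  obtain ⟨K, hK⟩ : ∃ K : ℝ, K = Real.log (C2 + 1) + 147 := ⟨_, rfl⟩
  have hK0 : 147 ≤ K := by
    have : 0 ≤ Real.log (C2 + 1) := Real.log_nonneg (by linarith)
    rw [hK]; linarith
  have hpi := Real.pi_gt_three
  refine ⟨CL * (36 * Real.pi * (2 + K)) + 96 * Real.pi, ?_, ?_⟩
  · have h0 : 0 ≤ CL * (36 * Real.pi * (2 + K)) := by positivity
    linarith
  intro ε N V u hε hε1 hN
  have hlow := hN.low
  have hone := hN.le_one
  have hsol := hN.sol
  have hN0 := hN.nonneg
  have hsn0 : 0 ≤ Pool.Agent.Q73.AD.sn u (closedBall (0 : ℂ) 8) := by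
    unfold Pool.Agent.Q73.AD.sn
    refine Real.sSup_nonneg ?_
    rintro _ ⟨x, _, rfl⟩
    exact abs_nonneg _
  -- the bound of `Lg`
  have hen : ∀ z ∈ closedBall (0 : ℂ) 7, en u z ≤ C2 := fun z hz => by
    have := hN2 V u hsol z hz
    refine this.trans ?_
    have : Pool.Agent.Q73.AD.sn u (closedBall (0 : ℂ) 8) ^ 2 ≤ 1 := pow_le_one₀ hsn0 hone
    nlinarith
  have hen0 : ∀ z, 0 ≤ en u z := fun z => by unfold en; positivity
  have hLg : ∀ z ∈ closedBall (0 : ℂ) 7, Lg ε u z ≤ Real.log (C2 + 1) := fun z hz => by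
    unfold Lg
    refine Real.log_le_log (by linarith [hen0 z]) ?_
    linarith [hen z hz]
  set v0 : ℂ → ℝ := fun w => Lg ε u w + P w - K with hv0
  have hv0neg : ∀ z ∈ closedBall (0 : ℂ) 7, v0 z ≤ 0 := fun z hz => by
    have hz' : ‖z‖ ≤ 7 := by simpa using hz
    have h3 := P_le hz'
    have h4 := hLg z hz
    simp only [hv0]
    rw [hK]
    linarith
  have hsm : ∀ z ∈ ball (0 : ℂ) 8, ContDiffAt ℝ ∞ (Lg ε u) z := fun z hz =>
    (h1 ε V u hε hsol z hz).1
  have hlapLg : ∀ z ∈ ball (0 : ℂ) 8, -12 ≤ lap (Lg ε u) z := fun z hz =>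
    (h1 ε V u hε hsol z hz).2
  have hv0sm : ∀ z ∈ ball (0 : ℂ) 8, ContDiffAt ℝ ∞ v0 z := fun z hz =>
    ((hsm z hz).add contDiff_P.contDiffAt).sub contDiffAt_const
  have hv0lap : ∀ z ∈ ball (0 : ℂ) 8, 0 ≤ lap v0 z := fun z hz => by
    rw [hv0, lap_add K ((hsm z hz).of_le (WithTop.coe_le_coe.mpr (le_top : (2 : ℕ∞) ≤ ⊤)))]
    linarith [hlapLg z hz]
  -- the cut-off
  let χ : ContDiffBump (0 : ℂ) := ⟨6, 7, by norm_num, by norm_num⟩
  set v : ℂ → ℝ := fun w => χ w * v0 w with hv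
  have hveq : ∀ z ∈ ball (0 : ℂ) 6, v z = v0 z := fun z hz => by
    have : χ z = 1 := χ.one_of_mem_closedBall (ball_subset_closedBall hz)
    simp only [hv]
    rw [this, one_mul]
  have hvsm : ContDiff ℝ ∞ v := by
    rw [contDiff_iff_contDiffAt]
    intro z
    by_cases hz : z ∈ ball (0 : ℂ) 8
    · exact (χ.contDiff.contDiffAt).mul (hv0sm z hz)
    · have h8 : z ∈ (closedBall (0 : ℂ) 7)ᶜ := by
        simp only [mem_ball, not_lt, Set.mem_compl_iff, mem_closedBall, not_le] at hz ⊢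
        linarith
      have hev : v =ᶠ[𝓝 z] fun _ => 0 := by
        filter_upwards [isClosed_closedBall.isOpen_compl.mem_nhds h8] with w hw
        have : χ w = 0 := by
          refine χ.zero_of_le_dist ?_
          simp only [Set.mem_compl_iff, mem_closedBall, not_le] at hw
          exact hw.le
        simp only [hv]
        rw [this, zero_mul]
      exact contDiffAt_const.congr_of_eventuallyEq hev
  have hvneg : ∀ x, v x ≤ 0 := fun x => by
    by_cases hx : x ∈ closedBall (0 : ℂ) 7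
    · exact mul_nonpos_of_nonneg_of_nonpos χ.nonneg (hv0neg x hx)
    · have : χ x = 0 := by
        refine χ.zero_of_le_dist ?_
        simp only [mem_closedBall, not_le] at hx
        exact hx.le
      simp only [hv]
      rw [this, zero_mul]
  have hvev : ∀ z ∈ ball (0 : ℂ) 6, v =ᶠ[𝓝 z] v0 := fun z hz => by
    filter_upwards [isOpen_ball.mem_nhds hz] with w hw
    exact hveq w hw
  have hvlap : ∀ x ∈ ball (0 : ℂ) 5, 0 ≤ lap v x := fun x hx => by
    have hx6 : x ∈ ball (0 : ℂ) 6 := ball_subset_ball (by norm_num) hx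
    rw [lap_congr (hvev x hx6)]
    exact hv0lap x (ball_subset_ball (by norm_num) hx)
  -- the point where `|u|` is large
  obtain ⟨z₀, hz₀, hmax⟩ : ∃ z ∈ closedBall (0 : ℂ) 1, IsMaxOn (fun x => |u x|) (closedBall 0 1) z := by
    refine (isCompact_closedBall (0 : ℂ) 1).exists_isMaxOn ⟨0, by simp⟩ ?_
    intro x hx
    have hx8 : x ∈ closedBall (0 : ℂ) 8 := closedBall_subset_closedBall (by norm_num) hx
    exact ((hsol x hx8).1.continuousAt.abs).continuousWithinAt
  have hsnle : Pool.Agent.Q73.AD.sn u (closedBall (0 : ℂ) 1) ≤ |u z₀| := by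
    unfold Pool.Agent.Q73.AD.sn
    refine csSup_le ⟨|u 0|, 0, by simp, rfl⟩ ?_
    rintro _ ⟨x, hx, rfl⟩
    exact hmax hx
  have hz₀n : ‖z₀‖ ≤ 1 := by simpa using hz₀
  have hLz₀ : -(2 * N) ≤ Lg ε u z₀ := by
    have h3 : Real.exp (-N) ≤ |u z₀| := hlow.trans hsnle
    have h4 : Real.exp (-(2 * N)) ≤ en u z₀ + ε := by
      have h5 : Real.exp (-(2 * N)) = Real.exp (-N) * Real.exp (-N) := by
        rw [← Real.exp_add]; ring_nf
      have h6 : Real.exp (-N) * Real.exp (-N) ≤ |u z₀| * |u z₀| :=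
        mul_le_mul h3 h3 (Real.exp_pos _).le (abs_nonneg _)
      rw [abs_mul_abs_self] at h6
      have h7 : u z₀ * u z₀ ≤ en u z₀ := by unfold en; nlinarith [sq_nonneg (dx u z₀), sq_nonneg (dy u z₀)]
      rw [h5]; linarith
    unfold Lg
    rw [← Real.log_exp (-(2 * N))]
    exact Real.log_le_log (Real.exp_pos _) h4
  have hP0 : 0 ≤ P z₀ := by unfold P; positivity
  have hv0z₀ : -(2 * N + K) ≤ v0 z₀ := by
    simp only [hv0]
    linarith
  -- mean value inequality
  have hsub7 : closedBall z₀ 6 ⊆ closedBall (0 : ℂ) 7 :=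
    closedBall_subset_closedBall' (by
      have : dist z₀ 0 ≤ 1 := by simpa using hz₀n
      linarith)
  have hsub78 : closedBall (0 : ℂ) 7 ⊆ ball (0 : ℂ) 8 := closedBall_subset_ball (by norm_num)
  have hmv := hM v0 z₀ 6 (by norm_num) (fun z hz =>
    ⟨(hv0sm z (hsub78 (hsub7 hz))).of_le (WithTop.coe_le_coe.mpr (le_top : (2 : ℕ∞) ≤ ⊤)), hv0lap z (hsub78 (hsub7 hz))⟩)
  have hcont : ContinuousOn v0 (closedBall (0 : ℂ) 7) := fun z hz =>
    (hv0sm z (hsub78 hz)).continuousAt.continuousWithinAt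
  have hint7 : IntegrableOn v0 (closedBall (0 : ℂ) 7) :=
    hcont.integrableOn_compact (isCompact_closedBall _ _)
  have hint6 : IntegrableOn v0 (ball z₀ 6) :=
    hint7.mono_set (ball_subset_closedBall.trans hsub7)
  have hsub5 : ball (0 : ℂ) 5 ⊆ ball z₀ 6 :=
    ball_subset_ball' (by
      have : dist 0 z₀ ≤ 1 := by rw [dist_comm]; simpa using hz₀n
      linarith)
  have hmono : ∫ z in ball (0 : ℂ) 5, -v0 z ≤ ∫ z in ball z₀ 6, -v0 z := by
    refine setIntegral_mono_set hint6.neg ?_ (LE.le.eventuallyLE hsub5)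
    filter_upwards [ae_restrict_mem measurableSet_ball] with z hz
    have := hv0neg z (hsub7 (ball_subset_closedBall hz))
    show 0 ≤ -v0 z
    linarith
  have hv5 : ∫ z in ball (0 : ℂ) 5, -v z = ∫ z in ball (0 : ℂ) 5, -v0 z := by
    refine setIntegral_congr_fun measurableSet_ball (fun z hz => ?_)
    show -v z = -v0 z
    rw [hveq z (ball_subset_ball (by norm_num) hz)]
  have hA : ∫ z in ball (0 : ℂ) 5, -v z ≤ 36 * Real.pi * (2 * N + K) := by
    rw [hv5]
    refine hmono.trans ?_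
    rw [integral_neg]
    have h3 : v0 z₀ * (Real.pi * 6 ^ 2) ≤ ∫ y in ball z₀ 6, v0 y := hmv
    have h4 : -(2 * N + K) * (Real.pi * 6 ^ 2) ≤ v0 z₀ * (Real.pi * 6 ^ 2) :=
      mul_le_mul_of_nonneg_right hv0z₀ (by positivity)
    linarith
  have hlb := hLB v _ hvsm hvneg hvlap hA
  -- comparison of the derivatives
  have hdv : ∀ z ∈ ball (0 : ℂ) 2, |dx (Lg ε u) z| + |dy (Lg ε u) z| ≤
      (|dx v z| + |dy v z|) + 24 := fun z hz => by
    have hz6 : z ∈ ball (0 : ℂ) 6 := ball_subset_ball (by norm_num) hz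
    have hz8 : z ∈ ball (0 : ℂ) 8 := ball_subset_ball (by norm_num) hz
    have hz2 : ‖z‖ ≤ 2 := by
      have : ‖z‖ < 2 := by simpa using hz
      exact this.le
    have hd : DifferentiableAt ℝ (Lg ε u) z := (hsm z hz8).differentiableAt (by simp)
    have h3 : dx v z = dx (Lg ε u) z + 6 * z.re := by
      have h4 : dx v z = dx v0 z := by unfold dx; rw [(hvev z hz6).fderiv_eq]
      rw [h4, hv0, dx_add K hd]
    have h5 : dy v z = dy (Lg ε u) z + 6 * z.im := by
      have h4 : dy v z = dy v0 z := by unfold dy; rw [(hvev z hz6).fderiv_eq]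
      rw [h4, hv0, dy_add K hd]
    have h6 : |z.re| ≤ 2 := (Complex.abs_re_le_norm z).trans hz2
    have h7 : |z.im| ≤ 2 := (Complex.abs_im_le_norm z).trans hz2
    have h8 : |dx (Lg ε u) z| ≤ |dx v z| + 12 := by
      have h9 : dx (Lg ε u) z = dx v z + -(6 * z.re) := by rw [h3]; ring
      rw [h9]
      refine (abs_add_le _ _).trans ?_
      rw [abs_neg, abs_mul, abs_of_pos (by norm_num : (0 : ℝ) < 6)]
      linarith
    have h10 : |dy (Lg ε u) z| ≤ |dy v z| + 12 := by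
      have h9 : dy (Lg ε u) z = dy v z + -(6 * z.im) := by rw [h5]; ring
      rw [h9]
      refine (abs_add_le _ _).trans ?_
      rw [abs_neg, abs_mul, abs_of_pos (by norm_num : (0 : ℝ) < 6)]
      linarith
    linarith
  have hcv : Continuous (fun z => |dx v z| + |dy v z|) := by
    have hfd : Continuous (fderiv ℝ v) := hvsm.continuous_fderiv (by simp)
    have hcx : Continuous (dx v) := hfd.clm_apply continuous_const
    have hcy : Continuous (dy v) := hfd.clm_apply continuous_const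
    exact hcx.abs.add hcy.abs
  have hintv : IntegrableOn (fun z => |dx v z| + |dy v z|) (ball (0 : ℂ) 2) :=
    (hcv.continuousOn.integrableOn_compact (isCompact_closedBall (0 : ℂ) 2)).mono_set
      ball_subset_closedBall
  have hvol : volume (ball (0 : ℂ) 2) ≠ ⊤ := measure_ball_lt_top.ne
  have hintc : IntegrableOn (fun _ : ℂ => (24 : ℝ)) (ball (0 : ℂ) 2) :=
    integrableOn_const hvol
  have hvolr : volume.real (ball (0 : ℂ) 2) = 4 * Real.pi := by
    rw [Measure.real, Complex.volume_ball]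
    simp [ENNReal.toReal_mul]
    norm_num
  calc ∫ z in ball (0 : ℂ) 2, (|dx (Lg ε u) z| + |dy (Lg ε u) z|)
      ≤ ∫ z in ball (0 : ℂ) 2, ((|dx v z| + |dy v z|) + 24) := by
        refine integral_mono_of_nonneg ?_ (hintv.add hintc) ?_
        · exact Filter.Eventually.of_forall (fun z => by
            show 0 ≤ |dx (Lg ε u) z| + |dy (Lg ε u) z|
            positivity)
        · filter_upwards [ae_restrict_mem measurableSet_ball] with z hz
          exact hdv z hz
    _ = (∫ z in ball (0 : ℂ) 2, (|dx v z| + |dy v z|)) + 96 * Real.pi := by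
        rw [integral_add hintv hintc, setIntegral_const, hvolr, smul_eq_mul]
        ring
    _ ≤ CL * (36 * Real.pi * (2 * N + K)) + 96 * Real.pi := by linarith
    _ ≤ (CL * (36 * Real.pi * (2 + K)) + 96 * Real.pi) * (1 + N) := by
        have h3 : 2 * N + K ≤ (2 + K) * (1 + N) := by nlinarith
        have h4 : CL * (36 * Real.pi * (2 * N + K)) ≤ CL * (36 * Real.pi * ((2 + K) * (1 + N))) := by
          gcongr
        have h5 : 96 * Real.pi ≤ 96 * Real.pi * (1 + N) := by nlinarith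
        calc CL * (36 * Real.pi * (2 * N + K)) + 96 * Real.pi
            ≤ CL * (36 * Real.pi * ((2 + K) * (1 + N))) + 96 * Real.pi * (1 + N) := by linarith
          _ = _ := by ring

end Pool.Agent.H303.NY
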