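import Pool.Agent.H303.NY.Stm
import Pool.Graph.R_pool_sql_team_seeded_3997aac3.Q73.NL.T7

/-!
# N4: the area of the set `|u| < t √(q + ε)`
-/

set_option autoImplicit false
open MeasureTheory Filter Topology Complex Metric
open scoped ContDiff ENNReal

namespace Pool.Agent.H303.NY

open Pool.Agent.Q73.NL Pool.Agent.Q73.AD Pool.Agent.H303.NP

namespace T4

/-- the cut-off function -/
theorem bump : ∃ (χ : ℂ → ℝ) (C : ℝ), 0 ≤ C ∧ ContDiff ℝ ∞ χ ∧ HasCompactSupport χ ∧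
    tsupport χ ⊆ ball 0 2 ∧ (∀ z, 0 ≤ χ z) ∧ (∀ z, χ z ≤ 1) ∧ (∀ z ∈ ball (0 : ℂ) 1, χ z = 1) ∧
    (∀ z, |dx χ z| ≤ C) ∧ (∀ z, |dy χ z| ≤ C) := by
  let b : ContDiffBump (0 : ℂ) := ⟨1, 3 / 2, one_pos, by norm_num⟩
  have hb : ContDiff ℝ ∞ (b : ℂ → ℝ) := b.contDiff
  have hc : HasCompactSupport (fderiv ℝ (b : ℂ → ℝ)) := b.hasCompactSupport.fderiv ℝ
  obtain ⟨C, hC⟩ := hc.exists_bound_of_continuous (hb.continuous_fderiv (by simp))
  have hC0 : 0 ≤ C := (norm_nonneg _).trans (hC 0)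
  have hv : ∀ (v : ℂ), ‖v‖ = 1 → ∀ z, |fderiv ℝ (b : ℂ → ℝ) z v| ≤ C := by
    intro v hv z
    have h1 := (fderiv ℝ (b : ℂ → ℝ) z).le_opNorm v
    rw [hv, mul_one, Real.norm_eq_abs] at h1
    exact h1.trans (hC z)
  refine ⟨b, C, hC0, hb, b.hasCompactSupport, ?_, fun z => b.nonneg, fun z => b.le_one, ?_,
    hv 1 (by simp), hv I (by simp)⟩
  · rw [b.tsupport_eq]
    exact closedBall_subset_ball (by show (3 / 2 : ℝ) < 2; norm_num)
  · intro z hz
    exact b.one_of_mem_closedBall (ball_subset_closedBall hz)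

/-- `F (σ) χ g ∂ᵥ u` -/
noncomputable def Y (t : ℝ) (u L χ : ℂ → ℝ) (v z : ℂ) : ℝ :=
  2 * Real.arctan (u z * Real.exp (-(L z) / 2) / t) * χ z * Real.exp (-(L z) / 2) * fderiv ℝ u z v

theorem Y_smooth {t : ℝ} {u L χ : ℂ → ℝ} {z : ℂ} (v : ℂ)
    (hu : ContDiffAt ℝ ∞ u z) (hL : ContDiffAt ℝ ∞ L z) (hχ : ContDiff ℝ ∞ χ) :
    ContDiffAt ℝ 1 (Y t u L χ v) z := by
  have hu1 : ContDiffAt ℝ 1 (fderiv ℝ u) z := hu.fderiv_right (by norm_cast)
  have hL1 : ContDiffAt ℝ 1 L z := hL.of_le (by norm_cast)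
  have hu0 : ContDiffAt ℝ 1 u z := hu.of_le (by norm_cast)
  have hg : ContDiffAt ℝ 1 (fun z => Real.exp (-(L z) / 2)) z :=
    (hL1.neg.div_const 2).exp
  have hF : ContDiffAt ℝ 1 (fun z => Real.arctan (u z * Real.exp (-(L z) / 2) / t)) z :=
    ((hu0.mul hg).div_const t).arctan
  unfold Y
  exact (((contDiffAt_const.mul hF).mul (hχ.contDiffAt.of_le (by norm_cast))).mul hg).mul
    (hu1.clm_apply contDiffAt_const)

theorem Y_der {t : ℝ} (ht : 0 < t) {u L χ : ℂ → ℝ} {z : ℂ} (v : ℂ)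
    (hu : ContDiffAt ℝ ∞ u z) (hL : ContDiffAt ℝ ∞ L z) (hχ : ContDiff ℝ ∞ χ) (g σ : ℝ)
    (hg : g = Real.exp (-(L z) / 2)) (hσ : σ = u z * g) :
    fderiv ℝ (Y t u L χ v) z v =
      2 * t / (t ^ 2 + σ ^ 2) * χ z * g ^ 2 * (fderiv ℝ u z v) ^ 2
      - 1 / 2 * (2 * t / (t ^ 2 + σ ^ 2) * σ) * χ z * (g * fderiv ℝ u z v) * fderiv ℝ L z v
      + 2 * Real.arctan (σ / t) * (fderiv ℝ χ z v * (g * fderiv ℝ u z v)
        - 1 / 2 * χ z * (g * fderiv ℝ u z v) * fderiv ℝ L z v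
        + χ z * g * fderiv ℝ (fun w => fderiv ℝ u w v) z v) := by
  have hu1 : ContDiffAt ℝ 1 (fderiv ℝ u) z := hu.fderiv_right (by norm_cast)
  have hdu : HasFDerivAt u (fderiv ℝ u z) z := (hu.differentiableAt (by simp)).hasFDerivAt
  have hdL : HasFDerivAt L (fderiv ℝ L z) z := (hL.differentiableAt (by simp)).hasFDerivAt
  have hdχ : HasFDerivAt χ (fderiv ℝ χ z) z :=
    (hχ.differentiable (by simp)).differentiableAt.hasFDerivAt
  have hddu : HasFDerivAt (fun w => fderiv ℝ u w v) (fderiv ℝ (fun w => fderiv ℝ u w v) z) z :=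
    ((hu1.differentiableAt (by simp)).clm_apply (differentiableAt_const _)).hasFDerivAt
  have hl : ∀ {F : ℂ → ℝ} {F' : ℂ →L[ℝ] ℝ}, HasFDerivAt F F' z →
      HasDerivAt (fun s : ℝ => F (z + s • v)) (F' v) 0 := by
    intro F F' hF
    have h1 : HasFDerivAt F F' (z + (0 : ℝ) • v) := by simpa using hF
    have h2 : HasDerivAt (fun s : ℝ => z + s • v) v 0 := by
      have := ((hasDerivAt_id (0 : ℝ)).smul_const v).const_add z
      simpa using this
    exact h1.comp_hasDerivAt (0 : ℝ) h2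
  have hG : HasDerivAt (fun s : ℝ => Real.exp (-(L (z + s • v)) / 2))
      (-(1 / 2) * g * fderiv ℝ L z v) 0 := by
    have h : HasDerivAt (fun s : ℝ => Real.exp (-(L (z + s • v)) / 2))
        (Real.exp (-(L (z + (0 : ℝ) • v)) / 2) * (-(fderiv ℝ L z v) / 2)) 0 :=
      ((hl hdL).neg.div_const 2).exp
    rw [zero_smul, add_zero] at h
    refine h.congr_deriv ?_
    rw [hg]
    ring
  have hs : HasDerivAt (fun s : ℝ => u (z + s • v) * Real.exp (-(L (z + s • v)) / 2) / t)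
      ((g * fderiv ℝ u z v - 1 / 2 * σ * fderiv ℝ L z v) / t) 0 := by
    have h := ((hl hdu).mul hG).div_const t
    simp only [zero_smul, add_zero] at h
    refine h.congr_deriv ?_
    rw [hσ, hg]
    ring
  have hF : HasDerivAt (fun s : ℝ => 2 * Real.arctan (u (z + s • v) *
      Real.exp (-(L (z + s • v)) / 2) / t))
      (2 * t / (t ^ 2 + σ ^ 2) * (g * fderiv ℝ u z v - 1 / 2 * σ * fderiv ℝ L z v)) 0 := by
    have h := hs.arctan.const_mul 2
    simp only [zero_smul, add_zero] at h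
    refine h.congr_deriv ?_
    rw [← hg, ← hσ]
    have h1 : 0 < t ^ 2 + σ ^ 2 := by positivity
    have h2 : (1 : ℝ) + (σ / t) ^ 2 ≠ 0 := by positivity
    field_simp
  have hY := ((hF.mul (hl hdχ)).mul hG).mul (hl hddu)
  have h2 := hl ((Y_smooth (t := t) v hu hL hχ).differentiableAt one_ne_zero).hasFDerivAt
  have h3 := h2.unique hY
  rw [h3]
  simp only [Pi.mul_apply, zero_smul, add_zero]
  rw [← hg, ← hσ]
  ring

/-- the elementary inequality -/
theorem elem {t χ g σ u V ux uy Lx Ly cx cy uxx uyy F C : ℝ} (ht : 0 < t) (h0 : 0 ≤ χ) (h1 : χ ≤ 1)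
    (hgx : |g * ux| ≤ 1) (hgy : |g * uy| ≤ 1) (hgu : |g * u| ≤ 1) (hV : |V| ≤ 1)
    (hF : |F| ≤ Real.pi) (hcx : |cx| ≤ C) (hcy : |cy| ≤ C) (hlap : uxx + uyy = -(V * u)) :
    2 * t / (t ^ 2 + σ ^ 2) * χ * (g ^ 2 * (ux ^ 2 + uy ^ 2)) ≤
      ((2 * t / (t ^ 2 + σ ^ 2) * χ * g ^ 2 * ux ^ 2
        - 1 / 2 * (2 * t / (t ^ 2 + σ ^ 2) * σ) * χ * (g * ux) * Lx
        + F * (cx * (g * ux) - 1 / 2 * χ * (g * ux) * Lx + χ * g * uxx)) +
      (2 * t / (t ^ 2 + σ ^ 2) * χ * g ^ 2 * uy ^ 2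
        - 1 / 2 * (2 * t / (t ^ 2 + σ ^ 2) * σ) * χ * (g * uy) * Ly
        + F * (cy * (g * uy) - 1 / 2 * χ * (g * uy) * Ly + χ * g * uyy))) +
      ((1 + Real.pi) / 2 * (|Lx| + |Ly|) + Real.pi * (2 * C + 1)) := by
  have hpi : 0 < Real.pi := Real.pi_pos
  have hC0 : 0 ≤ C := (abs_nonneg _).trans hcx
  have hden : 0 < t ^ 2 + σ ^ 2 := by positivity
  have hFs : |2 * t / (t ^ 2 + σ ^ 2) * σ| ≤ 1 := by
    rw [div_mul_eq_mul_div, abs_div, abs_of_pos hden, div_le_one hden, abs_mul,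
      abs_of_pos (by positivity : (0 : ℝ) < 2 * t)]
    nlinarith [sq_nonneg (t - |σ|), sq_abs σ]
  have hLx0 := abs_nonneg Lx
  have hLy0 := abs_nonneg Ly
  have m1 : ∀ a b A B : ℝ, |a| ≤ A → |b| ≤ B → |a * b| ≤ A * B := fun a b A B ha hb => by
    rw [abs_mul]
    exact mul_le_mul ha hb (abs_nonneg _) ((abs_nonneg _).trans ha)
  have hχ : |χ| ≤ 1 := by rw [abs_of_nonneg h0]; exact h1
  have a1 : |1 / 2 * (2 * t / (t ^ 2 + σ ^ 2) * σ) * χ * (g * ux) * Lx| ≤ 1 / 2 * |Lx| := by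
    have := m1 _ _ _ _ (m1 _ _ _ _ (m1 _ _ _ _ (m1 (1 / 2) _ (1 / 2) _ (by norm_num) hFs) hχ) hgx)
      (le_refl |Lx|)
    linarith
  have a2 : |1 / 2 * (2 * t / (t ^ 2 + σ ^ 2) * σ) * χ * (g * uy) * Ly| ≤ 1 / 2 * |Ly| := by
    have := m1 _ _ _ _ (m1 _ _ _ _ (m1 _ _ _ _ (m1 (1 / 2) _ (1 / 2) _ (by norm_num) hFs) hχ) hgy)
      (le_refl |Ly|)
    linarith
  have b1 : |F * (cx * (g * ux))| ≤ Real.pi * C := by
    have := m1 _ _ _ _ hF (m1 _ _ _ _ hcx hgx)
    linarith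
  have b2 : |F * (cy * (g * uy))| ≤ Real.pi * C := by
    have := m1 _ _ _ _ hF (m1 _ _ _ _ hcy hgy)
    linarith
  have c1 : |F * (1 / 2 * χ * (g * ux) * Lx)| ≤ Real.pi / 2 * |Lx| := by
    have := m1 _ _ _ _ hF (m1 _ _ _ _ (m1 _ _ _ _ (m1 (1 / 2) _ (1 / 2) _ (by norm_num) hχ) hgx)
      (le_refl |Lx|))
    linarith
  have c2 : |F * (1 / 2 * χ * (g * uy) * Ly)| ≤ Real.pi / 2 * |Ly| := by
    have := m1 _ _ _ _ hF (m1 _ _ _ _ (m1 _ _ _ _ (m1 (1 / 2) _ (1 / 2) _ (by norm_num) hχ) hgy)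
      (le_refl |Ly|))
    linarith
  have d1 : |F * (χ * (V * (g * u)))| ≤ Real.pi := by
    have := m1 _ _ _ _ hF (m1 _ _ _ _ hχ (m1 _ _ _ _ hV hgu))
    linarith
  have e : F * (χ * (V * (g * u))) = -(F * (χ * g * uxx) + F * (χ * g * uyy)) := by
    have : F * (χ * g * uxx) + F * (χ * g * uyy) = F * χ * g * (uxx + uyy) := by ring
    rw [this, hlap]
    ring
  rw [e] at d1
  have a1' := neg_abs_le (1 / 2 * (2 * t / (t ^ 2 + σ ^ 2) * σ) * χ * (g * ux) * Lx)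
  have f1 := (abs_le.1 a1).2
  have f2 := (abs_le.1 a2).2
  have f3 := (abs_le.1 b1).1
  have f4 := (abs_le.1 b2).1
  have f5 := (abs_le.1 c1).2
  have f6 := (abs_le.1 c2).2
  have f7 := (abs_le.1 d1).2
  have e1 : 2 * t / (t ^ 2 + σ ^ 2) * χ * (g ^ 2 * (ux ^ 2 + uy ^ 2)) =
      2 * t / (t ^ 2 + σ ^ 2) * χ * g ^ 2 * ux ^ 2 + 2 * t / (t ^ 2 + σ ^ 2) * χ * g ^ 2 * uy ^ 2 := by
    ring
  have e2 : F * (cx * (g * ux) - 1 / 2 * χ * (g * ux) * Lx + χ * g * uxx) =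
      F * (cx * (g * ux)) - F * (1 / 2 * χ * (g * ux) * Lx) + F * (χ * g * uxx) := by ring
  have e3 : F * (cy * (g * uy) - 1 / 2 * χ * (g * uy) * Ly + χ * g * uyy) =
      F * (cy * (g * uy)) - F * (1 / 2 * χ * (g * uy) * Ly) + F * (χ * g * uyy) := by ring
  rw [e1, e2, e3]
  linarith

end T4

open T4 in
theorem tn4 (h3 : N3) (h1 : N1) : N4 := by
  obtain ⟨χ, Cχ, hCχ, hχs, hχc, hχt, hχ0, hχ1, hχe, hχx, hχy⟩ := bump
  obtain ⟨C₃, hC₃, h3⟩ := h3
  have hpi : 0 < Real.pi := Real.pi_pos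
  obtain ⟨A₂, hA₂⟩ : ∃ A₂ : ℝ, A₂ = volume.real (ball (0 : ℂ) 2) := ⟨_, rfl⟩
  have hA₂0 : 0 ≤ A₂ := by rw [hA₂]; exact measureReal_nonneg
  refine ⟨1 + (1 + Real.pi) / 2 * C₃ + Real.pi * (2 * Cχ + 1) * A₂, ?_, ?_⟩
  · have : 0 ≤ (1 + Real.pi) / 2 * C₃ := by positivity
    have : 0 ≤ Real.pi * (2 * Cχ + 1) * A₂ := by positivity
    linarith
  intro ε t N V u hε hε1 ht hN
  have h3' := h3 ε N V u hε hε1 hN
  have hsol := hN.sol
  obtain ⟨L, hLdef⟩ : ∃ L, L = Lg ε u := ⟨_, rfl⟩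
  rw [← hLdef] at h3'
  have hLs : ∀ z ∈ ball (0 : ℂ) 8, ContDiffAt ℝ ∞ L z := by
    intro z hz
    rw [hLdef]
    exact (h1 ε V u hε hsol z hz).1
  have hb28 : ball (0 : ℂ) 2 ⊆ ball 0 8 := ball_subset_ball (by norm_num)
  have hcb28 : closedBall (0 : ℂ) 2 ⊆ ball 0 8 := closedBall_subset_ball (by norm_num)
  have hus : ∀ z ∈ ball (0 : ℂ) 8, ContDiffAt ℝ ∞ u z := fun z hz =>
    (hsol z (ball_subset_closedBall hz)).1
  have hq : ∀ z, 0 < en u z + ε := fun z => by unfold en; positivity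
  have hg2 : ∀ z, Real.exp (-(L z) / 2) ^ 2 = 1 / (en u z + ε) := by
    intro z
    rw [← Real.exp_nat_mul, hLdef]
    unfold Lg
    rw [show ((2 : ℕ) : ℝ) * (-Real.log (en u z + ε) / 2) = -Real.log (en u z + ε) by
      push_cast; ring, Real.exp_neg, Real.exp_log (hq z), one_div]
  have hgpos : ∀ z, 0 < Real.exp (-(L z) / 2) := fun z => Real.exp_pos _
  have hgb : ∀ z a, a ^ 2 ≤ en u z → |Real.exp (-(L z) / 2) * a| ≤ 1 := by
    intro z a ha
    rw [← sq_le_one_iff_abs_le_one, mul_pow, hg2, one_div_mul_eq_div, div_le_one (hq z)]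
    linarith
  -- the fields
  have hYs : ∀ v : ℂ, ContDiff ℝ 1 (Y t u L χ v) := by
    intro v
    rw [contDiff_iff_contDiffAt]
    intro z
    by_cases hz : z ∈ tsupport χ
    · exact Y_smooth v (hus z (hb28 (hχt hz))) (hLs z (hb28 (hχt hz))) hχs
    · have h1 : Y t u L χ v =ᶠ[𝓝 z] fun _ => 0 := by
        filter_upwards [notMem_tsupport_iff_eventuallyEq.1 hz] with w hw
        unfold Y
        rw [hw]
        simp
      exact contDiffAt_const.congr_of_eventuallyEq h1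
  have hYc : ∀ v : ℂ, HasCompactSupport (Y t u L χ v) := by
    intro v
    refine hχc.mono fun z hz => ?_
    rw [Function.mem_support] at hz ⊢
    intro h0
    apply hz
    unfold Y
    rw [h0]
    simp
  have hY0 : ∀ v : ℂ, ∀ z, z ∉ tsupport χ → fderiv ℝ (Y t u L χ v) z v = 0 := by
    intro v z hz
    have h1 : Y t u L χ v =ᶠ[𝓝 z] fun _ => 0 := by
      filter_upwards [notMem_tsupport_iff_eventuallyEq.1 hz] with w hw
      unfold Y
      rw [hw]
      simp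
    rw [h1.fderiv_eq]
    simp
  obtain ⟨i1, i1'⟩ := int_der (hYs 1) (hYc 1) 1
  obtain ⟨i2, i2'⟩ := int_der (hYs I) (hYc I) I
  -- the set
  obtain ⟨A, hA⟩ : ∃ A : Set ℂ, A = {z | z ∈ ball (0 : ℂ) 1 ∧ |u z| < t * Real.sqrt (en u z + ε)} :=
    ⟨_, rfl⟩
  rw [← hA]
  obtain ⟨r, hr⟩ : ∃ r : ℂ → ℝ, r = fun z => (dx u z ^ 2 + dy u z ^ 2) / (en u z + ε) := ⟨_, rfl⟩
  have hrz : ∀ z, (dx u z ^ 2 + dy u z ^ 2) / (en u z + ε) = r z := fun z => by rw [hr]
  simp only [hrz]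
  have hr0 : ∀ z, 0 ≤ r z := by
    intro z
    rw [hr]
    have := hq z
    positivity
  have hb18 : ball (0 : ℂ) 1 ⊆ ball 0 8 := ball_subset_ball (by norm_num)
  have hAopen : IsOpen A := by
    have hcu : ContinuousOn u (ball (0 : ℂ) 1) := fun z hz =>
      (hus z (hb18 hz)).continuousAt.continuousWithinAt
    have hcx : ∀ v : ℂ, ContinuousOn (fun z => fderiv ℝ u z v) (ball (0 : ℂ) 1) := fun v z hz => by
      have h : ContDiffAt ℝ 1 (fderiv ℝ u) z := (hus z (hb18 hz)).fderiv_right (by norm_cast)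
      exact (h.continuousAt.clm_apply continuousAt_const).continuousWithinAt
    have hce : ContinuousOn (fun z => |u z| - t * Real.sqrt (en u z + ε)) (ball (0 : ℂ) 1) := by
      unfold en dx dy
      exact (hcu.abs).sub (continuousOn_const.mul (((((hcx 1).pow 2).add ((hcx I).pow 2)).add
        (hcu.pow 2)).add continuousOn_const).sqrt)
    have h2 := hce.isOpen_inter_preimage isOpen_ball (isOpen_Iio (a := (0 : ℝ)))
    have h4 : A = ball (0 : ℂ) 1 ∩ (fun z => |u z| - t * Real.sqrt (en u z + ε)) ⁻¹' Set.Iio 0 := by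
      rw [hA]
      ext z
      simp only [Set.mem_ofPred_eq, Set.mem_inter_iff, Set.mem_preimage, Set.mem_Iio, sub_neg]
    rw [h4]
    exact h2
  rw [← integral_indicator hAopen.measurableSet]
  by_cases hint : Integrable (A.indicator r)
  swap
  · rw [integral_undef hint]
    have hN0 := hN.nonneg
    positivity
  -- the right side
  obtain ⟨w, hw⟩ : ∃ w : ℂ → ℝ, w = fun z => (1 + Real.pi) / 2 * (|dx L z| + |dy L z|) +
      Real.pi * (2 * Cχ + 1) := ⟨_, rfl⟩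
  have hw0 : ∀ z, 0 ≤ w z := by
    intro z
    rw [hw]
    positivity
  have hLc : IntegrableOn (fun z => |dx L z| + |dy L z|) (ball (0 : ℂ) 2) := by
    have hc : ∀ v : ℂ, ContinuousOn (fun z => |fderiv ℝ L z v|) (closedBall (0 : ℂ) 2) :=
      fun v z hz => by
      have h : ContDiffAt ℝ 1 (fderiv ℝ L) z := (hLs z (hcb28 hz)).fderiv_right (by norm_cast)
      exact (h.continuousAt.clm_apply continuousAt_const).abs.continuousWithinAt
    have := (((hc 1).add (hc I)).integrableOn_compact (μ := volume) (isCompact_closedBall 0 2))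
    exact this.mono_set ball_subset_closedBall
  have hcon : IntegrableOn (fun _ : ℂ => Real.pi * (2 * Cχ + 1)) (ball (0 : ℂ) 2) :=
    integrableOn_const (measure_ball_lt_top.ne)
  have hwi : IntegrableOn w (ball (0 : ℂ) 2) := by
    rw [hw]
    exact (hLc.const_mul _).add hcon
  have hwi' : Integrable ((ball (0 : ℂ) 2).indicator w) := by
    rw [integrable_indicator_iff measurableSet_ball]
    exact hwi
  have hpt : ∀ z, t⁻¹ * A.indicator r z ≤
      (fderiv ℝ (Y t u L χ 1) z 1 + fderiv ℝ (Y t u L χ I) z I) + (ball (0 : ℂ) 2).indicator w z := by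
    intro z
    by_cases hz : z ∈ tsupport χ
    · have hz2 := hχt hz
      have hz8 := hb28 hz2
      rw [Set.indicator_of_mem hz2]
      have hE := elem (t := t) (χ := χ z) (g := Real.exp (-(L z) / 2))
        (σ := u z * Real.exp (-(L z) / 2)) (u := u z) (V := V z) (ux := fderiv ℝ u z 1)
        (uy := fderiv ℝ u z I) (Lx := fderiv ℝ L z 1) (Ly := fderiv ℝ L z I)
        (cx := fderiv ℝ χ z 1) (cy := fderiv ℝ χ z I)
        (uxx := fderiv ℝ (fun w => fderiv ℝ u w 1) z 1)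
        (uyy := fderiv ℝ (fun w => fderiv ℝ u w I) z I)
        (F := 2 * Real.arctan (u z * Real.exp (-(L z) / 2) / t)) (C := Cχ) ht (hχ0 z) (hχ1 z)
        (hgb z _ (by unfold en dx; nlinarith [sq_nonneg (dy u z), sq_nonneg (u z)]))
        (hgb z _ (by unfold en dy; nlinarith [sq_nonneg (dx u z), sq_nonneg (u z)]))
        (hgb z _ (by unfold en; nlinarith [sq_nonneg (dx u z), sq_nonneg (dy u z)]))
        (hsol z (ball_subset_closedBall hz8)).2.2.1
        (by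
          rw [abs_mul, abs_of_pos (by norm_num : (0 : ℝ) < 2)]
          have e1 := Real.arctan_lt_pi_div_two (u z * Real.exp (-(L z) / 2) / t)
          have e2 := Real.neg_pi_div_two_lt_arctan (u z * Real.exp (-(L z) / 2) / t)
          have e3 : |Real.arctan (u z * Real.exp (-(L z) / 2) / t)| ≤ Real.pi / 2 :=
            abs_le.2 ⟨by linarith, by linarith⟩
          linarith)
        (hχx z) (hχy z)
        (by
          have := (hsol z (ball_subset_closedBall hz8)).2.2.2.2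
          change fderiv ℝ (fun w => fderiv ℝ u w 1) z 1 + fderiv ℝ (fun w => fderiv ℝ u w I) z I +
            V z * u z = 0 at this
          linarith)
      rw [Y_der ht 1 (hus z hz8) (hLs z hz8) hχs _ _ rfl rfl,
        Y_der ht I (hus z hz8) (hLs z hz8) hχs _ _ rfl rfl]
      refine le_trans ?_ (hE.trans (le_of_eq (by rw [hw]; rfl)))
      have hr' : Real.exp (-(L z) / 2) ^ 2 * (fderiv ℝ u z 1 ^ 2 + fderiv ℝ u z I ^ 2) = r z := by
        rw [hg2, hr, one_div_mul_eq_div]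
        rfl
      rw [hr']
      have hden : 0 < t ^ 2 + (u z * Real.exp (-(L z) / 2)) ^ 2 := by positivity
      by_cases hzA : z ∈ A
      · rw [Set.indicator_of_mem hzA]
        rw [hA] at hzA
        obtain ⟨hz1, hz3⟩ := hzA
        rw [hχe z hz1, mul_one]
        apply mul_le_mul_of_nonneg_right _ (hr0 z)
        rw [le_div_iff₀ hden, inv_mul_le_iff₀ ht]
        have h5 : (u z * Real.exp (-(L z) / 2)) ^ 2 ≤ t ^ 2 := by
          rw [mul_pow, hg2, mul_one_div, div_le_iff₀ (hq z)]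
          have h6 : |u z| ^ 2 ≤ (t * Real.sqrt (en u z + ε)) ^ 2 :=
            pow_le_pow_left₀ (abs_nonneg _) hz3.le 2
          rw [sq_abs, mul_pow, Real.sq_sqrt (hq z).le] at h6
          exact h6
        nlinarith
      · rw [Set.indicator_of_notMem hzA, mul_zero]
        have := hr0 z
        have := hχ0 z
        positivity
    · have hzA : z ∉ A := by
        intro h
        rw [hA] at h
        have h5 := hχe z h.1
        rw [image_eq_zero_of_notMem_tsupport hz] at h5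
        exact zero_ne_one h5
      rw [Set.indicator_of_notMem hzA, mul_zero, hY0 1 z hz, hY0 I z hz, add_zero, zero_add]
      exact Set.indicator_nonneg (fun z _ => hw0 z) z
  have hmono := integral_mono (hint.const_mul t⁻¹) ((i1.add i2).add hwi') hpt
  have hsum : ∫ z, ((fderiv ℝ (Y t u L χ 1) z 1 + fderiv ℝ (Y t u L χ I) z I) +
      (ball (0 : ℂ) 2).indicator w z) = ∫ z in ball (0 : ℂ) 2, w z := by
    have e1 := integral_add (i1.add i2) hwi'
    have e2 := integral_add i1 i2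
    rw [i1', i2', add_zero] at e2
    simp only [Pi.add_apply] at e1
    rw [e1, e2, zero_add, integral_indicator measurableSet_ball]
  have hwint : ∫ z in ball (0 : ℂ) 2, w z ≤ (1 + Real.pi) / 2 * (C₃ * (1 + N)) +
      Real.pi * (2 * Cχ + 1) * A₂ := by
    rw [hw, integral_add (hLc.const_mul _) hcon, integral_const_mul, setIntegral_const, smul_eq_mul,
      ← hA₂, mul_comm A₂]
    have : (1 + Real.pi) / 2 * ∫ z in ball (0 : ℂ) 2, (|dx L z| + |dy L z|) ≤
        (1 + Real.pi) / 2 * (C₃ * (1 + N)) := mul_le_mul_of_nonneg_left h3' (by positivity)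
    linarith
  rw [integral_const_mul] at hmono
  have hfin : t⁻¹ * ∫ z, A.indicator r z ≤ (1 + Real.pi) / 2 * (C₃ * (1 + N)) +
      Real.pi * (2 * Cχ + 1) * A₂ := by
    refine hmono.trans ?_
    change ∫ z, ((fderiv ℝ (Y t u L χ 1) z 1 + fderiv ℝ (Y t u L χ I) z I) +
      (ball (0 : ℂ) 2).indicator w z) ≤ _
    rw [hsum]
    exact hwint
  rw [inv_mul_le_iff₀ ht] at hfin
  refine hfin.trans ?_
  have hN0 := hN.nonneg
  have h6 : Real.pi * (2 * Cχ + 1) * A₂ ≤ Real.pi * (2 * Cχ + 1) * A₂ * (1 + N) :=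
    le_mul_of_one_le_right (by positivity) (by linarith)
  have h7 : (1 + Real.pi) / 2 * (C₃ * (1 + N)) + Real.pi * (2 * Cχ + 1) * A₂ ≤
      (1 + (1 + Real.pi) / 2 * C₃ + Real.pi * (2 * Cχ + 1) * A₂) * (1 + N) := by nlinarith
  calc t * ((1 + Real.pi) / 2 * (C₃ * (1 + N)) + Real.pi * (2 * Cχ + 1) * A₂) ≤
      t * ((1 + (1 + Real.pi) / 2 * C₃ + Real.pi * (2 * Cχ + 1) * A₂) * (1 + N)) :=
        mul_le_mul_of_nonneg_left h7 ht.le
    _ = _ := by ring

end Pool.Agent.H303.NY
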