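import Pool.Agent.H303.NY.Stm

set_option autoImplicit false
open MeasureTheory Filter Topology Complex Metric
open scoped ContDiff ENNReal

namespace Pool.Agent.H303.NY.T5

/-- a maximal separated subset of a compact set -/
theorem cover {K : Set ℂ} (hK : IsCompact K) {s : ℝ} (hs : 0 < s) :
    ∃ F : Finset ℂ, (F : Set ℂ) ⊆ K ∧ (∀ x ∈ F, ∀ y ∈ F, x ≠ y → s < dist x y) ∧
      K ⊆ ⋃ x : F, closedBall (x : ℂ) s := by
  have hh : 0 < s / 2 := by linarith
  obtain ⟨N, hNK, hNf, hN⟩ := Metric.exists_finite_isCover_of_isCompact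
    (ε := ⟨s / 2, hh.le⟩) (s := K) (fun h => hh.ne' (congrArg NNReal.toReal h)) hK
  have e : (⟨s, hs.le⟩ : NNReal) = 2 * ⟨s / 2, hh.le⟩ := by
    apply NNReal.eq
    show s = 2 * (s / 2)
    ring
  have hfin : packingNumber (⟨s, hs.le⟩ : NNReal) K ≠ ⊤ := by
    rw [e]
    refine ne_top_of_le_ne_top ?_ (packingNumber_two_mul_le_externalCoveringNumber _ K)
    exact ne_top_of_le_ne_top (Set.encard_ne_top_iff.2 hNf)
      hN.externalCoveringNumber_le_encard
  have hS : (maximalSeparatedSet (⟨s, hs.le⟩ : NNReal) K).Finite := by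
    rw [← Set.encard_ne_top_iff, encard_maximalSeparatedSet hfin]
    exact hfin
  refine ⟨hS.toFinset, ?_, ?_, ?_⟩
  · rw [Set.Finite.coe_toFinset]
    exact maximalSeparatedSet_subset
  · intro x hx y hy hxy
    have h := isSeparated_maximalSeparatedSet (ε := (⟨s, hs.le⟩ : NNReal)) (A := K)
      (hS.mem_toFinset.1 hx) (hS.mem_toFinset.1 hy) hxy
    have h0 : ENNReal.ofNNReal (⟨s, hs.le⟩ : NNReal) < edist x y := h
    rw [edist_nndist] at h0
    have h2 : (⟨s, hs.le⟩ : NNReal) < nndist x y := by exact_mod_cast h0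
    exact h2
  · intro x hx
    have h := isCover_iff_subset_iUnion_closedBall.1 (isCover_maximalSeparatedSet hfin) hx
    rw [Set.mem_iUnion₂] at h
    obtain ⟨y, hy, hxy⟩ := h
    exact Set.mem_iUnion.2 ⟨⟨y, hS.mem_toFinset.2 hy⟩, hxy⟩

/-- the number of points of a separated subset -/
theorem card_le {K : Set ℂ} {B s₀ s : ℝ} (hB : 0 ≤ B) (hs : 0 < s) (hs' : s < s₀)
    (h : ∀ s, 0 < s → s < s₀ → volume (thickening s K) ≤ ENNReal.ofReal (B * s))
    {F : Finset ℂ} (hF : (F : Set ℂ) ⊆ K) (hsep : ∀ x ∈ F, ∀ y ∈ F, x ≠ y → s < dist x y) :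
    (F.card : ℝ) * s ≤ B := by
  have hh : 0 < s / 2 := by linarith
  have h1 : volume (⋃ x ∈ F, ball x (s / 2)) ≤ ENNReal.ofReal (B * (s / 2)) := by
    refine (measure_mono ?_).trans (h (s / 2) hh (by linarith))
    exact Set.iUnion₂_subset fun x hx => ball_subset_thickening (hF hx) _
  have h2 : volume (⋃ x ∈ F, ball x (s / 2)) = ∑ x ∈ F, volume (ball x (s / 2)) := by
    refine measure_biUnion_finset (fun x hx y hy hxy => ?_) fun x _ => measurableSet_ball
    refine ball_disjoint_ball ?_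
    have := hsep x hx y hy hxy
    linarith
  have h3 : ∀ x : ℂ, volume (ball x (s / 2)) = ENNReal.ofReal ((s / 2) ^ 2 * Real.pi) := by
    intro x
    rw [Complex.volume_ball, ENNReal.ofReal_mul (by positivity), ENNReal.ofReal_pow hh.le]
    congr 1
    rw [← NNReal.coe_real_pi, ENNReal.ofReal_coe_nnreal]
  rw [h2, Finset.sum_congr rfl fun x _ => h3 x, Finset.sum_const, nsmul_eq_mul,
    ← ENNReal.ofReal_natCast, ← ENNReal.ofReal_mul (by positivity),
    ENNReal.ofReal_le_ofReal_iff (by positivity)] at h1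
  have h4 : (F.card : ℝ) * s * Real.pi ≤ 2 * B := by
    have h5 : ((F.card : ℝ) * s * Real.pi) * (s / 4) ≤ (2 * B) * (s / 4) := by
      calc ((F.card : ℝ) * s * Real.pi) * (s / 4) = (F.card : ℝ) * ((s / 2) ^ 2 * Real.pi) := by
            ring
        _ ≤ B * (s / 2) := h1
        _ = (2 * B) * (s / 4) := by ring
    exact le_of_mul_le_mul_right h5 (by positivity)
  have h6 : 0 ≤ (F.card : ℝ) * s := by positivity
  have h7 := Real.pi_gt_three
  nlinarith

end Pool.Agent.H303.NY.T5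

namespace Pool.Agent.H303.NY

theorem tn5' (K : Set ℂ) (B s₀ : ℝ) (hK : IsCompact K) (hB : 0 ≤ B) (hs₀ : 0 < s₀)
    (h : ∀ s, 0 < s → s < s₀ → volume (thickening s K) ≤ ENNReal.ofReal (B * s)) :
    (μH[1] : Measure ℂ) K ≤ ENNReal.ofReal (2 * B) := by
  have hsn : ∀ n : ℕ, 0 < s₀ / ((n : ℝ) + 2) := fun n => by positivity
  have hsn' : ∀ n : ℕ, s₀ / ((n : ℝ) + 2) < s₀ := fun n => by
    rw [div_lt_iff₀ (by positivity)]
    have : (0 : ℝ) ≤ n := Nat.cast_nonneg n
    nlinarith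
  choose F hFK hFs hFc using fun n : ℕ => T5.cover hK (hsn n)
  have hdiam : ∀ (n : ℕ) (x : F n), ediam (closedBall (x : ℂ) (s₀ / ((n : ℝ) + 2)))
      ≤ ENNReal.ofReal (2 * (s₀ / ((n : ℝ) + 2))) := by
    intro n x
    refine ediam_le fun a ha b hb => ?_
    rw [edist_dist]
    refine ENNReal.ofReal_le_ofReal ?_
    have h1 := dist_triangle_right a b (x : ℂ)
    rw [mem_closedBall] at ha hb
    linarith
  have ht : Tendsto (fun n : ℕ => s₀ / ((n : ℝ) + 2)) atTop (𝓝 0) :=
    tendsto_const_nhds.div_atTop (tendsto_natCast_atTop_atTop.atTop_add tendsto_const_nhds)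
  have hr : Tendsto (fun n : ℕ => ENNReal.ofReal (2 * (s₀ / ((n : ℝ) + 2)))) atTop (𝓝 0) := by
    have h1 := ENNReal.tendsto_ofReal (ht.const_mul 2)
    rw [mul_zero, ENNReal.ofReal_zero] at h1
    exact h1
  have key := Measure.hausdorffMeasure_le_liminf_sum (1 : ℝ) K _ hr
    (fun n (x : F n) => closedBall (x : ℂ) (s₀ / ((n : ℝ) + 2)))
    (Eventually.of_forall fun n x => hdiam n x) (Eventually.of_forall fun n => hFc n)
  refine key.trans ?_
  refine liminf_le_of_frequently_le' (Frequently.of_forall fun n => ?_)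
  have hcard := T5.card_le hB (hsn n) (hsn' n) h (hFK n) (hFs n)
  calc ∑ x : F n, ediam (closedBall (x : ℂ) (s₀ / ((n : ℝ) + 2))) ^ (1 : ℝ)
      ≤ ∑ _x : F n, ENNReal.ofReal (2 * (s₀ / ((n : ℝ) + 2))) := by
        refine Finset.sum_le_sum fun x _ => ?_
        rw [ENNReal.rpow_one]
        exact hdiam n x
    _ = ENNReal.ofReal (2 * (((F n).card : ℝ) * (s₀ / ((n : ℝ) + 2)))) := by
        rw [Finset.sum_const, Finset.card_univ, Fintype.card_coe, nsmul_eq_mul,
          ← ENNReal.ofReal_natCast, ← ENNReal.ofReal_mul (by positivity)]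
        congr 1
        ring
    _ ≤ ENNReal.ofReal (2 * B) := ENNReal.ofReal_le_ofReal (by linarith)

theorem tn5 : N5 := fun K B s₀ hK hB hs₀ h => tn5' K B s₀ hK hB hs₀ h

end Pool.Agent.H303.NY
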