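import Pool.Agent.H303.NY.Stm

/-!
# The length of compact subsets of the regular part of the nodal set
-/

set_option autoImplicit false
open MeasureTheory Filter Topology Complex Metric
open scoped ContDiff ENNReal

namespace Pool.Agent.H303.NY

open Pool.Agent.Q73.NL Pool.Agent.Q73.AD Pool.Agent.H303.NP

noncomputable section

namespace T6

/-- the square of the gradient -/
def gs (u : ℂ → ℝ) (z : ℂ) : ℝ := dx u z ^ 2 + dy u z ^ 2

lemma gs_nonneg (u : ℂ → ℝ) (z : ℂ) : 0 ≤ gs u z := by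
  unfold gs
  positivity

lemma fderiv_le (u : ℂ → ℝ) (z : ℂ) : ‖fderiv ℝ u z‖ ≤ Real.sqrt (gs u z) := by
  refine ContinuousLinearMap.opNorm_le_bound _ (Real.sqrt_nonneg _) fun v => ?_
  have h1 : fderiv ℝ u z v = v.re * dx u z + v.im * dy u z := by
    have h2 : v = v.re • (1 : ℂ) + v.im • I := by
      apply Complex.ext <;> simp
    conv_lhs => rw [h2, map_add, map_smul, map_smul]
    rfl
  rw [h1, Real.norm_eq_abs]
  have h3 : ‖v‖ = Real.sqrt (v.re ^ 2 + v.im ^ 2) := by
    rw [Complex.norm_def, Complex.normSq_apply]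
    congr 1
    ring
  rw [h3, ← Real.sqrt_mul (gs_nonneg u z)]
  apply Real.abs_le_sqrt
  unfold gs
  nlinarith [sq_nonneg (v.re * dy u z - v.im * dx u z)]

variable {N : ℝ} {V u : ℂ → ℝ}

lemma cdAt (hn : Nrm N V u) {z : ℂ} (hz : z ∈ closedBall (0 : ℂ) 1) : ContDiffAt ℝ ∞ u z :=
  (hn.sol z (closedBall_subset_closedBall (by norm_num) hz)).1

lemma gs_cont (hn : Nrm N V u) : ContinuousOn (gs u) (closedBall (0 : ℂ) 1) := by
  intro z hz
  have h1 : ContinuousAt (fderiv ℝ u) z :=
    ((cdAt hn hz).fderiv_right (m := 0) (by norm_num)).continuousAt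
  have h2 : ContinuousAt (fun z => fderiv ℝ u z 1) z := h1.clm_apply continuousAt_const
  have h3 : ContinuousAt (fun z => fderiv ℝ u z I) z := h1.clm_apply continuousAt_const
  exact ((h2.pow 2).add (h3.pow 2)).continuousWithinAt

lemma u_cont (hn : Nrm N V u) : ContinuousOn u (closedBall (0 : ℂ) 1) :=
  fun _ hz => (cdAt hn hz).continuousAt.continuousWithinAt

lemma en_eq (u : ℂ → ℝ) (z : ℂ) : en u z = gs u z + u z ^ 2 := rfl

lemma en_cont (hn : Nrm N V u) : ContinuousOn (en u) (closedBall (0 : ℂ) 1) :=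
  (gs_cont hn).add ((u_cont hn).pow 2)

end T6

open T6

theorem tn6 (h4 : N4) (h5 : N5) : N6 := by
  obtain ⟨C, hC, h4⟩ := h4
  refine ⟨8 * C, by linarith, ?_⟩
  intro N V u K hn hK hKp
  rcases K.eq_empty_or_nonempty with rfl | hne
  · rw [measure_empty]
    exact bot_le
  have hKb : K ⊆ ball (0 : ℂ) 1 := fun z hz => (hKp z hz).1
  have hKc : K ⊆ closedBall (0 : ℂ) 1 := hKb.trans ball_subset_closedBall
  have hN := hn.nonneg
  -- the minimum of the gradient
  obtain ⟨x₀, hx₀, hmin⟩ := hK.exists_isMinOn hne ((gs_cont hn).mono hKc)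
  obtain ⟨m, hm⟩ : ∃ m, m = gs u x₀ := ⟨_, rfl⟩
  have hm0 : 0 < m := by
    rw [hm]
    exact (hKp x₀ hx₀).2.2
  have hgm : ∀ z ∈ K, m ≤ gs u z := fun z hz => by
    rw [hm]
    exact hmin hz
  -- uniform continuity
  have huc := (isCompact_closedBall (0 : ℂ) 1).uniformContinuousOn_of_continuous (gs_cont hn)
  obtain ⟨δ, hδ, hδc⟩ := Metric.uniformContinuousOn_iff.1 huc (m / 2) (by linarith)
  obtain ⟨δ', hδ', hδb⟩ := hK.exists_thickening_subset_open isOpen_ball hKb
  obtain ⟨s₀, hs₀⟩ : ∃ s₀, s₀ = min (min δ δ') (1 / 2) := ⟨_, rfl⟩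
  have hs₀pos : 0 < s₀ := by
    rw [hs₀]
    exact lt_min (lt_min hδ hδ') (by norm_num)
  have hs₀1 : s₀ ≤ δ := by
    rw [hs₀]
    exact (min_le_left _ _).trans (min_le_left _ _)
  have hs₀2 : s₀ ≤ δ' := by
    rw [hs₀]
    exact (min_le_left _ _).trans (min_le_right _ _)
  have hs₀3 : s₀ ≤ 1 / 2 := by
    rw [hs₀]
    exact min_le_right _ _
  obtain ⟨ε, hε⟩ : ∃ ε, ε = min 1 (m / 4) := ⟨_, rfl⟩
  have hε0 : 0 < ε := by
    rw [hε]
    exact lt_min one_pos (by linarith)
  have hε1 : ε ≤ 1 := by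
    rw [hε]
    exact min_le_left _ _
  have hε2 : ε ≤ m / 4 := by
    rw [hε]
    exact min_le_right _ _
  have hmain := h5 K (4 * C * (1 + N)) s₀ hK (by positivity) hs₀pos ?_
  · have h6 : 2 * (4 * C * (1 + N)) = 8 * C * (1 + N) := by ring
    rwa [h6] at hmain
  intro s hs hss
  -- the neighbourhood
  have hTb : thickening s K ⊆ ball (0 : ℂ) 1 :=
    (thickening_mono (hss.le.trans hs₀2) K).trans hδb
  have hkey : ∀ y ∈ thickening s K, m / 2 ≤ gs u y ∧ |u y| ≤ Real.sqrt (2 * gs u y) * s := by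
    intro y hy
    have hyb := hTb hy
    have hyc := ball_subset_closedBall hyb
    obtain ⟨x, hx, hxy⟩ := mem_thickening_iff.1 hy
    have hxc := hKc hx
    have h6 : |gs u y - gs u x| < m / 2 := by
      have := hδc y hyc x hxc (by linarith)
      rwa [Real.dist_eq] at this
    have h7 := (abs_lt.1 h6).1
    have h8 := hgm x hx
    have h9 : m / 2 ≤ gs u y := by linarith
    refine ⟨h9, ?_⟩
    have hseg : segment ℝ x y ⊆ closedBall (0 : ℂ) 1 :=
      (convex_closedBall (0 : ℂ) 1).segment_subset hxc hyc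
    have h10 : ‖u y - u x‖ ≤ Real.sqrt (2 * gs u y) * ‖y - x‖ := by
      refine Convex.norm_image_sub_le_of_norm_fderiv_le (𝕜 := ℝ) (s := segment ℝ x y)
        (fun z hz => (cdAt hn (hseg hz)).differentiableAt (by norm_num)) (fun z hz => ?_)
        (convex_segment x y) (left_mem_segment ℝ x y) (right_mem_segment ℝ x y)
      refine (fderiv_le u z).trans (Real.sqrt_le_sqrt ?_)
      have hzy : dist z y < δ := by
        have h11 : z ∈ closedBall y (dist x y) :=
          (convex_closedBall y (dist x y)).segment_subset (mem_closedBall.2 le_rfl)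
            (mem_closedBall_self dist_nonneg) hz
        have h12 := mem_closedBall.1 h11
        rw [dist_comm x y] at h12
        linarith
      have h11 := hδc z (hseg hz) y hyc hzy
      rw [Real.dist_eq] at h11
      have h12 := (abs_lt.1 h11).2
      linarith
    rw [(hKp x hx).2.1, sub_zero, Real.norm_eq_abs, ← dist_eq_norm] at h10
    exact h10.trans (mul_le_mul_of_nonneg_left hxy.le (Real.sqrt_nonneg _))
  have hsq : ∀ y ∈ thickening s K, u y ^ 2 ≤ gs u y / 2 := by
    intro y hy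
    obtain ⟨h6, h7⟩ := hkey y hy
    have h8 : |u y| ^ 2 ≤ (Real.sqrt (2 * gs u y) * s) ^ 2 := pow_le_pow_left₀ (abs_nonneg _) h7 2
    rw [sq_abs, mul_pow, Real.sq_sqrt (by linarith [gs_nonneg u y])] at h8
    have h9 : s ^ 2 ≤ 1 / 4 := by nlinarith
    have h10 := gs_nonneg u y
    nlinarith
  -- the set of N4
  obtain ⟨A, hA⟩ : ∃ A : Set ℂ, A = {z | z ∈ ball (0 : ℂ) 1 ∧
    |u z| < 2 * s * Real.sqrt (en u z + ε)} := ⟨_, rfl⟩
  have hTA : thickening s K ⊆ A := by
    intro y hy
    obtain ⟨h6, h7⟩ := hkey y hy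
    rw [hA]
    refine ⟨hTb hy, h7.trans_lt ?_⟩
    have h8 : 0 < gs u y := by linarith
    have h9 : Real.sqrt (2 * gs u y) < 2 * Real.sqrt (en u y + ε) := by
      have h10 : (2 : ℝ) = Real.sqrt 4 := by
        rw [show (4 : ℝ) = 2 ^ 2 by norm_num, Real.sqrt_sq (by norm_num)]
      have h11 : 2 * Real.sqrt (en u y + ε) = Real.sqrt (4 * (en u y + ε)) := by
        rw [Real.sqrt_mul (by norm_num), ← h10]
      rw [h11]
      apply Real.sqrt_lt_sqrt (by linarith)
      rw [en_eq]
      nlinarith [sq_nonneg (u y)]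
    nlinarith
  have hAb : A ⊆ ball (0 : ℂ) 1 := by
    rw [hA]
    exact fun z hz => hz.1
  have hAm : MeasurableSet A := by
    have h6 : ContinuousOn (fun z => 2 * s * Real.sqrt (en u z + ε) - |u z|) (ball (0 : ℂ) 1) :=
      (continuousOn_const.mul (((en_cont hn).mono ball_subset_closedBall).add
        continuousOn_const).sqrt).sub ((u_cont hn).mono ball_subset_closedBall).abs
    have h7 := h6.isOpen_inter_preimage isOpen_ball isOpen_Ioi (t := Set.Ioi 0)
    have h8 : A = ball (0 : ℂ) 1 ∩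
        (fun z => 2 * s * Real.sqrt (en u z + ε) - |u z|) ⁻¹' Set.Ioi 0 := by
      rw [hA]
      ext z
      simp [sub_pos]
    rw [h8]
    exact h7.measurableSet
  -- the integrand
  obtain ⟨f, hf⟩ : ∃ f : ℂ → ℝ, f = fun z => (dx u z ^ 2 + dy u z ^ 2) / (en u z + ε) := ⟨_, rfl⟩
  have hen0 : ∀ z, 0 < en u z + ε := by
    intro z
    rw [en_eq]
    have := gs_nonneg u z
    positivity
  have hf0 : ∀ z, 0 ≤ f z := by
    intro z
    rw [hf]
    exact div_nonneg (gs_nonneg u z) (hen0 z).le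
  have hfc : ContinuousOn f (closedBall (0 : ℂ) 1) := by
    rw [hf]
    exact (gs_cont hn).div ((en_cont hn).add continuousOn_const) fun z _ => (hen0 z).ne'
  have hfi : IntegrableOn f A :=
    (hfc.integrableOn_compact (isCompact_closedBall _ _)).mono_set
      (hAb.trans ball_subset_closedBall)
  have h6 := h4 ε (2 * s) N V u hε0 hε1 (by linarith) hn
  rw [← hA] at h6
  have h7 : ∫ z in thickening s K, f z ≤ ∫ z in A, f z :=
    setIntegral_mono_set hfi (Eventually.of_forall hf0) (Eventually.of_forall fun _ hx => hTA hx)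
  have hfin : volume (thickening s K) ≠ ⊤ :=
    ((measure_mono hTb).trans_lt measure_ball_lt_top).ne
  have h8 : 1 / 2 * volume.real (thickening s K) ≤ ∫ z in thickening s K, f z := by
    refine setIntegral_ge_of_const_le_real isOpen_thickening.measurableSet hfin (fun y hy => ?_)
      (hfi.mono_set hTA)
    obtain ⟨h9, -⟩ := hkey y hy
    have h10 := hsq y hy
    rw [hf]
    show 1 / 2 ≤ gs u y / (en u y + ε)
    rw [le_div_iff₀ (hen0 y), en_eq]
    linarith
  have h9 : ∫ z in A, f z ≤ C * (2 * s) * (1 + N) := by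
    rw [hf]
    exact h6
  have h10 : volume.real (thickening s K) ≤ 4 * C * (1 + N) * s := by
    linarith
  rw [← ENNReal.ofReal_toReal hfin]
  exact ENNReal.ofReal_le_ofReal h10

end

end Pool.Agent.H303.NY
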