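import Pool.Agent.H303.NY.Stm
import Pool.Graph.R_pool_sql_team_seeded_3997aac3.Q73.NL.TU3

/-!
# N7: the singular zeros are isolated (helper997)
-/

set_option autoImplicit false
set_option linter.all false
open MeasureTheory Filter Topology Complex Metric
open scoped ContDiff ENNReal

namespace Pool.Agent.H303.NY

open Pool.Agent.Q73.NL

namespace T7

theorem cd_iter {u : ℂ → ℝ} {p : ℂ} (hu : ContDiffAt ℝ ∞ u p) (k : ℕ) :
    ContDiffAt ℝ ∞ (iteratedFDeriv ℝ k u) p :=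
  hu.iteratedFDeriv_right (by norm_cast)

/-- symmetry of the iterated derivatives of a smooth function: adjacent transpositions -/
theorem symm_iter : ∀ (n : ℕ) {u : ℂ → ℝ} {p : ℂ}, (∀ᶠ y in 𝓝 p, ContDiffAt ℝ ∞ u y) →
    ∀ (i : Fin n) (v : Fin (n + 1) → ℂ),
    iteratedFDeriv ℝ (n + 1) u p (v ∘ Equiv.swap i.castSucc i.succ) =
      iteratedFDeriv ℝ (n + 1) u p v := by
  intro n
  induction n with
  | zero => intro u p _ i; exact i.elim0
  | succ n ih =>
    intro u p hev i v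
    have hu : ContDiffAt ℝ ∞ u p := hev.self_of_nhds
    have hd : ∀ (k : ℕ) (y : ℂ), ContDiffAt ℝ ∞ u y →
        DifferentiableAt ℝ (iteratedFDeriv ℝ k u) y :=
      fun k y hy => (diff_iter hy k).self_of_nhds
    refine Fin.cases ?_ (fun j => ?_) i
    · have e : ∀ w : Fin (n + 2) → ℂ, iteratedFDeriv ℝ (n + 2) u p w =
          fderiv ℝ (fun y => fderiv ℝ
            (fun x => iteratedFDeriv ℝ n u x (Fin.tail (Fin.tail w))) y (w 1)) p (w 0) := by
        intro w
        rw [(hd (n + 1) p hu).iteratedFDeriv_succ_apply_left']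
        have h3 : (fun y => iteratedFDeriv ℝ (n + 1) u y (Fin.tail w)) =ᶠ[𝓝 p]
            (fun y => fderiv ℝ
              (fun x => iteratedFDeriv ℝ n u x (Fin.tail (Fin.tail w))) y (w 1)) := by
          filter_upwards [hev] with y hy
          rw [(hd n y hy).iteratedFDeriv_succ_apply_left']
          rfl
        rw [h3.fderiv_eq]
      have t : Fin.tail (Fin.tail (v ∘ Equiv.swap (0 : Fin (n + 1)).castSucc
          (0 : Fin (n + 1)).succ)) = Fin.tail (Fin.tail v) := by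
        funext j
        show v (Equiv.swap _ _ j.succ.succ) = v j.succ.succ
        rw [Equiv.swap_apply_of_ne_of_ne]
        · exact Fin.succ_ne_zero _
        · intro h
          exact Fin.succ_ne_zero _ (Fin.succ_injective _ h)
      have s0 : (v ∘ Equiv.swap (0 : Fin (n + 1)).castSucc (0 : Fin (n + 1)).succ) 0 = v 1 := by
        show v (Equiv.swap _ _ 0) = v 1
        rw [show (0 : Fin (n + 2)) = (0 : Fin (n + 1)).castSucc from rfl, Equiv.swap_apply_left]
        rfl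
      have s1 : (v ∘ Equiv.swap (0 : Fin (n + 1)).castSucc (0 : Fin (n + 1)).succ) 1 = v 0 := by
        show v (Equiv.swap _ _ 1) = v 0
        rw [show (1 : Fin (n + 2)) = (0 : Fin (n + 1)).succ from rfl, Equiv.swap_apply_right]
        rfl
      rw [e, e, t, s0, s1]
      exact dd_symm' ((ContinuousMultilinearMap.apply ℝ (fun _ : Fin n => ℂ) ℝ
        (Fin.tail (Fin.tail v))).contDiff.contDiffAt.comp p (cd_iter hu n)) _ _
    · have e1 : ∀ w : Fin (n + 2) → ℂ, iteratedFDeriv ℝ (n + 2) u p w =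
          fderiv ℝ (fun y => iteratedFDeriv ℝ (n + 1) u y (Fin.tail w)) p (w 0) := fun w =>
        (hd (n + 1) p hu).iteratedFDeriv_succ_apply_left'
      have s0 : (v ∘ Equiv.swap j.succ.castSucc j.succ.succ) 0 = v 0 := by
        show v (Equiv.swap _ _ 0) = v 0
        rw [Equiv.swap_apply_of_ne_of_ne]
        · rw [← Fin.succ_castSucc]
          exact (Fin.succ_ne_zero _).symm
        · exact (Fin.succ_ne_zero _).symm
      have t : Fin.tail (v ∘ Equiv.swap j.succ.castSucc j.succ.succ) =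
          (Fin.tail v) ∘ Equiv.swap j.castSucc j.succ := by
        funext m
        show v (Equiv.swap j.succ.castSucc j.succ.succ m.succ) =
          v (Equiv.swap j.castSucc j.succ m).succ
        rw [← Fin.succ_castSucc, (Fin.succ_injective _).swap_apply]
      rw [e1, e1, s0, t]
      have h3 : (fun y => iteratedFDeriv ℝ (n + 1) u y
          ((Fin.tail v) ∘ Equiv.swap j.castSucc j.succ)) =ᶠ[𝓝 p]
          fun y => iteratedFDeriv ℝ (n + 1) u y (Fin.tail v) := by
        filter_upwards [eventually_eventually_nhds.2 hev] with y hy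
        exact ih hy j _
      rw [h3.fderiv_eq]

/-- symmetry of the iterated derivatives of a smooth function -/
theorem symm_perm {n : ℕ} {u : ℂ → ℝ} {p : ℂ} (hu : ∀ᶠ y in 𝓝 p, ContDiffAt ℝ ∞ u y)
    (σ : Equiv.Perm (Fin (n + 1))) (v : Fin (n + 1) → ℂ) :
    iteratedFDeriv ℝ (n + 1) u p (v ∘ σ) = iteratedFDeriv ℝ (n + 1) u p v := by
  have h : σ ∈ Submonoid.closure (Set.range fun i : Fin n =>
      Equiv.swap i.castSucc i.succ) := by
    rw [Equiv.Perm.mclosure_swap_castSucc_succ]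
    trivial
  induction h using Submonoid.closure_induction generalizing v with
  | mem σ hσ =>
    obtain ⟨i, rfl⟩ := hσ
    exact symm_iter n hu i v
  | one => rfl
  | mul σ τ _ _ ihσ ihτ =>
    rw [show v ∘ (σ * τ : Equiv.Perm (Fin (n + 1))) = (v ∘ σ) ∘ τ from rfl, ihτ, ihσ]

/-- bounds for the derivatives of a function which vanishes to a finite order -/
theorem bounds {u : ℂ → ℝ} {p : ℂ} (hu : ContDiffAt ℝ ∞ u p) {N : ℕ}
    (h0 : ∀ k ≤ N, iteratedFDeriv ℝ k u p = 0) :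
    ∀ j k : ℕ, k + j = N + 1 → ∃ C r : ℝ, 0 < C ∧ 0 < r ∧
      ∀ z ∈ Metric.ball p r, ‖iteratedFDeriv ℝ k u z‖ ≤ C * ‖z - p‖ ^ j := by
  intro j
  induction j with
  | zero =>
    intro k _
    have h1 := (diff_iter hu k).self_of_nhds.continuousAt
    have h2 : ∀ᶠ z in 𝓝 p, ‖iteratedFDeriv ℝ k u z‖ < ‖iteratedFDeriv ℝ k u p‖ + 1 :=
      h1.norm.eventually (gt_mem_nhds (by linarith))
    obtain ⟨r, hr, h4⟩ := Metric.eventually_nhds_iff_ball.1 h2
    exact ⟨‖iteratedFDeriv ℝ k u p‖ + 1, r, by positivity, hr, fun z hz => by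
      rw [pow_zero, mul_one]
      exact (h4 z hz).le⟩
  | succ j ih =>
    intro k hk
    obtain ⟨C, r, hC, hr, hb⟩ := ih (k + 1) (by omega)
    obtain ⟨r', hr', hd⟩ := Metric.eventually_nhds_iff_ball.1 (diff_iter hu k)
    refine ⟨C, min r r', hC, lt_min hr hr', fun z hz => ?_⟩
    have hz1 : ‖z - p‖ < min r r' := by rwa [← dist_eq_norm]
    have h1 := (convex_closedBall p ‖z - p‖).norm_image_sub_le_of_norm_fderiv_le (𝕜 := ℝ)
      (f := iteratedFDeriv ℝ k u) (C := C * ‖z - p‖ ^ j) (x := p) (y := z) (fun w hw => by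
        refine hd w ?_
        rw [Metric.mem_closedBall] at hw
        rw [Metric.mem_ball]
        exact hw.trans_lt (hz1.trans_le (min_le_right _ _))) (fun w hw => by
        rw [Metric.mem_closedBall] at hw
        rw [norm_fderiv_iteratedFDeriv]
        refine (hb w ?_).trans ?_
        · rw [Metric.mem_ball]
          exact hw.trans_lt (hz1.trans_le (min_le_left _ _))
        · rw [dist_eq_norm] at hw
          exact mul_le_mul_of_nonneg_left (pow_le_pow_left₀ (norm_nonneg _) hw j) hC.le)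
      (Metric.mem_closedBall_self (norm_nonneg _)) (by
        rw [Metric.mem_closedBall, dist_eq_norm])
    rw [h0 k (by omega), sub_zero] at h1
    rw [pow_succ, ← mul_assoc]
    exact h1

/-- the homogeneous polynomial of a multilinear map -/
noncomputable def PP {n : ℕ} (T : ContinuousMultilinearMap ℝ (fun _ : Fin n => ℂ) ℝ) (h : ℂ) : ℝ := T (fun _ => h)

theorem PP_smooth {n : ℕ} (T : ContinuousMultilinearMap ℝ (fun _ : Fin n => ℂ) ℝ) :
    ContDiff ℝ ∞ (PP T) :=
  T.contDiff.comp (contDiff_pi.2 fun _ => contDiff_id)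

theorem PP_hom {n : ℕ} (T : ContinuousMultilinearMap ℝ (fun _ : Fin n => ℂ) ℝ) (t : ℝ) (z : ℂ) :
    PP T (t • z) = t ^ n * PP T z := by
  unfold PP
  have := T.map_smul_univ (fun _ => t) (fun _ => z)
  rw [this, Finset.prod_const, Finset.card_univ, Fintype.card_fin, smul_eq_mul]

theorem PP_ps {n : ℕ} (T : ContinuousMultilinearMap ℝ (fun _ : Fin n => ℂ) ℝ) (p : ℂ) :
    HasFPowerSeriesOnBall (fun z => PP T (z - p))
      (Pi.single n T : FormalMultilinearSeries ℝ ℂ ℝ) p ⊤ where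
  r_le := by
    rw [FormalMultilinearSeries.radius_eq_top_of_forall_image_add_eq_zero _ (n + 1)
      (fun m => Pi.single_eq_of_ne (by omega) _)]
  r_pos := by simp
  hasSum := by
    intro y _
    have h := hasSum_single (f := fun k =>
      (Pi.single n T : FormalMultilinearSeries ℝ ℂ ℝ) k (fun _ => y)) n (fun k hk => by
        rw [Pi.single_eq_of_ne hk]
        rfl)
    rw [Pi.single_eq_same] at h
    have e : PP T (p + y - p) = T (fun _ => y) := by
      unfold PP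
      rw [add_sub_cancel_left]
    rw [e]
    exact h

/-- derivatives of the polynomial -/
theorem PP_iter {n : ℕ} {u : ℂ → ℝ} {p : ℂ} (hu : ∀ᶠ y in 𝓝 p, ContDiffAt ℝ ∞ u y) (k : ℕ) :
    iteratedFDeriv ℝ k (fun z => PP (iteratedFDeriv ℝ (n + 1) u p) (z - p)) p =
      if h : k = n + 1 then (((n + 1).factorial : ℕ) : ℝ) • iteratedFDeriv ℝ k u p else 0 := by
  ext v
  rw [(PP_ps (iteratedFDeriv ℝ (n + 1) u p) p).iteratedFDeriv_eq_sum_of_completeSpace v]
  split_ifs with h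
  · subst h
    rw [Pi.single_eq_same]
    have e : ∀ σ : Equiv.Perm (Fin (n + 1)),
        iteratedFDeriv ℝ (n + 1) u p (fun i => v (σ i)) = iteratedFDeriv ℝ (n + 1) u p v :=
      fun σ => symm_perm hu σ v
    rw [Finset.sum_congr rfl (fun σ _ => e σ), Finset.sum_const, Finset.card_univ,
      Fintype.card_perm, Fintype.card_fin]
    show _ = (((n + 1).factorial : ℕ) : ℝ) • iteratedFDeriv ℝ (n + 1) u p v
    rw [Nat.cast_smul_eq_nsmul]
  · apply Finset.sum_eq_zero
    intro σ _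
    rw [Pi.single_eq_of_ne h]
    rfl

theorem hom_fderiv {f : ℂ → ℝ} (hf : Differentiable ℝ f) {k : ℕ}
    (h : ∀ t : ℝ, 0 < t → ∀ z : ℂ, f (t • z) = t ^ (k + 1) * f z) (v : ℂ) (t : ℝ) (ht : 0 < t)
    (z : ℂ) : fderiv ℝ f (t • z) v = t ^ k * fderiv ℝ f z v := by
  have h1 : HasFDerivAt (fun w : ℂ => f (t • w))
      ((fderiv ℝ f (t • z)).comp (t • ContinuousLinearMap.id ℝ ℂ)) z :=
    (hf (t • z)).hasFDerivAt.comp z ((hasFDerivAt_id z).const_smul t)
  have h2 : HasFDerivAt (fun w : ℂ => f (t • w)) ((t ^ (k + 1)) • fderiv ℝ f z) z := by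
    have h3 : (fun w : ℂ => f (t • w)) = fun w => t ^ (k + 1) * f w := by
      funext w
      exact h t ht w
    rw [h3]
    exact (hf z).hasFDerivAt.const_mul _
  have h3 := congrArg (fun L : ℂ →L[ℝ] ℝ => L v) (h1.unique h2)
  have h4 : fderiv ℝ f (t • z) (t • v) = t ^ (k + 1) * fderiv ℝ f z v := h3
  rw [map_smul, smul_eq_mul, pow_succ'] at h4
  have h5 : t * (fderiv ℝ f (t • z) v) = t * (t ^ k * fderiv ℝ f z v) := by
    rw [h4]
    ring
  exact mul_left_cancel₀ ht.ne' h5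

theorem smooth_dx {f : ℂ → ℝ} (hf : ContDiff ℝ ∞ f) (v : ℂ) :
    ContDiff ℝ ∞ (fun z => fderiv ℝ f z v) :=
  (hf.fderiv_right (by norm_cast)).clm_apply contDiff_const

theorem hom_lap {f : ℂ → ℝ} (hf : ContDiff ℝ ∞ f) {k : ℕ}
    (h : ∀ t : ℝ, 0 < t → ∀ z : ℂ, f (t • z) = t ^ (k + 2) * f z) (t : ℝ) (ht : 0 < t)
    (z : ℂ) : lap f (t • z) = t ^ k * lap f z := by
  have h1 : ∀ v : ℂ, fderiv ℝ (fun z => fderiv ℝ f z v) (t • z) v =
      t ^ k * fderiv ℝ (fun z => fderiv ℝ f z v) z v := fun v =>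
    hom_fderiv ((smooth_dx hf v).differentiable (by simp)) (fun t ht z =>
      hom_fderiv (hf.differentiable (by simp)) h v t ht z) v t ht z
  have h2 := h1 1
  have h3 := h1 I
  show fderiv ℝ (fun z => fderiv ℝ f z 1) (t • z) 1 + fderiv ℝ (fun z => fderiv ℝ f z I) (t • z) I =
    t ^ k * (fderiv ℝ (fun z => fderiv ℝ f z 1) z 1 + fderiv ℝ (fun z => fderiv ℝ f z I) z I)
  rw [h2, h3]
  ring

/-- a homogeneous function of degree `k` which is `O (|z|^(k+1))` vanishes -/
theorem hom_zero {g : ℂ → ℝ} {k : ℕ}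
    (hh : ∀ t : ℝ, 0 < t → ∀ z : ℂ, g (t • z) = t ^ k * g z) {C r : ℝ} (hr : 0 < r)
    (hb : ∀ z, ‖z‖ < r → |g z| ≤ C * ‖z‖ ^ (k + 1)) : ∀ z, g z = 0 := by
  intro z
  have h1 : ∀ᶠ t : ℝ in 𝓝[>] 0, |g z| ≤ C * ‖z‖ ^ (k + 1) * t := by
    have h2 : ∀ᶠ t : ℝ in 𝓝[>] 0, t * ‖z‖ < r := by
      have h3 : Tendsto (fun t : ℝ => t * ‖z‖) (𝓝[>] 0) (𝓝 0) := by
        have : Tendsto (fun t : ℝ => t * ‖z‖) (𝓝 0) (𝓝 (0 * ‖z‖)) :=
          (continuous_id.mul continuous_const).tendsto 0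
        rw [zero_mul] at this
        exact this.mono_left nhdsWithin_le_nhds
      exact h3.eventually (gt_mem_nhds hr)
    filter_upwards [h2, self_mem_nhdsWithin] with t ht ht0
    have ht0' : 0 < t := ht0
    have e : ‖t • z‖ = t * ‖z‖ := by
      rw [norm_smul, Real.norm_eq_abs, abs_of_pos ht0']
    have h4 := hb (t • z) (by rw [e]; exact ht)
    rw [hh t ht0', e, abs_mul, abs_of_pos (pow_pos ht0' k), mul_pow, pow_succ t k] at h4
    have h5 : t ^ k * |g z| ≤ t ^ k * (C * ‖z‖ ^ (k + 1) * t) := by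
      calc t ^ k * |g z| ≤ C * (t ^ k * t * ‖z‖ ^ (k + 1)) := h4
        _ = t ^ k * (C * ‖z‖ ^ (k + 1) * t) := by ring
    exact le_of_mul_le_mul_left h5 (pow_pos ht0' k)
  have h2 : Tendsto (fun t : ℝ => C * ‖z‖ ^ (k + 1) * t) (𝓝[>] 0) (𝓝 0) := by
    have : Tendsto (fun t : ℝ => C * ‖z‖ ^ (k + 1) * t) (𝓝 0) (𝓝 (C * ‖z‖ ^ (k + 1) * 0)) :=
      (continuous_const.mul continuous_id).tendsto 0
    rw [mul_zero] at this
    exact this.mono_left nhdsWithin_le_nhds
  have h3 : |g z| ≤ 0 := ge_of_tendsto h2 h1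
  exact abs_nonpos_iff.1 h3

/-- a homogeneous harmonic function whose gradient vanishes at a point different from `0` -/
theorem harm_zero {P : ℂ → ℝ} (hP : ContDiff ℝ ∞ P) {k : ℕ}
    (hh : ∀ t : ℝ, 0 < t → ∀ z : ℂ, P (t • z) = t ^ (k + 1) * P z) (hl : ∀ z, lap P z = 0) {e : ℂ}
    (he : e ≠ 0) (hf : fderiv ℝ P e = 0) : ∀ z, P z = 0 := by
  have hG : Differentiable ℂ (Pf P) := by
    intro z
    rw [differentiableAt_complex_iff_differentiableAt_real]
    have h1 := db_Pf (u := P) (z := z) hP.contDiffAt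
    refine ⟨(Pf_smooth hP.contDiffAt).differentiableAt (by simp), ?_⟩
    rw [hl z] at h1
    unfold db at h1
    have h2 : fderiv ℝ (Pf P) z 1 + I * fderiv ℝ (Pf P) z I = 0 := by
      have : (fderiv ℝ (Pf P) z 1 + I * fderiv ℝ (Pf P) z I) / 2 = 0 := by
        rw [h1]
        simp
      simpa using this
    have h3 : fderiv ℝ (Pf P) z I = I * fderiv ℝ (Pf P) z 1 := by
      linear_combination (-I) * h2 + (fderiv ℝ (Pf P) z I) * I_sq
    rw [h3, smul_eq_mul]
  have h1 : ∀ t : ℝ, 0 < t → Pf P (t • e) = 0 := by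
    intro t ht
    unfold Pf
    rw [hom_fderiv (hP.differentiable (by simp)) hh 1 t ht e,
      hom_fderiv (hP.differentiable (by simp)) hh I t ht e, hf]
    simp
  have h2 : ∃ᶠ z in 𝓝[≠] (0 : ℂ), Pf P z = 0 := by
    have h3 : Tendsto (fun t : ℝ => t • e) (𝓝[>] 0) (𝓝[≠] (0 : ℂ)) := by
      rw [tendsto_nhdsWithin_iff]
      constructor
      · have : Tendsto (fun t : ℝ => t • e) (𝓝 0) (𝓝 ((0 : ℝ) • e)) :=
          (continuous_id.smul continuous_const).tendsto 0
        rw [zero_smul] at this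
        exact this.mono_left nhdsWithin_le_nhds
      · filter_upwards [self_mem_nhdsWithin] with t ht
        exact smul_ne_zero (ne_of_gt ht) he
    refine h3.frequently ?_
    refine Filter.Eventually.frequently ?_
    filter_upwards [self_mem_nhdsWithin] with t ht
    exact h1 t ht
  have h3 : ∀ z, Pf P z = 0 := by
    intro z
    have h4 : AnalyticOnNhd ℂ (Pf P) Set.univ :=
      DifferentiableOn.analyticOnNhd hG.differentiableOn isOpen_univ
    exact h4.eqOn_zero_of_preconnected_of_frequently_eq_zero isPreconnected_univ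
      (Set.mem_univ 0) h2 (Set.mem_univ z)
  have h4 : ∀ z, fderiv ℝ P z = 0 := by
    intro z
    have h5 := h3 z
    unfold Pf at h5
    have h6 : (fderiv ℝ P z 1 : ℂ) - I * (fderiv ℝ P z I : ℂ) = 0 := by simpa using h5
    have h7 : fderiv ℝ P z 1 = 0 := by
      have := congrArg Complex.re h6
      simpa using this
    have h8 : fderiv ℝ P z I = 0 := by
      have := congrArg Complex.im h6
      simpa using this
    ext v
    have h9 : v = v.re • (1 : ℂ) + v.im • I := by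
      apply Complex.ext <;> simp
    rw [h9, map_add, map_smul, map_smul, h7, h8]
    simp
  have h5 : ∀ z, P z = P 0 := fun z =>
    is_const_of_fderiv_eq_zero (hP.differentiable (by simp)) h4 z 0
  have h6 : P 0 = 0 := by
    have h7 := hh 2 (by norm_num) 0
    rw [smul_zero] at h7
    have h8 : (1 : ℝ) < 2 ^ (k + 1) := one_lt_pow₀ (by norm_num) (Nat.succ_ne_zero k)
    have h9 : ((2 : ℝ) ^ (k + 1) - 1) * P 0 = 0 := by linarith
    rcases mul_eq_zero.1 h9 with h | h
    · linarith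
    · exact h
  intro z
  rw [h5 z, h6]

theorem lap_iter {g : ℂ → ℝ} {z : ℂ} (hg : ContDiffAt ℝ ∞ g z) :
    lap g z = iteratedFDeriv ℝ 2 g z ![1, 1] + iteratedFDeriv ℝ 2 g z ![I, I] := by
  have h1 : ContDiffAt ℝ 1 (fderiv ℝ g) z := hg.fderiv_right (by norm_cast)
  have h2 : ∀ v w : ℂ, fderiv ℝ (fun x => fderiv ℝ g x v) z w = fderiv ℝ (fderiv ℝ g) z w v := by
    intro v w
    have h3 : HasFDerivAt (fun x => fderiv ℝ g x v)
        ((ContinuousLinearMap.apply ℝ ℝ v).comp (fderiv ℝ (fderiv ℝ g) z)) z :=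
      (ContinuousLinearMap.apply ℝ ℝ v).hasFDerivAt.comp z
        (h1.differentiableAt one_ne_zero).hasFDerivAt
    rw [h3.fderiv]
    rfl
  rw [iteratedFDeriv_two_apply, iteratedFDeriv_two_apply]
  show fderiv ℝ (fun x => fderiv ℝ g x 1) z 1 + fderiv ℝ (fun x => fderiv ℝ g x I) z I = _
  rw [h2, h2]
  rfl

theorem isolated {Ω : Set ℂ} {C : ℝ} {u : ℂ → ℝ} (hΩ : IsOpen Ω) (hu : ContDiffOn ℝ ∞ u Ω)
    (hC : ∀ z ∈ Ω, |lap u z| ≤ C * |u z|) (hn : NoFlat Ω u) {z₀ : ℂ} (hz₀ : z₀ ∈ Ω)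
    (h0 : u z₀ = 0) (h1 : dx u z₀ = 0) (h2 : dy u z₀ = 0)
    (hne : (𝓝[≠] z₀ ⊓ 𝓟 {z | z ∈ Ω ∧ u z = 0 ∧ dx u z = 0 ∧ dy u z = 0}).NeBot) : False := by
  classical
  have hus : ∀ z ∈ Ω, ContDiffAt ℝ ∞ u z := fun z hz => hu.contDiffAt (hΩ.mem_nhds hz)
  have hu0 := hus z₀ hz₀
  have hue : ∀ᶠ y in 𝓝 z₀, ContDiffAt ℝ ∞ u y := by
    filter_upwards [hΩ.mem_nhds hz₀] with y hy
    exact hus y hy
  have hfd : ∀ z, dx u z = 0 → dy u z = 0 → fderiv ℝ u z = 0 := by
    intro z hx hy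
    ext v
    have h9 : v = v.re • (1 : ℂ) + v.im • I := by
      apply Complex.ext <;> simp
    have hx' : fderiv ℝ u z 1 = 0 := hx
    have hy' : fderiv ℝ u z I = 0 := hy
    rw [h9, map_add, map_smul, map_smul, hx', hy']
    simp
  have hex := hn z₀ hz₀
  have hN := Nat.find_spec hex
  have hmin : ∀ m < Nat.find hex, iteratedFDeriv ℝ m u z₀ = 0 :=
    fun m hm => not_not.1 (Nat.find_min hex hm)
  -- the order is at least two
  have hN0 : Nat.find hex ≠ 0 := by
    intro h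
    rw [h] at hN
    apply hN
    ext v
    rw [iteratedFDeriv_zero_apply, h0]
    rfl
  have hN1 : Nat.find hex ≠ 1 := by
    intro h
    rw [h] at hN
    apply hN
    ext v
    rw [iteratedFDeriv_one_apply, hfd z₀ h1 h2]
    rfl
  obtain ⟨k, hk⟩ : ∃ k, Nat.find hex = k + 2 := ⟨Nat.find hex - 2, by omega⟩
  rw [hk] at hN hmin
  set T := iteratedFDeriv ℝ (k + 2) u z₀ with hT
  set c : ℝ := (((k + 2).factorial : ℕ) : ℝ)⁻¹ with hc
  have hfac : (0 : ℝ) < (((k + 2).factorial : ℕ) : ℝ) := by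
    exact_mod_cast Nat.factorial_pos _
  have hc0 : 0 < c := inv_pos.2 hfac
  set f : ℂ → ℝ := fun z => PP T (z - z₀) with hf
  have hfs : ContDiff ℝ ∞ f := (PP_smooth T).comp (contDiff_id.sub contDiff_const)
  have hPs := PP_smooth T
  set R : ℂ → ℝ := fun z => u z - c • f z with hR
  have hRs : ∀ z ∈ Ω, ContDiffAt ℝ ∞ R z := fun z hz =>
    (hus z hz).sub (hfs.contDiffAt.const_smul c)
  have hRi : ∀ z ∈ Ω, ∀ j : ℕ, iteratedFDeriv ℝ j R z =
      iteratedFDeriv ℝ j u z - c • iteratedFDeriv ℝ j f z := by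
    intro z hz j
    have hj : ((j : ℕ) : WithTop ℕ∞) ≤ ((⊤ : ℕ∞) : WithTop ℕ∞) := by exact_mod_cast le_top
    have e1 : iteratedFDeriv ℝ j R z = iteratedFDeriv ℝ j u z - iteratedFDeriv ℝ j (c • f) z :=
      iteratedFDeriv_sub_apply ((hus z hz).of_le hj)
        ((hfs.contDiffAt.const_smul c).of_le hj)
    rw [e1, iteratedFDeriv_const_smul_apply (hfs.contDiffAt.of_le hj)]
  have hR0 : ∀ j ≤ k + 2, iteratedFDeriv ℝ j R z₀ = 0 := by
    intro j hj
    rw [hRi z₀ hz₀ j]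
    have e1 : iteratedFDeriv ℝ j f z₀ = if h : j = k + 1 + 1 then
        (((k + 1 + 1).factorial : ℕ) : ℝ) • iteratedFDeriv ℝ j u z₀ else 0 := PP_iter hue j
    rw [e1]
    split_ifs with h
    · rw [smul_smul]
      have : c * (((k + 1 + 1).factorial : ℕ) : ℝ) = 1 := inv_mul_cancel₀ hfac.ne'
      rw [this, one_smul, sub_self]
    · rw [hmin j (by omega), smul_zero, sub_zero]
  obtain ⟨C0, r0, hC0, hr0, hb0⟩ := bounds (hRs z₀ hz₀) hR0 (k + 3) 0 (by omega)
  obtain ⟨C1, r1, hC1, hr1, hb1⟩ := bounds (hRs z₀ hz₀) hR0 (k + 2) 1 (by omega)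
  obtain ⟨C2, r2, hC2, hr2, hb2⟩ := bounds (hRs z₀ hz₀) hR0 (k + 1) 2 (by omega)
  obtain ⟨r3, hr3, hb3⟩ := Metric.isOpen_iff.1 hΩ z₀ hz₀
  -- translation
  have hfP : ∀ z, fderiv ℝ f z = fderiv ℝ (PP T) (z - z₀) := fun z => by
    rw [hf]
    exact fderiv_comp_sub (f := PP T) z₀
  have hlP : ∀ z, lap f z = lap (PP T) (z - z₀) := by
    intro z
    have e1 : dx f = fun z => dx (PP T) (z - z₀) := by
      funext w
      unfold dx
      rw [hfP]
    have e2 : dy f = fun z => dy (PP T) (z - z₀) := by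
      funext w
      unfold dy
      rw [hfP]
    show dx (dx f) z + dy (dy f) z = dx (dx (PP T)) (z - z₀) + dy (dy (PP T)) (z - z₀)
    rw [e1, e2]
    have e3 : dx (fun z => dx (PP T) (z - z₀)) z = dx (dx (PP T)) (z - z₀) := by
      unfold dx
      rw [fderiv_comp_sub (f := fun z => fderiv ℝ (PP T) z 1) z₀]
    have e4 : dy (fun z => dy (PP T) (z - z₀)) z = dy (dy (PP T)) (z - z₀) := by
      unfold dy
      rw [fderiv_comp_sub (f := fun z => fderiv ℝ (PP T) z I) z₀]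
    rw [e3, e4]
  have hhom : ∀ t : ℝ, 0 < t → ∀ z : ℂ, PP T (t • z) = t ^ (k + 2) * PP T z :=
    fun t _ z => PP_hom T t z
  -- the polynomial is harmonic
  have hharm : ∀ z, lap (PP T) z = 0 := by
    set r := min (min r0 r2) (min r3 1) with hr
    have hrp : 0 < r := by positivity
    refine hom_zero (k := k) (fun t ht z => hom_lap hPs hhom t ht z) (C := (|C| * (C0 + c * ‖T‖) + 2 * C2) / c)
      hrp ?_
    intro h hh
    set z := z₀ + h with hz
    have hzz : z - z₀ = h := by rw [hz, add_sub_cancel_left]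
    have m0 : z ∈ ball z₀ r0 := by
      rw [mem_ball, dist_eq_norm, hzz]
      exact hh.trans_le ((min_le_left _ _).trans (min_le_left _ _))
    have m2 : z ∈ ball z₀ r2 := by
      rw [mem_ball, dist_eq_norm, hzz]
      exact hh.trans_le ((min_le_left _ _).trans (min_le_right _ _))
    have m3 : z ∈ Ω := by
      apply hb3
      rw [mem_ball, dist_eq_norm, hzz]
      exact hh.trans_le ((min_le_right _ _).trans (min_le_left _ _))
    have m4 : ‖h‖ ≤ 1 := hh.le.trans ((min_le_right _ _).trans (min_le_right _ _))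
    have a0 := hb0 z m0
    rw [norm_iteratedFDeriv_zero, hzz, Real.norm_eq_abs] at a0
    have a2 := hb2 z m2
    rw [hzz] at a2
    have b1 : lap R z = lap u z - c * lap f z := by
      rw [lap_iter (hRs z m3), lap_iter (hus z m3), lap_iter hfs.contDiffAt, hRi z m3 2]
      show (iteratedFDeriv ℝ 2 u z ![1, 1] - c * iteratedFDeriv ℝ 2 f z ![1, 1]) +
        (iteratedFDeriv ℝ 2 u z ![I, I] - c * iteratedFDeriv ℝ 2 f z ![I, I]) = _
      ring
    have b2 : |lap R z| ≤ 2 * (C2 * ‖h‖ ^ (k + 1)) := by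
      rw [lap_iter (hRs z m3)]
      have e1 : |iteratedFDeriv ℝ 2 R z ![1, 1]| ≤ C2 * ‖h‖ ^ (k + 1) := by
        have := (iteratedFDeriv ℝ 2 R z).le_opNorm ![1, 1]
        rw [Real.norm_eq_abs] at this
        refine this.trans ?_
        simp only [Fin.prod_univ_two, Matrix.cons_val_zero, Matrix.cons_val_one, norm_one, mul_one]
        exact a2
      have e2 : |iteratedFDeriv ℝ 2 R z ![I, I]| ≤ C2 * ‖h‖ ^ (k + 1) := by
        have := (iteratedFDeriv ℝ 2 R z).le_opNorm ![I, I]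
        rw [Real.norm_eq_abs] at this
        refine this.trans ?_
        simp only [Fin.prod_univ_two, Matrix.cons_val_zero, Matrix.cons_val_one, norm_I, mul_one]
        exact a2
      refine (abs_add_le _ _).trans ?_
      linarith
    have b3 : |u z| ≤ (C0 + c * ‖T‖) * ‖h‖ ^ (k + 1) := by
      have e1 : u z = R z + c * PP T h := by
        show u z = (u z - c • PP T (z - z₀)) + c * PP T h
        rw [hzz, smul_eq_mul]
        ring
      have e2 : |PP T h| ≤ ‖T‖ * ‖h‖ ^ (k + 2) := by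
        have := T.le_opNorm (fun _ => h)
        rw [Real.norm_eq_abs, Finset.prod_const, Finset.card_univ, Fintype.card_fin] at this
        exact this
      have e3 : ‖h‖ ^ (k + 2) ≤ ‖h‖ ^ (k + 1) :=
        pow_le_pow_of_le_one (norm_nonneg _) m4 (by omega)
      have e4 : ‖h‖ ^ (k + 3) ≤ ‖h‖ ^ (k + 1) :=
        pow_le_pow_of_le_one (norm_nonneg _) m4 (by omega)
      rw [e1]
      refine (abs_add_le _ _).trans ?_
      rw [abs_mul, abs_of_pos hc0]
      have e5 : C0 * ‖h‖ ^ (k + 3) ≤ C0 * ‖h‖ ^ (k + 1) := by gcongr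
      have e6 : c * |PP T h| ≤ c * (‖T‖ * ‖h‖ ^ (k + 1)) := by
        refine mul_le_mul_of_nonneg_left (e2.trans ?_) hc0.le
        gcongr
      calc |R z| + c * |PP T h| ≤ C0 * ‖h‖ ^ (k + 1) + c * (‖T‖ * ‖h‖ ^ (k + 1)) := by linarith
        _ = (C0 + c * ‖T‖) * ‖h‖ ^ (k + 1) := by ring
    have b4 : |lap u z| ≤ |C| * ((C0 + c * ‖T‖) * ‖h‖ ^ (k + 1)) := by
      refine (hC z m3).trans ?_
      calc C * |u z| ≤ |C| * |u z| := by
            gcongr
            exact le_abs_self C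
        _ ≤ |C| * ((C0 + c * ‖T‖) * ‖h‖ ^ (k + 1)) := by gcongr
    have b5 : c * lap (PP T) h = lap u z - lap R z := by
      rw [b1, hlP z, hzz]
      ring
    have b6 : c * |lap (PP T) h| ≤ (|C| * (C0 + c * ‖T‖) + 2 * C2) * ‖h‖ ^ (k + 1) := by
      calc c * |lap (PP T) h| = |c * lap (PP T) h| := by rw [abs_mul, abs_of_pos hc0]
        _ = |lap u z - lap R z| := by rw [b5]
        _ ≤ |lap u z| + |lap R z| := abs_sub _ _
        _ ≤ (|C| * (C0 + c * ‖T‖) + 2 * C2) * ‖h‖ ^ (k + 1) := by linarith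
    rw [div_mul_eq_mul_div, le_div_iff₀ hc0]
    linarith
  -- the limit direction
  set S : Set ℂ := {z | z ∈ Ω ∧ u z = 0 ∧ dx u z = 0 ∧ dy u z = 0} with hS
  set l := 𝓝[≠] z₀ ⊓ 𝓟 S with hl
  set 𝒰 := Ultrafilter.of l with h𝒰
  have hle : (𝒰 : Filter ℂ) ≤ l := Ultrafilter.of_le l
  have hle1 : (𝒰 : Filter ℂ) ≤ 𝓝[≠] z₀ := hle.trans inf_le_left
  have hleS : ∀ᶠ w in (𝒰 : Filter ℂ), w ∈ S := hle (mem_inf_of_right (mem_principal_self _))
  have hne0 : ∀ᶠ w in (𝒰 : Filter ℂ), w ≠ z₀ := hle1 self_mem_nhdsWithin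
  have hlim : Tendsto (fun w => w) (𝒰 : Filter ℂ) (𝓝 z₀) := hle1.trans nhdsWithin_le_nhds
  set dir : ℂ → ℂ := fun w => ‖w - z₀‖⁻¹ • (w - z₀) with hdir
  have hsph : (𝒰.map dir : Filter ℂ) ≤ 𝓟 (sphere (0 : ℂ) 1) := by
    rw [le_principal_iff, Ultrafilter.coe_map, mem_map]
    filter_upwards [hne0] with w hw
    have : ‖w - z₀‖ ≠ 0 := norm_ne_zero_iff.2 (sub_ne_zero.2 hw)
    show dir w ∈ sphere (0 : ℂ) 1
    rw [mem_sphere_zero_iff_norm, hdir]
    simp only
    rw [norm_smul, norm_inv, norm_norm, inv_mul_cancel₀ this]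
  obtain ⟨e, he1, he2⟩ := (isCompact_sphere (0 : ℂ) 1).ultrafilter_le_nhds _ hsph
  have he0 : e ≠ 0 := by
    intro h
    rw [h] at he1
    simp at he1
  have hdl : Tendsto dir (𝒰 : Filter ℂ) (𝓝 e) := he2
  have hfe : fderiv ℝ (PP T) e = 0 := by
    ext v
    have hb : ∀ᶠ w in (𝒰 : Filter ℂ), |fderiv ℝ (PP T) (dir w) v| ≤ C1 / c * ‖w - z₀‖ * ‖v‖ := by
      have hball : ∀ᶠ w in (𝒰 : Filter ℂ), w ∈ ball z₀ r1 := hlim (ball_mem_nhds z₀ hr1)
      filter_upwards [hball, hleS, hne0] with w hw hwS hw0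
      have hs : 0 < ‖w - z₀‖ := norm_pos_iff.2 (sub_ne_zero.2 hw0)
      have e0 := hfd w hwS.2.2.1 hwS.2.2.2
      have e1 := hb1 w hw
      have e2 : iteratedFDeriv ℝ 1 R w (fun _ => v) = -(c * fderiv ℝ (PP T) (w - z₀) v) := by
        rw [hRi w hwS.1 1]
        show iteratedFDeriv ℝ 1 u w (fun _ => v) - c * iteratedFDeriv ℝ 1 f w (fun _ => v) = _
        rw [iteratedFDeriv_one_apply, iteratedFDeriv_one_apply, e0, hfP]
        simp
      have e3 : |iteratedFDeriv ℝ 1 R w (fun _ => v)| ≤ C1 * ‖w - z₀‖ ^ (k + 2) * ‖v‖ := by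
        have := (iteratedFDeriv ℝ 1 R w).le_opNorm (fun _ => v)
        rw [Real.norm_eq_abs] at this
        refine this.trans ?_
        simp only [Finset.univ_unique, Finset.prod_singleton]
        gcongr
      rw [e2, abs_neg, abs_mul, abs_of_pos hc0] at e3
      have e4 : w - z₀ = ‖w - z₀‖ • dir w := by
        rw [hdir]
        simp only
        rw [smul_smul, mul_inv_cancel₀ hs.ne', one_smul]
      have e5 : fderiv ℝ (PP T) (w - z₀) v = ‖w - z₀‖ ^ (k + 1) * fderiv ℝ (PP T) (dir w) v := by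
        conv_lhs => rw [e4]
        exact hom_fderiv (k := k + 1) (hPs.differentiable (by simp)) hhom v _ hs _
      rw [e5, abs_mul, abs_of_pos (pow_pos hs _)] at e3
      have e6 : ‖w - z₀‖ ^ (k + 1) * (c * |fderiv ℝ (PP T) (dir w) v|) ≤
          ‖w - z₀‖ ^ (k + 1) * (C1 * ‖w - z₀‖ * ‖v‖) := by
        calc _ = c * (‖w - z₀‖ ^ (k + 1) * |fderiv ℝ (PP T) (dir w) v|) := by ring
          _ ≤ _ := e3
          _ = _ := by ring
      have e7 := le_of_mul_le_mul_left e6 (pow_pos hs _)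
      rw [div_mul_eq_mul_div, div_mul_eq_mul_div, le_div_iff₀ hc0]
      linarith
    have hl1 : Tendsto (fun w => |fderiv ℝ (PP T) (dir w) v|) (𝒰 : Filter ℂ)
        (𝓝 |fderiv ℝ (PP T) e v|) := by
      have := ((smooth_dx hPs v).continuous.tendsto e).comp hdl
      exact this.abs
    have hl2 : Tendsto (fun w => C1 / c * ‖w - z₀‖ * ‖v‖) (𝒰 : Filter ℂ) (𝓝 0) := by
      have h5 : Tendsto (fun w : ℂ => C1 / c * ‖w - z₀‖ * ‖v‖) (𝓝 z₀)
          (𝓝 (C1 / c * ‖z₀ - z₀‖ * ‖v‖)) :=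
        Continuous.tendsto (by fun_prop) z₀
      rw [sub_self, norm_zero, mul_zero, zero_mul] at h5
      exact h5.comp hlim
    have := le_of_tendsto_of_tendsto hl1 hl2 hb
    exact abs_nonpos_iff.1 this
  have hP0 := harm_zero (k := k + 1) hPs hhom hharm he0 hfe
  -- conclusion
  apply hN
  have e1 : iteratedFDeriv ℝ (k + 2) f z₀ = if h : k + 2 = k + 1 + 1 then
      (((k + 1 + 1).factorial : ℕ) : ℝ) • iteratedFDeriv ℝ (k + 2) u z₀ else 0 :=
    PP_iter hue (k + 2)
  rw [dif_pos rfl] at e1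
  have e2 : f = fun _ => (0 : ℝ) := by
    funext z
    exact hP0 _
  rw [e2] at e1
  have e3 : iteratedFDeriv ℝ (k + 2) (fun _ : ℂ => (0 : ℝ)) z₀ = 0 := by
    have := iteratedFDeriv_zero_fun (𝕜 := ℝ) (E := ℂ) (F := ℝ) (n := k + 2)
    exact congrFun this z₀
  rw [e3] at e1
  exact (smul_eq_zero.1 e1.symm).resolve_left (by
    have : (((k + 1 + 1).factorial : ℕ) : ℝ) = (((k + 2).factorial : ℕ) : ℝ) := rfl
    rw [this]
    exact hfac.ne')

end T7

theorem tn7 : N7 := by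
  intro Ω C u hΩ hu hC hn
  set S : Set ℂ := {z | z ∈ Ω ∧ u z = 0 ∧ dx u z = 0 ∧ dy u z = 0} with hS
  have h1 : DiscreteTopology S := by
    rw [discreteTopology_subtype_iff]
    intro z hz
    by_contra hne
    exact T7.isolated hΩ hu hC hn hz.1 hz.2.1 hz.2.2.1 hz.2.2.2 ⟨hne⟩
  have h2 : Countable S := TopologicalSpace.separableSpace_iff_countable.1 inferInstance
  exact Set.countable_coe_iff.1 h2

end Pool.Agent.H303.NY
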