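import Pool.Agent.H303.NY.Stm

/-!
NY-T8, by helper294: the local theorem.
-/

set_option autoImplicit false
open MeasureTheory Filter Topology Complex Metric
open scoped ContDiff ENNReal

namespace Pool.Agent.H303.NY

open Pool.Agent.Q73.NL Pool.Agent.Q73.AD Pool.Agent.H303.NP

namespace T8

theorem dx_smul (c : ℝ) (u : ℂ → ℝ) (z : ℂ) : dx (fun w => c * u w) z = c * dx u z := by
  unfold dx
  have e : (fun w => c * u w) = c • u := rfl
  rw [e, fderiv_const_smul_field]
  rfl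

theorem dy_smul (c : ℝ) (u : ℂ → ℝ) (z : ℂ) : dy (fun w => c * u w) z = c * dy u z := by
  unfold dy
  have e : (fun w => c * u w) = c • u := rfl
  rw [e, fderiv_const_smul_field]
  rfl

theorem lap_smul (c : ℝ) (u : ℂ → ℝ) (z : ℂ) : lap (fun w => c * u w) z = c * lap u z := by
  unfold lap
  have e1 : dx (fun w => c * u w) = fun w => c * dx u w := funext fun w => dx_smul c u w
  have e2 : dy (fun w => c * u w) = fun w => c * dy u w := funext fun w => dy_smul c u w
  rw [e1, e2, dx_smul, dy_smul]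
  ring

theorem solB_smul {V u : ℂ → ℝ} (h : SolB V u) (c : ℝ) : SolB V (fun z => c * u z) := by
  intro z hz
  obtain ⟨h1, h2, h3, h4, h5⟩ := h z hz
  refine ⟨contDiffAt_const.mul h1, h2, h3, h4, ?_⟩
  rw [lap_smul]
  have : c * lap u z + V z * (c * u z) = c * (lap u z + V z * u z) := by ring
  rw [this, h5, mul_zero]

theorem solB_cont {V u : ℂ → ℝ} (h : SolB V u) : ContinuousOn u (closedBall 0 8) :=
  fun z hz => (h z hz).1.continuousAt.continuousWithinAt

theorem sn_le {u : ℂ → ℝ} {E : Set ℂ} {B : ℝ} (hB : 0 ≤ B) (h : ∀ z ∈ E, |u z| ≤ B) :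
    Pool.Agent.Q73.AD.sn u E ≤ B := by
  unfold Pool.Agent.Q73.AD.sn
  refine Real.sSup_le ?_ hB
  rintro _ ⟨z, hz, rfl⟩
  exact h z hz

theorem le_sn {V u : ℂ → ℝ} (h : SolB V u) {r : ℝ} (hr : r ≤ 8) {z : ℂ}
    (hz : z ∈ closedBall (0 : ℂ) r) : |u z| ≤ Pool.Agent.Q73.AD.sn u (closedBall 0 r) := by
  unfold Pool.Agent.Q73.AD.sn
  refine le_csSup ?_ ⟨z, hz, rfl⟩
  have hc : ContinuousOn (fun x => |u x|) (closedBall (0 : ℂ) 8) := (solB_cont h).abs
  exact ((isCompact_closedBall (0 : ℂ) 8).image_of_continuousOn hc).bddAbove.mono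
    (Set.image_mono (closedBall_subset_closedBall hr))

/-- unique continuation in the disc -/
theorem noflat (hU : U3) {V u : ℂ → ℝ} (h : SolB V u)
    (h1 : 0 < Pool.Agent.Q73.AD.sn u (closedBall 0 1)) : NoFlat (ball 0 8) u := by
  intro z0 hz0
  by_contra hcon
  push Not at hcon
  have hsm : ContDiffOn ℝ ∞ u (ball 0 8) := fun z hz =>
    (h z (ball_subset_closedBall hz)).1.contDiffWithinAt
  have hlap : ∀ z ∈ ball (0 : ℂ) 8, |lap u z| ≤ 1 * |u z| := by
    intro z hz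
    obtain ⟨-, -, h3, -, h5⟩ := h z (ball_subset_closedBall hz)
    have e : lap u z = -(V z * u z) := by linarith
    rw [e, abs_neg, abs_mul]
    exact mul_le_mul_of_nonneg_right h3 (abs_nonneg _)
  have key : ball (0 : ℂ) 8 ⊆ {z | ∀ᶠ w in 𝓝 z, u w = 0} := by
    refine (convex_ball (0 : ℂ) 8).isPreconnected.subset_of_closure_inter_subset
      isOpen_setOfPred_eventually_nhds ⟨z0, hz0, hU _ 1 u isOpen_ball hsm hlap z0 hz0 hcon⟩ ?_
    rintro z ⟨hz, hz8⟩
    refine hU _ 1 u isOpen_ball hsm hlap z hz8 fun k => ?_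
    by_contra hne
    have hc : ContinuousAt (iteratedFDeriv ℝ k u) z :=
      ((h z (ball_subset_closedBall hz8)).1.iteratedFDeriv_right (m := 0) (i := k)
        (by rw [zero_add]; exact_mod_cast le_top)).continuousAt
    have h2 := hc.eventually_ne hne
    obtain ⟨w, hw1, hw2⟩ := ((mem_closure_iff_frequently.1 hz).and_eventually h2).exists
    apply hw2
    have h3 : u =ᶠ[𝓝 w] fun _ => 0 := hw1
    rw [(h3.iteratedFDeriv (𝕜 := ℝ) k).eq_of_nhds, iteratedFDeriv_fun_zero]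
    rfl
  have h2 : Pool.Agent.Q73.AD.sn u (closedBall 0 1) ≤ 0 := by
    refine sn_le le_rfl fun z hz => ?_
    have hz8 : z ∈ ball (0 : ℂ) 8 := by
      rw [mem_ball_zero_iff]
      have := mem_closedBall_zero_iff.1 hz
      linarith
    have : u z = 0 := (key hz8).self_of_nhds
    rw [this, abs_zero]
  linarith

end T8

theorem tn8 (h6 : N6) (h7 : N7) (hU : U3) : N8 := by
  obtain ⟨C, hC1, hC⟩ := h6
  refine ⟨C, hC1, fun V u h h1 => ?_⟩
  have h18 : Pool.Agent.Q73.AD.sn u (closedBall 0 1) ≤ Pool.Agent.Q73.AD.sn u (closedBall 0 8) := by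
    refine T8.sn_le ?_ fun z hz => T8.le_sn h le_rfl (closedBall_subset_closedBall (by norm_num) hz)
    exact (abs_nonneg _).trans (T8.le_sn h le_rfl (mem_closedBall_self (by norm_num)))
  obtain ⟨S1, hS1⟩ : ∃ s, s = Pool.Agent.Q73.AD.sn u (closedBall 0 1) := ⟨_, rfl⟩
  obtain ⟨S8, hS8⟩ : ∃ s, s = Pool.Agent.Q73.AD.sn u (closedBall 0 8) := ⟨_, rfl⟩
  have hs1 : 0 < S1 := by rw [hS1]; exact h1
  have hs18 : S1 ≤ S8 := by rw [hS1, hS8]; exact h18
  have hs8 : 0 < S8 := hs1.trans_le hs18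
  rw [← hS1, ← hS8]
  have hnf := T8.noflat hU h h1
  have hsol := T8.solB_smul h S8⁻¹
  have hN0 : 0 ≤ Real.log (S8 / S1) := Real.log_nonneg ((one_le_div hs1).2 hs18)
  have hnrm : Nrm (Real.log (S8 / S1)) V (fun z => S8⁻¹ * u z) := by
    refine ⟨hsol, ?_, hN0, ?_⟩
    · refine T8.sn_le zero_le_one fun z hz => ?_
      rw [abs_mul, abs_of_pos (inv_pos.2 hs8)]
      have := T8.le_sn h le_rfl hz
      rw [← hS8] at this
      rw [inv_mul_le_iff₀ hs8, mul_one]
      exact this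
    · rw [Real.exp_neg, Real.exp_log (div_pos hs8 hs1), inv_div, div_le_iff₀ hs8, hS1]
      have hnn : 0 ≤ Pool.Agent.Q73.AD.sn (fun z => S8⁻¹ * u z) (closedBall 0 1) * S8 :=
        mul_nonneg ((abs_nonneg _).trans (T8.le_sn hsol (by norm_num)
          (mem_closedBall_self zero_le_one))) hs8.le
      refine T8.sn_le hnn fun z hz => ?_
      have h2 := T8.le_sn hsol (by norm_num) hz
      rw [abs_mul, abs_of_pos (inv_pos.2 hs8), inv_mul_le_iff₀ hs8] at h2
      rw [mul_comm]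
      exact h2
  -- the singular zeros
  have hsm : ContDiffOn ℝ ∞ u (ball 0 8) := fun z hz =>
    (h z (ball_subset_closedBall hz)).1.contDiffWithinAt
  have hlap : ∀ z ∈ ball (0 : ℂ) 8, |lap u z| ≤ 1 * |u z| := by
    intro z hz
    obtain ⟨-, -, h3, -, h5⟩ := h z (ball_subset_closedBall hz)
    have e : lap u z = -(V z * u z) := by linarith
    rw [e, abs_neg, abs_mul]
    exact mul_le_mul_of_nonneg_right h3 (abs_nonneg _)
  have hct := h7 (ball 0 8) 1 u isOpen_ball hsm hlap hnf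
  have hna : NullSingletonClass (μH[1] : Measure ℂ) := Measure.nullSingletonClass_hausdorff ℂ one_pos
  have hsing := hct.measure_zero (μH[1] : Measure ℂ)
  -- the regular zeros
  let K : ℕ → Set ℂ := fun n => {z | z ∈ closedBall (0 : ℂ) (1 - 1 / ((n : ℝ) + 2)) ∧ u z = 0 ∧
    1 / ((n : ℝ) + 1) ≤ dx u z ^ 2 + dy u z ^ 2}
  have hr8 : ∀ n : ℕ, (1 : ℝ) - 1 / ((n : ℝ) + 2) < 1 := fun n => by
    have : 0 < 1 / ((n : ℝ) + 2) := by positivity
    linarith
  have hKb : ∀ n, ∀ z ∈ K n, z ∈ ball (0 : ℂ) 1 := fun n z hz => by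
    rw [mem_ball_zero_iff]
    exact (mem_closedBall_zero_iff.1 hz.1).trans_lt (hr8 n)
  have hKc : ∀ n, IsCompact (K n) := by
    intro n
    have hcont : ContinuousOn (fun z => (u z, dx u z ^ 2 + dy u z ^ 2))
        (closedBall (0 : ℂ) (1 - 1 / ((n : ℝ) + 2))) := by
      intro z hz
      have hz8 : z ∈ closedBall (0 : ℂ) 8 := by
        rw [mem_closedBall_zero_iff] at hz ⊢
        have := hr8 n
        linarith
      have hz' := (h z hz8).1
      have hfd : ContinuousAt (fderiv ℝ u) z :=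
        (hz'.fderiv_right (m := 0) (by norm_cast)).continuousAt
      have hdx : ContinuousAt (dx u) z := hfd.clm_apply continuousAt_const
      have hdy : ContinuousAt (dy u) z := hfd.clm_apply continuousAt_const
      exact (hz'.continuousAt.prodMk ((hdx.pow 2).add (hdy.pow 2))).continuousWithinAt
    have hcl := hcont.preimage_isClosed_of_isClosed isClosed_closedBall
      ((isClosed_singleton (x := (0 : ℝ))).prod (isClosed_Ici (a := 1 / ((n : ℝ) + 1))))
    have e : K n = closedBall (0 : ℂ) (1 - 1 / ((n : ℝ) + 2)) ∩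
        (fun z => (u z, dx u z ^ 2 + dy u z ^ 2)) ⁻¹' ({0} ×ˢ Set.Ici (1 / ((n : ℝ) + 1))) := by
      ext z
      exact Iff.rfl
    rw [e]
    exact (isCompact_closedBall (0 : ℂ) _).of_isClosed_subset hcl Set.inter_subset_left
  have hKm : Monotone K := by
    intro n m hnm z hz
    have hnm' : (n : ℝ) ≤ m := by exact_mod_cast hnm
    refine ⟨closedBall_subset_closedBall ?_ hz.1, hz.2.1, le_trans ?_ hz.2.2⟩
    · have : 1 / ((m : ℝ) + 2) ≤ 1 / ((n : ℝ) + 2) :=
        one_div_le_one_div_of_le (by positivity) (by linarith)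
      linarith
    · exact one_div_le_one_div_of_le (by positivity) (by linarith)
  have hKle : ∀ n, (μH[1] : Measure ℂ) (K n) ≤ ENNReal.ofReal (C * (1 + Real.log (S8 / S1))) := by
    intro n
    refine hC _ V _ (K n) hnrm (hKc n) fun z hz => ⟨hKb n z hz, ?_, ?_⟩
    · show S8⁻¹ * u z = 0
      rw [hz.2.1, mul_zero]
    · rw [T8.dx_smul, T8.dy_smul, mul_pow, mul_pow, ← mul_add]
      have : 0 < 1 / ((n : ℝ) + 1) := by positivity
      exact mul_pos (pow_pos (inv_pos.2 hs8) 2) (this.trans_le hz.2.2)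
  have hU1 : (μH[1] : Measure ℂ) (⋃ n, K n) ≤ ENNReal.ofReal (C * (1 + Real.log (S8 / S1))) := by
    rw [hKm.measure_iUnion]
    exact iSup_le hKle
  have hsub : nod (ball 0 1) u ⊆ {z | z ∈ ball (0 : ℂ) 8 ∧ u z = 0 ∧ dx u z = 0 ∧ dy u z = 0} ∪
      ⋃ n, K n := by
    rintro z ⟨hz, hz0⟩
    by_cases h0 : dx u z ^ 2 + dy u z ^ 2 = 0
    · left
      refine ⟨ball_subset_ball (by norm_num) hz, hz0, ?_, ?_⟩ <;>
        nlinarith [sq_nonneg (dx u z), sq_nonneg (dy u z)]
    · right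
      have h2 : 0 < dx u z ^ 2 + dy u z ^ 2 := lt_of_le_of_ne (by positivity) (Ne.symm h0)
      have h3 : 0 < 1 - ‖z‖ := by
        have := mem_ball_zero_iff.1 hz
        linarith
      obtain ⟨n, hn⟩ := exists_nat_one_div_lt (lt_min h2 h3)
      refine Set.mem_iUnion.2 ⟨n, ?_, hz0, (hn.le.trans (min_le_left _ _))⟩
      rw [mem_closedBall_zero_iff]
      have h4 : 1 / ((n : ℝ) + 2) ≤ 1 / ((n : ℝ) + 1) :=
        one_div_le_one_div_of_le (by positivity) (by linarith)
      have h5 := hn.le.trans (min_le_right _ _)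
      linarith
  calc (μH[1] : Measure ℂ) (nod (ball 0 1) u)
      ≤ (μH[1] : Measure ℂ) ({z | z ∈ ball (0 : ℂ) 8 ∧ u z = 0 ∧ dx u z = 0 ∧ dy u z = 0} ∪
        ⋃ n, K n) := measure_mono hsub
    _ ≤ (μH[1] : Measure ℂ) {z | z ∈ ball (0 : ℂ) 8 ∧ u z = 0 ∧ dx u z = 0 ∧ dy u z = 0} +
        (μH[1] : Measure ℂ) (⋃ n, K n) := measure_union_le _ _
    _ ≤ 0 + ENNReal.ofReal (C * (1 + Real.log (S8 / S1))) := add_le_add hsing.le hU1
    _ = _ := zero_add _

end Pool.Agent.H303.NY
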