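import Pool.Agent.H303.NY.Stm
import Pool.Graph.R_pool_sql_team_seeded_3997aac3.Q73.AD.TA5

/-!
# N9: the local theorem, scaled
-/

set_option autoImplicit false
open MeasureTheory Filter Topology Complex Metric
open scoped ContDiff ENNReal

namespace Pool.Agent.H303.NY.T9

/-- the affine map `z ↦ w + r z` -/
noncomputable def T (w : ℂ) (r : ℝ) (z : ℂ) : ℂ := w + (r : ℂ) * z

lemma T_sub (w : ℂ) (r : ℝ) (x y : ℂ) : T w r x - T w r y = (r : ℂ) * (x - y) := by
  unfold T; ring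

lemma T_dist (w : ℂ) {r : ℝ} (hr : 0 < r) (x y : ℂ) : dist (T w r x) (T w r y) = r * dist x y := by
  rw [dist_eq_norm, dist_eq_norm, T_sub, norm_mul, Complex.norm_real, Real.norm_of_nonneg hr.le]

lemma T_zero (w : ℂ) (r : ℝ) : T w r 0 = w := by unfold T; simp

lemma T_surj (w : ℂ) {r : ℝ} (hr : 0 < r) (z : ℂ) : ∃ x, T w r x = z := by
  refine ⟨(z - w) / r, ?_⟩
  unfold T
  have : (r : ℂ) ≠ 0 := by exact_mod_cast hr.ne'
  field_simp
  ring

lemma T_closedBall (w : ℂ) {r : ℝ} (hr : 0 < r) (s : ℝ) :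
    T w r '' closedBall 0 s = closedBall w (s * r) := by
  ext z
  constructor
  · rintro ⟨x, hx, rfl⟩
    rw [mem_closedBall] at *
    have := T_dist w hr x 0
    rw [T_zero] at this
    rw [this, mul_comm]
    exact mul_le_mul_of_nonneg_right hx hr.le
  · intro hz
    obtain ⟨x, rfl⟩ := T_surj w hr z
    refine ⟨x, ?_, rfl⟩
    rw [mem_closedBall] at *
    have := T_dist w hr x 0
    rw [T_zero] at this
    rw [this, mul_comm] at hz
    exact le_of_mul_le_mul_right hz hr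

lemma T_mem_ball (w : ℂ) {r : ℝ} (hr : 0 < r) (x : ℂ) : T w r x ∈ ball w r ↔ x ∈ ball (0 : ℂ) 1 := by
  rw [mem_ball, mem_ball]
  have := T_dist w hr x 0
  rw [T_zero] at this
  rw [this]
  constructor
  · intro h
    by_contra h'
    rw [not_lt] at h'
    nlinarith
  · intro h
    nlinarith

lemma sn_T (w : ℂ) {r : ℝ} (hr : 0 < r) (s : ℝ) (φ : ℂ → ℝ) :
    Pool.Agent.Q73.AD.sn (fun z => φ (T w r z)) (closedBall 0 s) =
      Pool.Agent.Q73.AD.sn φ (closedBall w (s * r)) := by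
  unfold Pool.Agent.Q73.AD.sn
  rw [← T_closedBall w hr s, Set.image_image]

lemma T_lip (w : ℂ) {r : ℝ} (hr : 0 < r) : LipschitzWith r.toNNReal (T w r) := by
  refine LipschitzWith.of_dist_le_mul fun x y => ?_
  rw [T_dist w hr, Real.coe_toNNReal r hr.le]

lemma T_hasFDeriv (w : ℂ) (r : ℝ) (z : ℂ) :
    HasFDerivAt (T w r) (r • ContinuousLinearMap.id ℝ ℂ) z := by
  have h1 : HasFDerivAt (fun z : ℂ => w + r • z) (r • ContinuousLinearMap.id ℝ ℂ) z :=
    ((hasFDerivAt_id z).const_smul r).const_add w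
  have h2 : (fun z : ℂ => w + r • z) = T w r := by
    funext z
    unfold T
    rw [Complex.real_smul]
  rw [← h2]
  exact h1

lemma T_contDiff (w : ℂ) (r : ℝ) : ContDiff ℝ ∞ (T w r) := by
  unfold T
  exact contDiff_const.add (contDiff_const.mul contDiff_id)

lemma T_deriv (w : ℂ) (r : ℝ) (z : ℂ) : deriv (T w r) z = r := by
  have : HasDerivAt (T w r) ((r : ℂ) * 1) z := ((hasDerivAt_id z).const_mul (r : ℂ)).const_add w
  rw [this.deriv, mul_one]

lemma T_analytic (w : ℂ) (r : ℝ) (z : ℂ) : AnalyticAt ℂ (T w r) z := by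
  unfold T
  exact analyticAt_const.add (analyticAt_const.mul analyticAt_id)

end Pool.Agent.H303.NY.T9

namespace Pool.Agent.H303.NY

open Pool.Agent.Q73.NL Pool.Agent.Q73.AD Pool.Agent.H303.NP T9

/-- N9 -/
theorem tn9 (h8 : N8) : N9 := by
  obtain ⟨C, hC, h8⟩ := h8
  refine ⟨C, hC, ?_⟩
  intro lam L r w ρ φ hlam hr hr1 hL h hs
  have hL0 : 0 ≤ L := by
    have h1 := (h w (mem_closedBall_self (by positivity))).2.2.1
    exact (abs_nonneg _).trans h1
  have hT : ∀ z ∈ closedBall (0 : ℂ) 8, T w r z ∈ closedBall w (8 * r) := by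
    intro z hz
    rw [← T_closedBall w hr 8]
    exact ⟨z, hz, rfl⟩
  have hsol : SolB (fun z => lam * r ^ 2 * ρ (T w r z)) (fun z => φ (T w r z)) := by
    intro z hz
    obtain ⟨h1, h2, h3, h4, h5⟩ := h (T w r z) (hT z hz)
    have hfd : HasFDerivAt (fun z => lam * r ^ 2 * ρ (T w r z))
        ((lam * r ^ 2) • (fderiv ℝ ρ (T w r z)).comp (r • ContinuousLinearMap.id ℝ ℂ)) z := by
      have a1 : HasFDerivAt ρ (fderiv ℝ ρ (T w r z)) (T w r z) :=
        (h2.differentiableAt (by simp)).hasFDerivAt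
      exact (a1.comp z (T_hasFDeriv w r z)).const_mul (lam * r ^ 2)
    refine ⟨?_, ?_, ?_, ?_, ?_⟩
    · exact h1.comp z (T_contDiff w r).contDiffAt
    · exact contDiffAt_const.mul (h2.comp z ((T_contDiff w r).contDiffAt.of_le (by simp)))
    · rw [abs_mul, abs_of_nonneg (by positivity : 0 ≤ lam * r ^ 2)]
      calc lam * r ^ 2 * |ρ (T w r z)| ≤ lam * r ^ 2 * L :=
            mul_le_mul_of_nonneg_left h3 (by positivity)
        _ = lam * L * r ^ 2 := by ring
        _ ≤ 1 := hL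
    · rw [hfd.fderiv, norm_smul, Real.norm_of_nonneg (by positivity : 0 ≤ lam * r ^ 2)]
      have b1 : ‖(fderiv ℝ ρ (T w r z)).comp (r • ContinuousLinearMap.id ℝ ℂ)‖ ≤ L * r := by
        refine (ContinuousLinearMap.opNorm_comp_le _ _).trans ?_
        have b2 : ‖r • ContinuousLinearMap.id ℝ ℂ‖ ≤ r := by
          rw [norm_smul, Real.norm_of_nonneg hr.le]
          calc r * ‖ContinuousLinearMap.id ℝ ℂ‖ ≤ r * 1 :=
                mul_le_mul_of_nonneg_left ContinuousLinearMap.norm_id_le hr.le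
            _ = r := mul_one r
        exact mul_le_mul h4 b2 (norm_nonneg _) hL0
      calc lam * r ^ 2 * ‖(fderiv ℝ ρ (T w r z)).comp (r • ContinuousLinearMap.id ℝ ℂ)‖
          ≤ lam * r ^ 2 * (L * r) := mul_le_mul_of_nonneg_left b1 (by positivity)
        _ = lam * L * r ^ 2 * r := by ring
        _ ≤ 1 * 1 := mul_le_mul hL hr1 hr.le zero_le_one
        _ = 1 := one_mul 1
    · have c1 : lap (fun z => φ (T w r z)) z = r ^ 2 * lap φ (T w r z) := by
        rw [ta5 (T w r) φ z (T_analytic w r z) (h1.of_le (by exact WithTop.coe_le_coe.2 le_top)), T_deriv]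
        rw [Complex.norm_real, Real.norm_eq_abs, sq_abs]
      rw [c1]
      have : r ^ 2 * lap φ (T w r z) + lam * r ^ 2 * ρ (T w r z) * φ (T w r z) =
        r ^ 2 * (lap φ (T w r z) + lam * ρ (T w r z) * φ (T w r z)) := by ring
      rw [this, h5, mul_zero]
  have e1 := sn_T w hr 1 φ
  have e8 := sn_T w hr 8 φ
  rw [one_mul] at e1
  have hmain := h8 _ _ hsol (by rw [e1]; exact hs)
  rw [e1, e8] at hmain
  have hnod : nod (ball w r) φ = T w r '' nod (ball 0 1) (fun z => φ (T w r z)) := by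
    ext z
    constructor
    · rintro ⟨hz1, hz2⟩
      obtain ⟨x, rfl⟩ := T_surj w hr z
      exact ⟨x, ⟨(T_mem_ball w hr x).1 hz1, hz2⟩, rfl⟩
    · rintro ⟨x, ⟨hx1, hx2⟩, rfl⟩
      exact ⟨(T_mem_ball w hr x).2 hx1, hx2⟩
  rw [hnod]
  refine ((T_lip w hr).hausdorffMeasure_image_le zero_le_one _).trans ?_
  rw [ENNReal.rpow_one]
  have hcoe : ((r.toNNReal : NNReal) : ℝ≥0∞) = ENNReal.ofReal r := rfl
  rw [hcoe]
  calc ENNReal.ofReal r * (μH[1] : Measure ℂ) (nod (ball 0 1) (fun z => φ (T w r z)))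
      ≤ ENNReal.ofReal r * ENNReal.ofReal (C * (1 + Real.log
          (Pool.Agent.Q73.AD.sn φ (closedBall w (8 * r)) /
            Pool.Agent.Q73.AD.sn φ (closedBall w r)))) := mul_le_mul' le_rfl hmain
    _ = _ := by
      rw [← ENNReal.ofReal_mul hr.le]
      congr 1
      ring

end Pool.Agent.H303.NY
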