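import Pool.Agent.H303.NY.Stm
import Pool.Graph.R_pool_sql_team_seeded_3997aac3.Q73.NL.T5

/-!
# GAP: the positive eigenvalues are bounded below
-/

set_option autoImplicit false
open MeasureTheory Filter Topology Complex Metric
open scoped ContDiff ENNReal

namespace Pool.Agent.H303.NY.TGAP

open Pool.Agent.Q73.NL Pool.Agent.Q73.AD Pool.Agent.H303.NP Pool.Agent.H303.NY

universe u v

/-! ### The Laplacian -/

lemma lap_neg (h : ℂ → ℝ) (z : ℂ) : lap (fun z => -h z) z = -lap h z := by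
  have e1 : dx (fun z => -h z) = fun z => -dx h z := by
    funext z
    unfold dx
    rw [fderiv_fun_neg]
    rfl
  have e2 : dy (fun z => -h z) = fun z => -dy h z := by
    funext z
    unfold dy
    rw [fderiv_fun_neg]
    rfl
  unfold lap
  rw [e1, e2]
  have e4 : dx (fun z => -dx h z) z = -dx (dx h) z := by
    rw [show dx (fun z => -dx h z) z = fderiv ℝ (fun z => -dx h z) z 1 from rfl, fderiv_fun_neg]
    rfl
  have e5 : dy (fun z => -dy h z) z = -dy (dy h) z := by
    rw [show dy (fun z => -dy h z) z = fderiv ℝ (fun z => -dy h z) z I from rfl, fderiv_fun_neg]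
    rfl
  rw [e4, e5]; ring

lemma lap_mul (c : ℝ) (h : ℂ → ℝ) (z : ℂ) : lap (fun z => c * h z) z = c * lap h z := by
  have e : ∀ (k : ℂ → ℝ) (z e : ℂ), fderiv ℝ (fun z => c * k z) z e = c * fderiv ℝ k z e := by
    intro k z e
    have := congrFun (fderiv_const_smul_field (𝕜 := ℝ) (f := k) c) z
    have e' : fderiv ℝ (fun z => c * k z) z = c • fderiv ℝ k z := this
    rw [e']
    rfl
  have e1 : dx (fun z => c * h z) = fun z => c * dx h z := funext fun z => e h z 1
  have e2 : dy (fun z => c * h z) = fun z => c * dy h z := funext fun z => e h z I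
  unfold lap
  rw [e1, e2]
  have e3 : dx (fun z => c * dx h z) z = c * dx (dx h) z := e (dx h) z 1
  have e4 : dy (fun z => c * dy h z) z = c * dy (dy h) z := e (dy h) z I
  rw [e3, e4]; ring

lemma lap_const (c : ℝ) (z : ℂ) : lap (fun _ => c) z = 0 := by
  have e1 : dx (fun _ => c) = fun _ => 0 := by
    funext z; simp [dx]
  have e2 : dy (fun _ => c) = fun _ => 0 := by
    funext z; simp [dy]
  unfold lap
  rw [e1, e2]
  simp [dx, dy]

/-- the quadratic function -/
noncomputable def qd (K : ℝ) (c z : ℂ) : ℝ := -(K / 4) * ((z.re - c.re) ^ 2 + (z.im - c.im) ^ 2)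

lemma qd_smooth (K : ℝ) (c : ℂ) : ContDiff ℝ 2 (qd K c) := by
  unfold qd
  have h1 : ContDiff ℝ 2 fun z : ℂ => z.re := Complex.reCLM.contDiff
  have h2 : ContDiff ℝ 2 fun z : ℂ => z.im := Complex.imCLM.contDiff
  exact contDiff_const.mul (((h1.sub contDiff_const).pow 2).add ((h2.sub contDiff_const).pow 2))

lemma qd_dd (K : ℝ) (c z e : ℂ) : fderiv ℝ (fun w => fderiv ℝ (qd K c) w e) z e =
    -(K / 2) * (e.re ^ 2 + e.im ^ 2) := by
  refine dd_eq (g' := fun s => -(K / 4) * (2 * (z.re + s * e.re - c.re) * e.re +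
    2 * (z.im + s * e.im - c.im) * e.im)) (qd_smooth K c).contDiffAt (fun s => ?_) ?_
  · have e1 : (fun s : ℝ => qd K c (z + s • e)) = fun s : ℝ =>
        -(K / 4) * ((z.re + s * e.re - c.re) ^ 2 + (z.im + s * e.im - c.im) ^ 2) := by
      funext s
      simp [qd]
    rw [e1]
    have h1 : HasDerivAt (fun s : ℝ => z.re + s * e.re - c.re) e.re s := by
      have := (((hasDerivAt_id s).mul_const e.re).const_add z.re).sub_const c.re
      simpa using this
    have h2 : HasDerivAt (fun s : ℝ => z.im + s * e.im - c.im) e.im s := by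
      have := (((hasDerivAt_id s).mul_const e.im).const_add z.im).sub_const c.im
      simpa using this
    have h3 := ((h1.pow 2).add (h2.pow 2)).const_mul (-(K / 4))
    refine h3.congr_deriv ?_
    ring
  · have h1 : HasDerivAt (fun s : ℝ => z.re + s * e.re - c.re) e.re 0 := by
      have := (((hasDerivAt_id (0 : ℝ)).mul_const e.re).const_add z.re).sub_const c.re
      simpa using this
    have h2 : HasDerivAt (fun s : ℝ => z.im + s * e.im - c.im) e.im 0 := by
      have := (((hasDerivAt_id (0 : ℝ)).mul_const e.im).const_add z.im).sub_const c.im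
      simpa using this
    have h3 := (((h1.const_mul 2).mul_const e.re).add ((h2.const_mul 2).mul_const e.im)).const_mul
      (-(K / 4))
    refine h3.congr_deriv ?_
    ring

lemma qd_lap (K : ℝ) (c z : ℂ) : lap (qd K c) z = -K := by
  have e1 : lap (qd K c) z = fderiv ℝ (fun w => fderiv ℝ (qd K c) w 1) z 1 +
    fderiv ℝ (fun w => fderiv ℝ (qd K c) w I) z I := rfl
  rw [e1, qd_dd, qd_dd]
  simp
  ring

lemma qd_le {K r : ℝ} (hK : 0 ≤ K) {c z : ℂ} (hz : z ∈ ball c r) :
    -qd K c z ≤ K / 4 * r ^ 2 := by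
  have h1 : (z.re - c.re) ^ 2 + (z.im - c.im) ^ 2 ≤ r ^ 2 := by
    have h2 : ‖z - c‖ < r := by rwa [← dist_eq_norm]
    have h3 : ‖z - c‖ ^ 2 = (z.re - c.re) ^ 2 + (z.im - c.im) ^ 2 := by
      rw [← Complex.normSq_eq_norm_sq, Complex.normSq_apply, Complex.sub_re, Complex.sub_im]
      ring
    rw [← h3]
    exact pow_le_pow_left₀ (norm_nonneg _) h2.le 2
  unfold qd
  nlinarith

lemma vol_ball_real (z : ℂ) {s : ℝ} (hs : 0 ≤ s) :
    volume.real (ball z s) = Real.pi * s ^ 2 := by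
  rw [Measure.real, Complex.volume_ball, ENNReal.toReal_mul, ENNReal.toReal_pow,
    ENNReal.toReal_ofReal hs]
  simp only [ENNReal.coe_toReal, NNReal.coe_real_pi]
  ring

/-- Harnack inequality -/
lemma harn (hM : MV) (w : ℂ → ℝ) (z₀ : ℂ) (r K : ℝ) (hr : 0 < r) (hK : 0 ≤ K)
    (hw : ∀ z ∈ closedBall z₀ (4 * r), ContDiffAt ℝ 2 w z ∧ 0 ≤ w z ∧ |lap w z| ≤ K) (x y : ℂ)
    (hx : x ∈ ball z₀ r) (hy : y ∈ ball z₀ r) : w x ≤ 9 * w y + 21 * K * r ^ 2 := by
  have hpi := Real.pi_pos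
  rw [mem_ball] at hx hy
  have s1 : closedBall x r ⊆ closedBall z₀ (4 * r) := by
    refine closedBall_subset_closedBall' ?_
    linarith
  have s2 : closedBall y (3 * r) ⊆ closedBall z₀ (4 * r) := by
    refine closedBall_subset_closedBall' ?_
    linarith
  have s3 : ball x r ⊆ ball y (3 * r) := by
    refine ball_subset_ball' ?_
    have := dist_triangle x z₀ y
    rw [dist_comm z₀ y] at this
    linarith
  have hci : ContinuousOn w (closedBall z₀ (4 * r)) := fun z hz =>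
    (hw z hz).1.continuousAt.continuousWithinAt
  have hint : IntegrableOn w (closedBall z₀ (4 * r)) :=
    hci.integrableOn_compact (isCompact_closedBall _ _)
  have i1 : IntegrableOn w (ball x r) := hint.mono_set (ball_subset_closedBall.trans s1)
  have i2 : IntegrableOn w (ball y (3 * r)) := hint.mono_set (ball_subset_closedBall.trans s2)
  have i3 : IntegrableOn (fun z => -w z) (ball y (3 * r)) := i2.neg
  -- upper bound at `x`
  have m1 := hM (fun z => w z - qd K x z) x r hr (by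
    intro z hz
    obtain ⟨a1, a2, a3⟩ := hw z (s1 hz)
    refine ⟨a1.sub (qd_smooth K x).contDiffAt, ?_⟩
    rw [lap_sub a1 (qd_smooth K x).contDiffAt, qd_lap]
    have := (abs_le.1 a3).1
    linarith)
  have b1 : ∫ z in ball x r, (w z - qd K x z) ≤
      (∫ z in ball x r, w z) + K / 4 * r ^ 2 * (Real.pi * r ^ 2) := by
    have c1 : ∫ z in ball x r, (w z - qd K x z) ≤ ∫ z in ball x r, (w z + K / 4 * r ^ 2) := by
      refine setIntegral_mono_on ?_ ?_ measurableSet_ball fun z hz => ?_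
      · refine i1.sub ?_
        exact ((qd_smooth K x).continuous.continuousOn.integrableOn_compact
          (isCompact_closedBall x r)).mono_set ball_subset_closedBall
      · exact i1.add (integrableOn_const measure_ball_lt_top.ne)
      · have := qd_le hK hz
        linarith
    refine c1.trans (le_of_eq ?_)
    rw [integral_add i1 (integrableOn_const measure_ball_lt_top.ne), setIntegral_const,
      vol_ball_real _ hr.le, smul_eq_mul]
    ring
  have q0 : ∀ c : ℂ, qd K c c = 0 := fun c => by simp [qd]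
  simp only [q0, sub_zero] at m1
  -- lower bound at `y`
  have m2 := hM (fun z => -w z - qd K y z) y (3 * r) (by linarith) (by
    intro z hz
    obtain ⟨a1, a2, a3⟩ := hw z (s2 hz)
    refine ⟨a1.neg.sub (qd_smooth K y).contDiffAt, ?_⟩
    rw [lap_sub a1.neg (qd_smooth K y).contDiffAt, qd_lap, lap_neg]
    have := (abs_le.1 a3).2
    linarith)
  have b2 : ∫ z in ball y (3 * r), (-w z - qd K y z) ≤
      -(∫ z in ball y (3 * r), w z) + K / 4 * (3 * r) ^ 2 * (Real.pi * (3 * r) ^ 2) := by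
    have c1 : ∫ z in ball y (3 * r), (-w z - qd K y z) ≤
        ∫ z in ball y (3 * r), (-w z + K / 4 * (3 * r) ^ 2) := by
      refine setIntegral_mono_on ?_ ?_ measurableSet_ball fun z hz => ?_
      · refine i3.sub ?_
        exact ((qd_smooth K y).continuous.continuousOn.integrableOn_compact
          (isCompact_closedBall y (3 * r))).mono_set ball_subset_closedBall
      · exact i3.add (integrableOn_const measure_ball_lt_top.ne)
      · have := qd_le hK hz
        linarith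
    refine c1.trans (le_of_eq ?_)
    rw [integral_add i3 (integrableOn_const measure_ball_lt_top.ne), setIntegral_const,
      vol_ball_real _ (by linarith), smul_eq_mul, integral_neg]
    ring
  simp only [q0, sub_zero] at m2
  have b3 : ∫ z in ball x r, w z ≤ ∫ z in ball y (3 * r), w z := by
    refine setIntegral_mono_set i2 ?_ s3.eventuallyLE
    refine (ae_restrict_iff' measurableSet_ball).2 (Eventually.of_forall fun z hz => ?_)
    exact (hw z (s2 (ball_subset_closedBall hz))).2.1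
  have h1 : w x * (Real.pi * r ^ 2) ≤ (9 * w y + 82 / 4 * K * r ^ 2) * (Real.pi * r ^ 2) := by
    nlinarith
  have h2 : w x ≤ 9 * w y + 82 / 4 * K * r ^ 2 := le_of_mul_le_mul_right h1 (by positivity)
  have h3 : 0 ≤ K * r ^ 2 := by positivity
  linarith

/-! ### The sign of the minimum -/

lemma lap_min {h : ℂ → ℝ} {z : ℂ} (hs : ContDiffAt ℝ 2 h z) (hm : IsLocalMin h z) : 0 ≤ lap h z := by
  have key : ∀ e : ℂ, 0 ≤ fderiv ℝ (fun w => fderiv ℝ h w e) z e := by
    intro e
    obtain ⟨h1, h2⟩ := line_der e hs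
    refine snd_test h1 h2 ?_
    have h3 : Tendsto (fun s : ℝ => z + s • e) (𝓝 0) (𝓝 z) := by
      have := (line_cont z e).tendsto 0
      simpa using this
    have h4 := h3.eventually hm
    filter_upwards [h4] with s hs
    have h5 : h (z + (0 : ℝ) • e) = h z := by rw [zero_smul, add_zero]
    rw [h5]
    exact hs
  exact add_nonneg (key 1) (key I)

section surf

variable {M : Type u} {ι : Type v} [MetricSpace M] {U : ι → Set ℂ} {φ : ι → ℂ → M}
    {ρ : ι → ℂ → ℝ}

/-- eigenfunctions are nonpositive at a minimum -/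
lemma min_nonpos (hA : Atl U φ ρ)
    (hρ : ∀ i, ∀ z ∈ U i, 0 < ρ i z) {lam : ℝ} (hlam : 0 < lam) {f : M → ℝ}
    (hf : Eig U φ ρ lam f) {x : M} (hx : ∀ y, f x ≤ f y) : f x ≤ 0 := by
  obtain ⟨i, z, hz, rfl⟩ := hA.cover x
  have hnh : U i ∈ 𝓝 z := (hA.dom i).mem_nhds hz
  have h1 : ContDiffAt ℝ 2 (fun z => f (φ i z)) z := ((hf i).1.contDiffAt hnh).of_le (by norm_cast)
  have h2 := lap_min h1 (Filter.Eventually.of_forall fun w => hx (φ i w))
  have h3 := (hf i).2 z hz
  by_contra hcon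
  push Not at hcon
  have h4 : 0 < lam * ρ i z * f (φ i z) := mul_pos (mul_pos hlam (hρ i z hz)) hcon
  linarith

lemma eig_mul {lam : ℝ} {f : M → ℝ} (c : ℝ) (hf : Eig U φ ρ lam f) :
    Eig U φ ρ lam (fun x => c * f x) := by
  intro i
  refine ⟨contDiffOn_const.mul (hf i).1, fun z hz => ?_⟩
  rw [lap_mul c (fun z => f (φ i z))]
  have := (hf i).2 z hz
  linear_combination c * this

lemma eig_cont (hA : Atl U φ ρ) {lam : ℝ} {f : M → ℝ} (hf : Eig U φ ρ lam f) : Continuous f := by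
  rw [continuous_iff_continuousAt]
  intro x
  obtain ⟨i, z, hz, rfl⟩ := hA.cover x
  have h1 : ContinuousOn (fun z => f (φ i z)) (U i) := (hf i).1.continuousOn
  rw [ContinuousAt, tendsto_def]
  intro s hs
  have h2 : (fun z => f (φ i z)) ⁻¹' s ∈ 𝓝 z := (h1.continuousAt ((hA.dom i).mem_nhds hz)) hs
  obtain ⟨V, hV, hVo, hzV⟩ := _root_.mem_nhds_iff.1 (inter_mem h2 ((hA.dom i).mem_nhds hz))
  have h3 : IsOpen (φ i '' V) := hA.opn i V hVo fun y hy => (hV hy).2
  refine mem_of_superset (h3.mem_nhds ⟨z, hzV, rfl⟩) ?_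
  rintro _ ⟨y, hy, rfl⟩
  exact (hV hy).1

/-! ### The Harnack inequality on the surface -/

/-- normalised eigenfunctions -/
def Adm (U : ι → Set ℂ) (φ : ι → ℂ → M) (ρ : ι → ℂ → ℝ) (lam : ℝ) (f : M → ℝ) : Prop :=
  0 < lam ∧ Eig U φ ρ lam f ∧ ∀ x, |f x| ≤ 1

lemma Adm.nonneg {lam : ℝ} {f : M → ℝ} (h : Adm U φ ρ lam f) (x : M) : 0 ≤ 1 - f x := by
  have := (abs_le.1 (h.2.2 x)).2
  linarith

lemma loc (hM : MV) (hA : Atl U φ ρ) (x : M) : ∃ C : ℝ, 1 ≤ C ∧ ∃ B : Set M, IsOpen B ∧ x ∈ B ∧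
    ∀ y ∈ B, ∀ y' ∈ B, ∀ (lam : ℝ) (f : M → ℝ), Adm U φ ρ lam f →
      1 - f y' ≤ C * ((1 - f y) + lam) := by
  obtain ⟨i, z, hz, rfl⟩ := hA.cover x
  obtain ⟨r₁, hr₁, hr₁U⟩ := Metric.isOpen_iff.1 (hA.dom i) z hz
  set r : ℝ := r₁ / 5 with hr
  have hr0 : 0 < r := by rw [hr]; linarith
  have hcb : closedBall z (4 * r) ⊆ U i := (closedBall_subset_ball (by rw [hr]; linarith)).trans hr₁U
  obtain ⟨L, hL⟩ := (isCompact_closedBall z (4 * r)).exists_bound_of_continuousOn
    ((hA.dens i).continuousOn.mono hcb)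
  have hL0 : 0 ≤ L := (norm_nonneg _).trans (hL z (mem_closedBall_self (by linarith)))
  have hsub : ball z r ⊆ U i :=
    (ball_subset_closedBall.trans (closedBall_subset_closedBall (by linarith))).trans hcb
  refine ⟨9 + 21 * L * r ^ 2, ?_, φ i '' ball z r, hA.opn i _ isOpen_ball hsub,
    ⟨z, mem_ball_self hr0, rfl⟩, ?_⟩
  · have : 0 ≤ 21 * L * r ^ 2 := by positivity
    linarith
  · rintro _ ⟨a, ha, rfl⟩ _ ⟨b, hb, rfl⟩ lam f hf
    have h1 := harn hM (fun z => 1 - f (φ i z)) z r (lam * L) hr0 (mul_nonneg hf.1.le hL0) (by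
      intro y hy
      have hyU := hcb hy
      have hnh : U i ∈ 𝓝 y := (hA.dom i).mem_nhds hyU
      have h1 : ContDiffAt ℝ 2 (fun z => f (φ i z)) y :=
        ((hf.2.1 i).1.contDiffAt hnh).of_le (by norm_cast)
      refine ⟨contDiffAt_const.sub h1, hf.nonneg _, ?_⟩
      rw [lap_sub contDiffAt_const h1, lap_const, zero_sub, abs_neg]
      have h2 := (hf.2.1 i).2 y hyU
      have h3 : lap (fun z => f (φ i z)) y = -(lam * ρ i y * f (φ i y)) := by linarith
      rw [h3, abs_neg, abs_mul, abs_mul, abs_of_pos hf.1]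
      have h4 : |ρ i y| ≤ L := hL y hy
      have h5 := hf.2.2 (φ i y)
      calc lam * |ρ i y| * |f (φ i y)| ≤ lam * L * 1 :=
            mul_le_mul (mul_le_mul_of_nonneg_left h4 hf.1.le) h5 (abs_nonneg _)
              (mul_nonneg hf.1.le hL0)
        _ = lam * L := mul_one _) b a hb ha
    have h2 := hf.nonneg (φ i a)
    have h3 : 0 ≤ 21 * L * r ^ 2 := by positivity
    have h4 := hf.1
    nlinarith [mul_nonneg h3 h2]

lemma chain [CompactSpace M] [ConnectedSpace M] (hM : MV) (hA : Atl U φ ρ) (x : M) :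
    ∃ C : ℝ, 1 ≤ C ∧ ∀ (y : M) (lam : ℝ) (f : M → ℝ), Adm U φ ρ lam f →
      1 - f y ≤ C * ((1 - f x) + lam) ∧ 1 - f x ≤ C * ((1 - f y) + lam) := by
  let A : Set M := {y | ∃ C : ℝ, 1 ≤ C ∧ ∃ B : Set M, IsOpen B ∧ y ∈ B ∧
    ∀ y' ∈ B, ∀ (lam : ℝ) (f : M → ℝ), Adm U φ ρ lam f →
      1 - f y' ≤ C * ((1 - f x) + lam) ∧ 1 - f x ≤ C * ((1 - f y') + lam)}
  have hxA : x ∈ A := by
    obtain ⟨C, hC, B, hB, hxB, h⟩ := loc hM hA x
    exact ⟨C, hC, B, hB, hxB, fun y' hy' lam f hf => ⟨h x hxB y' hy' lam f hf, h y' hy' x hxB lam f hf⟩⟩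
  have hopen : IsOpen A := by
    rw [isOpen_iff_mem_nhds]
    rintro y ⟨C, hC, B, hB, hyB, h⟩
    exact mem_of_superset (hB.mem_nhds hyB) fun y' hy' => ⟨C, hC, B, hB, hy', h⟩
  have hclosed : IsClosed A := by
    rw [← closure_subset_iff_isClosed]
    intro y hy
    obtain ⟨C, hC, B, hB, hyB, h⟩ := loc hM hA y
    obtain ⟨y₁, hy₁B, C₁, hC₁, B₁, hB₁, hy₁, h₁⟩ := mem_closure_iff.1 hy B hB hyB
    refine ⟨C * (C₁ + 1) + C₁ * (C + 1), by nlinarith, B, hB, hyB, fun y' hy' lam f hf => ?_⟩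
    have e1 := h y₁ hy₁B y' hy' lam f hf
    have e2 := h y' hy' y₁ hy₁B lam f hf
    obtain ⟨e3, e4⟩ := h₁ y₁ hy₁ lam f hf
    have p1 := hf.nonneg x
    have p2 := hf.nonneg y'
    have p3 := hf.nonneg y₁
    have p4 := hf.1
    constructor
    · have f1 : C * ((1 - f y₁) + lam) ≤ C * (C₁ * ((1 - f x) + lam) + ((1 - f x) + lam)) :=
        mul_le_mul_of_nonneg_left (by linarith) (by linarith)
      have f2 : 0 ≤ C₁ * (C + 1) * ((1 - f x) + lam) :=
        mul_nonneg (mul_nonneg (by linarith) (by linarith)) (by linarith)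
      calc 1 - f y' ≤ _ := e1
        _ ≤ _ := f1
        _ ≤ C * (C₁ * ((1 - f x) + lam) + ((1 - f x) + lam)) +
            C₁ * (C + 1) * ((1 - f x) + lam) := by linarith
        _ = _ := by ring
    · have f1 : C₁ * ((1 - f y₁) + lam) ≤ C₁ * (C * ((1 - f y') + lam) + ((1 - f y') + lam)) :=
        mul_le_mul_of_nonneg_left (by linarith) (by linarith)
      have f2 : 0 ≤ C * (C₁ + 1) * ((1 - f y') + lam) :=
        mul_nonneg (mul_nonneg (by linarith) (by linarith)) (by linarith)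
      calc 1 - f x ≤ _ := e4
        _ ≤ _ := f1
        _ ≤ C₁ * (C * ((1 - f y') + lam) + ((1 - f y') + lam)) +
            C * (C₁ + 1) * ((1 - f y') + lam) := by linarith
        _ = _ := by ring
  have huniv : A = Set.univ := IsClopen.eq_univ ⟨hclosed, hopen⟩ ⟨x, hxA⟩
  have hcomp : ∃ C : ℝ, 1 ≤ C ∧ ∀ y ∈ (Set.univ : Set M), ∀ (lam : ℝ) (f : M → ℝ),
      Adm U φ ρ lam f → 1 - f y ≤ C * ((1 - f x) + lam) ∧ 1 - f x ≤ C * ((1 - f y) + lam) := by
    refine isCompact_univ.induction_on (p := fun s : Set M => ∃ C : ℝ, 1 ≤ C ∧ ∀ y ∈ s,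
      ∀ (lam : ℝ) (f : M → ℝ), Adm U φ ρ lam f →
        1 - f y ≤ C * ((1 - f x) + lam) ∧ 1 - f x ≤ C * ((1 - f y) + lam)) ?_ ?_ ?_ ?_
    · exact ⟨1, le_rfl, fun y hy => hy.elim⟩
    · rintro s t hst ⟨C, hC, h⟩
      exact ⟨C, hC, fun y hy => h y (hst hy)⟩
    · rintro s t ⟨C, hC, h⟩ ⟨C', hC', h'⟩
      refine ⟨max C C', le_max_of_le_left hC, fun y hy lam f hf => ?_⟩
      have p1 : 0 ≤ (1 - f x) + lam := add_nonneg (hf.nonneg x) hf.1.le
      have p2 : 0 ≤ (1 - f y) + lam := add_nonneg (hf.nonneg y) hf.1.le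
      rcases hy with hy | hy
      · obtain ⟨a, b⟩ := h y hy lam f hf
        exact ⟨a.trans (mul_le_mul_of_nonneg_right (le_max_left _ _) p1),
          b.trans (mul_le_mul_of_nonneg_right (le_max_left _ _) p2)⟩
      · obtain ⟨a, b⟩ := h' y hy lam f hf
        exact ⟨a.trans (mul_le_mul_of_nonneg_right (le_max_right _ _) p1),
          b.trans (mul_le_mul_of_nonneg_right (le_max_right _ _) p2)⟩
    · intro y _
      have hy : y ∈ A := by rw [huniv]; exact Set.mem_univ y
      obtain ⟨C, hC, B, hB, hyB, h⟩ := hy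
      exact ⟨B, mem_nhdsWithin_of_mem_nhds (hB.mem_nhds hyB), C, hC, h⟩
  obtain ⟨C, hC, h⟩ := hcomp
  exact ⟨C, hC, fun y => h y (Set.mem_univ y)⟩

end surf

end Pool.Agent.H303.NY.TGAP

namespace Pool.Agent.H303.NY

open Pool.Agent.Q73.NL Pool.Agent.Q73.AD Pool.Agent.H303.NP

universe u v

theorem tgap (hM : MV) : GAP.{u, v} := by
  intro M ι _ _ _ U φ ρ hA hρ
  obtain ⟨x⟩ : Nonempty M := inferInstance
  obtain ⟨C, hC, h⟩ := TGAP.chain hM hA x
  refine ⟨1 / (C * (C + 1)), by positivity, fun lam f hlam hf hne => ?_⟩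
  -- normalisation
  have hcont : Continuous f := TGAP.eig_cont hA hf
  obtain ⟨x₀, -, hx₀⟩ := isCompact_univ.exists_isMaxOn (Set.univ_nonempty (α := M))
    (hcont.abs).continuousOn
  have hmax : ∀ y, |f y| ≤ |f x₀| := fun y => hx₀ (Set.mem_univ y)
  have hpos : 0 < |f x₀| := by
    obtain ⟨y, hy⟩ := hne
    exact (abs_pos.2 hy).trans_le (hmax y)
  have hf0 : f x₀ ≠ 0 := abs_pos.1 hpos
  have hg : TGAP.Adm U φ ρ lam (fun y => (f x₀)⁻¹ * f y) := by
    refine ⟨hlam, TGAP.eig_mul _ hf, fun y => ?_⟩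
    rw [abs_mul, abs_inv, inv_mul_le_iff₀ hpos, mul_one]
    exact hmax y
  obtain ⟨x₁, -, hx₁⟩ := isCompact_univ.exists_isMinOn (Set.univ_nonempty (α := M))
    (TGAP.eig_cont hA hg.2.1).continuousOn
  have h1 : (f x₀)⁻¹ * f x₁ ≤ 0 := TGAP.min_nonpos hA hρ hlam hg.2.1 (x := x₁)
    fun y => hx₁ (Set.mem_univ y)
  obtain ⟨-, e1⟩ := h x₀ lam _ hg
  obtain ⟨e2, -⟩ := h x₁ lam _ hg
  simp only [inv_mul_cancel₀ hf0, sub_self, zero_add] at e1
  rw [div_le_iff₀ (by positivity)]
  have e3 : C * ((1 - (f x₀)⁻¹ * f x) + lam) ≤ C * (C * lam + lam) :=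
    mul_le_mul_of_nonneg_left (by linarith) (by linarith)
  nlinarith

end Pool.Agent.H303.NY
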