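import Pool.Agent.H303.NY.Stm
import Pool.Graph.R_pool_sql_team_seeded_3997aac3.Q73.AD.YPB

/-!
# LB: the gradient of a negative subharmonic function is in `L¹` (helper740)
-/

set_option autoImplicit false
open MeasureTheory Filter Topology Complex Metric
open scoped ContDiff ENNReal ComplexConjugate

namespace Pool.Agent.H303.NY

open Pool.Agent.Q73.NL Pool.Agent.Q73.AD Pool.Agent.H303.NP

namespace TLB

/-- the integral of `1 / ‖x‖` over the unit disc -/
lemma lint_unit : ∫⁻ x in ball (0 : ℂ) 1, ENNReal.ofReal (‖x‖⁻¹) ≤ ENNReal.ofReal (2 * Real.pi) := by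
  rw [← lintegral_indicator measurableSet_ball, ← Complex.lintegral_comp_polarCoord_symm]
  calc ∫⁻ p in polarCoord.target, ENNReal.ofReal p.1 •
        (ball (0 : ℂ) 1).indicator (fun x => ENNReal.ofReal (‖x‖⁻¹)) (Complex.polarCoord.symm p)
      ≤ ∫⁻ p in polarCoord.target,
        (Set.Ioo (0 : ℝ) 1 ×ˢ Set.Ioo (-Real.pi) Real.pi).indicator (fun _ => (1 : ℝ≥0∞)) p := by
        refine setLIntegral_mono' polarCoord.open_target.measurableSet ?_
        intro p hp
        rw [polarCoord_target, Set.mem_prod] at hp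
        obtain ⟨hp1, hp2⟩ := hp
        rw [Set.mem_Ioi] at hp1
        by_cases h1 : p.1 < 1
        · have hmem : p ∈ Set.Ioo (0 : ℝ) 1 ×ˢ Set.Ioo (-Real.pi) Real.pi := ⟨⟨hp1, h1⟩, hp2⟩
          rw [Set.indicator_of_mem hmem]
          have hb : Complex.polarCoord.symm p ∈ ball (0 : ℂ) 1 := by
            rw [mem_ball_zero_iff, Complex.norm_polarCoord_symm, abs_of_pos hp1]
            exact h1
          rw [Set.indicator_of_mem hb, Complex.norm_polarCoord_symm, abs_of_pos hp1, smul_eq_mul,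
            ← ENNReal.ofReal_mul hp1.le, mul_inv_cancel₀ hp1.ne', ENNReal.ofReal_one]
        · have hb : Complex.polarCoord.symm p ∉ ball (0 : ℂ) 1 := by
            rw [mem_ball_zero_iff, Complex.norm_polarCoord_symm, abs_of_pos hp1]
            exact h1
          rw [Set.indicator_of_notMem hb]
          simp
    _ ≤ ∫⁻ p : ℝ × ℝ,
        (Set.Ioo (0 : ℝ) 1 ×ˢ Set.Ioo (-Real.pi) Real.pi).indicator (fun _ => (1 : ℝ≥0∞)) p :=
        setLIntegral_le_lintegral _ _
    _ = ENNReal.ofReal (2 * Real.pi) := by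
        rw [lintegral_indicator (measurableSet_Ioo.prod measurableSet_Ioo), lintegral_const, one_mul,
          Measure.restrict_apply_univ, Measure.volume_eq_prod, Measure.prod_prod, Real.volume_Ioo,
          Real.volume_Ioo, ← ENNReal.ofReal_mul (by norm_num)]
        congr 1
        ring

lemma vol2 : volume (ball (0 : ℂ) 2) = ENNReal.ofReal (4 * Real.pi) := by
  rw [Complex.volume_ball, ← ENNReal.ofReal_pow (by norm_num)]
  have : (NNReal.pi : ℝ≥0∞) = ENNReal.ofReal Real.pi := by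
    rw [← NNReal.coe_real_pi, ENNReal.ofReal_coe_nnreal]
  rw [this, ← ENNReal.ofReal_mul (by norm_num)]
  congr 1
  norm_num

lemma lint_all (z : ℂ) :
    ∫⁻ x in ball (0 : ℂ) 2, ENNReal.ofReal (‖x - z‖⁻¹) ≤ ENNReal.ofReal (6 * Real.pi) := by
  have hm : Measurable (fun x : ℂ => (ball (0 : ℂ) 1).indicator
      (fun x => ENNReal.ofReal (‖x‖⁻¹)) (x - z)) := by
    have h1 : Measurable ((ball (0 : ℂ) 1).indicator (fun x : ℂ => ENNReal.ofReal (‖x‖⁻¹))) := by
      refine Measurable.indicator ?_ measurableSet_ball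
      fun_prop
    exact h1.comp (measurable_id.sub_const z)
  calc ∫⁻ x in ball (0 : ℂ) 2, ENNReal.ofReal (‖x - z‖⁻¹)
      ≤ ∫⁻ x in ball (0 : ℂ) 2, ((ball (0 : ℂ) 1).indicator
        (fun x => ENNReal.ofReal (‖x‖⁻¹)) (x - z) + 1) := by
        refine lintegral_mono fun x => ?_
        simp only
        by_cases h : x - z ∈ ball (0 : ℂ) 1
        · rw [Set.indicator_of_mem h]
          exact le_self_add
        · rw [Set.indicator_of_notMem h, zero_add, ← ENNReal.ofReal_one]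
          apply ENNReal.ofReal_le_ofReal
          rw [mem_ball_zero_iff, not_lt] at h
          exact inv_le_one_of_one_le₀ h
    _ = (∫⁻ x in ball (0 : ℂ) 2, (ball (0 : ℂ) 1).indicator
        (fun x => ENNReal.ofReal (‖x‖⁻¹)) (x - z)) + ∫⁻ _ in ball (0 : ℂ) 2, 1 :=
        lintegral_add_left hm _
    _ ≤ (∫⁻ x : ℂ, (ball (0 : ℂ) 1).indicator
        (fun x => ENNReal.ofReal (‖x‖⁻¹)) (x - z)) + ENNReal.ofReal (4 * Real.pi) := by
        refine add_le_add (setLIntegral_le_lintegral _ _) ?_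
        rw [setLIntegral_const, one_mul, vol2]
    _ ≤ ENNReal.ofReal (2 * Real.pi) + ENNReal.ofReal (4 * Real.pi) := by
        refine add_le_add ?_ le_rfl
        rw [lintegral_sub_right_eq_self (fun x : ℂ => (ball (0 : ℂ) 1).indicator
          (fun x => ENNReal.ofReal (‖x‖⁻¹)) x) z, lintegral_indicator measurableSet_ball]
        exact lint_unit
    _ = ENNReal.ofReal (6 * Real.pi) := by
        rw [← ENNReal.ofReal_add (by positivity) (by positivity)]
        congr 1
        ring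

lemma abs_log_sub {a b : ℝ} (ha : 0 < a) (hb : 0 < b) :
    |Real.log a - Real.log b| ≤ |a - b| * (a⁻¹ + b⁻¹) := by
  have key : ∀ {a b : ℝ}, 0 < a → 0 < b → Real.log a - Real.log b ≤ |a - b| * (a⁻¹ + b⁻¹) := by
    intro a b ha hb
    rw [← Real.log_div ha.ne' hb.ne']
    have h1 := Real.log_le_sub_one_of_pos (div_pos ha hb)
    have h2 : a / b - 1 = (a - b) * b⁻¹ := by field_simp
    have h3 : (a - b) * b⁻¹ ≤ |a - b| * b⁻¹ :=
      mul_le_mul_of_nonneg_right (le_abs_self _) (inv_nonneg.2 hb.le)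
    have h4 : 0 ≤ |a - b| * a⁻¹ := mul_nonneg (abs_nonneg _) (inv_nonneg.2 ha.le)
    rw [mul_add]
    linarith
  rw [abs_le]
  constructor
  · have := key hb ha
    rw [abs_sub_comm b a, add_comm b⁻¹ a⁻¹] at this
    linarith
  · exact key ha hb

/-- one point -/
lemma point {v m H : ℂ → ℝ} {C A t : ℝ} {e x : ℂ} (hC : 1 ≤ C) (hA : 0 ≤ A) (hmc : Continuous m)
    (hms : HasCompactSupport m) (hm0 : ∀ y, 0 ≤ m y)
    (hv : ∀ x ∈ ball (0 : ℂ) 3, v x = (∫ y, Real.log ‖x - y‖ * m y) + H x)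
    (hH : ∀ p ∈ ball (0 : ℂ) 3, ∃ ξ : ℂ, ‖ξ‖ ≤ C * A ∧
      ∀ x ∈ ball (0 : ℂ) 3, |H x - H p - (conj ξ * (x - p)).re| ≤ C * A * ‖x - p‖ ^ 2)
    (ht : 0 < t) (ht1 : t < 1 / 2) (he : ‖e‖ = 1) (hx : x ∈ ball (0 : ℂ) 2) :
    ‖v (x + t * e) - v x‖ₑ ≤ (∫⁻ y, ENNReal.ofReal (t * m y) *
      (ENNReal.ofReal (‖x - (y - t * e)‖⁻¹) + ENNReal.ofReal (‖x - y‖⁻¹))) +
      ENNReal.ofReal (2 * C * A * t) := by
  have hte : ‖(t : ℂ) * e‖ = t := by
    rw [norm_mul, he, mul_one, Complex.norm_real, Real.norm_of_nonneg ht.le]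
  have hx3 : x ∈ ball (0 : ℂ) 3 := ball_subset_ball (by norm_num) hx
  have hxt : x + t * e ∈ ball (0 : ℂ) 3 := by
    rw [mem_ball_zero_iff] at hx ⊢
    have := norm_add_le x (t * e)
    rw [hte] at this
    linarith
  have hHd : |H (x + t * e) - H x| ≤ 2 * C * A * t := by
    obtain ⟨ξ, hξ, h⟩ := hH x hx3
    have h1 := h (x + t * e) hxt
    have e1 : x + t * e - x = t * e := by ring
    rw [e1, hte] at h1
    have h2 : |(conj ξ * (t * e)).re| ≤ C * A * t := by
      refine (abs_re_le_norm _).trans ?_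
      rw [norm_mul, hte, RCLike.norm_conj]
      exact mul_le_mul_of_nonneg_right hξ ht.le
    have hCA : 0 ≤ C * A := mul_nonneg (by linarith) hA
    have h3 : C * A * t ^ 2 ≤ C * A * t := by
      apply mul_le_mul_of_nonneg_left _ hCA
      nlinarith
    have h4 : |H (x + t * e) - H x| ≤ |H (x + t * e) - H x - (conj ξ * (t * e)).re| +
        |(conj ξ * (t * e)).re| := by
      have := abs_add_le (H (x + t * e) - H x - (conj ξ * (t * e)).re) ((conj ξ * (t * e)).re)
      rwa [sub_add_cancel] at this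
    linarith
  have i1 := PBx.log_int hmc hms (x + t * e)
  have i2 := PBx.log_int hmc hms x
  have hsplit : v (x + t * e) - v x =
      (∫ y, (Real.log ‖x + t * e - y‖ * m y - Real.log ‖x - y‖ * m y)) +
        (H (x + t * e) - H x) := by
    rw [hv _ hxt, hv _ hx3, integral_sub i1 i2]
    ring
  rw [hsplit]
  refine (enorm_add_le _ _).trans (add_le_add ?_ ?_)
  · refine (enorm_integral_le_lintegral_enorm _).trans ?_
    refine lintegral_mono_ae ?_
    have n1 : ∀ᵐ y : ℂ, y ≠ x := by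
      have : volume ({x} : Set ℂ) = 0 := measure_singleton x
      exact measure_eq_zero_iff_ae_notMem.1 this
    have n2 : ∀ᵐ y : ℂ, y ≠ x + t * e := by
      have : volume ({x + t * e} : Set ℂ) = 0 := measure_singleton _
      exact measure_eq_zero_iff_ae_notMem.1 this
    filter_upwards [n1, n2] with y hy1 hy2
    have p1 : 0 < ‖x + t * e - y‖ := norm_pos_iff.2 (sub_ne_zero.2 (Ne.symm hy2))
    have p2 : 0 < ‖x - y‖ := norm_pos_iff.2 (sub_ne_zero.2 (Ne.symm hy1))
    have h1 := abs_log_sub p1 p2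
    have h2 : |‖x + t * e - y‖ - ‖x - y‖| ≤ t := by
      have := abs_norm_sub_norm_le (x + t * e - y) (x - y)
      have e1 : x + t * e - y - (x - y) = t * e := by ring
      rw [e1, hte] at this
      exact this
    have h3 : |Real.log ‖x + t * e - y‖ * m y - Real.log ‖x - y‖ * m y| ≤
        t * m y * (‖x + t * e - y‖⁻¹ + ‖x - y‖⁻¹) := by
      rw [← sub_mul, abs_mul, abs_of_nonneg (hm0 y)]
      have h4 : |Real.log ‖x + t * e - y‖ - Real.log ‖x - y‖| ≤
          t * (‖x + t * e - y‖⁻¹ + ‖x - y‖⁻¹) :=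
        h1.trans (mul_le_mul_of_nonneg_right h2 (by positivity))
      calc _ ≤ t * (‖x + t * e - y‖⁻¹ + ‖x - y‖⁻¹) * m y :=
            mul_le_mul_of_nonneg_right h4 (hm0 y)
        _ = _ := by ring
    rw [Real.enorm_eq_ofReal_abs]
    have e2 : x - (y - t * e) = x + t * e - y := by ring
    rw [e2, ← ENNReal.ofReal_add (by positivity) (by positivity),
      ← ENNReal.ofReal_mul (mul_nonneg ht.le (hm0 y))]
    exact ENNReal.ofReal_le_ofReal h3
  · rw [Real.enorm_eq_ofReal_abs]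
    exact ENNReal.ofReal_le_ofReal hHd

/-- the integral over the disc -/
lemma disc {v m H : ℂ → ℝ} {C A t : ℝ} {e : ℂ} (hC : 1 ≤ C) (hA : 0 ≤ A) (hmc : Continuous m)
    (hms : HasCompactSupport m) (hm0 : ∀ y, 0 ≤ m y) (hmi : ∫ y, m y ≤ C * A)
    (hv : ∀ x ∈ ball (0 : ℂ) 3, v x = (∫ y, Real.log ‖x - y‖ * m y) + H x)
    (hH : ∀ p ∈ ball (0 : ℂ) 3, ∃ ξ : ℂ, ‖ξ‖ ≤ C * A ∧
      ∀ x ∈ ball (0 : ℂ) 3, |H x - H p - (conj ξ * (x - p)).re| ≤ C * A * ‖x - p‖ ^ 2)
    (ht : 0 < t) (ht1 : t < 1 / 2) (he : ‖e‖ = 1) :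
    ∫⁻ x in ball (0 : ℂ) 2, ‖v (x + t * e) - v x‖ₑ ≤
      ENNReal.ofReal (20 * Real.pi * C * A * t) := by
  have hCA : 0 ≤ C * A := mul_nonneg (by linarith) hA
  have hmm := hmc.measurable
  have hk : Measurable (fun p : ℂ × ℂ => ENNReal.ofReal (t * m p.2) *
      (ENNReal.ofReal (‖p.1 - (p.2 - t * e)‖⁻¹) + ENNReal.ofReal (‖p.1 - p.2‖⁻¹))) := by
    fun_prop
  calc ∫⁻ x in ball (0 : ℂ) 2, ‖v (x + t * e) - v x‖ₑ
      ≤ ∫⁻ x in ball (0 : ℂ) 2, ((∫⁻ y, ENNReal.ofReal (t * m y) *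
        (ENNReal.ofReal (‖x - (y - t * e)‖⁻¹) + ENNReal.ofReal (‖x - y‖⁻¹))) +
        ENNReal.ofReal (2 * C * A * t)) :=
        setLIntegral_mono' measurableSet_ball fun x hx =>
          point hC hA hmc hms hm0 hv hH ht ht1 he hx
    _ = (∫⁻ x in ball (0 : ℂ) 2, ∫⁻ y, ENNReal.ofReal (t * m y) *
        (ENNReal.ofReal (‖x - (y - t * e)‖⁻¹) + ENNReal.ofReal (‖x - y‖⁻¹))) +
        ENNReal.ofReal (2 * C * A * t) * ENNReal.ofReal (4 * Real.pi) := by
        rw [lintegral_add_right _ measurable_const, setLIntegral_const, vol2]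
    _ = (∫⁻ y, ENNReal.ofReal (t * m y) * (∫⁻ x in ball (0 : ℂ) 2,
        (ENNReal.ofReal (‖x - (y - t * e)‖⁻¹) + ENNReal.ofReal (‖x - y‖⁻¹)))) +
        ENNReal.ofReal (2 * C * A * t) * ENNReal.ofReal (4 * Real.pi) := by
        congr 1
        rw [lintegral_lintegral_swap (μ := volume.restrict (ball (0 : ℂ) 2)) (ν := volume)
          (f := fun x y => ENNReal.ofReal (t * m y) *
            (ENNReal.ofReal (‖x - (y - t * e)‖⁻¹) + ENNReal.ofReal (‖x - y‖⁻¹))) hk.aemeasurable]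
        refine lintegral_congr fun y => ?_
        rw [lintegral_const_mul]
        fun_prop
    _ ≤ (∫⁻ y, ENNReal.ofReal (t * m y) * ENNReal.ofReal (12 * Real.pi)) +
        ENNReal.ofReal (2 * C * A * t) * ENNReal.ofReal (4 * Real.pi) := by
        refine add_le_add (lintegral_mono fun y => ?_) le_rfl
        refine mul_le_mul_right ?_ _
        rw [lintegral_add_left (by fun_prop)]
        refine (add_le_add (lint_all (y - t * e)) (lint_all y)).trans (le_of_eq ?_)
        rw [← ENNReal.ofReal_add (by positivity) (by positivity)]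
        congr 1
        ring
    _ = ENNReal.ofReal (t * ∫ y, m y) * ENNReal.ofReal (12 * Real.pi) +
        ENNReal.ofReal (2 * C * A * t) * ENNReal.ofReal (4 * Real.pi) := by
        rw [lintegral_mul_const _ (by fun_prop)]
        congr 2
        rw [← integral_const_mul, ofReal_integral_eq_lintegral_ofReal]
        · exact (hmc.integrable_of_hasCompactSupport hms).const_mul t
        · exact Eventually.of_forall fun y => mul_nonneg ht.le (hm0 y)
    _ ≤ ENNReal.ofReal (20 * Real.pi * C * A * t) := by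
        have hi : 0 ≤ ∫ y, m y := integral_nonneg hm0
        rw [← ENNReal.ofReal_mul (mul_nonneg ht.le hi), ← ENNReal.ofReal_mul (by positivity),
          ← ENNReal.ofReal_add (by positivity) (by positivity)]
        apply ENNReal.ofReal_le_ofReal
        have h1 : t * (∫ y, m y) ≤ t * (C * A) := mul_le_mul_of_nonneg_left hmi ht.le
        have h2 : t * (∫ y, m y) * (12 * Real.pi) ≤ t * (C * A) * (12 * Real.pi) :=
          mul_le_mul_of_nonneg_right h1 (by positivity)
        linarith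

/-- one direction -/
lemma dir {v m H : ℂ → ℝ} {C A : ℝ} {e : ℂ} (hC : 1 ≤ C) (hA : 0 ≤ A) (hcd : ContDiff ℝ ∞ v)
    (hmc : Continuous m)
    (hms : HasCompactSupport m) (hm0 : ∀ y, 0 ≤ m y) (hmi : ∫ y, m y ≤ C * A)
    (hv : ∀ x ∈ ball (0 : ℂ) 3, v x = (∫ y, Real.log ‖x - y‖ * m y) + H x)
    (hH : ∀ p ∈ ball (0 : ℂ) 3, ∃ ξ : ℂ, ‖ξ‖ ≤ C * A ∧
      ∀ x ∈ ball (0 : ℂ) 3, |H x - H p - (conj ξ * (x - p)).re| ≤ C * A * ‖x - p‖ ^ 2)
    (he : ‖e‖ = 1) :
    ∫⁻ x in ball (0 : ℂ) 2, ‖fderiv ℝ v x e‖ₑ ≤ ENNReal.ofReal (20 * Real.pi * C * A) := by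
  have hvc : Continuous v := hcd.continuous
  have hvm : Measurable v := hvc.measurable
  set s : ℕ → ℝ := fun n => 1 / ((n : ℝ) + 3) with hs
  have hs0 : ∀ n, 0 < s n := fun n => by
    rw [hs]
    positivity
  have hs1 : ∀ n, s n < 1 / 2 := fun n => by
    rw [hs]
    simp only
    rw [div_lt_div_iff₀ (by positivity) (by norm_num)]
    have : (0 : ℝ) ≤ n := Nat.cast_nonneg n
    linarith
  have hs2 : Tendsto s atTop (𝓝 0) := by
    have h1 : Tendsto (fun n : ℕ => (n : ℝ) + 3) atTop atTop :=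
      tendsto_atTop_add_const_right _ _ tendsto_natCast_atTop_atTop
    exact (tendsto_const_nhds (x := (1 : ℝ))).div_atTop h1
  have hs3 : Tendsto s atTop (𝓝[≠] 0) := by
    rw [tendsto_nhdsWithin_iff]
    exact ⟨hs2, Eventually.of_forall fun n => (hs0 n).ne'⟩
  have hlim : ∀ x : ℂ, Tendsto (fun n => ‖(s n)⁻¹ * (v (x + s n * e) - v x)‖ₑ) atTop
      (𝓝 ‖fderiv ℝ v x e‖ₑ) := by
    intro x
    have hd : HasFDerivAt v (fderiv ℝ v x) x :=
      ((hcd.differentiable (by norm_num)) x).hasFDerivAt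
    have hl : HasDerivAt (fun t : ℝ => x + (t : ℂ) * e) e 0 := by
      have h1 := ((hasDerivAt_id (0 : ℝ)).ofReal_comp.mul_const e).const_add x
      simpa using h1
    have hd' : HasFDerivAt v (fderiv ℝ v x) (x + ((0 : ℝ) : ℂ) * e) := by
      simpa using hd
    have h2 := hd'.comp_hasDerivAt (0 : ℝ) hl
    rw [hasDerivAt_iff_tendsto_slope] at h2
    have h3 := h2.comp hs3
    have h4 : (slope (v ∘ fun t : ℝ => x + (t : ℂ) * e) 0 ∘ s) =
        fun n => (s n)⁻¹ * (v (x + s n * e) - v x) := by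
      funext n
      simp only [Function.comp, slope_def_field]
      rw [sub_zero, div_eq_inv_mul]
      simp
    rw [h4] at h3
    exact (continuous_enorm.tendsto _).comp h3
  have hF : ∫⁻ x in ball (0 : ℂ) 2, ‖fderiv ℝ v x e‖ₑ =
      ∫⁻ x in ball (0 : ℂ) 2, liminf (fun n => ‖(s n)⁻¹ * (v (x + s n * e) - v x)‖ₑ) atTop :=
    lintegral_congr fun x => (hlim x).liminf_eq.symm
  rw [hF]
  refine (lintegral_liminf_le fun n => ?_).trans ?_
  · have : Measurable (fun x : ℂ => v (x + s n * e)) := hvm.comp (measurable_id.add_const _)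
    exact ((this.sub hvm).const_mul _).enorm
  refine liminf_le_of_le ?_ ?_
  · exact ⟨0, Eventually.of_forall fun _ => bot_le⟩
  intro b hb
  obtain ⟨n, hn⟩ := hb.exists
  refine hn.trans ?_
  have h1 := disc (e := e) hC hA hmc hms hm0 hmi hv hH (hs0 n) (hs1 n) he
  have h2 : ∫⁻ x in ball (0 : ℂ) 2, ‖(s n)⁻¹ * (v (x + s n * e) - v x)‖ₑ =
      ENNReal.ofReal (s n)⁻¹ * ∫⁻ x in ball (0 : ℂ) 2, ‖v (x + s n * e) - v x‖ₑ := by
    rw [← lintegral_const_mul']
    · refine lintegral_congr fun x => ?_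
      rw [enorm_mul, Real.enorm_eq_ofReal (inv_nonneg.2 (hs0 n).le)]
    · exact ENNReal.ofReal_ne_top
  rw [h2]
  refine (mul_le_mul_right h1 _).trans (le_of_eq ?_)
  rw [← ENNReal.ofReal_mul (inv_nonneg.2 (hs0 n).le)]
  congr 1
  have := (hs0 n).ne'
  field_simp

end TLB

open TLB in
theorem tlb : LB := by
  obtain ⟨C, hC, h⟩ := tpb
  have hπ := Real.pi_gt_three
  refine ⟨40 * Real.pi * C, by nlinarith, ?_⟩
  intro v A hcd hneg hlap hint
  have hA : 0 ≤ A := by
    refine le_trans ?_ hint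
    exact integral_nonneg fun x => by simpa using hneg x
  obtain ⟨m, H, hmc, hms, hm0, hmi, hv, hH⟩ := h v A hcd hneg hlap hint
  have hcont : ∀ e : ℂ, Continuous (fun x => fderiv ℝ v x e) := fun e =>
    (hcd.continuous_fderiv (by norm_num)).clm_apply continuous_const
  have hioc : ∀ e : ℂ, IntegrableOn (fun x => |fderiv ℝ v x e|) (ball (0 : ℂ) 2) := fun e =>
    ((hcont e).abs.continuousOn.integrableOn_compact (isCompact_closedBall 0 2)).mono_set
      ball_subset_closedBall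
  have hone : ∀ e : ℂ, ‖e‖ = 1 →
      ∫ x in ball (0 : ℂ) 2, |fderiv ℝ v x e| ≤ 20 * Real.pi * C * A := by
    intro e he
    have h1 := dir (e := e) hC hA hcd hmc hms hm0 hmi hv hH he
    rw [integral_eq_lintegral_of_nonneg_ae (Eventually.of_forall fun x => abs_nonneg _)
      (hcont e).abs.aestronglyMeasurable]
    refine ENNReal.toReal_le_of_le_ofReal (by positivity) ?_
    refine le_trans (le_of_eq ?_) h1
    refine lintegral_congr fun x => ?_
    rw [Real.enorm_eq_ofReal_abs]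
  have h1 := hone 1 (by simp)
  have h2 := hone I (by simp)
  have h3 : ∫ x in ball (0 : ℂ) 2, (|dx v x| + |dy v x|) =
      (∫ x in ball (0 : ℂ) 2, |fderiv ℝ v x 1|) + ∫ x in ball (0 : ℂ) 2, |fderiv ℝ v x I| :=
    integral_add (hioc 1) (hioc I)
  rw [h3]
  linarith

end Pool.Agent.H303.NY
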