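import Pool.Agent.H303.NY.Stm
import Pool.Graph.R_pool_sql_team_seeded_3997aac3.Q73.AD.YQH
import Pool.Graph.R_pool_sql_team_seeded_3997aac3.Q73.AD.TG2

/-!
# LW1: lower bound of the nodal length, bounded eigenvalues
-/

set_option autoImplicit false
open MeasureTheory Filter Topology Complex Metric
open scoped ContDiff ENNReal NNReal

namespace Pool.Agent.H303.NY

open Pool.Agent.Q73.NL Pool.Agent.Q73.AD Pool.Agent.H303.NP

universe u v

namespace TLW1

/-- length of the image of an expanding map -/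
theorem expand {M : Type u} [MetricSpace M] [MeasurableSpace M] [BorelSpace M] {c : ℝ} (hc : 0 < c)
    (φ : ℂ → M) (E : Set ℂ)
    (hE : ∀ w ∈ E, ∀ w' ∈ E, c * ‖w - w'‖ ≤ dist (φ w) (φ w')) :
    ENNReal.ofReal c * (μH[1] : Measure ℂ) E ≤ (μH[1] : Measure M) (φ '' E) := by
  have hinj : Set.InjOn φ E := by
    intro w hw w' hw' h
    have h1 := hE w hw w' hw'
    rw [h, dist_self] at h1
    have h2 : ‖w - w'‖ ≤ 0 := by
      by_contra hcon
      push Not at hcon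
      have := mul_pos hc hcon
      linarith
    exact sub_eq_zero.1 (norm_le_zero_iff.1 h2)
  have himg : (Function.invFunOn φ E) '' (φ '' E) = E := by
    ext z
    constructor
    · rintro ⟨_, ⟨w, hw, rfl⟩, rfl⟩
      exact Function.invFunOn_mem ⟨w, hw, rfl⟩
    · intro hz
      refine ⟨φ z, ⟨z, hz, rfl⟩, ?_⟩
      exact hinj.leftInvOn_invFunOn hz
  have hlip : LipschitzOnWith (Real.toNNReal c)⁻¹ (Function.invFunOn φ E) (φ '' E) := by
    refine LipschitzOnWith.of_dist_le_mul ?_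
    rintro _ ⟨w, hw, rfl⟩ _ ⟨w', hw', rfl⟩
    rw [hinj.leftInvOn_invFunOn hw, hinj.leftInvOn_invFunOn hw', dist_eq_norm,
      NNReal.coe_inv, Real.coe_toNNReal c hc.le, inv_mul_eq_div, le_div_iff₀ hc, mul_comm]
    exact hE w hw w' hw'
  have h1 := hlip.hausdorffMeasure_image_le (d := 1) (by norm_num)
  rw [himg, ENNReal.rpow_one] at h1
  have hc0 : (Real.toNNReal c : ℝ≥0) ≠ 0 := by
    rw [Ne, Real.toNNReal_eq_zero]; linarith
  have h3 : (((Real.toNNReal c)⁻¹ : ℝ≥0) : ℝ≥0∞) = (ENNReal.ofReal c)⁻¹ := by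
    rw [ENNReal.coe_inv hc0]; rfl
  rw [h3] at h1
  have hofne : ENNReal.ofReal c ≠ 0 := by
    rw [Ne, ENNReal.ofReal_eq_zero]; linarith
  calc ENNReal.ofReal c * (μH[1] : Measure ℂ) E ≤
      ENNReal.ofReal c * ((ENNReal.ofReal c)⁻¹ * μH[1] (φ '' E)) :=
        mul_le_mul_right h1 _
    _ = μH[1] (φ '' E) := by
        rw [← mul_assoc, ENNReal.mul_inv_cancel hofne ENNReal.ofReal_ne_top, one_mul]

end TLW1

open TLW1 in
theorem tlw1 (h10 : N10) : LW1.{u, v} := by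
  intro M ι _ _ _ _ _ U φ ρ hA hρ Λ hΛ
  obtain ⟨n, i, z, R, c, L, δ, hG, hcov⟩ := tg2.{u, v} M ι U φ ρ hA
  obtain ⟨R₀, hR₀, hR₀'⟩ := YQH.exists_lb R fun a => (hG a).R_pos
  -- there is at least one piece
  obtain ⟨x₀⟩ : Nonempty M := inferInstance
  obtain ⟨a₀, -⟩ := hcov x₀
  have hc : 0 < c := (hG a₀).c_pos
  have hL : 1 ≤ L := (hG a₀).L_ge
  have hΛL : 0 < Λ * L := mul_pos hΛ (by linarith)
  obtain ⟨r, hr⟩ : ∃ r : ℝ, r = min R₀ (1 / Real.sqrt (Λ * L)) := ⟨_, rfl⟩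
  have hr0 : 0 < r := by
    rw [hr]
    exact lt_min hR₀ (div_pos one_pos (Real.sqrt_pos.2 hΛL))
  have hrR : r ≤ R₀ := by rw [hr]; exact min_le_left _ _
  have hr2 : Λ * L * r ^ 2 ≤ 1 := by
    have h1 : r ≤ 1 / Real.sqrt (Λ * L) := by rw [hr]; exact min_le_right _ _
    have h2 : r * Real.sqrt (Λ * L) ≤ 1 := by
      rwa [le_div_iff₀ (Real.sqrt_pos.2 hΛL)] at h1
    have h3 : (r * Real.sqrt (Λ * L)) ^ 2 ≤ 1 :=
      pow_le_one₀ (mul_nonneg hr0.le (Real.sqrt_nonneg _)) h2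
    rw [mul_pow, Real.sq_sqrt hΛL.le] at h3
    linarith
  refine ⟨c * (r / 2), mul_pos hc (half_pos hr0), ?_⟩
  intro lam f hlam hlamΛ hf _
  obtain ⟨x, hx⟩ := YQH.has_zero hA hρ hlam hf
  obtain ⟨a, w, hw, rfl⟩ := hcov x
  have hRa : r ≤ R a := hrR.trans (hR₀' a)
  have hRp := (hG a).R_pos
  have hsub : closedBall w r ⊆ closedBall (z a) (2 * R a) := by
    intro y hy
    rw [mem_closedBall] at hy hw ⊢
    have := dist_triangle y w (z a)
    linarith
  have hsubU : closedBall w r ⊆ U (i a) := hsub.trans (hG a).sub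
  have hn := h10 lam L r w (ρ (i a)) (fun y => f (φ (i a) y)) hlam hr0 (by linarith) (by
    have : lam * L * r ^ 2 ≤ Λ * L * r ^ 2 :=
      mul_le_mul_of_nonneg_right (mul_le_mul_of_nonneg_right hlamΛ (by linarith)) (by positivity)
    linarith) (by
    intro y hy
    refine ⟨(hf (i a)).1.contDiffAt ((hA.dom (i a)).mem_nhds (hsubU hy)),
      (hρ (i a) y (hsubU hy)).le, ?_, (hf (i a)).2 y (hsubU hy)⟩
    exact (le_abs_self _).trans ((hG a).bd y (hsub hy)).1) hx
  have he := expand hc (φ (i a)) (nod (ball w r) (fun y => f (φ (i a) y))) (by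
    intro y hy y' hy'
    exact ((hG a).lip y (hsub (ball_subset_closedBall hy.1)) y'
      (hsub (ball_subset_closedBall hy'.1))).1)
  calc ENNReal.ofReal (c * (r / 2)) = ENNReal.ofReal c * ENNReal.ofReal (r / 2) :=
        ENNReal.ofReal_mul hc.le
    _ ≤ ENNReal.ofReal c * (μH[1] : Measure ℂ) (nod (ball w r) (fun y => f (φ (i a) y))) :=
        mul_le_mul_right hn _
    _ ≤ (μH[1] : Measure M) (φ (i a) '' nod (ball w r) (fun y => f (φ (i a) y))) := he
    _ ≤ (μH[1] : Measure M) {x | f x = 0} := by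
        apply measure_mono
        rintro _ ⟨y, hy, rfl⟩
        exact hy.2

end Pool.Agent.H303.NY
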