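import Pool.Agent.H303.NY.Stm
import Pool.Graph.R_pool_sql_team_seeded_3997aac3.Q73.AD.YQB
import Pool.Graph.R_pool_sql_team_seeded_3997aac3.Q73.AD.TG2

/-!
# LW2: lower bound of the nodal length, large eigenvalues
-/

set_option autoImplicit false
open MeasureTheory Filter Topology Complex Metric
open scoped ContDiff ENNReal NNReal

namespace Pool.Agent.H303.NY

open Pool.Agent.Q73.NL Pool.Agent.Q73.AD Pool.Agent.H303.NP

universe u v

namespace TLW2

lemma img {M : Type u} [MetricSpace M] [MeasurableSpace M] [BorelSpace M] {c : ℝ} (hc : 0 < c)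
    (φ : ℂ → M) (E : Set ℂ)
    (hE : ∀ w ∈ E, ∀ w' ∈ E, c * ‖w - w'‖ ≤ dist (φ w) (φ w')) :
    ENNReal.ofReal c * (μH[1] : Measure ℂ) E ≤ (μH[1] : Measure M) (φ '' E) := by
  have hinj : Set.InjOn φ E := by
    intro w hw w' hw' h
    have h1 := hE w hw w' hw'
    rw [h, dist_self] at h1
    have h2 : ‖w - w'‖ ≤ 0 := by
      by_contra hcon
      push Not at hcon
      have := mul_pos hc hcon
      linarith
    exact sub_eq_zero.1 (norm_le_zero_iff.1 h2)
  have himg : (Function.invFunOn φ E) '' (φ '' E) = E := by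
    ext z
    constructor
    · rintro ⟨_, ⟨w, hw, rfl⟩, rfl⟩
      exact Function.invFunOn_mem ⟨w, hw, rfl⟩
    · intro hz
      refine ⟨φ z, ⟨z, hz, rfl⟩, ?_⟩
      exact hinj.leftInvOn_invFunOn hz
  have hlip : LipschitzOnWith (Real.toNNReal c)⁻¹ (Function.invFunOn φ E) (φ '' E) := by
    refine LipschitzOnWith.of_dist_le_mul ?_
    rintro _ ⟨w, hw, rfl⟩ _ ⟨w', hw', rfl⟩
    rw [hinj.leftInvOn_invFunOn hw, hinj.leftInvOn_invFunOn hw', dist_eq_norm,
      NNReal.coe_inv, Real.coe_toNNReal c hc.le, inv_mul_eq_div, le_div_iff₀ hc, mul_comm]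
    exact hE w hw w' hw'
  have h1 := hlip.hausdorffMeasure_image_le (d := 1) (by norm_num)
  rw [himg] at h1
  have hc0 : (Real.toNNReal c : ℝ≥0) ≠ 0 := by
    rw [Ne, Real.toNNReal_eq_zero]; linarith
  have h3 : (((Real.toNNReal c)⁻¹ : ℝ≥0) : ℝ≥0∞) = (ENNReal.ofReal c)⁻¹ := by
    rw [ENNReal.coe_inv hc0]; rfl
  rw [h3, ENNReal.rpow_one] at h1
  have hofne : ENNReal.ofReal c ≠ 0 := by
    rw [Ne, ENNReal.ofReal_eq_zero]; linarith
  calc ENNReal.ofReal c * (μH[1] : Measure ℂ) E ≤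
      ENNReal.ofReal c * ((ENNReal.ofReal c)⁻¹ * μH[1] (φ '' E)) := by
        exact mul_le_mul_right h1 _
    _ = μH[1] (φ '' E) := by
        rw [← mul_assoc, ENNReal.mul_inv_cancel hofne ENNReal.ofReal_ne_top, one_mul]

lemma meas_nod {q : ℂ} {r : ℝ} {h : ℂ → ℝ} (hh : ContinuousOn h (ball q r)) :
    MeasurableSet (nod (ball q r) h) := by
  have e : nod (ball q r) h = ball q r \ (ball q r ∩ h ⁻¹' {0}ᶜ) := by
    ext z
    unfold nod
    simp only [Set.mem_ofPred_eq, Set.mem_sdiff, Set.mem_inter_iff, Set.mem_preimage,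
      Set.mem_compl_iff, Set.mem_singleton_iff, not_and, not_not]
    tauto
  rw [e]
  exact isOpen_ball.measurableSet.diff
    (hh.isOpen_inter_preimage isOpen_ball isOpen_compl_singleton).measurableSet

/-- the norm of a complex number from its real and imaginary parts -/
lemma norm_le_of {z : ℂ} {a b : ℝ} (h1 : |z.re| ≤ a) (h2 : |z.im| ≤ b) : ‖z‖ ≤ a + b :=
  (Complex.norm_le_abs_re_add_abs_im z).trans (add_le_add h1 h2)

/-- the grid points -/
noncomputable def gp (p : ℂ) (s : ℝ) {m : ℕ} (k : Fin m × Fin m) : ℂ :=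
  p + ((k.1 : ℕ) * s : ℝ) + ((k.2 : ℕ) * s : ℝ) * I

lemma gp_re (p : ℂ) (s : ℝ) {m : ℕ} (k : Fin m × Fin m) :
    (gp p s k - p).re = (k.1 : ℕ) * s := by
  unfold gp
  simp

lemma gp_im (p : ℂ) (s : ℝ) {m : ℕ} (k : Fin m × Fin m) :
    (gp p s k - p).im = (k.2 : ℕ) * s := by
  unfold gp
  simp

lemma nat_sep {a b : ℕ} (h : a ≠ b) : (1 : ℝ) ≤ |(a : ℝ) - b| := by
  rcases Nat.lt_or_gt_of_ne h with h | h
  · have : (a : ℝ) + 1 ≤ b := by exact_mod_cast h
    rw [abs_sub_comm]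
    exact le_trans (by linarith) (le_abs_self _)
  · have : (b : ℝ) + 1 ≤ a := by exact_mod_cast h
    exact le_trans (by linarith) (le_abs_self _)

/-- discs around zeros near different grid points are disjoint -/
lemma disj {p : ℂ} {t r : ℝ} {m : ℕ} {k k' : Fin m × Fin m} {q q' : ℂ} (ht : 0 < t) (hr : r ≤ t)
    (hk : k ≠ k')
    (h1 : |(q - gp p (10 * t) k).re| ≤ t) (h2 : |(q - gp p (10 * t) k).im| ≤ t)
    (h1' : |(q' - gp p (10 * t) k').re| ≤ t) (h2' : |(q' - gp p (10 * t) k').im| ≤ t) :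
    Disjoint (ball q r) (ball q' r) := by
  rw [Set.disjoint_left]
  intro x hx hx'
  rw [mem_ball, dist_eq_norm] at hx hx'
  have a1 := (Complex.abs_re_le_norm (x - q)).trans_lt hx
  have a2 := (Complex.abs_im_le_norm (x - q)).trans_lt hx
  have a1' := (Complex.abs_re_le_norm (x - q')).trans_lt hx'
  have a2' := (Complex.abs_im_le_norm (x - q')).trans_lt hx'
  have b1 := gp_re p (10 * t) k
  have b2 := gp_im p (10 * t) k
  have b1' := gp_re p (10 * t) k'
  have b2' := gp_im p (10 * t) k'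
  rw [Complex.sub_re] at h1 h1' a1 a1' b1 b1'
  rw [Complex.sub_im] at h2 h2' a2 a2' b2 b2'
  by_cases hne : (k.1 : ℕ) = (k'.1 : ℕ)
  · have hne2 : (k.2 : ℕ) ≠ (k'.2 : ℕ) := by
      intro h
      exact hk (Prod.ext (Fin.ext hne) (Fin.ext h))
    have hs := nat_sep hne2
    have e : (((k.2 : ℕ) : ℝ) - ((k'.2 : ℕ) : ℝ)) * (10 * t) =
        (gp p (10 * t) k).im - (gp p (10 * t) k').im := by
      rw [sub_mul, ← b2, ← b2']
      ring
    have hb : |((k.2 : ℕ) : ℝ) - ((k'.2 : ℕ) : ℝ)| * (10 * t) ≤ 4 * t := by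
      rw [← abs_of_pos (show (0 : ℝ) < 10 * t by linarith), ← abs_mul, e]
      rw [abs_le] at h2 h2' ⊢
      rw [abs_lt] at a2 a2'
      constructor <;> linarith [h2.1, h2.2, h2'.1, h2'.2, a2.1, a2.2, a2'.1, a2'.2]
    nlinarith
  · have hs := nat_sep hne
    have e : (((k.1 : ℕ) : ℝ) - ((k'.1 : ℕ) : ℝ)) * (10 * t) =
        (gp p (10 * t) k).re - (gp p (10 * t) k').re := by
      rw [sub_mul, ← b1, ← b1']
      ring
    have hb : |((k.1 : ℕ) : ℝ) - ((k'.1 : ℕ) : ℝ)| * (10 * t) ≤ 4 * t := by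
      rw [← abs_of_pos (show (0 : ℝ) < 10 * t by linarith), ← abs_mul, e]
      rw [abs_le] at h1 h1' ⊢
      rw [abs_lt] at a1 a1'
      constructor <;> linarith [h1.1, h1.2, h1'.1, h1'.2, a1.1, a1.2, a1'.1, a1'.2]
    nlinarith

/-- the local part: the nodal length in a disc -/
lemma loc (h10 : N10) (lam L ρ₀ K r1 R : ℝ) (z0 : ℂ) (V : Set ℂ) (ρ h : ℂ → ℝ) (hV : IsOpen V)
    (hlam : 0 < lam) (hL : 1 ≤ L) (hρ₀ : 0 < ρ₀) (hK : 0 < K) (hK2 : Real.pi ^ 2 < 2 * ρ₀ * K ^ 2)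
    (hr1 : 0 < r1) (hr1K : r1 ≤ K) (hr1L : L * r1 ^ 2 ≤ 1) (hR : 0 < R)
    (hsub : closedBall z0 (2 * R) ⊆ V) (hh : ContDiffOn ℝ ∞ h V)
    (hρ1 : ∀ w ∈ closedBall z0 (2 * R), ρ₀ ≤ ρ w ∧ ρ w ≤ L)
    (heq : ∀ w ∈ V, lap h w + lam * ρ w * h w = 0) (m : ℕ)
    (hm : m * (10 * (K / Real.sqrt lam)) ≤ R / 2) (hKR : 3 * (K / Real.sqrt lam) ≤ R) :
    ∃ E : Set ℂ, E ⊆ closedBall z0 (2 * R) ∧ (∀ w ∈ E, h w = 0) ∧
      ENNReal.ofReal (m ^ 2 * (r1 / Real.sqrt lam / 2)) ≤ (μH[1] : Measure ℂ) E := by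
  have hsq : 0 < Real.sqrt lam := Real.sqrt_pos.mpr hlam
  have hsqq : Real.sqrt lam ^ 2 = lam := Real.sq_sqrt hlam.le
  set t := K / Real.sqrt lam with ht
  set r := r1 / Real.sqrt lam with hr
  have ht0 : 0 < t := div_pos hK hsq
  have hr0 : 0 < r := div_pos hr1 hsq
  have hrt : r ≤ t := div_le_div_of_nonneg_right hr1K hsq.le
  have htt : lam * t ^ 2 = K ^ 2 := by
    rw [ht, div_pow, hsqq]
    field_simp
  have hrr : lam * r ^ 2 = r1 ^ 2 := by
    rw [hr, div_pow, hsqq]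
    field_simp
  -- grid points are close to the centre
  have hgp : ∀ k : Fin m × Fin m, ‖gp z0 (10 * t) k - z0‖ ≤ R := by
    intro k
    have hb : ∀ a : Fin m, |((a : ℕ) : ℝ) * (10 * t)| ≤ R / 2 := by
      intro a
      rw [abs_of_nonneg (by positivity)]
      refine le_trans (mul_le_mul_of_nonneg_right ?_ (by positivity)) hm
      exact_mod_cast a.2.le
    have := norm_le_of (z := gp z0 (10 * t) k - z0) (a := R / 2) (b := R / 2)
      (by rw [gp_re]; exact hb _) (by rw [gp_im]; exact hb _)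
    linarith
  have hin : ∀ k : Fin m × Fin m, ∀ x : ℂ, ‖x - gp z0 (10 * t) k‖ ≤ 3 * t →
      x ∈ closedBall z0 (2 * R) := by
    intro k x hx
    rw [mem_closedBall, dist_eq_norm]
    have h1 := hgp k
    have h2 : x - z0 = (x - gp z0 (10 * t) k) + (gp z0 (10 * t) k - z0) := by ring
    rw [h2]
    refine (norm_add_le _ _).trans ?_
    linarith
  have hcd : ∀ x ∈ closedBall z0 (2 * R), ContDiffAt ℝ ∞ h x := fun x hx =>
    hh.contDiffAt (hV.mem_nhds (hsub hx))
  -- the zeros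
  have hzero : ∀ k : Fin m × Fin m, ∃ q : ℂ, |(q - gp z0 (10 * t) k).re| ≤ t ∧
      |(q - gp z0 (10 * t) k).im| ≤ t ∧ h q = 0 := by
    intro k
    refine tqb lam ρ₀ t (gp z0 (10 * t) k) ρ h hlam hρ₀ ht0 ?_ ?_
    · calc Real.pi ^ 2 < 2 * ρ₀ * K ^ 2 := hK2
        _ = 2 * ρ₀ * lam * t ^ 2 := by rw [← htt]; ring
    · intro x h1 h2
      have hx : x ∈ closedBall z0 (2 * R) := by
        refine hin k x ?_
        have := norm_le_of h1 h2
        linarith
      exact ⟨hcd x hx, (hρ1 x hx).1, heq x (hsub hx)⟩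
  choose q hq1 hq2 hq3 using hzero
  have hball : ∀ k, closedBall (q k) r ⊆ closedBall z0 (2 * R) := by
    intro k x hx
    rw [mem_closedBall, dist_eq_norm] at hx
    refine hin k x ?_
    have h1 : x - gp z0 (10 * t) k = (x - q k) + (q k - gp z0 (10 * t) k) := by ring
    rw [h1]
    refine (norm_add_le _ _).trans ?_
    have h2 := norm_le_of (hq1 k) (hq2 k)
    linarith
  have hlen : ∀ k, ENNReal.ofReal (r / 2) ≤ (μH[1] : Measure ℂ) (nod (ball (q k) r) h) := by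
    intro k
    refine h10 lam L r (q k) ρ h hlam hr0 (by linarith) ?_ ?_ (hq3 k)
    · calc lam * L * r ^ 2 = L * (lam * r ^ 2) := by ring
        _ = L * r1 ^ 2 := by rw [hrr]
        _ ≤ 1 := hr1L
    · intro x hx
      have hx' := hball k hx
      exact ⟨hcd x hx', hρ₀.le.trans (hρ1 x hx').1, (hρ1 x hx').2, heq x (hsub hx')⟩
  have hmeas : ∀ k, MeasurableSet (nod (ball (q k) r) h) := by
    intro k
    apply meas_nod
    intro x hx
    exact (hcd x (hball k (ball_subset_closedBall hx))).continuousAt.continuousWithinAt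
  refine ⟨⋃ k ∈ (Finset.univ : Finset (Fin m × Fin m)), nod (ball (q k) r) h, ?_, ?_, ?_⟩
  · intro x hx
    rw [Set.mem_iUnion₂] at hx
    obtain ⟨k, _, hx⟩ := hx
    exact hball k (ball_subset_closedBall hx.1)
  · intro x hx
    rw [Set.mem_iUnion₂] at hx
    obtain ⟨k, _, hx⟩ := hx
    exact hx.2
  · rw [measure_biUnion_finset ?_ (fun k _ => hmeas k)]
    · calc ENNReal.ofReal (m ^ 2 * (r / 2)) =
          ∑ _k : Fin m × Fin m, ENNReal.ofReal (r / 2) := by
            rw [Finset.sum_const, Finset.card_univ, Fintype.card_prod, Fintype.card_fin,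
              nsmul_eq_mul, ENNReal.ofReal_mul (by positivity), ← ENNReal.ofReal_natCast]
            congr 2
            push_cast
            ring
        _ ≤ _ := Finset.sum_le_sum fun k _ => hlen k
    · intro k _ k' _ hkk
      have := disj (p := z0) ht0 hrt hkk (hq1 k) (hq2 k) (hq1 k') (hq2 k')
      exact this.mono (fun x hx => hx.1) (fun x hx => hx.1)

end TLW2

open TLW2 in
/-- LW2 -/
theorem tlw2 (h10 : N10) : LW2.{u, v} := by
  intro M ι _ _ _ _ _ U φ ρ hA hρ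
  obtain ⟨n, i, z, R, c, L, δ, hG, hcov⟩ := tg2 M ι U φ ρ hA
  obtain ⟨x0⟩ : Nonempty M := inferInstance
  obtain ⟨a, -⟩ := hcov x0
  have hGa := hG a
  have hR := hGa.R_pos
  have hc := hGa.c_pos
  have hL := hGa.L_ge
  -- lower bound of the density
  obtain ⟨ρ₀, hρ₀, hρb⟩ : ∃ ρ₀ : ℝ, 0 < ρ₀ ∧ ∀ w ∈ closedBall (z a) (2 * R a), ρ₀ ≤ ρ (i a) w := by
    have hcomp : IsCompact (closedBall (z a) (2 * R a)) := isCompact_closedBall _ _
    have hne : (closedBall (z a) (2 * R a)).Nonempty := ⟨z a, mem_closedBall_self (by linarith)⟩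
    have hcont : ContinuousOn (ρ (i a)) (closedBall (z a) (2 * R a)) :=
      (hA.dens (i a)).continuousOn.mono hGa.sub
    obtain ⟨w, hw, hmin⟩ := hcomp.exists_isMinOn hne hcont
    exact ⟨ρ (i a) w, hρ (i a) w (hGa.sub hw), fun w' hw' => hmin hw'⟩
  have hπ := Real.pi_pos
  set K : ℝ := Real.pi / Real.sqrt ρ₀ with hK
  have hK0 : 0 < K := div_pos hπ (Real.sqrt_pos.mpr hρ₀)
  have hK2 : Real.pi ^ 2 < 2 * ρ₀ * K ^ 2 := by
    have : ρ₀ * K ^ 2 = Real.pi ^ 2 := by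
      rw [hK, div_pow, Real.sq_sqrt hρ₀.le]
      field_simp
    nlinarith [sq_pos_of_pos hπ]
  set r1 : ℝ := min K (1 / Real.sqrt L) with hr1
  have hsL : 0 < Real.sqrt L := Real.sqrt_pos.mpr (by linarith)
  have hr10 : 0 < r1 := lt_min hK0 (by positivity)
  have hr1K : r1 ≤ K := min_le_left _ _
  have hr1L : L * r1 ^ 2 ≤ 1 := by
    have h1 : r1 ≤ 1 / Real.sqrt L := min_le_right _ _
    have h2 : r1 ^ 2 ≤ (1 / Real.sqrt L) ^ 2 := pow_le_pow_left₀ hr10.le h1 2
    rw [div_pow, one_pow, Real.sq_sqrt (by linarith)] at h2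
    calc L * r1 ^ 2 ≤ L * (1 / L) := mul_le_mul_of_nonneg_left h2 (by linarith)
      _ = 1 := by field_simp
  refine ⟨c * (R a / (40 * K)) ^ 2 * (r1 / 2), (20 * K / R a) ^ 2, by positivity, by positivity, ?_⟩
  intro lam f hlam hE _
  have hlam0 : 0 < lam := lt_of_lt_of_le (by positivity) hlam
  have hsq : 0 < Real.sqrt lam := Real.sqrt_pos.mpr hlam0
  have hsqq : Real.sqrt lam ^ 2 = lam := Real.sq_sqrt hlam0.le
  have hsl : 20 * K / R a ≤ Real.sqrt lam := by
    rw [← Real.sqrt_sq (show 0 ≤ 20 * K / R a by positivity)]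
    exact Real.sqrt_le_sqrt hlam
  have hbig : 1 ≤ R a * Real.sqrt lam / (20 * K) := by
    rw [div_le_iff₀ hR] at hsl
    rw [le_div_iff₀ (by positivity)]
    linarith
  set m : ℕ := ⌊R a * Real.sqrt lam / (20 * K)⌋₊ with hm
  have hm1 : (m : ℝ) ≤ R a * Real.sqrt lam / (20 * K) := Nat.floor_le (by positivity)
  have hm2 : R a * Real.sqrt lam / (20 * K) < m + 1 := Nat.lt_floor_add_one _
  have hm3 : R a * Real.sqrt lam / (40 * K) ≤ m := by
    have h1 : (1 : ℝ) ≤ m := by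
      have : 1 ≤ m := Nat.le_floor (by exact_mod_cast hbig)
      exact_mod_cast this
    have h2 : R a * Real.sqrt lam / (40 * K) = R a * Real.sqrt lam / (20 * K) / 2 := by
      field_simp
      norm_num
    rw [h2]
    linarith
  obtain ⟨hf1, hf2⟩ := hE (i a)
  have hs1 : (m : ℝ) * (10 * (K / Real.sqrt lam)) ≤ R a / 2 := by
    calc (m : ℝ) * (10 * (K / Real.sqrt lam)) ≤
        R a * Real.sqrt lam / (20 * K) * (10 * (K / Real.sqrt lam)) :=
          mul_le_mul_of_nonneg_right hm1 (by positivity)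
      _ = R a / 2 := by
          field_simp
          norm_num
  have hs2 : 3 * (K / Real.sqrt lam) ≤ R a := by
    rw [div_le_iff₀ hR] at hsl
    rw [← mul_div_assoc, div_le_iff₀ hsq]
    nlinarith
  obtain ⟨E, hE1, hE2, hE3⟩ := loc h10 lam L ρ₀ K r1 (R a) (z a) (U (i a)) (ρ (i a))
    (fun w => f (φ (i a) w)) hGa.opn hlam0 hL hρ₀ hK0 hK2 hr10 hr1K hr1L hR hGa.sub hf1
    (fun w hw => ⟨hρb w hw, (le_abs_self _).trans (hGa.bd w hw).1⟩) hf2 m hs1 hs2
  · have h1 := img hc (φ (i a)) E fun w hw w' hw' => (hGa.lip w (hE1 hw) w' (hE1 hw')).1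
    have h2 : φ (i a) '' E ⊆ {x | f x = 0} := by
      rintro _ ⟨w, hw, rfl⟩
      exact hE2 w hw
    calc ENNReal.ofReal (c * (R a / (40 * K)) ^ 2 * (r1 / 2) * Real.sqrt lam) ≤
        ENNReal.ofReal (c * (m ^ 2 * (r1 / Real.sqrt lam / 2))) := by
          apply ENNReal.ofReal_le_ofReal
          have h3 : (R a * Real.sqrt lam / (40 * K)) ^ 2 ≤ (m : ℝ) ^ 2 :=
            pow_le_pow_left₀ (by positivity) hm3 2
          calc c * (R a / (40 * K)) ^ 2 * (r1 / 2) * Real.sqrt lam =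
              c * ((R a * Real.sqrt lam / (40 * K)) ^ 2 * (r1 / Real.sqrt lam / 2)) := by
                field_simp
            _ ≤ c * (m ^ 2 * (r1 / Real.sqrt lam / 2)) := by
                refine mul_le_mul_of_nonneg_left ?_ hc.le
                exact mul_le_mul_of_nonneg_right h3 (by positivity)
      _ = ENNReal.ofReal c * ENNReal.ofReal (m ^ 2 * (r1 / Real.sqrt lam / 2)) :=
          ENNReal.ofReal_mul hc.le
      _ ≤ ENNReal.ofReal c * (μH[1] : Measure ℂ) E := mul_le_mul_right hE3 _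
      _ ≤ (μH[1] : Measure M) (φ (i a) '' E) := h1
      _ ≤ _ := measure_mono h2

end Pool.Agent.H303.NY
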