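import Pool.Agent.H303.NY.Stm
import Pool.Graph.R_pool_sql_team_seeded_3997aac3.Q73.AD.YQA

/-!
# MV: the mean value inequality for subharmonic functions of class `C²`

Circle integrals in logarithmic polar coordinates (as in `Pool.Graph.R_seed8.H172R3.SM.C`), for
functions of class `C²`.
-/

set_option autoImplicit false
open MeasureTheory Filter Topology Complex Metric Set
open scoped ContDiff

noncomputable section

namespace Pool.Agent.H303.NY.Tmv

open Pool.Agent.Q73.NL
open Pool.Agent.H172R3.SM (CM Dr Da pt norm_pt_sub hasDerivAt_pt_t hasDerivAt_pt_θ continuous_pt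
  pt_pi hasDerivAt_param CM_add CM_mono CM_const tendsto_CM fderiv_apply_eq)
open Pool.Agent.Q73.AD.YQA (mono_lim mono_of_deriv ball_int cm cm_eq continuous_cm lap_congr
  exp_le_of_le_log)

variable {g : ℂ → ℝ}

theorem dx_C {n m : WithTop ℕ∞} (hg : ContDiff ℝ n g) (h : m + 1 ≤ n) : ContDiff ℝ m (dx g) := by
  unfold dx
  exact (hg.fderiv_right h).clm_apply contDiff_const

theorem dy_C {n m : WithTop ℕ∞} (hg : ContDiff ℝ n g) (h : m + 1 ≤ n) : ContDiff ℝ m (dy g) := by
  unfold dy
  exact (hg.fderiv_right h).clm_apply contDiff_const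

theorem two_one : (1 : WithTop ℕ∞) + 1 ≤ 2 := by norm_num
theorem one_zero : (0 : WithTop ℕ∞) + 1 ≤ 1 := by norm_num

theorem lap_cont (hg : ContDiff ℝ 2 g) : Continuous (lap g) :=
  (dx_C (dx_C hg two_one) one_zero).continuous.add (dy_C (dy_C hg two_one) one_zero).continuous

theorem re_C {n : WithTop ℕ∞} (c : ℂ) : ContDiff ℝ n (fun z : ℂ => (z - c).re) :=
  reCLM.contDiff.comp (contDiff_id.sub contDiff_const)

theorem im_C {n : WithTop ℕ∞} (c : ℂ) : ContDiff ℝ n (fun z : ℂ => (z - c).im) :=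
  imCLM.contDiff.comp (contDiff_id.sub contDiff_const)

theorem Dr_C {n m : WithTop ℕ∞} (c : ℂ) (hg : ContDiff ℝ n g) (h : m + 1 ≤ n) :
    ContDiff ℝ m (Dr c g) :=
  ((re_C c).mul (dx_C hg h)).add ((im_C c).mul (dy_C hg h))

theorem Da_C {n m : WithTop ℕ∞} (c : ℂ) (hg : ContDiff ℝ n g) (h : m + 1 ≤ n) :
    ContDiff ℝ m (Da c g) :=
  ((im_C c).neg.mul (dx_C hg h)).add ((re_C c).mul (dy_C hg h))

theorem hasDerivAt_comp (hg : ContDiff ℝ 1 g) {γ : ℝ → ℂ} {v : ℂ} {s : ℝ}
    (hγ : HasDerivAt γ v s) :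
    HasDerivAt (fun s => g (γ s)) (v.re * dx g (γ s) + v.im * dy g (γ s)) s := by
  have h1 := (hg.differentiable (by simp) (γ s)).hasFDerivAt.comp_hasDerivAt s hγ
  have h2 := fderiv_apply_eq g (γ s) v
  rw [h2] at h1
  exact h1

theorem hasDerivAt_t (hg : ContDiff ℝ 1 g) (c : ℂ) (t θ : ℝ) :
    HasDerivAt (fun t => g (pt c t θ)) (Dr c g (pt c t θ)) t :=
  hasDerivAt_comp hg (hasDerivAt_pt_t c t θ)

theorem hasDerivAt_θ (hg : ContDiff ℝ 1 g) (c : ℂ) (t θ : ℝ) :
    HasDerivAt (fun θ => g (pt c t θ)) (Da c g (pt c t θ)) θ := by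
  have h := hasDerivAt_comp hg (hasDerivAt_pt_θ c t θ)
  have e : (I * (pt c t θ - c)).re * dx g (pt c t θ) + (I * (pt c t θ - c)).im * dy g (pt c t θ) =
      Da c g (pt c t θ) := by
    have e1 : (I * (pt c t θ - c)).re = -(pt c t θ - c).im := by simp
    have e2 : (I * (pt c t θ - c)).im = (pt c t θ - c).re := by simp
    rw [e1, e2]
    rfl
  rw [e] at h
  exact h

/-- Laplacian in logarithmic polar coordinates -/
theorem lap_polar (hg : ContDiff ℝ 2 g) (c z : ℂ) :
    Dr c (Dr c g) z + Da c (Da c g) z = ‖z - c‖ ^ 2 * lap g z := by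
  have hx := dx_C hg two_one
  have hy := dy_C hg two_one
  have hre : HasFDerivAt (fun z : ℂ => (z - c).re) reCLM z :=
    (reCLM.hasFDerivAt (x := z)).sub_const c.re
  have him : HasFDerivAt (fun z : ℂ => (z - c).im) imCLM z :=
    (imCLM.hasFDerivAt (x := z)).sub_const c.im
  have hX := (hx.differentiable (by simp) z).hasFDerivAt
  have hY := (hy.differentiable (by simp) z).hasFDerivAt
  have e1 : HasFDerivAt (Dr c g) _ z := (hre.mul hX).add (him.mul hY)
  have e2 : HasFDerivAt (Da c g) _ z := ((him.neg).mul hX).add (hre.mul hY)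
  have q1 : dx (dx g) z = fderiv ℝ (dx g) z 1 := rfl
  have q2 : dx (dy g) z = fderiv ℝ (dy g) z 1 := rfl
  have q3 : dy (dx g) z = fderiv ℝ (dx g) z I := rfl
  have q4 : dy (dy g) z = fderiv ℝ (dy g) z I := rfl
  have q5 : Pool.Agent.H172R3.SM.dy g z = dy g z := rfl
  have f1 : dx (Dr c g) z = dx g z + (z - c).re * dx (dx g) z + (z - c).im * dx (dy g) z := by
    rw [show dx (Dr c g) z = fderiv ℝ (Dr c g) z 1 from rfl, e1.fderiv, q1, q2]
    simp
    ring
  have f2 : dy (Dr c g) z = dy g z + (z - c).re * dy (dx g) z + (z - c).im * dy (dy g) z := by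
    rw [show dy (Dr c g) z = fderiv ℝ (Dr c g) z I from rfl, e1.fderiv, q3, q4, q5]
    simp
    ring
  have f3 : dx (Da c g) z = dy g z - (z - c).im * dx (dx g) z + (z - c).re * dx (dy g) z := by
    rw [show dx (Da c g) z = fderiv ℝ (Da c g) z 1 from rfl, e2.fderiv, q1, q2, q5]
    simp
    ring
  have f4 : dy (Da c g) z = - dx g z - (z - c).im * dy (dx g) z + (z - c).re * dy (dy g) z := by
    rw [show dy (Da c g) z = fderiv ℝ (Da c g) z I from rfl, e2.fderiv, q3, q4]
    simp
    ring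
  have e0 : ‖z - c‖ ^ 2 = (z - c).re ^ 2 + (z - c).im ^ 2 := by
    rw [← normSq_eq_norm_sq, normSq_apply]; ring
  rw [e0]
  show (z - c).re * dx (Dr c g) z + (z - c).im * dy (Dr c g) z +
    (-(z - c).im * dx (Da c g) z + (z - c).re * dy (Da c g) z) = _
  rw [f1, f2, f3, f4]
  unfold lap
  ring

theorem hasDerivAt_CM (hg : ContDiff ℝ 1 g) (c : ℂ) (t : ℝ) :
    HasDerivAt (CM c g) (CM c (Dr c g) t) t := by
  unfold CM
  refine hasDerivAt_param (F := fun t θ => g (pt c t θ))
    (F' := fun t θ => Dr c g (pt c t θ)) ?_ ?_ (fun t θ => hasDerivAt_t hg c t θ) t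
  · exact hg.continuous.comp (continuous_pt c)
  · exact (Dr_C c hg one_zero).continuous.comp (continuous_pt c)

theorem CM_Da (hg : ContDiff ℝ 1 g) (c : ℂ) (t : ℝ) : CM c (Da c g) t = 0 := by
  unfold CM
  rw [intervalIntegral.integral_eq_sub_of_hasDerivAt (f := fun θ => g (pt c t θ))]
  · rw [pt_pi]; ring
  · intro θ _
    exact hasDerivAt_θ hg c t θ
  · exact ((Da_C c hg one_zero).continuous.comp ((continuous_pt c).comp
      (by fun_prop : Continuous fun θ : ℝ => (t, θ)))).intervalIntegrable _ _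

/-- second derivative of the circle integral -/
theorem hasDerivAt_CM2 (hg : ContDiff ℝ 2 g) (c : ℂ) (t : ℝ) :
    HasDerivAt (CM c (Dr c g)) (Real.exp (2 * t) * CM c (lap g) t) t := by
  have h1 := hasDerivAt_CM (Dr_C c hg two_one) c t
  have h2 := CM_Da (Da_C c hg two_one) c t
  have h3 : CM c (Dr c (Dr c g)) t = Real.exp (2 * t) * CM c (lap g) t := by
    have h4 := CM_add c (g := Dr c (Dr c g)) (h := Da c (Da c g))
      (Dr_C c (Dr_C c hg two_one) one_zero).continuous
      (Da_C c (Da_C c hg two_one) one_zero).continuous t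
    rw [h2, add_zero] at h4
    rw [← h4]
    unfold CM
    rw [← intervalIntegral.integral_const_mul]
    congr 1
    funext θ
    show Dr c (Dr c g) (pt c t θ) + Da c (Da c g) (pt c t θ) = _
    rw [lap_polar hg, norm_pt_sub, ← Real.exp_nat_mul]
    norm_num
  rw [← h3]
  exact h1

theorem tendsto_CM_Dr (hg : ContDiff ℝ 1 g) (c : ℂ) :
    Tendsto (CM c (Dr c g)) atBot (𝓝 0) := by
  have h := tendsto_CM (Dr_C c hg one_zero).continuous c
  have : Dr c g c = 0 := by unfold Dr; simp
  rw [this, mul_zero] at h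
  exact h

/-- the circle mean inequality -/
theorem CM_ge (hg : ContDiff ℝ 2 g) (c : ℂ) {R : ℝ} (hR : 0 < R)
    (hl : ∀ z ∈ closedBall c R, 0 ≤ lap g z) {t : ℝ} (ht : t ≤ Real.log R) :
    2 * Real.pi * g c ≤ CM c g t := by
  have hg1 : ContDiff ℝ 1 g := hg.of_le (by norm_num)
  have m1 : MonotoneOn (CM c (Dr c g)) (Iic (Real.log R)) := by
    refine mono_of_deriv (fun t => hasDerivAt_CM2 hg c t) fun t ht => ?_
    refine mul_nonneg (Real.exp_pos _).le ?_
    have := CM_mono c (g := fun _ => 0) (h := lap g) continuous_const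
      (lap_cont hg) t (fun z hz => hl z (by
        rw [mem_closedBall, dist_eq_norm, hz]
        exact exp_le_of_le_log hR ht))
    rw [CM_const, mul_zero] at this
    exact this
  have m2 : MonotoneOn (CM c g) (Iic (Real.log R)) :=
    mono_of_deriv (fun t => hasDerivAt_CM hg1 c t) fun t ht =>
      mono_lim m1 (tendsto_CM_Dr hg1 c) ht
  exact mono_lim m2 (tendsto_CM hg.continuous c) ht

/-- extension to a function of class `C²` on the plane -/
theorem exists_glob {h : ℂ → ℝ} {w : ℂ} {r r' : ℝ} (hr' : 0 < r') (hrr : r' < r)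
    (hh : ∀ z ∈ ball w r, ContDiffAt ℝ 2 h z) :
    ∃ H : ℂ → ℝ, ContDiff ℝ 2 H ∧ ∀ z ∈ closedBall w r', H =ᶠ[𝓝 z] h := by
  set χ : ContDiffBump w := ⟨r' + (r - r') / 3, r' + 2 * (r - r') / 3, by linarith, by linarith⟩
    with hχ
  have hin : χ.rIn = r' + (r - r') / 3 := rfl
  have hout : χ.rOut = r' + 2 * (r - r') / 3 := rfl
  refine ⟨fun z => χ z * h z, ?_, ?_⟩
  · rw [contDiff_iff_contDiffAt]
    intro z
    by_cases hz : z ∈ ball w r
    · exact χ.contDiffAt.mul (hh z hz)
    · have h1 : z ∉ tsupport χ := by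
        rw [χ.tsupport_eq, mem_closedBall, hout]
        rw [mem_ball] at hz
        push Not at hz ⊢
        linarith
      have h2 : (χ : ℂ → ℝ) =ᶠ[𝓝 z] 0 := notMem_tsupport_iff_eventuallyEq.1 h1
      have h3 : (fun z => χ z * h z) =ᶠ[𝓝 z] fun _ => 0 := by
        filter_upwards [h2] with y hy
        rw [hy]
        simp
      exact contDiffAt_const.congr_of_eventuallyEq h3
  · intro z hz
    have h1 : z ∈ ball w χ.rIn := by
      rw [mem_ball, hin]
      rw [mem_closedBall] at hz
      linarith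
    filter_upwards [χ.eventuallyEq_one_of_mem_ball h1] with y hy
    rw [hy]
    simp

/-- a function of class `C²` near each point of a closed disc is so on a larger disc -/
theorem larger {v : ℂ → ℝ} {x : ℂ} {r : ℝ} (hr : 0 < r)
    (h : ∀ z ∈ closedBall x r, ContDiffAt ℝ 2 v z) :
    ∃ r' > r, ∀ z ∈ ball x r', ContDiffAt ℝ 2 v z := by
  have ho : IsOpen {z | ContDiffAt ℝ 2 v z} := by
    rw [isOpen_iff_mem_nhds]
    intro z hz
    exact ContDiffAt.eventually hz (by simp)
  obtain ⟨δ, hδ, hsub⟩ := (isCompact_closedBall x r).exists_thickening_subset_open ho h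
  refine ⟨r + δ, by linarith, fun z hz => hsub ?_⟩
  rw [thickening_closedBall hδ hr.le, add_comm]
  exact hz

end Pool.Agent.H303.NY.Tmv

namespace Pool.Agent.H303.NY

open Tmv Pool.Agent.Q73.NL
open Pool.Agent.H172R3.SM (CM)
open Pool.Agent.Q73.AD.YQA (ball_int cm cm_eq continuous_cm lap_congr)

/-- MV: the mean value inequality for subharmonic functions of class `C²` -/
theorem tmv : MV := by
  intro v x r hr hv
  obtain ⟨r', hrr, hv'⟩ := larger hr fun z hz => (hv z hz).1
  obtain ⟨H, hH, hHv⟩ := exists_glob hr hrr hv'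
  have hlap : ∀ z ∈ closedBall x r, 0 ≤ lap H z := by
    intro z hz
    rw [lap_congr (hHv z hz)]
    exact (hv z hz).2
  have hx : H x = v x := (hHv x (mem_closedBall_self hr.le)).eq_of_nhds
  have hint : ∫ y in ball x r, v y = ∫ y in ball x r, H y := by
    refine setIntegral_congr_fun measurableSet_ball fun y hy => ?_
    exact (hHv y (ball_subset_closedBall hy)).eq_of_nhds.symm
  rw [hint, ← hx, ball_int x hH.continuous hr]
  have h2 : ∫ s in (0 : ℝ)..r, s * (2 * Real.pi * H x) ≤ ∫ s in (0 : ℝ)..r, s * cm x H s := by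
    refine intervalIntegral.integral_mono_on hr.le
      (Continuous.intervalIntegrable (by fun_prop) _ _)
      ((continuous_id.mul (continuous_cm x hH.continuous)).intervalIntegrable _ _) ?_
    intro s hs
    rcases eq_or_lt_of_le hs.1 with h | h
    · rw [← h, zero_mul, zero_mul]
    · rw [cm_eq x H h]
      refine mul_le_mul_of_nonneg_left ?_ h.le
      exact CM_ge hH x hr hlap (Real.log_le_log h hs.2)
  rw [intervalIntegral.integral_mul_const, integral_id] at h2
  calc H x * (Real.pi * r ^ 2) = (r ^ 2 - 0 ^ 2) / 2 * (2 * Real.pi * H x) := by ring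
    _ ≤ _ := h2

end Pool.Agent.H303.NY
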