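import Pool.Graph.R_pool_sql_team_seeded_3997aac3.Q73.AD.StmQ
import Pool.Graph.R_pool_sql_team_seeded_3997aac3.Q73.NL.StmU
import Pool.Agent.H303.NP.Stm

/-!
# The nodal length on smooth surfaces: statements of the lemmas

`ℂ` is the plane; `dx`, `dy`, `lap`, `nod`, `NoFlat` are from `Pool.Agent.Q73.NL` (library, `Q73.NL.Stm`), `sn`,
`Loc`, `gr`, `Good`, `Atl`, `Eig` from `Pool.Agent.Q73.AD` (library), `Z6p` from `Pool.Agent.H303.NP`.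

Main idea. Let `Δu + V u = 0`, `|V|, |∇V| ≤ 1`, `q = |∇u|² + u²`. Then `Δ log (q + ε) ≥ -12` (in dimension two
the traceless part of the Hessian saves the day), so `∫ |∇ log (q + ε)| ≤ C (1 + N)`, `N` the growth exponent.
Integration by parts with `F (u / √(q + ε)) div (χ ∇u / √(q + ε))` bounds the area of the set
`|u| < t √(q + ε)` by `C t (1 + N)`; hence the length of the nodal set is at most `C (1 + N)`.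
-/

set_option autoImplicit false
open MeasureTheory Filter Topology Complex Metric
open scoped ContDiff ENNReal

namespace Pool.Agent.H303.NY

open Pool.Agent.Q73.NL Pool.Agent.Q73.AD Pool.Agent.H303.NP

noncomputable section

universe u v

/-! ### The local theorem -/

/-- `u` is a smooth solution of `Δu + V u = 0` on the closed disc of radius `8`, `|V|, |∇V| ≤ 1` -/
def SolB (V u : ℂ → ℝ) : Prop := ∀ z ∈ closedBall (0 : ℂ) 8, ContDiffAt ℝ ∞ u z ∧ ContDiffAt ℝ 1 V z ∧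
  |V z| ≤ 1 ∧ ‖fderiv ℝ V z‖ ≤ 1 ∧ lap u z + V z * u z = 0

/-- `q = |∇u|² + u²` -/
def en (u : ℂ → ℝ) (z : ℂ) : ℝ := dx u z ^ 2 + dy u z ^ 2 + u z ^ 2

/-- `log (q + ε)` -/
def Lg (ε : ℝ) (u : ℂ → ℝ) (z : ℂ) : ℝ := Real.log (en u z + ε)

/-- N1: `log (q + ε)` is almost subharmonic -/
def N1 : Prop := ∀ (ε : ℝ) (V u : ℂ → ℝ), 0 < ε → SolB V u → ∀ z ∈ ball (0 : ℂ) 8,
  ContDiffAt ℝ ∞ (Lg ε u) z ∧ -12 ≤ lap (Lg ε u) z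

/-- N2: the gradient estimate -/
def N2 : Prop := ∃ C : ℝ, 1 ≤ C ∧ ∀ V u : ℂ → ℝ, SolB V u → ∀ z ∈ closedBall (0 : ℂ) 7,
  en u z ≤ C * sn u (closedBall 0 8) ^ 2

/-- LB: the gradient of a negative subharmonic function is in `L¹` -/
def LB : Prop := ∃ C : ℝ, 1 ≤ C ∧ ∀ (v : ℂ → ℝ) (A : ℝ), ContDiff ℝ ∞ v → (∀ x, v x ≤ 0) →
  (∀ x ∈ ball (0 : ℂ) 5, 0 ≤ lap v x) → ∫ x in ball (0 : ℂ) 5, -v x ≤ A →
  ∫ x in ball (0 : ℂ) 2, (|dx v x| + |dy v x|) ≤ C * A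

/-- MV: the mean value inequality for subharmonic functions of class `C²` -/
def MV : Prop := ∀ (v : ℂ → ℝ) (x : ℂ) (r : ℝ), 0 < r →
  (∀ z ∈ closedBall x r, ContDiffAt ℝ 2 v z ∧ 0 ≤ lap v z) →
  v x * (Real.pi * r ^ 2) ≤ ∫ y in ball x r, v y

/-- `u` is a normalised solution with growth exponent `N` -/
structure Nrm (N : ℝ) (V u : ℂ → ℝ) : Prop where
  sol : SolB V u
  le_one : sn u (closedBall 0 8) ≤ 1
  nonneg : 0 ≤ N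
  low : Real.exp (-N) ≤ sn u (closedBall 0 1)

/-- N3: the gradient of `log (q + ε)` -/
def N3 : Prop := ∃ C : ℝ, 1 ≤ C ∧ ∀ (ε N : ℝ) (V u : ℂ → ℝ), 0 < ε → ε ≤ 1 → Nrm N V u →
  ∫ z in ball (0 : ℂ) 2, (|dx (Lg ε u) z| + |dy (Lg ε u) z|) ≤ C * (1 + N)

/-- N4: the area of the set `|u| < t √(q + ε)`, weighted -/
def N4 : Prop := ∃ C : ℝ, 1 ≤ C ∧ ∀ (ε t N : ℝ) (V u : ℂ → ℝ), 0 < ε → ε ≤ 1 → 0 < t → Nrm N V u →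
  ∫ z in {z | z ∈ ball (0 : ℂ) 1 ∧ |u z| < t * Real.sqrt (en u z + ε)},
    (dx u z ^ 2 + dy u z ^ 2) / (en u z + ε) ≤ C * t * (1 + N)

/-- N5: length and the area of neighbourhoods -/
def N5 : Prop := ∀ (K : Set ℂ) (B s₀ : ℝ), IsCompact K → 0 ≤ B → 0 < s₀ →
  (∀ s, 0 < s → s < s₀ → volume (thickening s K) ≤ ENNReal.ofReal (B * s)) →
  (μH[1] : Measure ℂ) K ≤ ENNReal.ofReal (2 * B)

/-- N6: the length of compact subsets of the regular part of the nodal set -/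
def N6 : Prop := ∃ C : ℝ, 1 ≤ C ∧ ∀ (N : ℝ) (V u : ℂ → ℝ) (K : Set ℂ), Nrm N V u → IsCompact K →
  (∀ z ∈ K, z ∈ ball (0 : ℂ) 1 ∧ u z = 0 ∧ 0 < dx u z ^ 2 + dy u z ^ 2) →
  (μH[1] : Measure ℂ) K ≤ ENNReal.ofReal (C * (1 + N))

/-- N7: the singular zeros are isolated -/
def N7 : Prop := ∀ (Ω : Set ℂ) (C : ℝ) (u : ℂ → ℝ), IsOpen Ω → ContDiffOn ℝ ∞ u Ω →
  (∀ z ∈ Ω, |lap u z| ≤ C * |u z|) → NoFlat Ω u →
  {z | z ∈ Ω ∧ u z = 0 ∧ dx u z = 0 ∧ dy u z = 0}.Countable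

/-- N8: the local theorem -/
def N8 : Prop := ∃ C : ℝ, 1 ≤ C ∧ ∀ V u : ℂ → ℝ, SolB V u → 0 < sn u (closedBall 0 1) →
  (μH[1] : Measure ℂ) (nod (ball 0 1) u) ≤
    ENNReal.ofReal (C * (1 + Real.log (sn u (closedBall 0 8) / sn u (closedBall 0 1))))

/-- N9: the local theorem, scaled -/
def N9 : Prop := ∃ C : ℝ, 1 ≤ C ∧ ∀ (lam L r : ℝ) (w : ℂ) (ρ φ : ℂ → ℝ), 0 < lam → 0 < r → r ≤ 1 →
  lam * L * r ^ 2 ≤ 1 →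
  (∀ z ∈ closedBall w (8 * r), ContDiffAt ℝ ∞ φ z ∧ ContDiffAt ℝ 1 ρ z ∧ |ρ z| ≤ L ∧
    ‖fderiv ℝ ρ z‖ ≤ L ∧ lap φ z + lam * ρ z * φ z = 0) →
  0 < sn φ (closedBall w r) →
  (μH[1] : Measure ℂ) (nod (ball w r) φ) ≤
    ENNReal.ofReal (C * r * (1 + Real.log (sn φ (closedBall w (8 * r)) / sn φ (closedBall w r))))

/-- N10: the length of the nodal set near a zero, from below -/
def N10 : Prop := ∀ (lam L r : ℝ) (w : ℂ) (ρ φ : ℂ → ℝ), 0 < lam → 0 < r → 0 ≤ L →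
  lam * L * r ^ 2 ≤ 1 →
  (∀ z ∈ closedBall w r, ContDiffAt ℝ ∞ φ z ∧ 0 ≤ ρ z ∧ ρ z ≤ L ∧
    lap φ z + lam * ρ z * φ z = 0) → φ w = 0 →
  ENNReal.ofReal (r / 2) ≤ (μH[1] : Measure ℂ) (nod (ball w r) φ)

/-! ### Squares of fixed size -/

/-- the sum of the powers of the lengths of the nodal set in the discs of radius `≍ 1 / √lam` with
centres in a square -/
def ZL (α : ℝ) : Prop := ∃ s₁ : ℝ, 0 < s₁ ∧ ∀ s L G₀ r R C₁ : ℝ, 0 < s → s ≤ s₁ → 1 ≤ L → 0 ≤ G₀ →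
  0 < r → 0 < R → 0 < C₁ → ∃ A lam₀ : ℝ, 0 < A ∧ 0 < lam₀ ∧
  ∀ (lam : ℝ) (p : ℂ) (ρ φ : ℂ → ℝ) (κ : Type) [Fintype κ] (w : κ → ℂ), lam₀ ≤ lam →
    Loc lam L s p ρ φ → gr φ p s ≤ G₀ * (Real.sqrt lam * s) →
    (∀ i, |(w i - p).re| ≤ s / 2 ∧ |(w i - p).im| ≤ s / 2) →
    (∀ x : ℂ, (Set.ncard {i | ‖x - w i‖ ≤ r / Real.sqrt lam} : ℝ) ≤ C₁) →
    (∀ i, (μH[1] : Measure ℂ) (nod (ball (w i) (R / Real.sqrt lam)) φ) < ⊤) ∧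
    ∑ i, (Real.sqrt lam * ((μH[1] : Measure ℂ) (nod (ball (w i) (R / Real.sqrt lam)) φ)).toReal) ^ α ≤
      A * lam

/-- the length of the nodal set in a square -/
def ZS : Prop := ∃ s₁ : ℝ, 0 < s₁ ∧ ∀ s L G₀ : ℝ, 0 < s → s ≤ s₁ → 1 ≤ L → 0 ≤ G₀ →
  ∃ A lam₀ : ℝ, 0 < A ∧ 0 < lam₀ ∧ ∀ (lam : ℝ) (p : ℂ) (ρ φ : ℂ → ℝ), lam₀ ≤ lam →
    Loc lam L s p ρ φ → gr φ p s ≤ G₀ * (Real.sqrt lam * s) →
    (μH[1] : Measure ℂ) {z | |(z - p).re| ≤ s / 2 ∧ |(z - p).im| ≤ s / 2 ∧ φ z = 0} ≤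
      ENNReal.ofReal (A * Real.sqrt lam)

/-! ### Good pieces of charts -/

/-- the sum of the powers of the lengths over the discs with centres in a good piece -/
def Z4L (α : ℝ) : Prop := ∀ (M : Type u) [MetricSpace M] [MeasurableSpace M] [BorelSpace M]
  (φ : ℂ → M) (ρ : ℂ → ℝ) (V : Set ℂ) (z : ℂ)
  (R c L δ C C₁ : ℝ), Good φ ρ V z R c L δ → (∀ w ∈ V, 0 ≤ ρ w) → 0 < C → 0 < C₁ →
  ∃ r₀ : ℝ, 0 < r₀ ∧ ∀ Cg : ℝ, 0 < Cg → ∃ A : ℝ, 0 < A ∧ ∃ lam₀ : ℝ, 0 < lam₀ ∧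
  ∀ (lam : ℝ) (f : M → ℝ) (κ : Type) [Fintype κ] (b : κ → M), lam₀ ≤ lam →
    ContDiffOn ℝ ∞ (fun w => f (φ w)) V →
    (∀ w ∈ V, lap (fun w => f (φ w)) w + lam * ρ w * f (φ w) = 0) →
    BddAbove ((fun x => |f x|) '' Set.univ) → (∀ x r, 0 < r → 0 < sn f (ball x r)) →
    (∀ x : M, sn f Set.univ ≤ Real.exp (Cg * (1 + Real.sqrt lam)) * sn f (ball x r₀)) →
    (∀ x : M, (Set.ncard {i | x ∈ ball (b i) (C / Real.sqrt lam)} : ℝ) ≤ C₁) →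
    (∀ i, b i ∈ φ '' closedBall z R) →
    (∀ i, (μH[1] : Measure M) {x | x ∈ ball (b i) (C / Real.sqrt lam) ∧ f x = 0} < ⊤) ∧
    ∑ i, (Real.sqrt lam *
      ((μH[1] : Measure M) {x | x ∈ ball (b i) (C / Real.sqrt lam) ∧ f x = 0}).toReal) ^ α ≤ A * lam

/-- the length of the nodal set in a good piece -/
def Z4S : Prop := ∀ (M : Type u) [MetricSpace M] [MeasurableSpace M] [BorelSpace M]
  (φ : ℂ → M) (ρ : ℂ → ℝ) (V : Set ℂ) (z : ℂ)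
  (R c L δ : ℝ), Good φ ρ V z R c L δ → (∀ w ∈ V, 0 ≤ ρ w) →
  ∃ r₀ : ℝ, 0 < r₀ ∧ ∀ Cg : ℝ, 0 < Cg → ∃ A : ℝ, 0 < A ∧ ∃ lam₀ : ℝ, 0 < lam₀ ∧
  ∀ (lam : ℝ) (f : M → ℝ), lam₀ ≤ lam →
    ContDiffOn ℝ ∞ (fun w => f (φ w)) V →
    (∀ w ∈ V, lap (fun w => f (φ w)) w + lam * ρ w * f (φ w) = 0) →
    BddAbove ((fun x => |f x|) '' Set.univ) → (∀ x r, 0 < r → 0 < sn f (ball x r)) →
    (∀ x : M, sn f Set.univ ≤ Real.exp (Cg * (1 + Real.sqrt lam)) * sn f (ball x r₀)) →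
    (μH[1] : Measure M) {x | x ∈ φ '' closedBall z R ∧ f x = 0} ≤
      ENNReal.ofReal (A * Real.sqrt lam)

/-! ### Closed surfaces -/

/-- U1: the nodal length, bounded eigenvalues -/
def U1 : Prop := ∀ (M : Type u) (ι : Type v) [MetricSpace M] [CompactSpace M] [ConnectedSpace M]
  [MeasurableSpace M] [BorelSpace M] (U : ι → Set ℂ) (φ : ι → ℂ → M) (ρ : ι → ℂ → ℝ),
  Atl U φ ρ → ∀ Λ : ℝ, 0 < Λ → ∃ A : ℝ, 0 < A ∧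
  ∀ (lam : ℝ) (f : M → ℝ), 0 < lam → lam ≤ Λ → Eig U φ ρ lam f → (∃ x, f x ≠ 0) →
    (μH[1] : Measure M) {x | f x = 0} ≤ ENNReal.ofReal A

/-- U2: the nodal length, large eigenvalues -/
def U2 : Prop := ∀ (M : Type u) (ι : Type v) [MetricSpace M] [CompactSpace M] [ConnectedSpace M]
  [MeasurableSpace M] [BorelSpace M] (U : ι → Set ℂ) (φ : ι → ℂ → M) (ρ : ι → ℂ → ℝ),
  Atl U φ ρ → (∀ i, ∀ z ∈ U i, 0 ≤ ρ i z) → ∃ A lam₀ : ℝ, 0 < A ∧ 0 < lam₀ ∧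
  ∀ (lam : ℝ) (f : M → ℝ), lam₀ ≤ lam → Eig U φ ρ lam f → (∃ x, f x ≠ 0) →
    (μH[1] : Measure M) {x | f x = 0} ≤ ENNReal.ofReal (A * Real.sqrt lam)

/-- Z5L: the power means of the lengths in the discs -/
def Z5L (α : ℝ) : Prop := ∀ (M : Type u) (ι : Type v) [MetricSpace M] [CompactSpace M] [ConnectedSpace M]
  [MeasurableSpace M] [BorelSpace M] (U : ι → Set ℂ) (φ : ι → ℂ → M) (ρ : ι → ℂ → ℝ),
  Atl U φ ρ → (∀ i, ∀ z ∈ U i, 0 ≤ ρ i z) →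
  ∀ C C₁ C₂ : ℝ, 0 < C → 0 < C₁ → 0 < C₂ → ∃ A : ℝ, 0 < A ∧
  ∀ (lam : ℝ) (f : M → ℝ) (κ : Type) [Fintype κ] (b : κ → M), 0 < lam → Eig U φ ρ lam f →
    (∃ x, f x ≠ 0) →
    (∀ x : M, (Set.ncard {i | x ∈ ball (b i) (C / Real.sqrt lam)} : ℝ) ≤ C₁) →
    C₂⁻¹ * lam ≤ Fintype.card κ →
    (∑ i, (Real.sqrt lam *
      ((μH[1] : Measure M) {x | x ∈ ball (b i) (C / Real.sqrt lam) ∧ f x = 0}).toReal) ^ α) /
        Fintype.card κ ≤ A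

/-- GAP: the positive eigenvalues are bounded below -/
def GAP : Prop := ∀ (M : Type u) (ι : Type v) [MetricSpace M] [CompactSpace M] [ConnectedSpace M]
  (U : ι → Set ℂ) (φ : ι → ℂ → M) (ρ : ι → ℂ → ℝ),
  Atl U φ ρ → (∀ i, ∀ z ∈ U i, 0 < ρ i z) → ∃ c : ℝ, 0 < c ∧
  ∀ (lam : ℝ) (f : M → ℝ), 0 < lam → Eig U φ ρ lam f → (∃ x, f x ≠ 0) → c ≤ lam

/-- LW1: lower bound of the nodal length, bounded eigenvalues -/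
def LW1 : Prop := ∀ (M : Type u) (ι : Type v) [MetricSpace M] [CompactSpace M] [ConnectedSpace M]
  [MeasurableSpace M] [BorelSpace M] (U : ι → Set ℂ) (φ : ι → ℂ → M) (ρ : ι → ℂ → ℝ),
  Atl U φ ρ → (∀ i, ∀ z ∈ U i, 0 < ρ i z) → ∀ Λ : ℝ, 0 < Λ → ∃ c : ℝ, 0 < c ∧
  ∀ (lam : ℝ) (f : M → ℝ), 0 < lam → lam ≤ Λ → Eig U φ ρ lam f → (∃ x, f x ≠ 0) →
    ENNReal.ofReal c ≤ (μH[1] : Measure M) {x | f x = 0}

/-- LW2: lower bound of the nodal length, large eigenvalues -/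
def LW2 : Prop := ∀ (M : Type u) (ι : Type v) [MetricSpace M] [CompactSpace M] [ConnectedSpace M]
  [MeasurableSpace M] [BorelSpace M] (U : ι → Set ℂ) (φ : ι → ℂ → M) (ρ : ι → ℂ → ℝ),
  Atl U φ ρ → (∀ i, ∀ z ∈ U i, 0 < ρ i z) → ∃ c lam₀ : ℝ, 0 < c ∧ 0 < lam₀ ∧
  ∀ (lam : ℝ) (f : M → ℝ), lam₀ ≤ lam → Eig U φ ρ lam f → (∃ x, f x ≠ 0) →
    ENNReal.ofReal (c * Real.sqrt lam) ≤ (μH[1] : Measure M) {x | f x = 0}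

end

end Pool.Agent.H303.NY
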