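import Pool.Graph.R_pool_sql_team_seeded_3997aac3.Q73.AD.TG4
import Pool.Agent.H303.NY.Stm

/-!
# U1: nodal length, bounded eigenvalues (helper972)
-/

set_option autoImplicit false
open MeasureTheory Filter Topology Complex Metric
open scoped ContDiff ENNReal NNReal

namespace Pool.Agent.H303.NY

open Pool.Agent.Q73.NL Pool.Agent.Q73.AD Pool.Agent.H303.NP

namespace TU1

universe u v

/-- the length of the image of the nodal set in one disc -/
theorem disc {M : Type u} [MetricSpace M] [MeasurableSpace M] [BorelSpace M]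
    {φ : ℂ → M} {ρ : ℂ → ℝ} {V : Set ℂ} {z : ℂ} {R c L δ : ℝ} (hG : Good φ ρ V z R c L δ)
    {C9 : ℝ} (hC9 : 1 ≤ C9)
    (h9 : ∀ (lam L r : ℝ) (w : ℂ) (ρ φ : ℂ → ℝ), 0 < lam → 0 < r → r ≤ 1 →
      lam * L * r ^ 2 ≤ 1 →
      (∀ z ∈ closedBall w (8 * r), ContDiffAt ℝ ∞ φ z ∧ ContDiffAt ℝ 1 ρ z ∧ |ρ z| ≤ L ∧
        ‖fderiv ℝ ρ z‖ ≤ L ∧ lap φ z + lam * ρ z * φ z = 0) →
      0 < Pool.Agent.Q73.AD.sn φ (closedBall w r) →
      (μH[1] : Measure ℂ) (nod (ball w r) φ) ≤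
        ENNReal.ofReal (C9 * r * (1 + Real.log (Pool.Agent.Q73.AD.sn φ (closedBall w (8 * r)) /
          Pool.Agent.Q73.AD.sn φ (closedBall w r)))))
    {Λ a r₀ E : ℝ} (hΛ : 0 < Λ) (ha : 0 < a) (ha8 : 8 * a ≤ R) (ha1 : a ≤ 1) (haΛ : Λ * L * a ^ 2 ≤ 1)
    (hr₀ : 0 < r₀) (hr₀δ : r₀ ≤ δ) (hr₀a : r₀ ≤ c * a)
    {lam : ℝ} (hlam : 0 < lam) (hlamΛ : lam ≤ Λ) {f : M → ℝ}
    (hf1 : ContDiffOn ℝ ∞ (fun w => f (φ w)) V)
    (hf2 : ∀ w ∈ V, lap (fun w => f (φ w)) w + lam * ρ w * f (φ w) = 0)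
    (hb : BddAbove ((fun x => |f x|) '' Set.univ)) (hpos : 0 < Pool.Agent.Q73.AD.sn f Set.univ)
    (hgr : ∀ x : M, Pool.Agent.Q73.AD.sn f Set.univ ≤ Real.exp E * Pool.Agent.Q73.AD.sn f (ball x r₀))
    {w : ℂ} (hw : w ∈ closedBall z R) :
    (μH[1] : Measure M) {x | x ∈ φ '' ball w a ∧ f x = 0} ≤
      ENNReal.ofReal (c⁻¹ * (C9 * a * (1 + E))) := by
  have hc := hG.c_pos
  have hR := hG.R_pos
  have hsub8 : closedBall w (8 * a) ⊆ closedBall z (2 * R) := by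
    intro y hy
    rw [mem_closedBall] at *
    have := dist_triangle y w z
    linarith
  have hsub1 : closedBall w a ⊆ closedBall z (2 * R) :=
    (closedBall_subset_closedBall (by linarith)).trans hsub8
  have hwB : w ∈ closedBall z (2 * R) := hsub1 (mem_closedBall_self ha.le)
  -- ball (φ w) r₀ ⊆ φ '' closedBall w a
  have hball : ball (φ w) r₀ ⊆ φ '' closedBall w a := by
    intro x hx
    have hw' : w ∈ closedBall z (3 * R / 2) := closedBall_subset_closedBall (by linarith) hw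
    obtain ⟨y, hy, rfl⟩ := hG.surj w hw' (ball_subset_ball hr₀δ hx)
    refine ⟨y, ?_, rfl⟩
    have h1 := (hG.lip y hy w hwB).1
    rw [mem_ball] at hx
    rw [mem_closedBall, dist_eq_norm]
    have h2 : c * ‖y - w‖ ≤ c * a := by linarith
    exact le_of_mul_le_mul_left h2 hc
  obtain ⟨g, hg⟩ : ∃ g : ℂ → ℝ, g = fun w => f (φ w) := ⟨_, rfl⟩
  have hgb : BddAbove ((fun x => |g x|) '' Set.univ) := by
    refine hb.mono ?_
    rintro _ ⟨y, -, rfl⟩
    exact ⟨φ y, trivial, by rw [hg]⟩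
  have hw8 : w ∈ closedBall w (8 * a) := mem_closedBall_self (by linarith)
  have hsn8 : Pool.Agent.Q73.AD.sn g (closedBall w (8 * a)) ≤ Pool.Agent.Q73.AD.sn f Set.univ := by
    unfold Pool.Agent.Q73.AD.sn
    refine csSup_le (Set.Nonempty.image _ ⟨w, hw8⟩) ?_
    rintro _ ⟨y, -, rfl⟩
    refine le_csSup hb ⟨φ y, trivial, ?_⟩
    rw [hg]
  have hsn1 : Pool.Agent.Q73.AD.sn f (ball (φ w) r₀) ≤ Pool.Agent.Q73.AD.sn g (closedBall w a) := by
    unfold Pool.Agent.Q73.AD.sn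
    refine csSup_le (Set.Nonempty.image _ ⟨φ w, mem_ball_self hr₀⟩) ?_
    rintro _ ⟨x, hx, rfl⟩
    obtain ⟨y, hy, rfl⟩ := hball hx
    refine le_csSup (hgb.mono (Set.image_mono (Set.subset_univ _))) ?_
    exact ⟨y, hy, by rw [hg]⟩
  have hgr' := hgr (φ w)
  have hp1 : 0 < Pool.Agent.Q73.AD.sn f (ball (φ w) r₀) :=
    (mul_pos_iff_of_pos_left (Real.exp_pos _)).1 (hpos.trans_le hgr')
  have hp2 : 0 < Pool.Agent.Q73.AD.sn g (closedBall w a) := hp1.trans_le hsn1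
  have hp8 : 0 < Pool.Agent.Q73.AD.sn g (closedBall w (8 * a)) := by
    refine hp2.trans_le (TG4.sn_mono (closedBall_subset_closedBall (by linarith))
      ⟨w, mem_closedBall_self ha.le⟩ hgb)
  have hratio : Pool.Agent.Q73.AD.sn g (closedBall w (8 * a)) /
      Pool.Agent.Q73.AD.sn g (closedBall w a) ≤ Real.exp E := by
    rw [div_le_iff₀ hp2]
    refine hsn8.trans (hgr'.trans ?_)
    exact mul_le_mul_of_nonneg_left hsn1 (Real.exp_pos _).le
  have hlog : Real.log (Pool.Agent.Q73.AD.sn g (closedBall w (8 * a)) /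
      Pool.Agent.Q73.AD.sn g (closedBall w a)) ≤ E := by
    rw [Real.log_le_iff_le_exp (div_pos hp8 hp2)]
    exact hratio
  have hL : 0 ≤ L := by linarith [hG.L_ge]
  have hloc : lam * L * a ^ 2 ≤ 1 := by
    refine le_trans ?_ haΛ
    have : 0 ≤ L * a ^ 2 := by positivity
    nlinarith
  have hmain := h9 lam L a w ρ g hlam ha ha1 hloc (by
    intro y hy
    have hyB := hsub8 hy
    have hyV := hG.sub hyB
    have hVn : V ∈ 𝓝 y := hG.opn.mem_nhds hyV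
    refine ⟨?_, (hG.smooth y hyV).contDiffAt hVn, (hG.bd y hyB).1, (hG.bd y hyB).2, ?_⟩
    · rw [hg]
      exact (hf1 y hyV).contDiffAt hVn
    · have := hf2 y hyV
      rw [hg]
      exact this) hp2
  have hsetE : {x | x ∈ φ '' ball w a ∧ f x = 0} = φ '' nod (ball w a) g := by
    ext x
    constructor
    · rintro ⟨⟨y, hy, rfl⟩, hx⟩
      exact ⟨y, ⟨hy, by rw [hg]; exact hx⟩, rfl⟩
    · rintro ⟨y, ⟨hy, hy0⟩, rfl⟩
      refine ⟨⟨y, hy, rfl⟩, ?_⟩
      rw [hg] at hy0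
      exact hy0
  have hLip : LipschitzOnWith (Real.toNNReal c⁻¹) φ (nod (ball w a) g) := by
    apply LipschitzOnWith.of_dist_le_mul
    rintro x ⟨hx, -⟩ y ⟨hy, -⟩
    have h1 := (hG.lip x (hsub1 (ball_subset_closedBall hx)) y (hsub1 (ball_subset_closedBall hy))).2
    rw [Real.coe_toNNReal _ (inv_nonneg.2 hc.le), dist_eq_norm x y]
    rw [inv_mul_eq_div, le_div_iff₀ hc]
    linarith
  rw [hsetE]
  refine (hLip.hausdorffMeasure_image_le (by norm_num)).trans ?_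
  rw [ENNReal.ofReal_mul (inv_nonneg.2 hc.le), ENNReal.rpow_one]
  refine mul_le_mul' le_rfl (hmain.trans ?_)
  apply ENNReal.ofReal_le_ofReal
  have : 0 ≤ C9 * a := by positivity
  nlinarith

/-- the length of the nodal set in a good piece -/
theorem piece {M : Type u} [MetricSpace M] [MeasurableSpace M] [BorelSpace M]
    {φ : ℂ → M} {ρ : ℂ → ℝ} {V : Set ℂ} {z : ℂ} {R c L δ : ℝ} (hG : Good φ ρ V z R c L δ)
    (h9 : N9) {Λ : ℝ} (hΛ : 0 < Λ) :
    ∃ r₀ : ℝ, 0 < r₀ ∧ ∀ E : ℝ, ∃ A : ℝ, 0 ≤ A ∧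
      ∀ (lam : ℝ) (f : M → ℝ), 0 < lam → lam ≤ Λ →
        ContDiffOn ℝ ∞ (fun w => f (φ w)) V →
        (∀ w ∈ V, lap (fun w => f (φ w)) w + lam * ρ w * f (φ w) = 0) →
        BddAbove ((fun x => |f x|) '' Set.univ) → 0 < Pool.Agent.Q73.AD.sn f Set.univ →
        (∀ x : M, Pool.Agent.Q73.AD.sn f Set.univ ≤ Real.exp E * Pool.Agent.Q73.AD.sn f (ball x r₀)) →
        (μH[1] : Measure M) {x | x ∈ φ '' closedBall z R ∧ f x = 0} ≤ ENNReal.ofReal A := by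
  classical
  obtain ⟨C9, hC9, h9'⟩ := h9
  have hc := hG.c_pos
  have hR := hG.R_pos
  have hR1 := hG.R_le
  have hδ := hG.δ_pos
  have hL1 := hG.L_ge
  obtain ⟨a, ha0, ha⟩ : ∃ a : ℝ, 0 < a ∧ (8 * a ≤ R ∧ a ≤ 1 ∧ Λ * L * a ^ 2 ≤ 1) := by
    have hpos : 0 < Λ * L := by positivity
    refine ⟨min (R / 8) (1 / (1 + Λ * L)), by positivity, ?_, ?_, ?_⟩
    · have := min_le_left (R / 8) (1 / (1 + Λ * L))
      linarith
    · have := min_le_left (R / 8) (1 / (1 + Λ * L))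
      linarith
    · have h1 := min_le_right (R / 8) (1 / (1 + Λ * L))
      have h0 : 0 < min (R / 8) (1 / (1 + Λ * L)) := by positivity
      obtain ⟨m, hm⟩ : ∃ m, m = min (R / 8) (1 / (1 + Λ * L)) := ⟨_, rfl⟩
      rw [← hm] at h1 h0 ⊢
      rw [le_div_iff₀ (by positivity)] at h1
      have h2 : m ≤ 1 := by nlinarith
      nlinarith
  obtain ⟨ha8, ha1, haΛ⟩ := ha
  -- the finite cover
  obtain ⟨T, hTsub, hTfin, hTcov⟩ : ∃ T : Set ℂ, T ⊆ closedBall z R ∧ T.Finite ∧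
      closedBall z R ⊆ ⋃ w ∈ T, ball w a :=
    finite_cover_balls_of_compact (isCompact_closedBall z R) ha0
  refine ⟨min δ (c * a), by positivity, ?_⟩
  intro E
  refine ⟨(hTfin.toFinset.card : ℝ) * |c⁻¹ * (C9 * a * (1 + E))|, by positivity, ?_⟩
  intro lam f hlam hlamΛ hf1 hf2 hb hpos hgr
  have hdisc : ∀ w ∈ T, (μH[1] : Measure M) {x | x ∈ φ '' ball w a ∧ f x = 0} ≤
      ENNReal.ofReal |c⁻¹ * (C9 * a * (1 + E))| := by
    intro w hw
    refine (disc hG hC9 h9' hΛ ha0 ha8 ha1 haΛ (by positivity) (min_le_left _ _) (min_le_right _ _)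
      hlam hlamΛ hf1 hf2 hb hpos hgr (hTsub hw)).trans ?_
    exact ENNReal.ofReal_le_ofReal (le_abs_self _)
  have hcover : {x | x ∈ φ '' closedBall z R ∧ f x = 0} ⊆
      ⋃ w ∈ hTfin.toFinset, {x | x ∈ φ '' ball w a ∧ f x = 0} := by
    rintro x ⟨⟨y, hy, rfl⟩, hx⟩
    obtain ⟨w, hw, hyw⟩ := Set.mem_iUnion₂.1 (hTcov hy)
    refine Set.mem_iUnion₂.2 ⟨w, by simpa using hw, ⟨y, hyw, rfl⟩, hx⟩
  refine (measure_mono hcover).trans ?_
  refine (measure_biUnion_finset_le _ _).trans ?_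
  refine (Finset.sum_le_card_nsmul _ _ (ENNReal.ofReal |c⁻¹ * (C9 * a * (1 + E))|) ?_).trans ?_
  · intro w hw
    exact hdisc w (by simpa using hw)
  · rw [ENNReal.ofReal_mul (by positivity), ENNReal.ofReal_natCast, nsmul_eq_mul]

end TU1

open TU1

/-- U1 -/
theorem tu1.{u, v} (hG1 : G1.{u, v}) (hG2 : G2.{u, v}) (h9 : N9) : U1.{u, v} := by
  classical
  intro M ι _ _ _ _ _ U φ ρ hA Λ hΛ
  obtain ⟨n, i, z, R, c, L, δ, hG, hcov⟩ := hG2 M ι U φ ρ hA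
  choose r₀ hr₀ h3' using fun a => piece (hG a) h9 hΛ
  choose Cg hCg hgr using fun a => hG1 M ι U φ ρ hA (r₀ a) (hr₀ a)
  choose A hA0 hfin using fun a => h3' a (Cg a * (1 + √Λ))
  refine ⟨1 + ∑ a, A a, ?_, ?_⟩
  · have := Finset.sum_nonneg fun a (_ : a ∈ Finset.univ) => hA0 a
    linarith
  intro lam f hlam hlamΛ hf hne
  have hb : BddAbove ((fun x => |f x|) '' Set.univ) :=
    isCompact_univ.bddAbove_image (TG4.cont hA hf).abs.continuousOn
  have hpos : 0 < Pool.Agent.Q73.AD.sn f Set.univ := by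
    obtain ⟨x₀, hx₀⟩ := hne
    exact (abs_pos.2 hx₀).trans_le (TG4.le_sn hb x₀)
  have hpiece : ∀ a, (μH[1] : Measure M) {x | x ∈ φ (i a) '' closedBall (z a) (R a) ∧ f x = 0} ≤
      ENNReal.ofReal (A a) := by
    intro a
    apply hfin a lam f hlam hlamΛ (hf (i a)).1 (hf (i a)).2 hb hpos
    intro x
    have h1 := hgr a lam f hlam.le hf x
    have hp : 0 < Pool.Agent.Q73.AD.sn f (ball x (r₀ a)) :=
      (mul_pos_iff_of_pos_left (Real.exp_pos _)).1 (hpos.trans_le h1)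
    refine h1.trans ?_
    apply mul_le_mul_of_nonneg_right _ hp.le
    apply Real.exp_le_exp.2
    apply mul_le_mul_of_nonneg_left _ (hCg a).le
    have := Real.sqrt_le_sqrt hlamΛ
    linarith
  have hcover : {x | f x = 0} ⊆
      ⋃ a ∈ (Finset.univ : Finset (Fin n)), {x | x ∈ φ (i a) '' closedBall (z a) (R a) ∧ f x = 0} := by
    intro x hx
    obtain ⟨a, ha⟩ := hcov x
    exact Set.mem_iUnion₂.2 ⟨a, Finset.mem_univ _, ha, hx⟩
  refine (measure_mono hcover).trans ?_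
  refine (measure_biUnion_finset_le _ _).trans ?_
  refine (Finset.sum_le_sum fun a _ => hpiece a).trans ?_
  rw [← ENNReal.ofReal_sum_of_nonneg fun a _ => hA0 a]
  apply ENNReal.ofReal_le_ofReal
  linarith

end Pool.Agent.H303.NY
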