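import Pool.Agent.H303.NY.Stm
import Pool.Graph.R_pool_sql_team_seeded_3997aac3.Q73.AD.TG4

/-! # U2: the nodal length on closed surfaces, large eigenvalues -/

set_option autoImplicit false
open MeasureTheory Filter Topology Complex Metric
open scoped ContDiff ENNReal

namespace Pool.Agent.H303.NY

open Pool.Agent.Q73.NL Pool.Agent.Q73.AD Pool.Agent.H303.NP Pool.Agent.Q73.AD.TG4

universe u v

/-- U2 -/
theorem tu2 (hG1 : G1.{u, v}) (hG2 : G2.{u, v}) (h : Z4S.{u}) : U2.{u, v} := by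
  classical
  intro M ι _ _ _ _ _ U φ ρ hA hρ
  obtain ⟨n, i, z, R, c, L, δ, hG, hcov⟩ := hG2 M ι U φ ρ hA
  choose r₀ hr₀ h3' using fun a => h M (φ (i a)) (ρ (i a)) (U (i a)) (z a) (R a) c L δ (hG a)
    (hρ (i a))
  choose Cg hCg hgr using fun a => hG1 M ι U φ ρ hA (r₀ a) (hr₀ a)
  choose A hA0 lam₀ hlam₀ hfin using fun a => h3' a (Cg a) (hCg a)
  have hAs : 0 ≤ ∑ a, A a := Finset.sum_nonneg fun a _ => (hA0 a).le
  have hls : 0 ≤ ∑ a, lam₀ a := Finset.sum_nonneg fun a _ => (hlam₀ a).le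
  refine ⟨∑ a, A a + 1, 1 + ∑ a, lam₀ a, by linarith, by linarith, ?_⟩
  intro lam f hlam hf hne
  have hlam0 : 0 < lam := by linarith
  have hb : BddAbove ((fun x => |f x|) '' Set.univ) :=
    isCompact_univ.bddAbove_image (cont hA hf).abs.continuousOn
  have hpos : ∀ (x : M) (r : ℝ), 0 < r → 0 < sn f (ball x r) := by
    intro x r hr
    obtain ⟨Cr, -, hgrr⟩ := hG1 M ι U φ ρ hA r hr
    obtain ⟨x₀, hx₀⟩ := hne
    have h4 := (abs_pos.2 hx₀).trans_le ((le_sn hb x₀).trans (hgrr lam f hlam0.le hf x))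
    exact (mul_pos_iff_of_pos_left (Real.exp_pos _)).1 h4
  have hpart : ∀ a : Fin n,
      (μH[1] : Measure M) {x | x ∈ φ (i a) '' closedBall (z a) (R a) ∧ f x = 0} ≤
        ENNReal.ofReal (A a * Real.sqrt lam) := by
    intro a
    apply hfin a lam f
    · exact (le_sum_of lam₀ hlam₀ a).trans hlam
    · exact (hf (i a)).1
    · exact (hf (i a)).2
    · exact hb
    · exact hpos
    · exact fun x => hgr a lam f hlam0.le hf x
  have hsub : {x : M | f x = 0} ⊆
      ⋃ a : Fin n, {x | x ∈ φ (i a) '' closedBall (z a) (R a) ∧ f x = 0} := by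
    intro x hx
    obtain ⟨a, ha⟩ := hcov x
    exact Set.mem_iUnion.2 ⟨a, ha, hx⟩
  calc (μH[1] : Measure M) {x | f x = 0}
      ≤ (μH[1] : Measure M) (⋃ a : Fin n,
          {x | x ∈ φ (i a) '' closedBall (z a) (R a) ∧ f x = 0}) := measure_mono hsub
    _ ≤ ∑ a : Fin n, (μH[1] : Measure M)
          {x | x ∈ φ (i a) '' closedBall (z a) (R a) ∧ f x = 0} :=
        measure_iUnion_fintype_le _ _
    _ ≤ ∑ a : Fin n, ENNReal.ofReal (A a * Real.sqrt lam) :=
        Finset.sum_le_sum fun a _ => hpart a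
    _ = ENNReal.ofReal (∑ a : Fin n, A a * Real.sqrt lam) :=
        (ENNReal.ofReal_sum_of_nonneg fun a _ =>
          mul_nonneg (hA0 a).le (Real.sqrt_nonneg _)).symm
    _ ≤ ENNReal.ofReal ((∑ a, A a + 1) * Real.sqrt lam) := by
        apply ENNReal.ofReal_le_ofReal
        rw [← Finset.sum_mul]
        exact mul_le_mul_of_nonneg_right (by linarith) (Real.sqrt_nonneg _)

end Pool.Agent.H303.NY
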