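import Pool.Agent.H303.NY.Stm
import Pool.Graph.R_pool_sql_team_seeded_3997aac3.Q73.AD.YZ4

/-! # Z4L: the lengths of the nodal set in the discs with centres in a good piece (helper154) -/

set_option autoImplicit false
open MeasureTheory Filter Topology Complex Metric
open scoped ContDiff ENNReal

namespace Pool.Agent.H303.NY

open Pool.Agent.Q73.NL Pool.Agent.Q73.AD Pool.Agent.H303.NP

universe u

namespace TZ4L

theorem len {M : Type u} [MetricSpace M] [MeasurableSpace M] [BorelSpace M] {φ : ℂ → M} {c : ℝ}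
    (hc : 0 < c) {E : Set ℂ} (hE : ∀ w ∈ E, ∀ w' ∈ E, c * dist (φ w) (φ w') ≤ ‖w - w'‖) :
    (μH[1] : Measure M) (φ '' E) ≤ ENNReal.ofReal (1 / c) * (μH[1] : Measure ℂ) E := by
  have hL : LipschitzOnWith (Real.toNNReal (1 / c)) φ E := by
    apply LipschitzOnWith.of_dist_le_mul
    intro w hw w' hw'
    rw [Real.coe_toNNReal _ (by positivity), dist_eq_norm w w', one_div, inv_mul_eq_div,
      le_div_iff₀ hc, mul_comm]
    exact hE w hw w' hw'
  have h := hL.hausdorffMeasure_image_le (d := 1) zero_le_one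
  rw [ENNReal.rpow_one] at h
  exact h

end TZ4L

open TZ4L in
theorem tz4l {α : ℝ} (hα1 : 1 ≤ α) (h6 : ZL α) : Z4L.{u} α := by
  intro M _ _ _ φ ρ V z R c L δ C C₁ hG hρ hC hC₁
  classical
  obtain ⟨s₁, hs₁, H6⟩ := h6
  have hc := hG.c_pos
  have hc1 := hG.c_le
  have hR := hG.R_pos
  have hR1 := hG.R_le
  have hδ := hG.δ_pos
  set s : ℝ := min s₁ (R / 100) with hsdef
  have hs0 : 0 < s := lt_min hs₁ (by positivity)
  have hss₁ : s ≤ s₁ := min_le_left _ _
  have hsR : 100 * s ≤ R := by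
    have : s ≤ R / 100 := min_le_right _ _
    linarith
  have hs20 : 0 < s / 2 := by linarith
  refine ⟨min δ (c * (2 * s)), by positivity, fun Cg hCg => ?_⟩
  obtain ⟨A, lam₀, hA, hlam₀, H⟩ := H6 s L (2 * Cg / s) (c * C / 2) (C / c) C₁ hs0 hss₁ hG.L_ge
    (by positivity) (by positivity) (by positivity) hC₁
  set Q : ℕ := ⌈R / (2 * (s / 2)) + 1⌉₊ with hQ
  refine ⟨(1 / c) ^ α * ((2 * Q + 1) ^ 2 * A), by positivity,
    max lam₀ (max 1 (max ((C / R) ^ 2) ((2 * C / δ) ^ 2))), by positivity, ?_⟩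
  intro lam f κ _ b hlam hsm heq hbdd hpos hgrow hcard hb
  have hlam0 : lam₀ ≤ lam := (le_max_left _ _).trans hlam
  have hlam1 : 1 ≤ lam := (le_max_left _ _).trans ((le_max_right _ _).trans hlam)
  have hlam2 : (C / R) ^ 2 ≤ lam :=
    (le_max_left _ _).trans ((le_max_right _ _).trans ((le_max_right _ _).trans hlam))
  have hlam3 : (2 * C / δ) ^ 2 ≤ lam :=
    (le_max_right _ _).trans ((le_max_right _ _).trans ((le_max_right _ _).trans hlam))
  set sl : ℝ := Real.sqrt lam with hsl
  have hsl1 : 1 ≤ sl := Real.one_le_sqrt.2 hlam1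
  have hsl0 : 0 < sl := by linarith
  have hsl2 : C / R ≤ sl := Real.le_sqrt_of_sq_le hlam2
  have hsl3 : 2 * C / δ ≤ sl := Real.le_sqrt_of_sq_le hlam3
  have hCR : C / sl ≤ R := by
    rw [div_le_iff₀ hsl0]
    rw [div_le_iff₀ hR] at hsl2
    linarith
  have h2Cδ : 2 * (C / sl) ≤ δ := by
    rw [div_le_iff₀ hδ] at hsl3
    have e : 2 * (C / sl) = 2 * C / sl := by ring
    rw [e, div_le_iff₀ hsl0]
    linarith
  have hCsl : 0 < C / sl := by positivity
  have hCδ : C / sl ≤ δ := by linarith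
  -- boundedness
  obtain ⟨Bf, hBf⟩ := hbdd
  have hBf' : ∀ x, |f x| ≤ Bf := fun x => hBf ⟨x, Set.mem_univ _, rfl⟩
  have hVn : ∀ y ∈ V, V ∈ 𝓝 y := fun y hy => hG.opn.mem_nhds hy
  -- a disc contains the preimage of a small metric ball
  have hsmall : ∀ w ∈ closedBall z (3 * R / 2), ∀ t, 0 < t →
      Pool.Agent.Q73.AD.sn f (ball (φ w) (min δ (c * t))) ≤
        Pool.Agent.Q73.AD.sn (fun w => f (φ w)) (closedBall w t) := by
    intro w hw t ht
    refine sn_le2 (sn_nonneg2 _ _) fun x hx => ?_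
    have hx1 : x ∈ ball (φ w) δ := ball_subset_ball (min_le_left _ _) hx
    obtain ⟨w', hw', rfl⟩ := hG.surj w hw hx1
    have h3 := (hG.lip w' hw' w (closedBall_subset_closedBall (by linarith) hw)).1
    have h4 : dist (φ w') (φ w) < c * t := lt_of_lt_of_le hx (min_le_right _ _)
    have h5 : ‖w' - w‖ < t := lt_of_mul_lt_mul_left (h3.trans_lt h4) hc.le
    have h6 : w' ∈ closedBall w t := by
      rw [mem_closedBall, dist_eq_norm]
      exact h5.le
    exact le_sn2 (f := fun w => f (φ w)) (fun w' _ => hBf' (φ w')) h6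
  have hposd : ∀ w ∈ closedBall z (3 * R / 2), ∀ t, 0 < t →
      0 < Pool.Agent.Q73.AD.sn (fun w => f (φ w)) (closedBall w t) := by
    intro w hw t ht
    exact (hpos (φ w) _ (lt_min hδ (by positivity))).trans_le (hsmall w hw t ht)
  -- the position of the discs
  choose y hyR hyb using hb
  have hyR' : ∀ i, ‖y i - z‖ ≤ R := fun i => by
    have := hyR i
    rwa [mem_closedBall, dist_eq_norm] at this
  have hy2R : ∀ i, y i ∈ closedBall z (2 * R) := fun i =>
    closedBall_subset_closedBall (by linarith) (hyR i)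
  have hy32R : ∀ i, y i ∈ closedBall z (3 * R / 2) := fun i =>
    closedBall_subset_closedBall (by linarith) (hyR i)
  -- small discs
  have hin : ∀ i, ∀ w ∈ closedBall (y i) (c * C / 2 / sl), φ w ∈ ball (b i) (C / sl) := by
    intro i w hw
    rw [mem_closedBall, dist_eq_norm] at hw
    have hcs : c * C / 2 / sl ≤ C / sl := by
      refine div_le_div_of_nonneg_right ?_ hsl0.le
      nlinarith
    have hw2 : w ∈ closedBall z (2 * R) := by
      rw [mem_closedBall, dist_eq_norm]
      have e : w - z = (w - y i) + (y i - z) := by ring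
      rw [e]
      refine (norm_add_le _ _).trans ?_
      linarith [hyR' i]
    have h1 := (hG.lip w hw2 (y i) (hy2R i)).2
    rw [mem_ball, ← hyb i]
    have h2 : c * dist (φ w) (φ (y i)) ≤ c * (C / sl / 2) := by
      refine (h1.trans hw).trans (le_of_eq ?_)
      ring
    have h3 : dist (φ w) (φ (y i)) ≤ C / sl / 2 := le_of_mul_le_mul_left h2 hc
    linarith
  -- the lengths
  have hlen : ∀ i, (μH[1] : Measure M) {x | x ∈ ball (b i) (C / sl) ∧ f x = 0} ≤
      ENNReal.ofReal (1 / c) *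
        (μH[1] : Measure ℂ) (nod (ball (y i) (C / c / sl)) (fun w => f (φ w))) := by
    intro i
    have hsub : {x | x ∈ ball (b i) (C / sl) ∧ f x = 0} ⊆
        φ '' (nod (ball (y i) (C / c / sl)) (fun w => f (φ w)) ∩ closedBall z (2 * R)) := by
      rintro x ⟨hx, hfx⟩
      rw [← hyb i] at hx
      obtain ⟨w, hw, rfl⟩ := hG.surj (y i) (hy32R i) (ball_subset_ball hCδ hx)
      refine ⟨w, ⟨⟨?_, hfx⟩, hw⟩, rfl⟩
      have h1 := (hG.lip w hw (y i) (hy2R i)).1
      rw [mem_ball] at hx
      rw [mem_ball, dist_eq_norm]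
      have h3 : c * ‖w - y i‖ < c * (C / c / sl) := by
        refine (h1.trans_lt hx).trans_le (le_of_eq ?_)
        field_simp
      exact lt_of_mul_lt_mul_left h3 hc.le
    refine (measure_mono hsub).trans ?_
    refine (len hc fun w hw w' hw' => (hG.lip w hw.2 w' hw'.2).2).trans ?_
    gcongr
    exact Set.inter_subset_left
  choose m hm1 hm2 hm3 hm4 using fun i => locate2 hs20 (hyR' i)
  set IS : Finset (ℤ × ℤ) := Finset.Icc (-(Q : ℤ)) Q ×ˢ Finset.Icc (-(Q : ℤ)) Q with hIS
  have hIScard : (IS.card : ℝ) = (2 * Q + 1) ^ 2 := by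
    rw [hIS, Finset.card_product, Int.card_Icc]
    have : ((Q : ℤ) + 1 - -(Q : ℤ)).toNat = 2 * Q + 1 := by omega
    rw [this]
    push_cast
    ring
  have hmIS : ∀ i, m i ∈ IS := by
    intro i
    have hQr : R / (2 * (s / 2)) + 1 ≤ Q := Nat.le_ceil _
    have key : ∀ k : ℤ, |(k : ℝ)| ≤ R / (2 * (s / 2)) + 1 → k ∈ Finset.Icc (-(Q : ℤ)) Q := by
      intro k hk
      have h1 := abs_le.1 (hk.trans hQr)
      rw [Finset.mem_Icc]
      constructor
      · have : ((-(Q : ℤ) : ℤ) : ℝ) ≤ k := by push_cast; linarith [h1.1]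
        exact_mod_cast this
      · have : (k : ℝ) ≤ ((Q : ℤ) : ℝ) := by push_cast; linarith [h1.2]
        exact_mod_cast this
    rw [hIS, Finset.mem_product]
    exact ⟨key _ (hm3 i), key _ (hm4 i)⟩
  set F : κ → ℝ≥0∞ := fun i =>
    (μH[1] : Measure ℂ) (nod (ball (y i) (C / c / sl)) (fun w => f (φ w))) with hF
  -- one square
  have hone : ∀ m₀ : ℤ × ℤ, (∀ i ∈ Finset.univ.filter (fun i => m i = m₀), F i < ⊤) ∧
      ∑ i ∈ Finset.univ.filter (fun i => m i = m₀), (sl * (F i).toReal) ^ α ≤ A * lam := by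
    intro m₀
    rcases (Finset.univ.filter (fun i => m i = m₀)).eq_empty_or_nonempty with he | ⟨i₀, hi₀⟩
    · rw [he, Finset.sum_empty]
      exact ⟨fun i hi => absurd hi (Finset.notMem_empty i), by positivity⟩
    have hi₀' : m i₀ = m₀ := by simpa using hi₀
    set p : ℂ := rt z (s / 2) m₀ with hp
    have hyp : ‖y i₀ - p‖ ≤ 2 * s := by
      refine (Complex.norm_le_abs_re_add_abs_im _).trans ?_
      have h1 := hm1 i₀
      have h2 := hm2 i₀
      rw [hi₀'] at h1 h2
      linarith
    have hpz : ‖p - z‖ ≤ R + 2 * s := by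
      have e : p - z = (y i₀ - z) - (y i₀ - p) := by ring
      rw [e]
      refine (norm_sub_le _ _).trans ?_
      linarith [hyR' i₀]
    have hpz' : p ∈ closedBall z (3 * R / 2) := by
      rw [mem_closedBall, dist_eq_norm]
      linarith
    have hsub32 : closedBall p (32 * s) ⊆ closedBall z (3 * R / 2) := by
      refine closedBall_subset_closedBall' ?_
      rw [dist_eq_norm]
      linarith
    have hsub2 : closedBall p (32 * s) ⊆ closedBall z (2 * R) :=
      hsub32.trans (closedBall_subset_closedBall (by linarith))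
    have hloc : Loc lam L s p ρ (fun w => f (φ w)) := by
      refine ⟨by linarith, hs0, by linarith, ?_, ?_⟩
      · intro w hw
        have hw2 := hsub2 hw
        have hwV := hG.sub hw2
        exact ⟨(hsm w hwV).contDiffAt (hVn w hwV), (hG.smooth w hwV).contDiffAt (hVn w hwV),
          hρ w hwV, (le_abs_self _).trans (hG.bd w hw2).1, (hG.bd w hw2).2, heq w hwV⟩
      · intro w t ht hwt
        exact hposd w (hsub32 (hwt (mem_closedBall_self ht.le))) t ht
    have hgr : gr (fun w => f (φ w)) p s ≤ 2 * Cg / s * (sl * s) := by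
      have h1 : Pool.Agent.Q73.AD.sn (fun w => f (φ w)) (closedBall p (32 * s)) ≤
          Pool.Agent.Q73.AD.sn f Set.univ :=
        sn_le2 (sn_nonneg2 _ _) fun w _ => le_sn2 (fun x _ => hBf' x) (Set.mem_univ (φ w))
      have h2 := hsmall p hpz' (2 * s) (by linarith)
      have h3 := hgrow (φ p)
      have hp2 := hposd p hpz' (2 * s) (by linarith)
      have hp32 := hposd p hpz' (32 * s) (by linarith)
      have h4 : Pool.Agent.Q73.AD.sn (fun w => f (φ w)) (closedBall p (32 * s)) /
          Pool.Agent.Q73.AD.sn (fun w => f (φ w)) (closedBall p (2 * s)) ≤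
          Real.exp (Cg * (1 + sl)) := by
        rw [div_le_iff₀ hp2]
        calc _ ≤ _ := h1
          _ ≤ _ := h3
          _ ≤ _ := mul_le_mul_of_nonneg_left h2 (Real.exp_pos _).le
      have h5 := Real.log_le_log (div_pos hp32 hp2) h4
      rw [Real.log_exp] at h5
      unfold gr
      refine h5.trans ?_
      have e : 2 * Cg / s * (sl * s) = 2 * Cg * sl := by field_simp
      rw [e]
      nlinarith
    have hsum := H lam p ρ (fun w => f (φ w)) {i // m i = m₀} (fun i => y i.1) hlam0 hloc hgr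
      (fun i => by
        have h1 := hm1 i.1
        have h2 := hm2 i.1
        rw [i.2] at h1 h2
        exact ⟨h1, h2⟩)
      (fun x => by
        rcases Set.eq_empty_or_nonempty
            {i : {i // m i = m₀} | ‖x - y i.1‖ ≤ c * C / 2 / sl} with he | hne
        · rw [he, Set.ncard_empty]
          simpa using hC₁.le
        · refine le_trans ?_ (hcard (φ x))
          have h1 : (Subtype.val '' {i : {i // m i = m₀} | ‖x - y i.1‖ ≤ c * C / 2 / sl}) ⊆
              {i | φ x ∈ ball (b i) (C / sl)} := by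
            rintro _ ⟨i, hi, rfl⟩
            exact hin i.1 x (by rw [mem_closedBall, dist_eq_norm]; exact hi)
          have h2 := Set.ncard_le_ncard h1 (Set.toFinite _)
          rw [Set.ncard_image_of_injective _ Subtype.val_injective] at h2
          exact_mod_cast h2)
    refine ⟨fun i hi => hsum.1 ⟨i, (Finset.mem_filter.1 hi).2⟩, ?_⟩
    have e : ∑ i ∈ Finset.univ.filter (fun i => m i = m₀), (sl * (F i).toReal) ^ α =
        ∑ i : {i // m i = m₀}, (sl * (F i.1).toReal) ^ α := by
      rw [← Finset.sum_subtype_eq_sum_filter, Finset.subtype_univ]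
    rw [e]
    exact hsum.2
  have hFfin : ∀ i, F i < ⊤ := fun i =>
    (hone (m i)).1 i (Finset.mem_filter.2 ⟨Finset.mem_univ i, rfl⟩)
  have hFsum : ∑ i, (sl * (F i).toReal) ^ α ≤ (2 * Q + 1) ^ 2 * (A * lam) := by
    have e1 : ∑ i, (sl * (F i).toReal) ^ α =
        ∑ x ∈ IS, ∑ i ∈ Finset.univ.filter (fun i => m i = x), (sl * (F i).toReal) ^ α :=
      (Finset.sum_fiberwise_of_maps_to (fun i _ => hmIS i) _).symm
    rw [e1]
    refine (Finset.sum_le_sum fun x _ => (hone x).2).trans (le_of_eq ?_)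
    rw [Finset.sum_const, nsmul_eq_mul, hIScard]
  have hc' : 0 ≤ 1 / c := by positivity
  have hterm : ∀ i, (sl * ((μH[1] : Measure M)
      {x | x ∈ ball (b i) (C / sl) ∧ f x = 0}).toReal) ^ α ≤
      (1 / c) ^ α * (sl * (F i).toReal) ^ α := by
    intro i
    have h1 : ((μH[1] : Measure M) {x | x ∈ ball (b i) (C / sl) ∧ f x = 0}).toReal ≤
        1 / c * (F i).toReal := by
      have h2 := ENNReal.toReal_mono (ENNReal.mul_lt_top ENNReal.ofReal_lt_top (hFfin i)).ne
        (hlen i)
      rw [ENNReal.toReal_mul, ENNReal.toReal_ofReal hc'] at h2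
      exact h2
    rw [← Real.mul_rpow hc' (mul_nonneg hsl0.le ENNReal.toReal_nonneg)]
    refine Real.rpow_le_rpow (mul_nonneg hsl0.le ENNReal.toReal_nonneg) ?_ (by linarith)
    calc _ ≤ sl * (1 / c * (F i).toReal) := mul_le_mul_of_nonneg_left h1 hsl0.le
      _ = _ := by ring
  refine ⟨fun i => (hlen i).trans_lt (ENNReal.mul_lt_top ENNReal.ofReal_lt_top (hFfin i)), ?_⟩
  calc ∑ i, (sl * ((μH[1] : Measure M) {x | x ∈ ball (b i) (C / sl) ∧ f x = 0}).toReal) ^ α ≤
        ∑ i, (1 / c) ^ α * (sl * (F i).toReal) ^ α := Finset.sum_le_sum fun i _ => hterm i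
    _ = (1 / c) ^ α * ∑ i, (sl * (F i).toReal) ^ α := (Finset.mul_sum _ _ _).symm
    _ ≤ (1 / c) ^ α * ((2 * Q + 1) ^ 2 * (A * lam)) :=
        mul_le_mul_of_nonneg_left hFsum (Real.rpow_nonneg hc' _)
    _ = _ := by ring

end Pool.Agent.H303.NY
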