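import Pool.Agent.H303.NY.Stm
import Pool.Graph.R_pool_sql_team_seeded_3997aac3.Q73.AD.YZ4
import Pool.Agent.H303.NY.TZ4L

/-! # Z4S: the length of the nodal set in a good piece -/

set_option autoImplicit false
open MeasureTheory Filter Topology Complex Metric
open scoped ContDiff ENNReal

namespace Pool.Agent.H303.NY

open Pool.Agent.Q73.NL Pool.Agent.Q73.AD Pool.Agent.H303.NP

universe u

open TZ4L in
theorem tz4s (h6 : ZS) : Z4S.{u} := by
  intro M _ _ _ φ ρ V z R c L δ hG hρ
  classical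
  obtain ⟨s₁, hs₁, H6⟩ := h6
  have hc := hG.c_pos
  have hc1 := hG.c_le
  have hR := hG.R_pos
  have hR1 := hG.R_le
  have hδ := hG.δ_pos
  set s : ℝ := min s₁ (R / 100) with hsdef
  have hs0 : 0 < s := lt_min hs₁ (by positivity)
  have hss₁ : s ≤ s₁ := min_le_left _ _
  have hsR : 100 * s ≤ R := by
    have : s ≤ R / 100 := min_le_right _ _
    linarith
  have hs20 : 0 < s / 2 := by linarith
  refine ⟨min δ (c * (2 * s)), by positivity, fun Cg hCg => ?_⟩
  obtain ⟨A, lam₀, hA, hlam₀, H⟩ := H6 s L (2 * Cg / s) hs0 hss₁ hG.L_ge (by positivity)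
  set Q : ℕ := ⌈R / (2 * (s / 2)) + 1⌉₊ with hQ
  refine ⟨(1 / c) * ((2 * Q + 1) ^ 2 * A), by positivity, max lam₀ 1, by positivity, ?_⟩
  intro lam f hlam hsm heq hbdd hpos hgrow
  have hlam0 : lam₀ ≤ lam := (le_max_left _ _).trans hlam
  have hlam1 : 1 ≤ lam := (le_max_right _ _).trans hlam
  set sl : ℝ := Real.sqrt lam with hsl
  have hsl1 : 1 ≤ sl := Real.one_le_sqrt.2 hlam1
  have hsl0 : 0 < sl := by linarith
  -- boundedness
  obtain ⟨Bf, hBf⟩ := hbdd
  have hBf' : ∀ x, |f x| ≤ Bf := fun x => hBf ⟨x, Set.mem_univ _, rfl⟩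
  have hVn : ∀ y ∈ V, V ∈ 𝓝 y := fun y hy => hG.opn.mem_nhds hy
  -- a disc contains the preimage of a small metric ball
  have hsmall : ∀ w ∈ closedBall z (3 * R / 2), ∀ t, 0 < t →
      Pool.Agent.Q73.AD.sn f (ball (φ w) (min δ (c * t))) ≤
        Pool.Agent.Q73.AD.sn (fun w => f (φ w)) (closedBall w t) := by
    intro w hw t ht
    refine sn_le2 (sn_nonneg2 _ _) fun x hx => ?_
    have hx1 : x ∈ ball (φ w) δ := ball_subset_ball (min_le_left _ _) hx
    obtain ⟨w', hw', rfl⟩ := hG.surj w hw hx1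
    have h3 := (hG.lip w' hw' w (closedBall_subset_closedBall (by linarith) hw)).1
    have h4 : dist (φ w') (φ w) < c * t := lt_of_lt_of_le hx (min_le_right _ _)
    have h5 : ‖w' - w‖ < t := lt_of_mul_lt_mul_left (h3.trans_lt h4) hc.le
    have h6 : w' ∈ closedBall w t := by
      rw [mem_closedBall, dist_eq_norm]
      exact h5.le
    exact le_sn2 (f := fun w => f (φ w)) (fun w' _ => hBf' (φ w')) h6
  have hposd : ∀ w ∈ closedBall z (3 * R / 2), ∀ t, 0 < t →
      0 < Pool.Agent.Q73.AD.sn (fun w => f (φ w)) (closedBall w t) := by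
    intro w hw t ht
    exact (hpos (φ w) _ (lt_min hδ (by positivity))).trans_le (hsmall w hw t ht)
  set IS : Finset (ℤ × ℤ) := Finset.Icc (-(Q : ℤ)) Q ×ˢ Finset.Icc (-(Q : ℤ)) Q with hIS
  have hIScard : (IS.card : ℝ) = (2 * Q + 1) ^ 2 := by
    rw [hIS, Finset.card_product, Int.card_Icc]
    have : ((Q : ℤ) + 1 - -(Q : ℤ)).toNat = 2 * Q + 1 := by omega
    rw [this]
    push_cast
    ring
  have key : ∀ k : ℤ, |(k : ℝ)| ≤ R / (2 * (s / 2)) + 1 → k ∈ Finset.Icc (-(Q : ℤ)) Q := by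
    intro k hk
    have hQr : R / (2 * (s / 2)) + 1 ≤ Q := Nat.le_ceil _
    have h1 := abs_le.1 (hk.trans hQr)
    rw [Finset.mem_Icc]
    constructor
    · have : ((-(Q : ℤ) : ℤ) : ℝ) ≤ k := by push_cast; linarith [h1.1]
      exact_mod_cast this
    · have : (k : ℝ) ≤ ((Q : ℤ) : ℝ) := by push_cast; linarith [h1.2]
      exact_mod_cast this
  -- the zero sets in the squares
  set S : ℤ × ℤ → Set ℂ := fun m₀ => {y | |(y - rt z (s / 2) m₀).re| ≤ s / 2 ∧
    |(y - rt z (s / 2) m₀).im| ≤ s / 2 ∧ f (φ y) = 0} ∩ closedBall z R with hS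
  have hcov : {x | x ∈ φ '' closedBall z R ∧ f x = 0} ⊆ ⋃ m₀ ∈ IS, φ '' S m₀ := by
    rintro x ⟨⟨y, hy, rfl⟩, hfx⟩
    have hyR' : ‖y - z‖ ≤ R := by rwa [mem_closedBall, dist_eq_norm] at hy
    obtain ⟨m, hm1, hm2, hm3, hm4⟩ := locate2 hs20 hyR'
    refine Set.mem_iUnion₂.2 ⟨m, ?_, y, ⟨⟨hm1, hm2, hfx⟩, hy⟩, rfl⟩
    rw [hIS, Finset.mem_product]
    exact ⟨key _ hm3, key _ hm4⟩
  -- one square
  have hone : ∀ m₀ : ℤ × ℤ, (μH[1] : Measure M) (φ '' S m₀) ≤
      ENNReal.ofReal (1 / c * (A * sl)) := by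
    intro m₀
    rcases (S m₀).eq_empty_or_nonempty with he | ⟨y₀, hy₀⟩
    · rw [he, Set.image_empty, measure_empty]
      exact zero_le
    set p : ℂ := rt z (s / 2) m₀ with hp
    obtain ⟨⟨h1, h2, -⟩, h3⟩ := hy₀
    have hyR' : ‖y₀ - z‖ ≤ R := by rwa [mem_closedBall, dist_eq_norm] at h3
    have hyp : ‖y₀ - p‖ ≤ 2 * s := by
      refine (Complex.norm_le_abs_re_add_abs_im _).trans ?_
      linarith
    have hpz : ‖p - z‖ ≤ R + 2 * s := by
      have e : p - z = (y₀ - z) - (y₀ - p) := by ring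
      rw [e]
      refine (norm_sub_le _ _).trans ?_
      linarith
    have hpz' : p ∈ closedBall z (3 * R / 2) := by
      rw [mem_closedBall, dist_eq_norm]
      linarith
    have hsub32 : closedBall p (32 * s) ⊆ closedBall z (3 * R / 2) := by
      refine closedBall_subset_closedBall' ?_
      rw [dist_eq_norm]
      linarith
    have hsub2 : closedBall p (32 * s) ⊆ closedBall z (2 * R) :=
      hsub32.trans (closedBall_subset_closedBall (by linarith))
    have hloc : Loc lam L s p ρ (fun w => f (φ w)) := by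
      refine ⟨by linarith, hs0, by linarith, ?_, ?_⟩
      · intro w hw
        have hw2 := hsub2 hw
        have hwV := hG.sub hw2
        exact ⟨(hsm w hwV).contDiffAt (hVn w hwV), (hG.smooth w hwV).contDiffAt (hVn w hwV),
          hρ w hwV, (le_abs_self _).trans (hG.bd w hw2).1, (hG.bd w hw2).2, heq w hwV⟩
      · intro w t ht hwt
        exact hposd w (hsub32 (hwt (mem_closedBall_self ht.le))) t ht
    have hgr : gr (fun w => f (φ w)) p s ≤ 2 * Cg / s * (sl * s) := by
      have h1 : Pool.Agent.Q73.AD.sn (fun w => f (φ w)) (closedBall p (32 * s)) ≤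
          Pool.Agent.Q73.AD.sn f Set.univ :=
        sn_le2 (sn_nonneg2 _ _) fun w _ => le_sn2 (fun x _ => hBf' x) (Set.mem_univ (φ w))
      have h2 := hsmall p hpz' (2 * s) (by linarith)
      have h3 := hgrow (φ p)
      have hp2 := hposd p hpz' (2 * s) (by linarith)
      have hp32 := hposd p hpz' (32 * s) (by linarith)
      have h4 : Pool.Agent.Q73.AD.sn (fun w => f (φ w)) (closedBall p (32 * s)) /
          Pool.Agent.Q73.AD.sn (fun w => f (φ w)) (closedBall p (2 * s)) ≤
          Real.exp (Cg * (1 + sl)) := by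
        rw [div_le_iff₀ hp2]
        calc _ ≤ _ := h1
          _ ≤ _ := h3
          _ ≤ _ := mul_le_mul_of_nonneg_left h2 (Real.exp_pos _).le
      have h5 := Real.log_le_log (div_pos hp32 hp2) h4
      rw [Real.log_exp] at h5
      unfold gr
      refine h5.trans ?_
      have e : 2 * Cg / s * (sl * s) = 2 * Cg * sl := by field_simp
      rw [e]
      nlinarith
    have hsum := H lam p ρ (fun w => f (φ w)) hlam0 hloc hgr
    refine (len hc (E := S m₀) fun w hw w' hw' => (hG.lip w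
      (closedBall_subset_closedBall (by linarith) hw.2) w'
      (closedBall_subset_closedBall (by linarith) hw'.2)).2).trans ?_
    have h1c : 0 ≤ 1 / c := by positivity
    rw [ENNReal.ofReal_mul h1c]
    gcongr
    refine (measure_mono ?_).trans hsum
    intro w hw
    exact hw.1
  refine (measure_mono hcov).trans ((measure_biUnion_finset_le _ _).trans ?_)
  refine (Finset.sum_le_sum fun m₀ _ => hone m₀).trans ?_
  rw [Finset.sum_const, nsmul_eq_mul]
  have e : (IS.card : ℝ≥0∞) = ENNReal.ofReal (IS.card : ℝ) := by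
    rw [ENNReal.ofReal_natCast]
  rw [e, ← ENNReal.ofReal_mul (by positivity)]
  refine ENNReal.ofReal_le_ofReal (le_of_eq ?_)
  rw [hIScard]
  ring

end Pool.Agent.H303.NY
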