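import Pool.Agent.H303.NY.Stm
import Pool.Graph.R_pool_sql_team_seeded_3997aac3.Q73.AD.YZ5

/-! # Z5L: the power means of the lengths of the nodal set in the discs (helper289, for helper303) -/

set_option autoImplicit false
open MeasureTheory Filter Topology Complex Metric
open scoped ContDiff ENNReal

namespace Pool.Agent.H303.NY

open Pool.Agent.Q73.NL Pool.Agent.Q73.AD Pool.Agent.Q73.AD.TG4 Pool.Agent.H303.NP

universe u v

theorem tz5l {α : ℝ} (h1 : 1 ≤ α) (hG1 : G1.{u, v}) (hG2 : G2.{u, v}) (h4 : Z4L.{u} α)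
    (hu : U1.{u, v}) : Z5L.{u, v} α := by
  classical
  intro M ι _ _ _ _ _ U φ ρ hA hρ C C₁ C₂ hC hC₁ hC₂
  obtain ⟨n, i, z, R, c, L, δ, hG, hcov⟩ := hG2 M ι U φ ρ hA
  choose r₀ hr₀ h3' using fun a => h4 M (φ (i a)) (ρ (i a)) (U (i a)) (z a) (R a) c L δ C C₁ (hG a)
    (hρ (i a)) hC hC₁
  choose Cg hCg hgr using fun a => hG1 M ι U φ ρ hA (r₀ a) (hr₀ a)
  choose A hA0 lam₀ hlam₀ hfin using fun a => h3' a (Cg a) (hCg a)
  obtain ⟨Λ, hΛ⟩ : ∃ Λ : ℝ, Λ = 1 + ∑ a, lam₀ a := ⟨_, rfl⟩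
  have hΛ0 : 0 < Λ := by
    rw [hΛ]
    have := Finset.sum_nonneg fun a (_ : a ∈ Finset.univ) => (hlam₀ a).le
    linarith
  have hsΛ : 0 < √Λ := Real.sqrt_pos.2 hΛ0
  obtain ⟨B, hB0, hB⟩ := hu M ι U φ ρ hA Λ hΛ0
  have hAs : 0 ≤ ∑ a, A a := Finset.sum_nonneg fun a _ => (hA0 a).le
  obtain ⟨E, hE⟩ : ∃ E : ℝ, E = √Λ * B := ⟨_, rfl⟩
  have hE0 : 0 ≤ E := by rw [hE]; positivity
  have hEα : 0 ≤ E ^ α := Real.rpow_nonneg hE0 _
  refine ⟨C₂ * (∑ a, A a) + E ^ α + 1, by positivity, ?_⟩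
  intro lam f κ _ b hlam hf hne hnc hcard
  have hb : BddAbove ((fun x => |f x|) '' Set.univ) :=
    isCompact_univ.bddAbove_image (cont hA hf).abs.continuousOn
  have hpos : ∀ (x : M) (r : ℝ), 0 < r → 0 < sn f (ball x r) := by
    intro x r hr
    obtain ⟨Cr, -, hgrr⟩ := hG1 M ι U φ ρ hA r hr
    obtain ⟨x₀, hx₀⟩ := hne
    have h4 := (abs_pos.2 hx₀).trans_le ((le_sn hb x₀).trans (hgrr lam f hlam.le hf x))
    exact (mul_pos_iff_of_pos_left (Real.exp_pos _)).1 h4
  have hcardp : (0 : ℝ) < Fintype.card κ := lt_of_lt_of_le (by positivity) hcard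
  have hsl : 0 < √lam := Real.sqrt_pos.2 hlam
  rcases le_or_gt Λ lam with hcase | hcase
  · -- large eigenvalues
    choose asg hasg using fun j => hcov (b j)
    have hpart : ∀ a : Fin n, ∑ j : {j : κ // asg j = a}, (√lam *
        ((μH[1] : Measure M) {x | x ∈ ball (b j) (C / √lam) ∧ f x = 0}).toReal) ^ α ≤
        A a * lam := by
      intro a
      refine (hfin a lam f {j : κ // asg j = a} (fun j => b j) ?_ ?_ ?_ ?_ ?_ ?_ ?_ ?_).2
      · refine le_trans ?_ hcase
        rw [hΛ]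
        exact le_sum_of lam₀ hlam₀ a
      · exact (hf (i a)).1
      · exact (hf (i a)).2
      · exact hb
      · exact hpos
      · exact fun x => hgr a lam f hlam.le hf x
      · intro x
        refine le_trans ?_ (hnc x)
        have h5 : Set.ncard {j : {j : κ // asg j = a} | x ∈ ball (b j) (C / √lam)} ≤
            Set.ncard {j : κ | x ∈ ball (b j) (C / √lam)} := by
          rw [← Set.ncard_image_of_injective _ (Subtype.val_injective (p := fun j : κ => asg j = a))]
          apply Set.ncard_le_ncard _ (Set.toFinite _)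
          rintro y ⟨w, hw, rfl⟩
          exact hw
        exact_mod_cast h5
      · rintro ⟨j, hj⟩
        have := hasg j
        rw [hj] at this
        exact this
    have hsum : ∑ j, (√lam *
        ((μH[1] : Measure M) {x | x ∈ ball (b j) (C / √lam) ∧ f x = 0}).toReal) ^ α ≤
        (∑ a, A a) * lam := by
      rw [← Finset.sum_fiberwise Finset.univ asg, Finset.sum_mul]
      refine Finset.sum_le_sum fun a _ => ?_
      refine le_trans (le_of_eq ?_) (hpart a)
      rw [Finset.sum_subtype (Finset.univ.filter fun j => asg j = a) (p := fun j => asg j = a) (by simp)]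
    rw [div_le_iff₀ hcardp]
    calc ∑ j, (√lam *
        ((μH[1] : Measure M) {x | x ∈ ball (b j) (C / √lam) ∧ f x = 0}).toReal) ^ α ≤
        (∑ a, A a) * lam := hsum
      _ = (C₂ * ∑ a, A a) * (C₂⁻¹ * lam) := by
          field_simp
      _ ≤ (C₂ * (∑ a, A a) + E ^ α + 1) * Fintype.card κ := by
          gcongr
          linarith
  · -- small eigenvalues
    have hd : ∀ j, √lam *
        ((μH[1] : Measure M) {x | x ∈ ball (b j) (C / √lam) ∧ f x = 0}).toReal ≤ E := by
      intro j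
      rw [hE]
      have h5 : (μH[1] : Measure M) {x | x ∈ ball (b j) (C / √lam) ∧ f x = 0} ≤
          ENNReal.ofReal B :=
        (measure_mono fun x hx => hx.2).trans (hB lam f hlam hcase.le hf hne)
      have h6 : ((μH[1] : Measure M) {x | x ∈ ball (b j) (C / √lam) ∧ f x = 0}).toReal ≤ B :=
        ENNReal.toReal_le_of_le_ofReal hB0.le h5
      exact mul_le_mul (Real.sqrt_le_sqrt hcase.le) h6 ENNReal.toReal_nonneg hsΛ.le
    have hd' : ∀ j, (√lam *
        ((μH[1] : Measure M) {x | x ∈ ball (b j) (C / √lam) ∧ f x = 0}).toReal) ^ α ≤ E ^ α :=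
      fun j => Real.rpow_le_rpow (mul_nonneg hsl.le ENNReal.toReal_nonneg) (hd j) (by linarith)
    have hsum : ∑ j, (√lam *
        ((μH[1] : Measure M) {x | x ∈ ball (b j) (C / √lam) ∧ f x = 0}).toReal) ^ α ≤
        Fintype.card κ * E ^ α := by
      refine (Finset.sum_le_card_nsmul _ _ _ fun j _ => hd' j).trans ?_
      rw [nsmul_eq_mul, Finset.card_univ]
    rw [div_le_iff₀ hcardp]
    refine hsum.trans ?_
    rw [mul_comm]
    apply mul_le_mul_of_nonneg_right _ hcardp.le
    have h7 : 0 ≤ C₂ * ∑ a, A a := by positivity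
    linarith

end Pool.Agent.H303.NY
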