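import Pool.Agent.H303.NY.Stm
import Pool.Graph.R_pool_sql_team_seeded_3997aac3.Q73.AD.YZ6

/-!
# TZL: sums of powers of the lengths in a square, from `Z6p` and `N9`
-/

set_option autoImplicit false
open MeasureTheory Filter Topology Complex Metric
open scoped ContDiff ENNReal

namespace Pool.Agent.H303.NY

open Pool.Agent.Q73.NL Pool.Agent.Q73.AD Pool.Agent.H303.NP Pool.Agent.Q73.AD.TZ6

namespace TZL

/-- convexity of the power -/
lemma one_add_rpow_le {α x : ℝ} (h1 : 1 ≤ α) (hx : 0 ≤ x) :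
    (1 + x) ^ α ≤ 2 ^ (α - 1) * (1 + x ^ α) := by
  have h3 := NNReal.rpow_add_le_mul_rpow_add_rpow ⟨1, zero_le_one⟩ ⟨x, hx⟩ h1
  have h4 : (1 + x) ^ α ≤ 2 ^ (α - 1) * (1 ^ α + x ^ α) := by exact_mod_cast h3
  rwa [Real.one_rpow] at h4

/-- counting the centres -/
lemma card_le {κ : Type} [Fintype κ] {s r C₁ sl : ℝ} (hs : 0 < s) (hr : 0 < r) (hC₁ : 0 < C₁)
    (hsl : 1 ≤ sl) {p : ℂ} {w : κ → ℂ}
    (hw : ∀ i, |(w i - p).re| ≤ s / 2 ∧ |(w i - p).im| ≤ s / 2)
    (hcard : ∀ x : ℂ, (Set.ncard {i | ‖x - w i‖ ≤ r / sl} : ℝ) ≤ C₁) :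
    (Fintype.card κ : ℝ) ≤ (2 * s / r + 1) ^ 2 * C₁ * sl ^ 2 := by
  classical
  obtain ⟨n, hn⟩ : ∃ n : ℕ, n = ⌈2 * s * sl / r⌉₊ := ⟨_, rfl⟩
  have hsl0 : 0 < sl := by linarith
  have hq : 0 < 2 * s * sl / r := by positivity
  have hn0 : 0 < n := by rw [hn]; exact Nat.ceil_pos.2 hq
  have hn0' : (0 : ℝ) < n := by exact_mod_cast hn0
  have hn1 : 2 * s * sl / r ≤ n := by rw [hn]; exact Nat.le_ceil _
  have hn2 : (n : ℝ) ≤ (2 * s / r + 1) * sl := by
    have h1 := (Nat.ceil_lt_add_one hq.le).le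
    rw [← hn] at h1
    have h2 : 2 * s * sl / r = 2 * s / r * sl := by ring
    rw [h2] at h1
    linarith
  have hdist : 2 * (s / n) ≤ r / sl := by
    rw [div_le_iff₀ hr] at hn1
    rw [le_div_iff₀ hsl0]
    have e : 2 * (s / n) * sl = 2 * s * sl / n := by ring
    rw [e, div_le_iff₀ hn0']
    linarith
  choose b hb hbw using fun i => pos_ct (n := n) hn0 hs (p := p) (w := w i)
    (by linarith [(hw i).1]) (by linarith [(hw i).2])
  have hcnt : ∀ b₀ : ℕ × ℕ, ((Finset.univ.filter fun i => b i = b₀).card : ℝ) ≤ C₁ := by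
    intro b₀
    refine le_trans ?_ (hcard (p + s * ct n b₀))
    rw [← Set.ncard_coe_finset]
    have : ((Finset.univ.filter fun i => b i = b₀) : Set κ) ⊆
        {i | ‖(p + s * ct n b₀) - w i‖ ≤ r / sl} := by
      intro i hi
      have hi' : b i = b₀ := by simpa using hi
      have h5 := hbw i
      rw [hi', norm_sub_rev] at h5
      exact h5.trans hdist
    exact_mod_cast Set.ncard_le_ncard this (Set.toFinite _)
  have h1 : (Fintype.card κ : ℝ) = ∑ b₀ ∈ gd n, ((Finset.univ.filter fun i => b i = b₀).card : ℝ) := by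
    rw [← Finset.card_univ, Finset.card_eq_sum_card_fiberwise (f := b) (t := gd n)
      (fun i _ => hb i)]
    push_cast
    rfl
  rw [h1]
  calc ∑ b₀ ∈ gd n, ((Finset.univ.filter fun i => b i = b₀).card : ℝ)
      ≤ ∑ b₀ ∈ gd n, C₁ := Finset.sum_le_sum fun b₀ _ => hcnt b₀
    _ = (n : ℝ) ^ 2 * C₁ := by
        rw [Finset.sum_const, gd_card, nsmul_eq_mul]
        push_cast
        ring
    _ ≤ ((2 * s / r + 1) * sl) ^ 2 * C₁ :=
        mul_le_mul_of_nonneg_right (pow_le_pow_left₀ hn0'.le hn2 2) hC₁.le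
    _ = _ := by ring

/-- the length of the nodal set in a disc covered by small discs -/
lemma len_le {φ : ℂ → ℝ} {w : ℂ} {R a sl : ℝ} (hsl : 0 < sl) {T : Finset ℂ}
    (hT : closedBall (0 : ℂ) R ⊆ ⋃ o ∈ T, ball o a) {B : ℂ → ℝ} (hB : ∀ o ∈ T, 0 ≤ B o)
    (h : ∀ o ∈ T, (μH[1] : Measure ℂ) (nod (ball (w + o / sl) (a / sl)) φ) ≤ ENNReal.ofReal (B o)) :
    (μH[1] : Measure ℂ) (nod (ball w (R / sl)) φ) ≤ ENNReal.ofReal (∑ o ∈ T, B o) := by
  have hslc : (sl : ℂ) ≠ 0 := by exact_mod_cast hsl.ne'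
  have hsub : nod (ball w (R / sl)) φ ⊆ ⋃ o ∈ T, nod (ball (w + o / sl) (a / sl)) φ := by
    rintro x ⟨hx, hx0⟩
    rw [mem_ball, dist_eq_norm, lt_div_iff₀ hsl] at hx
    have h1 : (sl : ℂ) * (x - w) ∈ closedBall (0 : ℂ) R := by
      rw [mem_closedBall, dist_zero_right, norm_mul, Complex.norm_of_nonneg hsl.le]
      linarith
    have h2 := hT h1
    simp only [Set.mem_iUnion, exists_prop] at h2 ⊢
    obtain ⟨o, ho, h3⟩ := h2
    refine ⟨o, ho, ?_, hx0⟩
    rw [mem_ball, dist_eq_norm] at h3 ⊢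
    rw [lt_div_iff₀ hsl]
    have e : (sl : ℂ) * (x - w) - o = (x - (w + o / sl)) * sl := by
      field_simp
      ring
    rw [e, norm_mul, Complex.norm_of_nonneg hsl.le] at h3
    exact h3
  calc (μH[1] : Measure ℂ) (nod (ball w (R / sl)) φ)
      ≤ (μH[1] : Measure ℂ) (⋃ o ∈ T, nod (ball (w + o / sl) (a / sl)) φ) := measure_mono hsub
    _ ≤ ∑ o ∈ T, (μH[1] : Measure ℂ) (nod (ball (w + o / sl) (a / sl)) φ) :=
        measure_biUnion_finset_le _ _
    _ ≤ ∑ o ∈ T, ENNReal.ofReal (B o) := Finset.sum_le_sum h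
    _ = ENNReal.ofReal (∑ o ∈ T, B o) := (ENNReal.ofReal_sum_of_nonneg hB).symm

end TZL

open TZL

theorem tzl {α : ℝ} (h1 : 1 ≤ α) (h6 : Z6p α) (h9 : N9) : ZL α := by
  classical
  obtain ⟨s₁, hs₁, hZ⟩ := h6
  obtain ⟨C, hC, hN⟩ := h9
  refine ⟨s₁, hs₁, ?_⟩
  intro s L G₀ r R C₁ hs hss₁ hL hG₀ hr hR hC₁
  have hL0 : 0 < L := by linarith
  have hC0 : 0 < C := by linarith
  have hα0 : 0 ≤ α := by linarith
  have hα1 : 0 ≤ α - 1 := by linarith
  obtain ⟨a, ha⟩ : ∃ a : ℝ, a = min r (1 / L) := ⟨_, rfl⟩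
  have ha0 : 0 < a := by rw [ha]; exact lt_min hr (by positivity)
  have har : a ≤ r := by rw [ha]; exact min_le_left _ _
  have haL : a ≤ 1 / L := by rw [ha]; exact min_le_right _ _
  have ha1 : a ≤ 1 := haL.trans (by rw [div_le_one hL0]; exact hL)
  have haL2 : L * a ^ 2 ≤ 1 := by
    have h2 : a * L ≤ 1 := by rwa [le_div_iff₀ hL0] at haL
    calc L * a ^ 2 = a * L * a := by ring
      _ ≤ 1 * a := mul_le_mul_of_nonneg_right h2 ha0.le
      _ ≤ 1 := by linarith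
  obtain ⟨t, ht, htf, htc⟩ := (isCompact_closedBall (0 : ℂ) R).finite_cover_balls ha0
  obtain ⟨T, hT⟩ : ∃ T : Finset ℂ, T = htf.toFinset := ⟨_, rfl⟩
  have hTR : ∀ o ∈ T, ‖o‖ ≤ R := by
    intro o ho
    rw [hT, Set.Finite.mem_toFinset] at ho
    have := ht ho
    rwa [mem_closedBall, dist_zero_right] at this
  have hTc : closedBall (0 : ℂ) R ⊆ ⋃ o ∈ T, ball o a := by
    intro x hx
    have h2 := htc hx
    simp only [Set.mem_iUnion, exists_prop] at h2 ⊢
    obtain ⟨o, ho, h3⟩ := h2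
    exact ⟨o, by rw [hT, Set.Finite.mem_toFinset]; exact ho, h3⟩
  obtain ⟨A, lam₀, hA, hlam₀, hZ'⟩ := hZ s L G₀ a (8 * a) C₁ hs hss₁ hL hG₀ ha0 (by positivity) hC₁
  obtain ⟨K, hK⟩ : ∃ K : ℝ, K = (T.card : ℝ) := ⟨_, rfl⟩
  have hK0 : 0 ≤ K := by rw [hK]; positivity
  obtain ⟨D, hD⟩ : ∃ D : ℝ, D = (2 * s / r + 1) ^ 2 * C₁ := ⟨_, rfl⟩
  have hD0 : 0 < D := by rw [hD]; positivity
  obtain ⟨E, hE⟩ : ∃ E : ℝ, E = (C * a) ^ α * (K ^ (α - 1) * 2 ^ (α - 1)) := ⟨_, rfl⟩
  have hE0 : 0 ≤ E := by rw [hE]; positivity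
  refine ⟨E * (K * (D + A)) + 1, lam₀ + ((2 * R + 8 * a) / s) ^ 2 + 1, by positivity, by positivity, ?_⟩
  intro lam p ρ φ κ _ w hlam hloc hgr hw hcard
  have hlam0 : 0 < lam := hloc.lam_pos
  have hsq0 : 0 ≤ ((2 * R + 8 * a) / s) ^ 2 := sq_nonneg _
  have hZlam : lam₀ ≤ lam := by linarith
  obtain ⟨sl, hsl⟩ : ∃ sl : ℝ, sl = Real.sqrt lam := ⟨_, rfl⟩
  have hsl1 : 1 ≤ sl := by
    rw [hsl]
    exact Real.one_le_sqrt.2 (by linarith)
  have hsl0 : 0 < sl := by linarith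
  have hslsq : sl ^ 2 = lam := by rw [hsl]; exact Real.sq_sqrt hlam0.le
  have hsl2 : (2 * R + 8 * a) / s ≤ sl := by rw [hsl]; exact Real.le_sqrt_of_sq_le (by linarith)
  rw [div_le_iff₀ hs] at hsl2
  have hRs : R / sl ≤ s / 2 := by
    rw [div_le_iff₀ hsl0]
    linarith
  have has : 8 * (a / sl) ≤ s := by
    have e : 8 * (a / sl) = 8 * a / sl := by ring
    rw [e, div_le_iff₀ hsl0]
    linarith
  have hZ'' := hZ' lam p ρ φ κ
  rw [← hsl] at hgr hcard hZ'' ⊢
  have hos : ∀ o ∈ T, ‖o / (sl : ℂ)‖ ≤ s / 2 := by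
    intro o ho
    rw [norm_div, Complex.norm_of_nonneg hsl0.le]
    exact (div_le_div_of_nonneg_right (hTR o ho) hsl0.le).trans hRs
  -- the family of the discs
  have hre : ∀ o ∈ T, ∀ i, |(w i + o / sl - p).re| ≤ s ∧ |(w i + o / sl - p).im| ≤ s := by
    intro o ho i
    have e : w i + o / sl - p = (w i - p) + o / sl := by ring
    rw [e, Complex.add_re, Complex.add_im]
    have h3 := (Complex.abs_re_le_norm (o / (sl : ℂ))).trans (hos o ho)
    have h4 := (Complex.abs_im_le_norm (o / (sl : ℂ))).trans (hos o ho)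
    have h5 := abs_add_le (w i - p).re (o / (sl : ℂ)).re
    have h6 := abs_add_le (w i - p).im (o / (sl : ℂ)).im
    have h7 := (hw i).1
    have h8 := (hw i).2
    exact ⟨by linarith, by linarith⟩
  have hnorm : ∀ o ∈ T, ∀ i, ‖w i + o / sl - p‖ ≤ 2 * s := by
    intro o ho i
    have h3 := Complex.norm_le_abs_re_add_abs_im (w i + o / sl - p)
    have h4 := hre o ho i
    linarith [h4.1, h4.2]
  obtain ⟨m, hm⟩ : ∃ m : ℂ → κ → ℝ, ∀ o i, m o i =
      max (Real.log (sn φ (closedBall (w i + o / sl) (8 * a / sl)) /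
        sn φ (closedBall (w i + o / sl) (a / sl)))) 0 := ⟨_, fun o i => rfl⟩
  have hm0 : ∀ o i, 0 ≤ m o i := by
    intro o i
    rw [hm]
    exact le_max_right _ _
  have hsum : ∀ o ∈ T, ∑ i, m o i ^ α ≤ A * lam := by
    intro o ho
    have h3 := hZ'' (fun i => w i + o / sl) hZlam hloc hgr (hre o ho) (by
      intro x
      refine le_trans ?_ (hcard (x - o / sl))
      have hsub : {i | ‖x - (w i + o / sl)‖ ≤ a / sl} ⊆ {i | ‖x - o / sl - w i‖ ≤ r / sl} := by
        intro i hi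
        have e : x - o / sl - w i = x - (w i + o / sl) := by ring
        show ‖x - o / sl - w i‖ ≤ r / sl
        rw [e]
        exact le_trans hi (div_le_div_of_nonneg_right har hsl0.le)
      exact_mod_cast Set.ncard_le_ncard hsub (Set.toFinite _))
    refine le_trans (le_of_eq ?_) h3
    refine Finset.sum_congr rfl fun i _ => ?_
    rw [hm]
  -- the local theorem
  have hloc9 : ∀ o ∈ T, ∀ i, (μH[1] : Measure ℂ) (nod (ball (w i + o / sl) (a / sl)) φ) ≤
      ENNReal.ofReal (C * (a / sl) * (1 + m o i)) := by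
    intro o ho i
    have hsub : closedBall (w i + o / sl) (8 * (a / sl)) ⊆ closedBall p (32 * s) := by
      refine closedBall_subset_closedBall' ?_
      rw [dist_eq_norm]
      linarith [hnorm o ho i]
    have hsub2 : closedBall (w i + o / sl) (a / sl) ⊆ closedBall p (32 * s) := by
      refine Set.Subset.trans ?_ hsub
      apply closedBall_subset_closedBall
      have : 0 < a / sl := by positivity
      linarith
    have h3 := hN lam L (a / sl) (w i + o / sl) ρ φ hlam0 (by positivity)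
      ((div_le_one hsl0).2 (ha1.trans hsl1)) (by
        rw [div_pow, hslsq]
        have e : lam * L * (a ^ 2 / lam) = L * a ^ 2 := by field_simp
        rw [e]
        exact haL2) (by
        intro z hz
        obtain ⟨h4, h5, h6, h7, h8, h9⟩ := hloc.sol z (hsub hz)
        exact ⟨h4, h5, by rw [abs_of_nonneg h6]; exact h7, h8, h9⟩)
      (hloc.pos _ _ (by positivity) hsub2)
    refine h3.trans (ENNReal.ofReal_le_ofReal ?_)
    apply mul_le_mul_of_nonneg_left _ (by positivity)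
    rw [hm, mul_div_assoc]
    exact add_le_add_right (le_max_left _ _) 1
  have hlen : ∀ i, (μH[1] : Measure ℂ) (nod (ball (w i) (R / sl)) φ) ≤
      ENNReal.ofReal (∑ o ∈ T, C * (a / sl) * (1 + m o i)) := by
    intro i
    refine len_le hsl0 hTc (fun o _ => ?_) (fun o ho => hloc9 o ho i)
    have := hm0 o i
    positivity
  refine ⟨fun i => (hlen i).trans_lt ENNReal.ofReal_lt_top, ?_⟩
  have hterm : ∀ i, (sl * ((μH[1] : Measure ℂ) (nod (ball (w i) (R / sl)) φ)).toReal) ^ α ≤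
      E * ∑ o ∈ T, (1 + m o i ^ α) := by
    intro i
    have h3 : ((μH[1] : Measure ℂ) (nod (ball (w i) (R / sl)) φ)).toReal ≤
        ∑ o ∈ T, C * (a / sl) * (1 + m o i) := by
      refine ENNReal.toReal_le_of_le_ofReal ?_ (hlen i)
      refine Finset.sum_nonneg fun o _ => ?_
      have := hm0 o i
      positivity
    have h4 : sl * ((μH[1] : Measure ℂ) (nod (ball (w i) (R / sl)) φ)).toReal ≤
        C * a * ∑ o ∈ T, (1 + m o i) := by
      refine (mul_le_mul_of_nonneg_left h3 hsl0.le).trans (le_of_eq ?_)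
      rw [← Finset.mul_sum]
      field_simp
    have h5 : 0 ≤ ∑ o ∈ T, (1 + m o i) := by
      refine Finset.sum_nonneg fun o _ => ?_
      have := hm0 o i
      positivity
    have h6 : (∑ o ∈ T, (1 + m o i)) ^ α ≤ K ^ (α - 1) * ∑ o ∈ T, (1 + m o i) ^ α := by
      rw [hK]
      refine Real.rpow_sum_le_const_mul_sum_rpow_of_nonneg T h1 fun o _ => ?_
      have := hm0 o i
      positivity
    have h7 : ∑ o ∈ T, (1 + m o i) ^ α ≤ 2 ^ (α - 1) * ∑ o ∈ T, (1 + m o i ^ α) := by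
      rw [Finset.mul_sum]
      exact Finset.sum_le_sum fun o _ => one_add_rpow_le h1 (hm0 o i)
    calc (sl * ((μH[1] : Measure ℂ) (nod (ball (w i) (R / sl)) φ)).toReal) ^ α
        ≤ (C * a * ∑ o ∈ T, (1 + m o i)) ^ α := Real.rpow_le_rpow (by positivity) h4 hα0
      _ = (C * a) ^ α * (∑ o ∈ T, (1 + m o i)) ^ α := Real.mul_rpow (by positivity) h5
      _ ≤ (C * a) ^ α * (K ^ (α - 1) * (2 ^ (α - 1) * ∑ o ∈ T, (1 + m o i ^ α))) := by
          apply mul_le_mul_of_nonneg_left _ (by positivity)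
          exact h6.trans (mul_le_mul_of_nonneg_left h7 (Real.rpow_nonneg hK0 _))
      _ = E * ∑ o ∈ T, (1 + m o i ^ α) := by rw [hE]; ring
  have hκ : (Fintype.card κ : ℝ) ≤ D * lam := by
    rw [hD, ← hslsq]
    exact card_le hs hr hC₁ hsl1 hw hcard
  calc ∑ i, (sl * ((μH[1] : Measure ℂ) (nod (ball (w i) (R / sl)) φ)).toReal) ^ α
      ≤ ∑ i, E * ∑ o ∈ T, (1 + m o i ^ α) := Finset.sum_le_sum fun i _ => hterm i
    _ = E * ∑ o ∈ T, ((Fintype.card κ : ℝ) + ∑ i, m o i ^ α) := by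
        rw [← Finset.mul_sum, Finset.sum_comm]
        congr 1
        refine Finset.sum_congr rfl fun o _ => ?_
        rw [Finset.sum_add_distrib, Finset.sum_const, Finset.card_univ, nsmul_eq_mul, mul_one]
    _ ≤ E * ∑ o ∈ T, (D * lam + A * lam) := by
        apply mul_le_mul_of_nonneg_left _ hE0
        exact Finset.sum_le_sum fun o ho => add_le_add hκ (hsum o ho)
    _ = E * (K * (D + A)) * lam := by
        rw [Finset.sum_const, nsmul_eq_mul, ← hK]
        ring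
    _ ≤ (E * (K * (D + A)) + 1) * lam := by
        apply mul_le_mul_of_nonneg_right _ hlam0.le
        linarith

end Pool.Agent.H303.NY
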