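import Pool.Agent.H303.NY.Stm

/-!
# The length of the nodal set in a square (helper549): `ZL 1 → ZS`

A grid of spacing between `1 / (2 √lam)` and `1 / √lam` in the square.
-/

set_option autoImplicit false
open MeasureTheory Filter Topology Complex Metric
open scoped ContDiff ENNReal

namespace Pool.Agent.H303.NY

open Pool.Agent.Q73.NL Pool.Agent.Q73.AD Pool.Agent.H303.NP

noncomputable section

namespace Tzs

/-- the grid points -/
def gp (p : ℂ) (s h : ℝ) {n : ℕ} (i : Fin (n + 1) × Fin (n + 1)) : ℂ :=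
  p + ⟨-(s / 2) + h * (i.1 : ℕ), -(s / 2) + h * (i.2 : ℕ)⟩

theorem gp_re (p : ℂ) (s h : ℝ) {n : ℕ} (i : Fin (n + 1) × Fin (n + 1)) :
    (gp p s h i - p).re = -(s / 2) + h * (i.1 : ℕ) := by
  simp [gp]

theorem gp_im (p : ℂ) (s h : ℝ) {n : ℕ} (i : Fin (n + 1) × Fin (n + 1)) :
    (gp p s h i - p).im = -(s / 2) + h * (i.2 : ℕ) := by
  simp [gp]

/-- integers close to a real number -/
theorem card_near (t : ℝ) : ((Finset.Icc ⌈t - 2⌉ ⌊t + 2⌋).card : ℝ) ≤ 5 := by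
  rw [Int.card_Icc]
  have h1 : (⌊t + 2⌋ : ℝ) ≤ t + 2 := Int.floor_le _
  have h2 : t - 2 ≤ ⌈t - 2⌉ := Int.le_ceil _
  have h3 : ⌊t + 2⌋ + 1 - ⌈t - 2⌉ ≤ 5 := by
    have h4 : ((⌊t + 2⌋ + 1 - ⌈t - 2⌉ : ℤ) : ℝ) ≤ ((5 : ℤ) : ℝ) := by
      push_cast
      linarith
    exact_mod_cast h4
  have h5 : (⌊t + 2⌋ + 1 - ⌈t - 2⌉).toNat ≤ 5 := by omega
  exact_mod_cast h5

/-- the number of grid points close to a point -/
theorem overlap (p x : ℂ) (s h c : ℝ) (hh : 0 < h) (hc : c ≤ 2 * h) {n : ℕ} :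
    (Set.ncard {i : Fin (n + 1) × Fin (n + 1) | ‖x - gp p s h i‖ ≤ c} : ℝ) ≤ 25 := by
  set t : ℝ := ((x - p).re + s / 2) / h with ht
  set t' : ℝ := ((x - p).im + s / 2) / h with ht'
  have h1 : Set.ncard {i : Fin (n + 1) × Fin (n + 1) | ‖x - gp p s h i‖ ≤ c} ≤
      (Finset.Icc ⌈t - 2⌉ ⌊t + 2⌋ ×ˢ Finset.Icc ⌈t' - 2⌉ ⌊t' + 2⌋).card := by
    rw [← Set.ncard_coe_finset]
    refine Set.ncard_le_ncard_of_injOn
      (fun i : Fin (n + 1) × Fin (n + 1) => (((i.1 : ℕ) : ℤ), ((i.2 : ℕ) : ℤ))) ?_ ?_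
      (Finset.finite_toSet _)
    · intro i hi
      have hi' : ‖x - gp p s h i‖ ≤ c := hi
      have e1 : |(x - gp p s h i).re| ≤ 2 * h := (abs_re_le_norm _).trans (hi'.trans hc)
      have e2 : |(x - gp p s h i).im| ≤ 2 * h := (abs_im_le_norm _).trans (hi'.trans hc)
      have e3 : (x - gp p s h i).re = h * (t - (i.1 : ℕ)) := by
        have e4 : (x - gp p s h i).re = (x - p).re - (gp p s h i - p).re := by
          simp
        rw [e4, gp_re, ht]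
        field_simp
        ring
      have e5 : (x - gp p s h i).im = h * (t' - (i.2 : ℕ)) := by
        have e4 : (x - gp p s h i).im = (x - p).im - (gp p s h i - p).im := by
          simp
        rw [e4, gp_im, ht']
        field_simp
        ring
      have e6 : |t - (i.1 : ℕ)| ≤ 2 := by
        rw [e3, abs_mul, abs_of_pos hh] at e1
        nlinarith [abs_nonneg (t - (i.1 : ℕ))]
      have e7 : |t' - (i.2 : ℕ)| ≤ 2 := by
        rw [e5, abs_mul, abs_of_pos hh] at e2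
        nlinarith [abs_nonneg (t' - (i.2 : ℕ))]
      rw [abs_le] at e6 e7
      rw [Finset.mem_coe, Finset.mem_product, Finset.mem_Icc, Finset.mem_Icc]
      refine ⟨⟨?_, ?_⟩, ?_, ?_⟩
      · rw [Int.ceil_le]
        push_cast
        linarith [e6.2]
      · rw [Int.le_floor]
        push_cast
        linarith [e6.1]
      · rw [Int.ceil_le]
        push_cast
        linarith [e7.2]
      · rw [Int.le_floor]
        push_cast
        linarith [e7.1]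
    · intro i _ j _ hij
      have e1 : (((i.1 : ℕ) : ℤ)) = ((j.1 : ℕ) : ℤ) := congrArg Prod.fst hij
      have e2 : (((i.2 : ℕ) : ℤ)) = ((j.2 : ℕ) : ℤ) := congrArg Prod.snd hij
      have e3 : (i.1 : ℕ) = (j.1 : ℕ) := Int.ofNat.inj e1
      have e4 : (i.2 : ℕ) = (j.2 : ℕ) := Int.ofNat.inj e2
      exact Prod.ext (Fin.ext e3) (Fin.ext e4)
  rw [Finset.card_product] at h1
  have h2 := card_near t
  have h3 := card_near t'
  have h4 : (Set.ncard {i : Fin (n + 1) × Fin (n + 1) | ‖x - gp p s h i‖ ≤ c} : ℝ) ≤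
      ((Finset.Icc ⌈t - 2⌉ ⌊t + 2⌋).card : ℝ) * ((Finset.Icc ⌈t' - 2⌉ ⌊t' + 2⌋).card : ℝ) := by
    exact_mod_cast h1
  refine h4.trans ?_
  have h5 : (0 : ℝ) ≤ ((Finset.Icc ⌈t - 2⌉ ⌊t + 2⌋).card : ℝ) := Nat.cast_nonneg _
  have h6 : (0 : ℝ) ≤ ((Finset.Icc ⌈t' - 2⌉ ⌊t' + 2⌋).card : ℝ) := Nat.cast_nonneg _
  nlinarith

/-- the next grid coordinate -/
theorem exists_near {n : ℕ} {t : ℝ} (h0 : 0 ≤ t) (h1 : t ≤ n) :
    ∃ a : Fin (n + 1), |t - (a : ℕ)| ≤ 1 / 2 := by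
  have h2 : ((⌊t + 1 / 2⌋₊ : ℕ) : ℝ) ≤ t + 1 / 2 := Nat.floor_le (by linarith)
  have h3 : t + 1 / 2 < (⌊t + 1 / 2⌋₊ : ℕ) + 1 := Nat.lt_floor_add_one _
  have h4 : ⌊t + 1 / 2⌋₊ < n + 1 := by
    have h5 : ((⌊t + 1 / 2⌋₊ : ℕ) : ℝ) < ((n + 1 : ℕ) : ℝ) := by
      push_cast
      linarith
    exact_mod_cast h5
  refine ⟨⟨⌊t + 1 / 2⌋₊, h4⟩, ?_⟩
  rw [abs_le]
  constructor
  · change -(1 / 2) ≤ t - ((⌊t + 1 / 2⌋₊ : ℕ) : ℝ)
    linarith
  · change t - ((⌊t + 1 / 2⌋₊ : ℕ) : ℝ) ≤ 1 / 2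
    linarith

/-- the discs cover the square -/
theorem cover (p z : ℂ) (s h : ℝ) (hh : 0 < h) {n : ℕ} (hn : h * n = s)
    (h1 : |(z - p).re| ≤ s / 2) (h2 : |(z - p).im| ≤ s / 2) :
    ∃ i : Fin (n + 1) × Fin (n + 1), ‖z - gp p s h i‖ < h := by
  rw [abs_le] at h1 h2
  have key : ∀ y : ℝ, -(s / 2) ≤ y → y ≤ s / 2 →
      ∃ a : Fin (n + 1), |y - (-(s / 2) + h * (a : ℕ))| ≤ h / 2 := by
    intro y hy1 hy2
    obtain ⟨a, ha⟩ := exists_near (n := n) (t := (y + s / 2) / h)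
      (div_nonneg (by linarith) hh.le) (by rw [div_le_iff₀ hh]; linarith)
    refine ⟨a, ?_⟩
    have h3 : y - (-(s / 2) + h * (a : ℕ)) = h * ((y + s / 2) / h - (a : ℕ)) := by
      field_simp
      ring
    rw [h3, abs_mul, abs_of_pos hh]
    nlinarith
  obtain ⟨a, ha⟩ := key _ h1.1 h1.2
  obtain ⟨b, hb⟩ := key _ h2.1 h2.2
  refine ⟨(a, b), ?_⟩
  have e1 : (z - gp p s h (a, b)).re = (z - p).re - (-(s / 2) + h * (a : ℕ)) := by
    rw [← gp_re p s h (a, b)]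
    simp
  have e2 : (z - gp p s h (a, b)).im = (z - p).im - (-(s / 2) + h * (b : ℕ)) := by
    rw [← gp_im p s h (a, b)]
    simp
  refine lt_of_le_of_lt (Complex.norm_le_sqrt_two_mul_max _) ?_
  have e3 : max |(z - gp p s h (a, b)).re| |(z - gp p s h (a, b)).im| ≤ h / 2 := by
    rw [e1, e2]
    exact max_le ha hb
  have e4 : Real.sqrt 2 < 2 := by
    rw [Real.sqrt_lt' (by norm_num)]
    norm_num
  have e5 : 0 ≤ Real.sqrt 2 := Real.sqrt_nonneg _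
  calc Real.sqrt 2 * max |(z - gp p s h (a, b)).re| |(z - gp p s h (a, b)).im|
      ≤ Real.sqrt 2 * (h / 2) := mul_le_mul_of_nonneg_left e3 e5
    _ < 2 * (h / 2) := mul_lt_mul_of_pos_right e4 (by linarith)
    _ = h := by ring

end Tzs

/-- **TZS** -/
theorem tzs (h : ZL 1) : ZS := by
  obtain ⟨s₁, hs₁, hZ⟩ := h
  refine ⟨s₁, hs₁, ?_⟩
  intro s L G₀ hs hss hL hG
  obtain ⟨A, lam₀, hA, hlam₀, hmain⟩ := hZ s L G₀ 1 1 25 hs hss hL hG one_pos one_pos (by norm_num)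
  refine ⟨A, max lam₀ (1 / s ^ 2), hA, lt_max_of_lt_left hlam₀, ?_⟩
  intro lam p ρ φ hlam hLoc hgr
  have hlam1 : lam₀ ≤ lam := (le_max_left _ _).trans hlam
  have hlam2 : 1 / s ^ 2 ≤ lam := (le_max_right _ _).trans hlam
  have hlampos : 0 < lam := lt_of_lt_of_le hlam₀ hlam1
  have hq : 0 < Real.sqrt lam := Real.sqrt_pos.mpr hlampos
  have hq1 : 1 ≤ s * Real.sqrt lam := by
    have e1 : Real.sqrt (1 / s ^ 2) ≤ Real.sqrt lam := Real.sqrt_le_sqrt hlam2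
    rw [Real.sqrt_div' _ (sq_nonneg s), Real.sqrt_one, Real.sqrt_sq hs.le, div_le_iff₀ hs] at e1
    linarith
  -- the grid
  obtain ⟨n, hn⟩ : ∃ n : ℕ, n = ⌈s * Real.sqrt lam⌉₊ := ⟨_, rfl⟩
  have hn1 : s * Real.sqrt lam ≤ n := by rw [hn]; exact Nat.le_ceil _
  have hn2 : (n : ℝ) < s * Real.sqrt lam + 1 := by
    rw [hn]
    exact Nat.ceil_lt_add_one (by positivity)
  have hn0 : (0 : ℝ) < n := by linarith
  set g : ℝ := s / n with hg
  have hg0 : 0 < g := div_pos hs hn0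
  have hgn : g * n = s := div_mul_cancel₀ _ hn0.ne'
  have hg1 : g ≤ 1 / Real.sqrt lam := by
    rw [hg, div_le_div_iff₀ hn0 hq]
    linarith
  have hg2 : 1 / Real.sqrt lam ≤ 2 * g := by
    rw [hg, ← mul_div_assoc, div_le_div_iff₀ hq hn0]
    nlinarith
  obtain ⟨hfin, hsum⟩ := hmain lam p ρ φ (Fin (n + 1) × Fin (n + 1)) (Tzs.gp p s g) hlam1 hLoc hgr
    (by
      intro i
      have e1 : ∀ a : Fin (n + 1), |-(s / 2) + g * (a : ℕ)| ≤ s / 2 := by
        intro a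
        have e2 : ((a : ℕ) : ℝ) ≤ n := by
          have := a.2
          exact_mod_cast (by omega : (a : ℕ) ≤ n)
        have e3 : g * (a : ℕ) ≤ s := by
          rw [← hgn]
          exact mul_le_mul_of_nonneg_left e2 hg0.le
        have e4 : 0 ≤ g * (a : ℕ) := mul_nonneg hg0.le (Nat.cast_nonneg _)
        rw [abs_le]
        constructor <;> linarith
      rw [Tzs.gp_re, Tzs.gp_im]
      exact ⟨e1 _, e1 _⟩)
    (fun x => Tzs.overlap p x s g _ hg0 (by linarith))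
  -- the lengths
  have hcov : {z | |(z - p).re| ≤ s / 2 ∧ |(z - p).im| ≤ s / 2 ∧ φ z = 0} ⊆
      ⋃ i : Fin (n + 1) × Fin (n + 1), nod (ball (Tzs.gp p s g i) (1 / Real.sqrt lam)) φ := by
    rintro z ⟨hz1, hz2, hz3⟩
    obtain ⟨i, hi⟩ := Tzs.cover p z s g hg0 hgn hz1 hz2
    rw [Set.mem_iUnion]
    refine ⟨i, ?_, hz3⟩
    rw [mem_ball, dist_eq_norm]
    exact lt_of_lt_of_le hi hg1
  have e0 : (μH[1] : Measure ℂ) {z | |(z - p).re| ≤ s / 2 ∧ |(z - p).im| ≤ s / 2 ∧ φ z = 0} ≤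
      ∑ i : Fin (n + 1) × Fin (n + 1), (μH[1] : Measure ℂ)
        (nod (ball (Tzs.gp p s g i) (1 / Real.sqrt lam)) φ) :=
    (measure_mono hcov).trans (measure_iUnion_fintype_le _ _)
  have e1 : ∀ i : Fin (n + 1) × Fin (n + 1),
      (μH[1] : Measure ℂ) (nod (ball (Tzs.gp p s g i) (1 / Real.sqrt lam)) φ) =
      ENNReal.ofReal ((μH[1] : Measure ℂ)
        (nod (ball (Tzs.gp p s g i) (1 / Real.sqrt lam)) φ)).toReal :=
    fun i => (ENNReal.ofReal_toReal (hfin i).ne).symm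
  have e5 : ∑ i : Fin (n + 1) × Fin (n + 1), (μH[1] : Measure ℂ)
        (nod (ball (Tzs.gp p s g i) (1 / Real.sqrt lam)) φ) =
      ENNReal.ofReal (∑ i : Fin (n + 1) × Fin (n + 1), ((μH[1] : Measure ℂ)
        (nod (ball (Tzs.gp p s g i) (1 / Real.sqrt lam)) φ)).toReal) := by
    rw [ENNReal.ofReal_sum_of_nonneg fun i _ => ENNReal.toReal_nonneg]
    exact Finset.sum_congr rfl fun i _ => e1 i
  refine e0.trans ?_
  rw [e5]
  refine ENNReal.ofReal_le_ofReal ?_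
  have e2 : ∑ i : Fin (n + 1) × Fin (n + 1), Real.sqrt lam * ((μH[1] : Measure ℂ)
      (nod (ball (Tzs.gp p s g i) (1 / Real.sqrt lam)) φ)).toReal ≤ A * lam := by
    refine le_trans (le_of_eq ?_) hsum
    exact Finset.sum_congr rfl fun i _ => (Real.rpow_one _).symm
  rw [← Finset.mul_sum] at e2
  have e3 : A * lam = Real.sqrt lam * (A * Real.sqrt lam) := by
    have e4 := Real.mul_self_sqrt hlampos.le
    linear_combination -A * e4
  rw [e3] at e2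
  exact le_of_mul_le_mul_left e2 hq

end

end Pool.Agent.H303.NY
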