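import Pool.Agent.H303.NP.W1
import Pool.Agent.H303.NY.Sph5

/-!
# The round sphere: lower bound of the power means of the nodal lengths (W5)
-/

set_option autoImplicit false
open MeasureTheory Filter Topology Complex Metric
open scoped ENNReal

namespace Pool.Agent.H303.NY

open Pool.Agent.H303.NP Pool.Agent.H303.NP.Tw1

noncomputable section

namespace Tk5

/-- distance of two points with the same colatitude -/
lemma dist_lat' {s φ φ' : ℝ} (hs : 0 ≤ s) : dist (pt s φ) (pt s φ') ≤ Real.pi / 2 * (s * |φ' - φ|) := by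
  set d := dist (pt s φ) (pt s φ') with hd
  have hd0 : 0 ≤ d := dist_nonneg
  have hpi := Real.pi_pos
  have hdpi : d ≤ Real.pi := by
    rw [hd, dist_arccos]
    exact Real.arccos_le_pi _
  have h1 : Real.cos d = 1 - Real.sin s ^ 2 * (1 - Real.cos (φ' - φ)) := by
    rw [hd, dist_arccos, Real.cos_arccos]
    · rw [inner3]
      unfold pt
      rw [mk3_v0, mk3_v1, mk3_v2, mk3_v0, mk3_v1, mk3_v2, Real.cos_sub]
      have := Real.sin_sq_add_cos_sq s
      linear_combination this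
    · have h := abs_real_inner_le_norm (pt s φ).v (pt s φ').v
      rw [(pt s φ).norm_v, (pt s φ').norm_v, mul_one] at h
      exact (abs_le.1 h).1
    · have h := abs_real_inner_le_norm (pt s φ).v (pt s φ').v
      rw [(pt s φ).norm_v, (pt s φ').norm_v, mul_one] at h
      exact (abs_le.1 h).2
  have h2 : Real.cos d ≤ 1 - 2 / Real.pi ^ 2 * d ^ 2 :=
    Real.cos_le_one_sub_mul_cos_sq (by rwa [abs_of_nonneg hd0])
  have h3 : 1 - Real.cos (φ' - φ) ≤ (φ' - φ) ^ 2 / 2 := by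
    have := Real.one_sub_sq_div_two_le_cos (x := φ' - φ)
    linarith
  have h4 : Real.sin s ^ 2 ≤ s ^ 2 := by
    rw [sq_le_sq, abs_of_nonneg hs]
    exact Real.abs_sin_le_abs.trans (le_of_eq (abs_of_nonneg hs))
  have h5 : Real.sin s ^ 2 * (1 - Real.cos (φ' - φ)) ≤ s ^ 2 * ((φ' - φ) ^ 2 / 2) :=
    mul_le_mul h4 h3 (by linarith [Real.cos_le_one (φ' - φ)]) (sq_nonneg _)
  have h6 : 2 / Real.pi ^ 2 * d ^ 2 ≤ s ^ 2 * ((φ' - φ) ^ 2 / 2) := by linarith
  have h7 : d ^ 2 ≤ (Real.pi / 2 * (s * |φ' - φ|)) ^ 2 := by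
    have h8 : d ^ 2 = Real.pi ^ 2 / 2 * (2 / Real.pi ^ 2 * d ^ 2) := by field_simp
    have h9 : (Real.pi / 2 * (s * |φ' - φ|)) ^ 2 =
        Real.pi ^ 2 / 2 * (s ^ 2 * ((φ' - φ) ^ 2 / 2)) := by
      rw [mul_pow, mul_pow, sq_abs]; ring
    rw [h8, h9]
    exact mul_le_mul_of_nonneg_left h6 (by positivity)
  exact le_of_sq_le_sq h7 (by positivity)

/-- an arc of a meridian -/
def arc (s t φ : ℝ) : Set GS := (fun s' => pt s' φ) '' Set.Icc s t

lemma sN_pt {s φ : ℝ} (h0 : 0 ≤ s) (h1 : s ≤ Real.pi) : sN (pt s φ) = s := by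
  unfold sN pt
  rw [mk3_v2, Real.arccos_cos h0 h1]

lemma dist_merid' {s s' φ : ℝ} (h : |s' - s| ≤ Real.pi) : dist (pt s φ) (pt s' φ) = |s' - s| := by
  rcases le_total s s' with h1 | h1
  · rw [abs_of_nonneg (by linarith)] at h ⊢
    exact dist_merid h1 h
  · rw [abs_of_nonpos (by linarith)] at h ⊢
    rw [dist_comm, dist_merid h1 (by linarith)]
    ring

lemma arc_compact {s t φ : ℝ} (ht : t - s ≤ Real.pi) : IsCompact (arc s t φ) := by
  apply isCompact_Icc.image_of_continuousOn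
  have h : LipschitzOnWith 1 (fun s' => pt s' φ) (Set.Icc s t) := by
    apply LipschitzOnWith.of_dist_le_mul
    intro a ha b hb
    have h1 : |b - a| ≤ Real.pi := by
      rw [abs_le]
      constructor <;> linarith [ha.1, ha.2, hb.1, hb.2]
    simp only [NNReal.coe_one, one_mul]
    rw [dist_merid' h1, Real.dist_eq, abs_sub_comm]
  exact h.continuousOn

lemma lip_sN : LipschitzWith 1 sN := by
  apply LipschitzWith.of_dist_le_mul
  intro x y
  rw [Real.dist_eq, NNReal.coe_one, one_mul]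
  exact abs_sN_sub x y

lemma arc_meas {s t φ : ℝ} (h0 : 0 ≤ s) (ht : t ≤ Real.pi) :
    ENNReal.ofReal (t - s) ≤ (μH[1] : Measure GS) (arc s t φ) := by
  have h1 := lip_sN.hausdorffMeasure_image_le (d := 1) zero_le_one (arc s t φ)
  have h2 : Set.Icc s t ⊆ sN '' arc s t φ := by
    intro a ha
    exact ⟨pt a φ, ⟨a, ha, rfl⟩, sN_pt (h0.trans ha.1) (ha.2.trans ht)⟩
  have h3 : ENNReal.ofReal (t - s) ≤ (μH[1] : Measure ℝ) (sN '' arc s t φ) := by
    rw [hausdorffMeasure_real, ← Real.volume_Icc]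
    exact measure_mono h2
  refine h3.trans (h1.trans (le_of_eq ?_))
  simp

lemma arc_disj {s t φ φ' : ℝ} (h0 : 0 < s) (ht : t < Real.pi) (hne : φ ≠ φ')
    (hclose : |φ - φ'| < 2 * Real.pi) : Disjoint (arc s t φ) (arc s t φ') := by
  rw [Set.disjoint_left]
  rintro y ⟨a, ha, rfl⟩ ⟨b, hb, hab⟩
  have e1 : sN (pt a φ) = a := sN_pt (h0.le.trans ha.1) (ha.2.trans ht.le)
  have e2 : sN (pt b φ') = b := sN_pt (h0.le.trans hb.1) (hb.2.trans ht.le)
  have hab' : pt b φ' = pt a φ := hab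
  have e3 : a = b := by rw [← e1, ← e2, hab']
  subst e3
  have hsin : 0 < Real.sin a := Real.sin_pos_of_pos_of_lt_pi (h0.trans_le ha.1) (ha.2.trans_lt ht)
  have c0 : (pt a φ').v 0 = (pt a φ).v 0 := by rw [hab']
  have c1 : (pt a φ').v 1 = (pt a φ).v 1 := by rw [hab']
  unfold pt at c0 c1
  rw [mk3_v0, mk3_v0] at c0
  rw [mk3_v1, mk3_v1] at c1
  have d0 := mul_left_cancel₀ hsin.ne' c0
  have d1 := mul_left_cancel₀ hsin.ne' c1
  have h5 : Real.cos (φ - φ') = 1 := by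
    rw [Real.cos_sub, d0, d1]
    have := Real.sin_sq_add_cos_sq φ
    linear_combination this
  obtain ⟨h6, h7⟩ := abs_lt.1 hclose
  have h8 := (Real.cos_eq_one_iff_of_lt_of_lt h6 h7).1 h5
  exact hne (by linarith)

lemma len_ge {C : ℝ} (hC : 0 < C)
    (hfin : ∀ l : ℕ, 1 ≤ l → (μH[1] : Measure GS) {y | har l y = 0} < ⊤) :
    ∃ s₁ : ℝ, 0 < s₁ ∧ s₁ ≤ 1 / 2 ∧ ∀ (l : ℕ) (x : GS), 1 ≤ l →
      2 * (C / Real.sqrt (ev l)) ≤ sN x → sN x ≤ s₁ →
      C ^ 2 / 200 / sN x ≤ Real.sqrt (ev l) * ((μH[1] : Measure GS)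
        {y | y ∈ Metric.ball x (C / Real.sqrt (ev l)) ∧ har l y = 0}).toReal := by
  have hpi := Real.pi_gt_three
  have hpi2 := Real.pi_lt_d2
  refine ⟨min (1 / 2) (C / 40), by positivity, min_le_left _ _, ?_⟩
  intro l x hl hrs hs
  have hs2 : sN x ≤ 1 / 2 := hs.trans (min_le_left _ _)
  have hsC : sN x ≤ C / 40 := hs.trans (min_le_right _ _)
  obtain ⟨hq1, hq2⟩ := sqrt_ev hl
  have hl1 : (1 : ℝ) ≤ l := by exact_mod_cast hl
  have hl0 : (0 : ℝ) < l := by linarith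
  have hq0 : 0 < Real.sqrt (ev l) := by linarith
  obtain ⟨r, hr⟩ : ∃ r, r = C / Real.sqrt (ev l) := ⟨_, rfl⟩
  have hr0 : 0 < r := by rw [hr]; positivity
  have hqr : Real.sqrt (ev l) * r = C := by rw [hr]; field_simp
  rw [← hr] at hrs ⊢
  obtain ⟨s, hsd⟩ : ∃ s, s = sN x := ⟨_, rfl⟩
  rw [← hsd] at hrs hs2 hsC ⊢
  have hs0 : 0 < s := by linarith
  have hlr : 2 / 3 * C ≤ l * r := by
    rw [← hqr]
    have := mul_le_mul_of_nonneg_right hq2 hr0.le
    linarith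
  -- the longitudes
  set φ₀ := Complex.arg (ze x) with hφ₀
  have hx : x = pt s φ₀ := by rw [hsd]; exact eq_pt x
  set Δ := r / (4 * s) with hΔ
  have hΔ0 : 0 < Δ := by positivity
  have hΔ1 : Δ ≤ 1 / 8 := by
    rw [hΔ, div_le_iff₀ (by positivity)]
    linarith
  set N := ⌊Δ * l / Real.pi⌋₊ with hN
  have hN1 : (N : ℝ) ≤ Δ * l / Real.pi := Nat.floor_le (by positivity)
  have hN2 : Δ * l / Real.pi < (N : ℝ) + 1 := Nat.lt_floor_add_one _
  set k₀ := ⌈φ₀ * l / Real.pi - 1 / 2⌉ with hk₀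
  have hk1 : φ₀ * l / Real.pi - 1 / 2 ≤ (k₀ : ℝ) := Int.le_ceil _
  have hk2 : (k₀ : ℝ) < φ₀ * l / Real.pi - 1 / 2 + 1 := Int.ceil_lt_add_one _
  set ψ : ℕ → ℝ := fun j => (2 * (k₀ + (j : ℝ)) + 1) * Real.pi / (2 * l) with hψ
  have hψ1 : ∀ j : ℕ, φ₀ ≤ ψ j := by
    intro j
    rw [hψ]
    simp only
    rw [le_div_iff₀ (by positivity)]
    have h1 : φ₀ * l / Real.pi ≤ (k₀ : ℝ) + 1 / 2 := by linarith
    rw [div_le_iff₀ (by positivity)] at h1
    have h2 : (0 : ℝ) ≤ j := Nat.cast_nonneg j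
    have h3 : 0 ≤ (j : ℝ) * Real.pi := by positivity
    linarith
  have hψ2 : ∀ j : ℕ, j < N → ψ j ≤ φ₀ + Δ := by
    intro j hj
    rw [hψ]
    simp only
    rw [div_le_iff₀ (by positivity)]
    have h1 : (k₀ : ℝ) - 1 / 2 < φ₀ * l / Real.pi := by linarith
    rw [lt_div_iff₀ (by positivity)] at h1
    have h2 : (j : ℝ) + 1 ≤ N := by exact_mod_cast hj
    have h3 : ((j : ℝ) + 1) ≤ Δ * l / Real.pi := h2.trans hN1
    rw [le_div_iff₀ (by positivity)] at h3
    linarith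
  have hzero : ∀ (j : ℕ) (s' : ℝ), har l (pt s' (ψ j)) = 0 := by
    intro j s'
    rw [har_pt]
    have h1 : Real.cos (l * ψ j) = 0 := by
      rw [Real.cos_eq_zero_iff]
      refine ⟨k₀ + j, ?_⟩
      rw [hψ]
      simp only
      push_cast
      field_simp
    rw [h1, mul_zero]
  have hinj : ∀ i j : ℕ, i ≠ j → ψ i ≠ ψ j := by
    intro i j hij h
    rw [hψ] at h
    simp only at h
    rw [div_left_inj' (by positivity)] at h
    have h1 := mul_right_cancel₀ Real.pi_pos.ne' h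
    have h2 : (i : ℝ) = j := by linarith
    exact hij (by exact_mod_cast h2)
  -- the arcs
  have hsr : s + r / 4 < Real.pi := by linarith
  have hsub : ∀ j : ℕ, j < N → arc s (s + r / 4) (ψ j) ⊆ {y | y ∈ Metric.ball x r ∧ har l y = 0} := by
    rintro j hj y ⟨a, ha, rfl⟩
    refine ⟨?_, hzero j a⟩
    rw [Metric.mem_ball, dist_comm]
    have d1 : dist x (pt s (ψ j)) ≤ Real.pi / 2 * (s * |ψ j - φ₀|) := by
      rw [hx]
      exact dist_lat' hs0.le
    have d2 : |ψ j - φ₀| ≤ Δ := by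
      rw [abs_of_nonneg (by linarith [hψ1 j])]
      linarith [hψ2 j hj]
    have d3 : dist (pt s (ψ j)) (pt a (ψ j)) ≤ r / 4 := by
      rw [dist_merid ha.1 (by linarith [ha.2])]
      linarith [ha.2]
    have d4 : s * |ψ j - φ₀| ≤ r / 4 := by
      have h1 := mul_le_mul_of_nonneg_left d2 hs0.le
      have h2 : s * Δ = r / 4 := by rw [hΔ]; field_simp
      linarith
    have d5 : Real.pi / 2 * (s * |ψ j - φ₀|) ≤ 3.15 / 2 * (r / 4) := by
      apply mul_le_mul _ d4 (by positivity) (by norm_num)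
      linarith
    have d6 := dist_triangle x (pt s (ψ j)) (pt a (ψ j))
    calc dist x (pt a (ψ j)) ≤ 3.15 / 2 * (r / 4) + r / 4 := by linarith
      _ < r := by linarith
  have hmeas : ENNReal.ofReal (N * (r / 4)) ≤ (μH[1] : Measure GS)
      {y | y ∈ Metric.ball x r ∧ har l y = 0} := by
    have h1 : (μH[1] : Measure GS) (⋃ j ∈ Finset.range N, arc s (s + r / 4) (ψ j)) =
        ∑ j ∈ Finset.range N, (μH[1] : Measure GS) (arc s (s + r / 4) (ψ j)) := by
      apply measure_biUnion_finset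
      · intro i hi j hj hij
        have hi' := Finset.mem_range.1 (Finset.mem_coe.1 hi)
        have hj' := Finset.mem_range.1 (Finset.mem_coe.1 hj)
        refine arc_disj hs0 hsr (hinj i j hij) ?_
        have e1 := hψ1 i
        have e2 := hψ1 j
        have e3 := hψ2 i hi'
        have e4 := hψ2 j hj'
        rw [abs_lt]
        constructor <;> linarith
      · intro j _
        exact (arc_compact (by linarith)).isClosed.measurableSet
    have h2 : ∑ j ∈ Finset.range N, ENNReal.ofReal (r / 4) ≤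
        ∑ j ∈ Finset.range N, (μH[1] : Measure GS) (arc s (s + r / 4) (ψ j)) := by
      apply Finset.sum_le_sum
      intro j _
      have := arc_meas (s := s) (t := s + r / 4) (φ := ψ j) hs0.le hsr.le
      rwa [add_sub_cancel_left] at this
    rw [Finset.sum_const, Finset.card_range, nsmul_eq_mul] at h2
    rw [ENNReal.ofReal_mul (Nat.cast_nonneg N), ENNReal.ofReal_natCast]
    refine h2.trans (h1.symm.le.trans (measure_mono ?_))
    intro y hy
    obtain ⟨j, hj, hyj⟩ := Set.mem_iUnion₂.1 hy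
    exact hsub j (Finset.mem_range.1 hj) hyj
  have hfin' : (μH[1] : Measure GS) {y | y ∈ Metric.ball x r ∧ har l y = 0} ≠ ⊤ :=
    ((measure_mono (fun y hy => hy.2)).trans_lt (hfin l hl)).ne
  have hreal : N * (r / 4) ≤ ((μH[1] : Measure GS)
      {y | y ∈ Metric.ball x r ∧ har l y = 0}).toReal :=
    (ENNReal.ofReal_le_iff_le_toReal hfin').1 hmeas
  -- the count
  have hcount : C / (40 * s) ≤ (N : ℝ) := by
    have h1 : C / (20 * s) ≤ Δ * l / Real.pi := by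
      rw [hΔ, div_mul_eq_mul_div, div_div, div_le_div_iff₀ (by positivity) (by positivity)]
      have h2 : C * (4 * s * Real.pi) ≤ C * (4 * s * 3.15) :=
        mul_le_mul_of_nonneg_left (mul_le_mul_of_nonneg_left hpi2.le (by positivity)) hC.le
      have h3 : 2 / 3 * C * (20 * s) ≤ l * r * (20 * s) :=
        mul_le_mul_of_nonneg_right hlr (by positivity)
      have h4 : 0 < C * s := by positivity
      nlinarith
    have h5 : C / (20 * s) = C / (40 * s) + C / (40 * s) := by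
      field_simp; ring
    have h6 : 1 ≤ C / (40 * s) := by
      rw [le_div_iff₀ (by positivity)]
      linarith
    linarith
  calc C ^ 2 / 200 / s ≤ C / (40 * s) * (C / 4) := by
        have h1 : C / (40 * s) * (C / 4) = C ^ 2 / 160 / s := by field_simp; ring
        rw [h1]
        gcongr
        norm_num
    _ ≤ N * (C / 4) := mul_le_mul_of_nonneg_right hcount (by positivity)
    _ = Real.sqrt (ev l) * (N * (r / 4)) := by rw [← hqr]; ring
    _ ≤ _ := mul_le_mul_of_nonneg_left hreal hq0.le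

lemma key {C c₀ : ℝ} (hC : 0 < C) (hc₀ : 0 < c₀) {s₁ : ℝ} (hs₁ : s₁ ≤ 1 / 2) {l : ℕ} (hl : 1 ≤ l)
    (F : GS → ℝ) (hF0 : ∀ x, 0 ≤ F x)
    (hF : ∀ x : GS, 2 * (C / Real.sqrt (ev l)) ≤ sN x → sN x ≤ s₁ → c₀ / sN x ≤ F x)
    {p : ℝ} (hp : 0 ≤ p) {κ : Type} [Fintype κ] (x : κ → GS)
    (hcov : ∀ y : GS, ∃ i, y ∈ Metric.ball (x i) (C / Real.sqrt (ev l)))
    (M : ℕ) (hM : 9 * (C / Real.sqrt (ev l)) * M ≤ s₁) :
    ∑ a ∈ Finset.range M, ((a : ℝ) + 1) * (c₀ / (9 * (C / Real.sqrt (ev l)) * (a + 1))) ^ p ≤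
      ∑ i, F (x i) ^ p := by
  classical
  have hq0 : 0 < Real.sqrt (ev l) := by
    have h1 := (sqrt_ev hl).1
    have hl1 : (1 : ℝ) ≤ l := by exact_mod_cast hl
    linarith
  obtain ⟨r, hr⟩ : ∃ r, r = C / Real.sqrt (ev l) := ⟨_, rfl⟩
  have hr0 : 0 < r := by
    rw [hr]
    positivity
  rw [← hr] at hcov hM hF ⊢
  choose i hi using hcov
  let P : (Σ _ : ℕ, ℕ) → GS := fun j => gp (3 * r * ((j.1 : ℝ) + 1)) (3 * r * (j.2 : ℝ))
  let J : Finset (Σ _ : ℕ, ℕ) := (Finset.range M).sigma fun a => Finset.range (a + 1)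
  have hJ : ∀ j ∈ J, (j.1 : ℝ) + 1 ≤ M ∧ (j.2 : ℝ) ≤ (j.1 : ℝ) + 1 := by
    intro j hj
    rw [Finset.mem_sigma, Finset.mem_range, Finset.mem_range] at hj
    constructor
    · exact_mod_cast hj.1
    · exact_mod_cast hj.2.le
  have hP : ∀ j ∈ J, (3 * r * ((j.1 : ℝ) + 1)) ^ 2 + (3 * r * (j.2 : ℝ)) ^ 2 ≤ 1 ∧
      3 * r * ((j.1 : ℝ) + 1) ≤ sN (P j) ∧ sN (P j) ≤ 12 / 5 * (3 * r * ((j.1 : ℝ) + 1)) := by
    intro j hj
    obtain ⟨h1, h2⟩ := hJ j hj
    have h3 : r * ((j.1 : ℝ) + 1) ≤ r * M := mul_le_mul_of_nonneg_left h1 hr0.le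
    have h4 : 3 * r * (j.2 : ℝ) ≤ 3 * r * ((j.1 : ℝ) + 1) :=
      mul_le_mul_of_nonneg_left h2 (by positivity)
    exact sN_gp (by positivity) (by positivity) h4 (by linarith)
  have hinj : Set.InjOn (fun j => i (P j)) (J : Set (Σ _ : ℕ, ℕ)) := by
    intro j hj j' hj' hjj
    have hj := Finset.mem_coe.1 hj
    have hj' := Finset.mem_coe.1 hj'
    have hjj' : i (P j) = i (P j') := hjj
    have h1 : dist (P j) (P j') < 2 * r := by
      have h2 := hi (P j)
      have h3 := hi (P j')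
      rw [mem_ball] at h2 h3
      rw [hjj'] at h2
      have h4 := dist_triangle_right (P j) (P j') (x (i (P j')))
      linarith
    have h2 := chord (P j) (P j')
    have h3 : dist (P j) (P j') ^ 2 < (2 * r) ^ 2 := by
      have := dist_nonneg (x := P j) (y := P j')
      exact pow_lt_pow_left₀ h1 this two_ne_zero
    have e0 : (P j).v 0 = 3 * r * ((j.1 : ℝ) + 1) := gp_v0 (hP j hj).1
    have e1 : (P j).v 1 = 3 * r * (j.2 : ℝ) := gp_v1 (hP j hj).1
    have e0' : (P j').v 0 = 3 * r * ((j'.1 : ℝ) + 1) := gp_v0 (hP j' hj').1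
    have e1' : (P j').v 1 = 3 * r * (j'.2 : ℝ) := gp_v1 (hP j' hj').1
    rw [e0, e1, e0', e1'] at h2
    have h4 : (3 * r) ^ 2 * (((j.1 : ℝ) - j'.1) ^ 2 + ((j.2 : ℝ) - j'.2) ^ 2) < (2 * r) ^ 2 := by
      refine lt_of_le_of_lt (le_of_eq ?_) (h2.trans_lt h3)
      ring
    have h5 : ((j.1 : ℝ) - j'.1) ^ 2 + ((j.2 : ℝ) - j'.2) ^ 2 < 1 := by
      by_contra hc
      push Not at hc
      have h6 := mul_le_mul_of_nonneg_left hc (sq_nonneg (3 * r))
      have h7 : 0 < r ^ 2 := by positivity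
      have h8 : (3 * r) ^ 2 * 1 = 9 * r ^ 2 := by ring
      have h9 : (2 * r) ^ 2 = 4 * r ^ 2 := by ring
      rw [h8] at h6
      rw [h9] at h4
      linarith
    have h6 : ((j.1 : ℤ) - j'.1) ^ 2 + ((j.2 : ℤ) - j'.2) ^ 2 < 1 := by exact_mod_cast h5
    have h7 : ((j.1 : ℤ) - j'.1) ^ 2 = 0 := by
      have := sq_nonneg ((j.1 : ℤ) - j'.1)
      have := sq_nonneg ((j.2 : ℤ) - j'.2)
      omega
    have h8 : ((j.2 : ℤ) - j'.2) ^ 2 = 0 := by
      have := sq_nonneg ((j.1 : ℤ) - j'.1)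
      have := sq_nonneg ((j.2 : ℤ) - j'.2)
      omega
    have h9 : j.1 = j'.1 := by
      have := pow_eq_zero_iff (two_ne_zero) |>.1 h7
      omega
    have h10 : j.2 = j'.2 := by
      have := pow_eq_zero_iff (two_ne_zero) |>.1 h8
      omega
    exact Sigma.ext h9 (heq_of_eq h10)
  have hdn : ∀ k : κ, 0 ≤ F (x k) ^ p := fun k => Real.rpow_nonneg (hF0 _) _
  have hsum : ∑ j ∈ J, F (x (i (P j))) ^ p ≤ ∑ k, F (x k) ^ p := by
    rw [← Finset.sum_image (f := fun k => F (x k) ^ p) (g := fun j => i (P j)) hinj]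
    exact Finset.sum_le_sum_of_subset_of_nonneg (Finset.subset_univ _) fun k _ _ => hdn k
  refine le_trans ?_ hsum
  rw [Finset.sum_sigma]
  apply Finset.sum_le_sum
  intro a ha
  have h1 : ∑ b ∈ Finset.range (a + 1), (c₀ / (9 * r * (a + 1))) ^ p =
      ((a : ℝ) + 1) * (c₀ / (9 * r * (a + 1))) ^ p := by
    rw [Finset.sum_const, Finset.card_range, nsmul_eq_mul]
    push_cast
    rfl
  rw [← h1]
  apply Finset.sum_le_sum
  intro b hb
  have hjJ : (⟨a, b⟩ : Σ _ : ℕ, ℕ) ∈ J := Finset.mem_sigma.2 ⟨ha, hb⟩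
  obtain ⟨h2, h3⟩ := hJ _ hjJ
  obtain ⟨-, h4, h5⟩ := hP _ hjJ
  have h6 := hi (P ⟨a, b⟩)
  rw [mem_ball] at h6
  have h7 := abs_le.1 (abs_sN_sub (P ⟨a, b⟩) (x (i (P ⟨a, b⟩))))
  have ha0 : (0 : ℝ) ≤ a := Nat.cast_nonneg a
  have h8 : 0 ≤ r * a := by positivity
  have h2' : r * ((a : ℝ) + 1) ≤ r * M := mul_le_mul_of_nonneg_left h2 hr0.le
  have h4' : 3 * r * ((a : ℝ) + 1) ≤ sN (P ⟨a, b⟩) := h4
  have h5' : sN (P ⟨a, b⟩) ≤ 12 / 5 * (3 * r * ((a : ℝ) + 1)) := h5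
  have h9 : 2 * r ≤ sN (x (i (P ⟨a, b⟩))) := by
    have : 3 * r * ((a : ℝ) + 1) = 3 * (r * a) + 3 * r := by ring
    linarith [h7.2]
  have h10 : sN (x (i (P ⟨a, b⟩))) ≤ 9 * (r * ((a : ℝ) + 1)) := by
    have : 3 * r * ((a : ℝ) + 1) = 3 * (r * ((a : ℝ) + 1)) := by ring
    have h11 : r ≤ r * ((a : ℝ) + 1) := by linarith [mul_add r (a : ℝ) 1]
    linarith [h7.1]
  have h11 : sN (x (i (P ⟨a, b⟩))) ≤ s₁ := by linarith
  have h12 := hF (x (i (P ⟨a, b⟩))) h9 h11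
  apply Real.rpow_le_rpow (by positivity) _ hp
  refine le_trans ?_ h12
  apply div_le_div_of_nonneg_left hc₀.le
  · linarith
  · linarith

end Tk5

open Tk5

theorem tw5 : W5 := by
  intro hfin C C₂ p hC hC₂ hp
  obtain ⟨s₁, hs₁, hs₁2, hlen⟩ := len_ge hC hfin
  have hcardpos : ∀ (κ : Type) [Fintype κ] (x : κ → GS) (r : ℝ),
      (∀ y : GS, ∃ i, y ∈ Metric.ball (x i) r) → (0 : ℝ) < Fintype.card κ := by
    intro κ _ x r h
    obtain ⟨i, -⟩ := h (pt 0 0)
    exact_mod_cast Fintype.card_pos_iff.2 ⟨i⟩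
  have hc₀ : 0 < C ^ 2 / 200 := by positivity
  obtain ⟨c₁, hc₁⟩ : ∃ c₁, c₁ = C / 1800 := ⟨_, rfl⟩
  have hc₁0 : 0 < c₁ := by rw [hc₁]; positivity
  by_cases hp2 : p = 2
  · subst hp2
    obtain ⟨l₁, hl₁⟩ := exists_nat_ge (max 1 ((s₁ / (9 * C))⁻¹ ^ 2))
    refine ⟨c₁ ^ 2 / (2 * C₂), by positivity, l₁, ?_⟩
    intro l hl κ _ x hcov hcard
    have hl₁' : max 1 ((s₁ / (9 * C))⁻¹ ^ 2) ≤ (l : ℝ) := hl₁.trans (by exact_mod_cast hl)
    have hl1 : (1 : ℝ) ≤ l := (le_max_left _ _).trans hl₁'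
    have hl2 : (s₁ / (9 * C))⁻¹ ^ 2 ≤ (l : ℝ) := (le_max_right _ _).trans hl₁'
    have hl1' : 1 ≤ l := by exact_mod_cast hl1
    obtain ⟨hq1, hq2⟩ := sqrt_ev hl1'
    have hq0 : 0 < Real.sqrt (ev l) := by linarith
    have hev : 0 < ev l := by
      unfold ev
      positivity
    have hcp := hcardpos κ x _ hcov
    rw [if_pos rfl]
    obtain ⟨M, hM⟩ : ∃ M : ℕ, M = ⌊s₁ / (9 * (C / Real.sqrt (ev l)))⌋₊ := ⟨_, rfl⟩
    have hM1 : 9 * (C / Real.sqrt (ev l)) * M ≤ s₁ := by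
      have h1 : (M : ℝ) ≤ s₁ / (9 * (C / Real.sqrt (ev l))) := by
        rw [hM]
        exact Nat.floor_le (by positivity)
      rw [le_div_iff₀ (by positivity)] at h1
      linarith
    have hM2 : s₁ / (9 * C) * l ≤ (M : ℝ) + 1 := by
      have h1 : s₁ / (9 * (C / Real.sqrt (ev l))) < (M : ℝ) + 1 := by
        rw [hM]
        exact Nat.lt_floor_add_one _
      have h2 : s₁ / (9 * (C / Real.sqrt (ev l))) = s₁ / (9 * C) * Real.sqrt (ev l) := by
        field_simp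
      rw [h2] at h1
      have h3 : s₁ / (9 * C) * l ≤ s₁ / (9 * C) * Real.sqrt (ev l) :=
        mul_le_mul_of_nonneg_left hq1 (by positivity)
      linarith
    have hkey := key hC hc₀ hs₁2 hl1' (fun y => Real.sqrt (ev l) * ((μH[1] : Measure GS)
        {z | z ∈ Metric.ball y (C / Real.sqrt (ev l)) ∧ har l z = 0}).toReal)
      (fun y => mul_nonneg hq0.le ENNReal.toReal_nonneg) (fun y h1 h2 => hlen l y hl1' h1 h2)
      (p := 2) (by norm_num) x hcov M hM1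
    have hterm : ∀ a ∈ Finset.range M, ((a : ℝ) + 1) *
        (C ^ 2 / 200 / (9 * (C / Real.sqrt (ev l)) * (a + 1))) ^ (2 : ℝ) =
        ev l * c₁ ^ 2 * ((a : ℝ) + 1)⁻¹ := by
      intro a _
      rw [Real.rpow_two]
      have h1 : C ^ 2 / 200 / (9 * (C / Real.sqrt (ev l)) * (a + 1)) =
          Real.sqrt (ev l) * c₁ / ((a : ℝ) + 1) := by
        rw [hc₁]
        field_simp
        norm_num
      rw [h1, div_pow, mul_pow, Real.sq_sqrt hev.le]
      field_simp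
    rw [Finset.sum_congr rfl hterm, ← Finset.mul_sum] at hkey
    have hharm : Real.log ((M : ℝ) + 1) ≤ ∑ a ∈ Finset.range M, ((a : ℝ) + 1)⁻¹ := by
      have h1 := log_add_one_le_harmonic M
      unfold harmonic at h1
      push_cast at h1
      exact h1
    have hlog : 1 / 2 * Real.log l ≤ Real.log ((M : ℝ) + 1) := by
      have h1 : Real.log (s₁ / (9 * C) * l) ≤ Real.log ((M : ℝ) + 1) :=
        Real.log_le_log (by positivity) hM2
      rw [Real.log_mul (by positivity) (by positivity)] at h1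
      have h2 : Real.log ((s₁ / (9 * C))⁻¹ ^ 2) ≤ Real.log l := Real.log_le_log (by positivity) hl2
      rw [Real.log_pow, Real.log_inv] at h2
      push_cast at h2
      linarith
    rw [le_div_iff₀ hcp]
    refine le_trans ?_ hkey
    have h3 : 0 ≤ Real.log l := Real.log_nonneg hl1
    have h4 : c₁ ^ 2 / (2 * C₂) * Real.log l * (Fintype.card κ : ℝ) ≤
        c₁ ^ 2 / (2 * C₂) * Real.log l * (C₂ * ev l) :=
      mul_le_mul_of_nonneg_left hcard (by positivity)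
    refine h4.trans ?_
    have h5 : c₁ ^ 2 / (2 * C₂) * Real.log l * (C₂ * ev l) =
        ev l * c₁ ^ 2 * (1 / 2 * Real.log l) := by
      field_simp
    rw [h5]
    exact mul_le_mul_of_nonneg_left (hlog.trans hharm) (by positivity)
  · obtain ⟨l₁, hl₁⟩ := exists_nat_ge (max 1 (9 * C / s₁))
    refine ⟨c₁ ^ p / (2 * C₂), by positivity, l₁, ?_⟩
    intro l hl κ _ x hcov hcard
    have hl₁' : max 1 (9 * C / s₁) ≤ (l : ℝ) := hl₁.trans (by exact_mod_cast hl)
    have hl1 : (1 : ℝ) ≤ l := (le_max_left _ _).trans hl₁'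
    have hl2 : 9 * C / s₁ ≤ (l : ℝ) := (le_max_right _ _).trans hl₁'
    have hl1' : 1 ≤ l := by exact_mod_cast hl1
    obtain ⟨hq1, hq2⟩ := sqrt_ev hl1'
    have hq0 : 0 < Real.sqrt (ev l) := by linarith
    have hcp := hcardpos κ x _ hcov
    have hl0 : (0 : ℝ) < l := by linarith
    rw [if_neg hp2]
    have hM1 : 9 * (C / Real.sqrt (ev l)) * ((1 : ℕ) : ℝ) ≤ s₁ := by
      rw [Nat.cast_one, mul_one, mul_div_assoc', div_le_iff₀ hq0]
      rw [div_le_iff₀ hs₁] at hl2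
      have h1 := mul_le_mul_of_nonneg_left hq1 hs₁.le
      linarith
    have hkey := key hC hc₀ hs₁2 hl1' (fun y => Real.sqrt (ev l) * ((μH[1] : Measure GS)
        {z | z ∈ Metric.ball y (C / Real.sqrt (ev l)) ∧ har l z = 0}).toReal)
      (fun y => mul_nonneg hq0.le ENNReal.toReal_nonneg) (fun y h1 h2 => hlen l y hl1' h1 h2)
      (p := p) (by linarith) x hcov 1 hM1
    rw [Finset.sum_range_one, Nat.cast_zero, zero_add, one_mul, mul_one] at hkey
    rw [le_div_iff₀ hcp]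
    refine le_trans ?_ hkey
    have h1 : C ^ 2 / 200 / (9 * (C / Real.sqrt (ev l))) = Real.sqrt (ev l) * c₁ := by
      rw [hc₁]
      field_simp
      norm_num
    rw [h1]
    have h2 : ((l : ℝ) * c₁) ^ p ≤ (Real.sqrt (ev l) * c₁) ^ p :=
      Real.rpow_le_rpow (by positivity) (mul_le_mul_of_nonneg_right hq1 hc₁0.le) (by linarith)
    refine le_trans ?_ h2
    rw [Real.mul_rpow hl0.le hc₁0.le]
    have h3 : (l : ℝ) ^ p = (l : ℝ) ^ (p - 2) * (l : ℝ) ^ 2 := by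
      rw [← Real.rpow_two, ← Real.rpow_add hl0]
      congr 1
      ring
    have h4 : (Fintype.card κ : ℝ) ≤ C₂ * (2 * (l : ℝ) ^ 2) := by
      refine hcard.trans (mul_le_mul_of_nonneg_left ?_ hC₂.le)
      unfold ev
      nlinarith
    have h5 : 0 < (l : ℝ) ^ (p - 2) := Real.rpow_pos_of_pos hl0 _
    have h6 : 0 < c₁ ^ p := Real.rpow_pos_of_pos hc₁0 _
    have h7 : c₁ ^ p / (2 * C₂) * (l : ℝ) ^ (p - 2) * (Fintype.card κ : ℝ) ≤
        c₁ ^ p / (2 * C₂) * (l : ℝ) ^ (p - 2) * (C₂ * (2 * (l : ℝ) ^ 2)) :=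
      mul_le_mul_of_nonneg_left h4 (by positivity)
    refine h7.trans (le_of_eq ?_)
    rw [h3]
    field_simp

end

end Pool.Agent.H303.NY

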