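import Pool.Agent.H303.NY.Fin0
import Pool.Agent.H303.NY.T1
import Pool.Agent.H303.NY.T2
import Pool.Agent.H303.NY.TLB
import Pool.Agent.H303.NY.TMV
import Pool.Agent.H303.NY.T3
import Pool.Agent.H303.NY.T4
import Pool.Agent.H303.NY.T5
import Pool.Agent.H303.NY.T6
import Pool.Agent.H303.NY.T7
import Pool.Agent.H303.NY.T8
import Pool.Agent.H303.NY.T9
import Pool.Agent.H303.NY.T10
import Pool.Agent.H303.NY.TZL
import Pool.Agent.H303.NY.TZS
import Pool.Agent.H303.NY.TZ4L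
import Pool.Agent.H303.NY.TZ4S
import Pool.Agent.H303.NY.TU1
import Pool.Agent.H303.NY.TU2
import Pool.Agent.H303.NY.TZ5L
import Pool.Agent.H303.NY.TGAP
import Pool.Agent.H303.NY.TLW1
import Pool.Agent.H303.NY.TLW2
import Pool.Agent.H303.NY.MKU
import Pool.Agent.H303.NY.MKL
import Pool.Agent.H303.NY.W5
import Pool.Agent.H303.NP.Fin
import Pool.Agent.H303.NP.W2
import Pool.Agent.H303.NP.W3
import Pool.Agent.H303.NP.W4
import Pool.Graph.R_pool_sql_team_seeded_3997aac3.Q73.NL.U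

/-! # Assembly -/

set_option autoImplicit false
open MeasureTheory Filter Topology Complex Metric

namespace Pool.Agent.H303.NY

open Pool.Agent.H303.NP Pool.Agent.Q73.AD Pool.Agent.Q73.NL

universe u v

theorem g_n3 : N3 := tn3 tn1 tn2 tlb tmv

theorem g_n6 : N6 := tn6 (tn4 g_n3 tn1) tn5

theorem g_n9 : N9 := tn9 (tn8 g_n6 tn7 u3)

section
variable {α : ℝ} (h1 : 1 ≤ α) (h2 : α < 2)
include h1 h2

theorem g_zl : ZL α := tzl h1 (tz6p h1 h2 (f_z1 h1 h2) fin_z2) g_n9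

end

theorem g_u1 : U1.{u, v} := tu1 fin_g1.{u, v} tg2.{u, v} g_n9

theorem g_u2 : U2.{u, v} :=
  tu2 fin_g1.{u, v} tg2.{u, v} (tz4s.{u} (tzs (g_zl le_rfl (by norm_num))))

theorem g_z5 {α : ℝ} (h1 : 1 ≤ α) (h2 : α < 2) : Z5L.{u, v} α :=
  tz5l h1 fin_g1.{u, v} tg2.{u, v} (tz4l.{u} h1 (g_zl h1 h2)) g_u1.{u, v}

theorem g_gap : GAP.{u, v} := tgap.{u, v} tmv

theorem g_yu : YU.{u, v} := tyu g_u1.{u, v} g_u2.{u, v} g_gap.{u, v}

theorem g_ylo : YLo.{u, v} := tylo (tlw1.{u, v} tn10) (tlw2.{u, v} tn10)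

theorem g_mku : MKU.{u, v} := tmku.{u, v} g_yu.{u, v} g_gap.{u, v} tn10

theorem g_mkl : MKL.{u, v} := tmkl.{u, v}

end Pool.Agent.H303.NY
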