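import Pool.Agent.H303.NY.Stm

/-!
# Yau's bounds and the area of the tubular neighbourhoods of the nodal set: statements
-/

set_option autoImplicit false
open MeasureTheory Filter Topology Complex Metric
open scoped ContDiff ENNReal

namespace Pool.Agent.H303.NY

open Pool.Agent.Q73.NL Pool.Agent.Q73.AD Pool.Agent.H303.NP

noncomputable section

universe u v

/-- YU: Yau's upper bound -/
def YU : Prop := ∀ (M : Type u) (ι : Type v) [MetricSpace M] [CompactSpace M] [ConnectedSpace M]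
  [MeasurableSpace M] [BorelSpace M] (U : ι → Set ℂ) (φ : ι → ℂ → M) (ρ : ι → ℂ → ℝ),
  Atl U φ ρ → (∀ i, ∀ z ∈ U i, 0 < ρ i z) → ∃ A : ℝ, 0 < A ∧
  ∀ (lam : ℝ) (f : M → ℝ), 0 < lam → Eig U φ ρ lam f → (∃ x, f x ≠ 0) →
    (μH[1] : Measure M) {x | f x = 0} ≤ ENNReal.ofReal (A * Real.sqrt lam)

/-- YLo: Yau's lower bound -/
def YLo : Prop := ∀ (M : Type u) (ι : Type v) [MetricSpace M] [CompactSpace M] [ConnectedSpace M]
  [MeasurableSpace M] [BorelSpace M] (U : ι → Set ℂ) (φ : ι → ℂ → M) (ρ : ι → ℂ → ℝ),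
  Atl U φ ρ → (∀ i, ∀ z ∈ U i, 0 < ρ i z) → ∃ c : ℝ, 0 < c ∧
  ∀ (lam : ℝ) (f : M → ℝ), 0 < lam → Eig U φ ρ lam f → (∃ x, f x ≠ 0) →
    ENNReal.ofReal (c * Real.sqrt lam) ≤ (μH[1] : Measure M) {x | f x = 0}

/-- MKU: the area of the neighbourhoods of the nodal set, upper bound -/
def MKU : Prop := ∀ (M : Type u) (ι : Type v) [MetricSpace M] [CompactSpace M] [ConnectedSpace M]
  [MeasurableSpace M] [BorelSpace M] (U : ι → Set ℂ) (φ : ι → ℂ → M) (ρ : ι → ℂ → ℝ),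
  Atl U φ ρ → (∀ i, ∀ z ∈ U i, 0 < ρ i z) → ∃ A : ℝ, 0 < A ∧
  ∀ (lam δ : ℝ) (f : M → ℝ), 0 < lam → Eig U φ ρ lam f → (∃ x, f x ≠ 0) → 0 < δ →
    δ * Real.sqrt lam ≤ 1 →
    (μH[2] : Measure M) (thickening δ {x | f x = 0}) ≤ ENNReal.ofReal (A * δ * Real.sqrt lam)

/-- MKL: the area of the neighbourhoods of the nodal set, lower bound -/
def MKL : Prop := ∀ (M : Type u) (ι : Type v) [MetricSpace M] [CompactSpace M] [ConnectedSpace M]
  [MeasurableSpace M] [BorelSpace M] (U : ι → Set ℂ) (φ : ι → ℂ → M) (ρ : ι → ℂ → ℝ),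
  Atl U φ ρ → (∀ i, ∀ z ∈ U i, 0 < ρ i z) → ∃ c : ℝ, 0 < c ∧
  ∀ (lam δ : ℝ) (f : M → ℝ), 0 < lam → Eig U φ ρ lam f → (∃ x, f x ≠ 0) → 0 < δ →
    δ * Real.sqrt lam ≤ 1 →
    ENNReal.ofReal (c * δ * Real.sqrt lam) ≤ (μH[2] : Measure M) (thickening δ {x | f x = 0})

end

end Pool.Agent.H303.NY
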