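import Pool.Agent.H303.NY.Def
import Pool.Agent.H303.NY.StmK
import Pool.Agent.H303.NP.Fin0

/-!
# The nodal length: from the lemmas to the bounds of the public statement
-/

set_option autoImplicit false
open MeasureTheory Filter Topology Complex Bundle
open scoped ContDiff Manifold ENNReal

namespace Pool.Agent.H303.NY

open Pub Pool.Agent.H303.NP Pool.Agent.H303.NP.Pub Pool.Agent.Q73.AD

universe u v

theorem tyu (h1 : U1.{u, v}) (h2 : U2.{u, v}) (hg : GAP.{u, v}) : YU.{u, v} := by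
  intro M ι _ _ _ _ _ U φ ρ hA hρ
  obtain ⟨A₂, lam₀, hA₂, hl₀, h2'⟩ := h2 M ι U φ ρ hA (fun i z hz => (hρ i z hz).le)
  obtain ⟨A₁, hA₁, h1'⟩ := h1 M ι U φ ρ hA lam₀ hl₀
  obtain ⟨g, hg0, hg'⟩ := hg M ι U φ ρ hA hρ
  refine ⟨max A₂ (A₁ / Real.sqrt g), lt_max_of_lt_left hA₂, fun lam f hlam hf hne => ?_⟩
  have hs : 0 < Real.sqrt lam := Real.sqrt_pos.2 hlam
  have hsg : 0 < Real.sqrt g := Real.sqrt_pos.2 hg0
  rcases le_total lam₀ lam with hl | hl
  · refine (h2' lam f hl hf hne).trans (ENNReal.ofReal_le_ofReal ?_)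
    exact mul_le_mul_of_nonneg_right (le_max_left _ _) hs.le
  · refine (h1' lam f hlam hl hf hne).trans (ENNReal.ofReal_le_ofReal ?_)
    have h3 : Real.sqrt g ≤ Real.sqrt lam := Real.sqrt_le_sqrt (hg' lam f hlam hf hne)
    calc A₁ = A₁ / Real.sqrt g * Real.sqrt g := by field_simp
      _ ≤ max A₂ (A₁ / Real.sqrt g) * Real.sqrt lam :=
          mul_le_mul (le_max_right _ _) h3 hsg.le (le_max_of_le_left hA₂.le)

theorem tylo (h1 : LW1.{u, v}) (h2 : LW2.{u, v}) : YLo.{u, v} := by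
  intro M ι _ _ _ _ _ U φ ρ hA hρ
  obtain ⟨c₂, lam₀, hc₂, hl₀, h2'⟩ := h2 M ι U φ ρ hA hρ
  obtain ⟨c₁, hc₁, h1'⟩ := h1 M ι U φ ρ hA hρ lam₀ hl₀
  have hs0 : 0 < Real.sqrt lam₀ := Real.sqrt_pos.2 hl₀
  refine ⟨min c₂ (c₁ / Real.sqrt lam₀), lt_min hc₂ (by positivity), fun lam f hlam hf hne => ?_⟩
  have hs : 0 < Real.sqrt lam := Real.sqrt_pos.2 hlam
  rcases le_total lam₀ lam with hl | hl
  · refine (ENNReal.ofReal_le_ofReal ?_).trans (h2' lam f hl hf hne)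
    exact mul_le_mul_of_nonneg_right (min_le_left _ _) hs.le
  · refine (ENNReal.ofReal_le_ofReal ?_).trans (h1' lam f hlam hl hf hne)
    have h3 : Real.sqrt lam ≤ Real.sqrt lam₀ := Real.sqrt_le_sqrt hl
    calc min c₂ (c₁ / Real.sqrt lam₀) * Real.sqrt lam
        ≤ c₁ / Real.sqrt lam₀ * Real.sqrt lam₀ :=
          mul_le_mul (min_le_right _ _) h3 hs.le (by positivity)
      _ = c₁ := by field_simp

/-- the four properties of a class of eigenfunctions -/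
def AllBounds (M : Type u) [MetricSpace M] [MeasurableSpace M] [BorelSpace M]
    (Eigen : ℝ → (M → ℝ) → Prop) : Prop :=
  YauBounds Eigen ∧ TubeBounds Eigen ∧ LengthMeanBounds Eigen

theorem AllBounds.mono {M : Type u} [MetricSpace M] [MeasurableSpace M] [BorelSpace M]
    {E₁ E₂ : ℝ → (M → ℝ) → Prop} (h : ∀ lam f, E₂ lam f → E₁ lam f) (hE : AllBounds M E₁) :
    AllBounds M E₂ := by
  obtain ⟨⟨c, A, hc, hA, h1⟩, ⟨c', A', hc', hA', h2⟩, h3⟩ := hE
  refine ⟨⟨c, A, hc, hA, fun lam f hlam hf => h1 lam f hlam (h lam f hf)⟩,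
    ⟨c', A', hc', hA', fun lam δ f hlam hf => h2 lam δ f hlam (h lam f hf)⟩,
    fun C C₁ C₂ hC hC₁ hC₂ => ?_⟩
  obtain ⟨h4, h5⟩ := h3 C C₁ C₂ hC hC₁ hC₂
  refine ⟨fun p hp hp2 => ?_, fun p ε hp hε => ?_⟩
  · obtain ⟨A, hA⟩ := h4 p hp hp2
    exact ⟨A, fun lam f hlam hf => hA lam f hlam (h lam f hf)⟩
  · obtain ⟨A, hA⟩ := h5 p ε hp hε
    exact ⟨A, fun lam f hlam hf => hA lam f hlam (h lam f hf)⟩

theorem isothermal_all (hU : YU.{u, v}) (hL : YLo.{u, v}) (hK : MKU.{u, v}) (hK' : MKL.{u, v})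
    (hZ : ∀ α : ℝ, 1 ≤ α → α < 2 → Z5L.{u, v} α) (M : Type u) (ι : Type v)
    [MetricSpace M] [CompactSpace M] [ConnectedSpace M] [MeasurableSpace M] [BorelSpace M]
    (U : ι → Set ℂ) (φ : ι → ℂ → M)
    (ρ : ι → ℂ → ℝ) (h : RiemannianSurface U φ ρ) : AllBounds M (IsEigenfunction U φ ρ) := by
  have hR : Pool.Agent.Q73.AD.Riem U φ ρ := ⟨h.isOpen_domain, h.injective_chart, h.continuous_chart,
    h.open_chart, h.cover, h.density_pos, h.density_smooth, h.transition, h.geodesic⟩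
  have hatl := Pool.Agent.Q73.AD.tr1 M ι U φ ρ hR
  have hE : ∀ lam f, IsEigenfunction U φ ρ lam f → Eig U φ ρ lam f :=
    fun lam f hf i => ⟨hf.smooth i, hf.eq i⟩
  refine ⟨?_, ?_, ?_⟩
  · obtain ⟨A, hA, hA'⟩ := hU M ι U φ ρ hatl h.density_pos
    obtain ⟨c, hc, hc'⟩ := hL M ι U φ ρ hatl h.density_pos
    exact ⟨c, A, hc, hA, fun lam f hlam hf => ⟨hc' lam f hlam (hE lam f hf) hf.ne,
      hA' lam f hlam (hE lam f hf) hf.ne⟩⟩
  · obtain ⟨A, hA, hA'⟩ := hK M ι U φ ρ hatl h.density_pos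
    obtain ⟨c, hc, hc'⟩ := hK' M ι U φ ρ hatl h.density_pos
    exact ⟨c, A, hc, hA, fun lam δ f hlam hf hδ hδ' => ⟨hc' lam δ f hlam (hE lam f hf) hf.ne hδ hδ',
      hA' lam δ f hlam (hE lam f hf) hf.ne hδ hδ'⟩⟩
  intro C C₁ C₂ hC hC₁ hC₂
  have key : ∀ α : ℝ, 1 ≤ α → α < 2 → ∃ A : ℝ, 0 < A ∧ ∀ (lam : ℝ) (f : M → ℝ), 0 < lam →
      IsEigenfunction U φ ρ lam f → ∀ (κ : Type) [Fintype κ] (x : κ → M), DiscFamily lam C C₁ C₂ x →
        lengthMean f lam C α x ≤ A := by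
    intro α hα1 hα2
    obtain ⟨A, hA0, hA⟩ := hZ α hα1 hα2 M ι U φ ρ hatl (fun i z hz => (h.density_pos i z hz).le)
      C C₁ C₂ hC hC₁ hC₂
    exact ⟨A, hA0, fun lam f hlam hf κ _ x hx => hA lam f κ x hlam (hE lam f hf) hf.ne hx.mult
      hx.lower⟩
  have hcardpos : ∀ (lam : ℝ), 0 < lam → ∀ (κ : Type) [Fintype κ] (x : κ → M),
      DiscFamily lam C C₁ C₂ x → (0 : ℝ) < Fintype.card κ := fun lam hlam κ _ x hx =>
    lt_of_lt_of_le (by positivity) hx.lower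
  have hd0 : ∀ (lam : ℝ) (S : Set M), 0 ≤ Real.sqrt lam * ((μH[1] : Measure M) S).toReal :=
    fun lam S => mul_nonneg (Real.sqrt_nonneg _) ENNReal.toReal_nonneg
  refine ⟨fun p hp hp2 => ?_, fun p ε hp hε => ?_⟩
  · rcases le_or_gt 1 p with h1 | h1
    · obtain ⟨A, -, hA⟩ := key p h1 hp2
      exact ⟨A, hA⟩
    · obtain ⟨A, -, hA⟩ := key 1 le_rfl (by norm_num)
      refine ⟨1 + A, fun lam f hlam hf κ _ x hx => ?_⟩
      exact powers_lt_one (fun i => Real.sqrt lam * ((μH[1] : Measure M)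
          {y | y ∈ Metric.ball (x i) (C / Real.sqrt lam) ∧ f y = 0}).toReal)
        (fun i => hd0 lam _) hp h1
        (by exact_mod_cast hcardpos lam hlam κ x hx) (hA lam f hlam hf κ x hx)
  · obtain ⟨q, hq1, hq2, hpq⟩ := exp_choice hp hε
    obtain ⟨A, hA0, hA⟩ := key q hq1 hq2
    refine ⟨A * (A * C₂) ^ (p / q - 1), fun lam f hlam hf κ _ x hx => ?_⟩
    have h2 := powers_ge_two (fun i => Real.sqrt lam * ((μH[1] : Measure M)
          {y | y ∈ Metric.ball (x i) (C / Real.sqrt lam) ∧ f y = 0}).toReal)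
      (fun i => hd0 lam _) (p := p) hq1 (by linarith) hA0.le hC₂.le hlam
      (hcardpos lam hlam κ x hx) hx.upper (hA lam f hlam hf κ x hx)
    refine h2.trans ?_
    have h3 : 0 ≤ A * (A * C₂) ^ (p / q - 1) := by positivity
    refine mul_le_mul_of_nonneg_left ?_ h3
    have h4 : 0 ≤ p / q - 1 := by
      rw [sub_nonneg, le_div_iff₀ (by linarith)]
      linarith
    calc lam ^ (p / q - 1) ≤ (1 + lam) ^ (p / q - 1) := Real.rpow_le_rpow hlam.le (by linarith) h4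
      _ ≤ (1 + lam) ^ (p / 2 - 1 + ε) :=
          Real.rpow_le_rpow_of_exponent_le (by linarith) (by linarith)

theorem manifold_all (hU : YU.{u, u}) (hL : YLo.{u, u}) (hK : MKU.{u, u}) (hK' : MKL.{u, u})
    (hZ : ∀ α : ℝ, 1 ≤ α → α < 2 → Z5L.{u, u} α) (E : Type v)
    [NormedAddCommGroup E] [NormedSpace ℝ E] (b : Module.Basis (Fin 2) ℝ E)
    (M : Type u) [MetricSpace M] [ChartedSpace E M] [IsManifold 𝓘(ℝ, E) ∞ M]
    [RiemannianBundle (fun x : M => TangentSpace 𝓘(ℝ, E) x)]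
    [IsContMDiffRiemannianBundle 𝓘(ℝ, E) ∞ E (fun x : M => TangentSpace 𝓘(ℝ, E) x)]
    [IsRiemannianManifold 𝓘(ℝ, E) M] [CompactSpace M] [ConnectedSpace M]
    [MeasurableSpace M] [BorelSpace M] : AllBounds M (IsEigenfunctionOn b) := by
  obtain ⟨U, φ, ρ, hR, -, hE⟩ := Pool.Agent.Q63.ISE.atlas b M
  have h := isothermal_all hU hL hK hK' hZ M M U φ ρ ⟨hR.dom, hR.inj, hR.cont,
    hR.opn, hR.cover, hR.pos, hR.dens, hR.trans, hR.geod⟩
  refine h.mono fun lam f hf => ?_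
  have h := hE lam f ⟨hf.smooth, hf.eq⟩
  exact ⟨fun i => (h i).1, fun i => (h i).2, hf.ne⟩

/-- the sphere -/
theorem sphere_length (w5 : W5) (hU : YU.{0, 0}) (w2 : W2) (w3 : W3) (w4 : W4) :
    SphereLengthSharp := by
  have hR : RiemannianSurface stU stc stρ :=
    ⟨w3.dom, w3.inj, w3.cont, w3.opn, w3.cover, w3.pos, w3.dens, w3.trans, w3.geod⟩
  have hatl := Pool.Agent.Q73.AD.tr1 GS Bool stU stc stρ ⟨w3.dom, w3.inj, w3.cont, w3.opn, w3.cover,
    w3.pos, w3.dens, w3.trans, w3.geod⟩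
  have hEig : ∀ l : ℕ, IsEigenfunction stU stc stρ (ev l) (har l) :=
    fun l => ⟨fun i => ((w4 l).1 i).1, fun i => ((w4 l).1 i).2, (w4 l).2⟩
  have hfin : ∀ l : ℕ, 1 ≤ l → (μH[1] : Measure GS) {y | har l y = 0} < ⊤ := by
    intro l hl
    obtain ⟨A, hA, hA'⟩ := hU GS Bool stU stc stρ hatl w3.pos
    have hev : 0 < ev l := by
      unfold ev
      have : (1 : ℝ) ≤ l := by exact_mod_cast hl
      positivity
    exact (hA' (ev l) (har l) hev (w4 l).1 (w4 l).2).trans_lt ENNReal.ofReal_lt_top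
  refine ⟨hR, hEig, ?_, ?_⟩
  · obtain ⟨C, C₁, C₂, hC, hC₁, hC₂, h⟩ := w2
    refine ⟨C, C₁, C₂, hC, hC₁, hC₂, fun l hl => ?_⟩
    obtain ⟨n, x, h1, h2, h3, h4, -⟩ := h l hl
    exact ⟨n, x, ⟨h4, by rw [Fintype.card_fin]; exact h2, by rw [Fintype.card_fin]; exact h3⟩, h1⟩
  · intro C C₁ C₂ hC hC₁ hC₂
    constructor
    · obtain ⟨c, hc, l₀, h⟩ := w5 hfin C C₂ 2 hC hC₂ le_rfl
      refine ⟨c / 3, by positivity, max l₀ 2, fun l hl κ _ x hx hcov => ?_⟩
      have hl0 : l₀ ≤ l := (le_max_left _ _).trans hl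
      have hl2 : 2 ≤ l := (le_max_right _ _).trans hl
      have h1 := h l hl0 κ x hcov hx.upper
      rw [if_pos rfl] at h1
      refine le_trans ?_ h1
      have hl2' : (2 : ℝ) ≤ l := by exact_mod_cast hl2
      have h2 : ev l ≤ (l : ℝ) ^ 3 := by
        unfold ev
        nlinarith [mul_nonneg (show (0:ℝ) ≤ l by linarith) (show (0:ℝ) ≤ (l:ℝ) - 2 by linarith)]
      have h3 : 0 < ev l := by unfold ev; positivity
      have h4 := Real.log_le_log h3 h2
      rw [Real.log_pow] at h4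
      push_cast at h4
      calc c / 3 * Real.log (ev l) ≤ c / 3 * (3 * Real.log l) :=
            mul_le_mul_of_nonneg_left h4 (by positivity)
        _ = c * Real.log l := by ring
    · intro p hp
      obtain ⟨c, hc, l₀, h⟩ := w5 hfin C C₂ p hC hC₂ hp
      refine ⟨c / 2 ^ (p / 2 - 1), by positivity, max l₀ 3, fun l hl κ _ x hx hcov => ?_⟩
      have hl0 : l₀ ≤ l := (le_max_left _ _).trans hl
      have hl3 : 3 ≤ l := (le_max_right _ _).trans hl
      have hl3' : (3 : ℝ) ≤ l := by exact_mod_cast hl3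
      have h1 := h l hl0 κ x hcov hx.upper
      refine le_trans ?_ h1
      have h2 : ev l ≤ 2 * (l : ℝ) ^ 2 := by
        unfold ev
        nlinarith
      have h3 : 0 < ev l := by unfold ev; positivity
      have h4 : ev l ^ (p / 2 - 1) ≤ 2 ^ (p / 2 - 1) * (l : ℝ) ^ (p - 2) := by
        have h5 := Real.rpow_le_rpow h3.le h2 (show 0 ≤ p / 2 - 1 by linarith)
        rw [Real.mul_rpow (by norm_num) (by positivity), ← Real.rpow_natCast, ← Real.rpow_mul
          (by positivity)] at h5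
        refine h5.trans (le_of_eq ?_)
        congr 2
        push_cast
        ring
      have h6 : (l : ℝ) ^ (p - 2) ≤ if p = 2 then Real.log l else (l : ℝ) ^ (p - 2) := by
        split_ifs with hp2
        · rw [hp2, sub_self, Real.rpow_zero]
          rw [Real.le_log_iff_exp_le (by linarith)]
          have := Real.exp_one_lt_d9
          linarith
        · exact le_rfl
      have h7 : (0 : ℝ) < 2 ^ (p / 2 - 1) := by positivity
      calc c / 2 ^ (p / 2 - 1) * ev l ^ (p / 2 - 1)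
          ≤ c / 2 ^ (p / 2 - 1) * (2 ^ (p / 2 - 1) * (l : ℝ) ^ (p - 2)) :=
            mul_le_mul_of_nonneg_left h4 (by positivity)
        _ = c * (l : ℝ) ^ (p - 2) := by field_simp
        _ ≤ _ := mul_le_mul_of_nonneg_left h6 hc.le

end Pool.Agent.H303.NY
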