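import Pool.Agent.H303.NY.FinD0
import Pool.Agent.H303.NY.Fin
import Pool.Agent.H303.NY.D1
import Pool.Agent.H303.NY.D2
import Pool.Agent.H303.NY.D3
import Pool.Agent.H303.NY.D4
import Pool.Agent.H303.NY.D5
import Pool.Agent.H303.NY.D6
import Pool.Agent.H303.NY.D7
import Pool.Agent.H303.NY.D8
import Pool.Agent.H303.NY.D9

/-! # Assembly -/

set_option autoImplicit false
open MeasureTheory Filter Topology Complex Bundle
open scoped ContDiff Manifold ENNReal

namespace Pool.Agent.H303.NY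

open Pub Pool.Agent.H303.NP Pool.Agent.H303.NP.Pub Pool.Agent.Q73.AD

universe u v

/-- the sphere -/
theorem sphere_limit (hU : YU.{0, 0}) (hL : YLo.{0, 0})
    (hZ : ∀ α : ℝ, 1 ≤ α → α < 2 → Z5L.{0, 0} α) (w3 : W3) (w4 : W4) (h7 : D7) (h8 : D8) :
    SphereLimit := by
  have hR : RiemannianSurface stU stc stρ :=
    ⟨w3.dom, w3.inj, w3.cont, w3.opn, w3.cover, w3.pos, w3.dens, w3.trans, w3.geod⟩
  have hatl := Pool.Agent.Q73.AD.tr1 GS Bool stU stc stρ ⟨w3.dom, w3.inj, w3.cont, w3.opn, w3.cover,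
    w3.pos, w3.dens, w3.trans, w3.geod⟩
  have hEig : ∀ l : ℕ, IsEigenfunction stU stc stρ (ev l) (har l) :=
    fun l => ⟨fun i => ((w4 l).1 i).1, fun i => ((w4 l).1 i).2, (w4 l).2⟩
  have hfin : IsFiniteMeasure (μH[2] : Measure GS) := ⟨(tqf.{0, 0} GS).2 Bool stU stc stρ hatl⟩
  obtain ⟨a, b, r₀, ha, hb, hr₀, hab⟩ := td1 GS Bool stU stc stρ hatl
  have hlim := limit_bounds hU hL hZ td1.{0, 0} (td3 td2.{0}) td4.{0} (td5 tn10) (td6 td2.{0})
    GS Bool stU stc stρ hR
  have hev : Tendsto (fun l : ℕ => ev (l + 1)) atTop atTop := by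
    refine tendsto_atTop_mono (fun l => ?_) tendsto_natCast_atTop_atTop
    unfold ev
    push_cast
    nlinarith [Nat.cast_nonneg (α := ℝ) l]
  have hac : merMeasure.AbsolutelyContinuous μH[2] := by
    obtain ⟨K, hK⟩ := hlim.2 (3 / 2) (by norm_num) (by norm_num)
    exact (hK (fun l => ev (l + 1)) (fun l => har (l + 1)) merMeasure hev (fun l => by
      unfold ev
      positivity) (fun l => hEig (l + 1)) h7).1
  exact ⟨hR, hEig, h7, hac, h8 ⟨b, r₀, hb, hr₀, fun x r hr hr' => (hab x r hr hr').2⟩ hfin hac⟩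

/-- domains, isothermal charts -/
theorem isothermal_domain (hU : YU.{u, v}) (hL : YLo.{u, v}) (h9 : D9.{u}) (M : Type u) (ι : Type v)
    [MetricSpace M] [CompactSpace M] [ConnectedSpace M] [MeasurableSpace M] [BorelSpace M]
    (U : ι → Set ℂ) (φ : ι → ℂ → M)
    (ρ : ι → ℂ → ℝ) (h : RiemannianSurface U φ ρ) (hl : LimitBounds (IsEigenfunction U φ ρ)) :
    DomainBounds (IsEigenfunction U φ ρ) := by
  have hR : Pool.Agent.Q73.AD.Riem U φ ρ := ⟨h.isOpen_domain, h.injective_chart, h.continuous_chart,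
    h.open_chart, h.cover, h.density_pos, h.density_smooth, h.transition, h.geodesic⟩
  have hatl := Pool.Agent.Q73.AD.tr1 M ι U φ ρ hR
  have hfin : IsFiniteMeasure (μH[2] : Measure M) := ⟨(tqf.{u, v} M).2 ι U φ ρ hatl⟩
  have hE : ∀ lam f, IsEigenfunction U φ ρ lam f → Eig U φ ρ lam f :=
    fun lam f hf i => ⟨hf.smooth i, hf.eq i⟩
  obtain ⟨A, hA, hA'⟩ := hU M ι U φ ρ hatl h.density_pos
  obtain ⟨c, hc, hc'⟩ := hL M ι U φ ρ hatl h.density_pos
  refine h9 M _ hfin (fun lam f hlam hf => ?_) hl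
  have hs : 0 < Real.sqrt lam := Real.sqrt_pos.2 hlam
  have h1 := hc' lam f hlam (hE lam f hf) hf.ne
  have h2 := hA' lam f hlam (hE lam f hf) hf.ne
  have h3 : (μH[1] : Measure M) {y | f y = 0} ≠ ⊤ := ne_top_of_le_ne_top ENNReal.ofReal_ne_top h2
  refine ⟨?_, h3, ?_⟩
  · intro h0
    have h0' : (μH[1] : Measure M) {y | f y = 0} = 0 := h0
    rw [h0'] at h1
    have : c * Real.sqrt lam ≤ 0 := ENNReal.ofReal_eq_zero.1 (le_antisymm h1 zero_le)
    nlinarith [mul_pos hc hs]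
  · have hcont : Continuous f := by
      rw [continuous_iff_continuousAt]
      intro x
      obtain ⟨i, z, hz, rfl⟩ := h.cover x
      have hzn : U i ∈ 𝓝 z := (h.isOpen_domain i).mem_nhds hz
      have hf1 : ContinuousAt (fun z => f (φ i z)) z :=
        ((hf.smooth i).continuousOn).continuousAt hzn
      rw [ContinuousAt, tendsto_def] at hf1 ⊢
      intro S hS
      have h4 := hf1 S hS
      obtain ⟨T, hT1, hT2, hT3⟩ := mem_nhds_iff.1 (inter_mem h4 hzn)
      refine mem_nhds_iff.2 ⟨φ i '' T, ?_, h.open_chart i T hT2 (fun w hw => (hT1 hw).2),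
        z, hT3, rfl⟩
      rintro _ ⟨w, hw, rfl⟩
      exact (hT1 hw).1
    exact (isClosed_singleton.preimage hcont).measurableSet

end Pool.Agent.H303.NY
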