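import Pool.Agent.H303.NY.StmK

/-!
# Weak limits of the nodal measures: statements
-/

set_option autoImplicit false
open MeasureTheory Filter Topology Complex Metric
open scoped ContDiff ENNReal

namespace Pool.Agent.H303.NY

open Pool.Agent.Q73.NL Pool.Agent.Q73.AD Pool.Agent.H303.NP

noncomputable section

universe u v

/-- D1: the areas of small discs -/
def D1 : Prop := ∀ (M : Type u) (ι : Type v) [MetricSpace M] [CompactSpace M]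
  [MeasurableSpace M] [BorelSpace M] (U : ι → Set ℂ) (φ : ι → ℂ → M) (ρ : ι → ℂ → ℝ),
  Atl U φ ρ → ∃ a b r₀ : ℝ, 0 < a ∧ 0 < b ∧ 0 < r₀ ∧ ∀ (x : M) (r : ℝ), 0 < r → r ≤ r₀ →
    ENNReal.ofReal (a * r ^ 2) ≤ (μH[2] : Measure M) (ball x r) ∧
    (μH[2] : Measure M) (ball x r) ≤ ENNReal.ofReal (b * r ^ 2)

/-- D2: maximal separated sets in a compact space with a measure of this kind -/
def D2 : Prop := ∀ (M : Type u) [MetricSpace M] [CompactSpace M] [MeasurableSpace M]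
  [BorelSpace M] (μ : Measure M) (a b r₀ : ℝ), IsFiniteMeasure μ → 0 < a → 0 < b → 0 < r₀ →
  (∀ (x : M) (r : ℝ), 0 < r → r ≤ r₀ → ENNReal.ofReal (a * r ^ 2) ≤ μ (ball x r) ∧
    μ (ball x r) ≤ ENNReal.ofReal (b * r ^ 2)) →
  ∃ C₁ : ℝ, 0 < C₁ ∧ ∀ r : ℝ, 0 < r → 4 * r ≤ r₀ → ∃ (n : ℕ) (x : Fin n → M),
    (∀ i j, i ≠ j → r ≤ dist (x i) (x j)) ∧ (∀ y : M, ∃ i, y ∈ ball (x i) r) ∧
    (∀ y : M, (Set.ncard {i | y ∈ ball (x i) (2 * r)} : ℝ) ≤ C₁) ∧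
    μ.real Set.univ ≤ n * (b * r ^ 2) ∧ n * (a / 4 * r ^ 2) ≤ μ.real Set.univ

/-- D3: from the power means to the integral of a continuous function against a limit measure.
`m n` are finite measures, `μ` as in D2, `lam n → ∞`; the means of the powers `α` of `lam` times the
masses of the balls of radius `1 / √lam` in families with multiplicity `≤ C₁` are bounded -/
def D3 : Prop := ∀ (M : Type u) [MetricSpace M] [CompactSpace M] [MeasurableSpace M]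
  [BorelSpace M] (μ : Measure M) (a b r₀ : ℝ), IsFiniteMeasure μ → 0 < a → 0 < b → 0 < r₀ →
  (∀ (x : M) (r : ℝ), 0 < r → r ≤ r₀ → ENNReal.ofReal (a * r ^ 2) ≤ μ (ball x r) ∧
    μ (ball x r) ≤ ENNReal.ofReal (b * r ^ 2)) →
  ∀ α : ℝ, 1 < α → ∀ (A : ℝ → ℝ → ℝ), ∃ K : ℝ, 0 < K ∧
  ∀ (lam : ℕ → ℝ) (m : ℕ → Measure M) (ν : Measure M), Tendsto lam atTop atTop →
    (∀ n, IsFiniteMeasure (m n)) → IsFiniteMeasure ν →
    (∀ g : C(M, ℝ), Tendsto (fun n => ∫ x, g x ∂(m n)) atTop (𝓝 (∫ x, g x ∂ν))) →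
    (∀ C₁ C₂ : ℝ, 0 < C₁ → 0 < C₂ → ∀ (n k : ℕ) (x : Fin k → M), 0 < lam n →
      (∀ y : M, (Set.ncard {i | y ∈ ball (x i) (1 / Real.sqrt (lam n))} : ℝ) ≤ C₁) →
      C₂⁻¹ * lam n ≤ k → (k : ℝ) ≤ C₂ * lam n →
      ∑ i, (lam n * (m n).real (ball (x i) (1 / Real.sqrt (lam n)))) ^ α ≤ A C₁ C₂ * lam n) →
    ∀ g : C(M, ℝ), (∀ x, 0 ≤ g x) →
      ∫ x, g x ∂ν ≤ K * (∫ x, g x ^ (α / (α - 1)) ∂μ) ^ ((α - 1) / α)

/-- D4: a measure with these bounds has a density in `L^α` -/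
def D4 : Prop := ∀ (M : Type u) [MetricSpace M] [CompactSpace M] [MeasurableSpace M]
  [BorelSpace M] (μ ν : Measure M) (α K : ℝ), IsFiniteMeasure μ → IsFiniteMeasure ν → 1 < α → 0 < K →
  (∀ g : C(M, ℝ), (∀ x, 0 ≤ g x) →
      ∫ x, g x ∂ν ≤ K * (∫ x, g x ^ (α / (α - 1)) ∂μ) ^ ((α - 1) / α)) →
  ν.AbsolutelyContinuous μ ∧ ∫⁻ x, (ν.rnDeriv μ x) ^ α ∂μ ≤ ENNReal.ofReal (K ^ α)

/-- D5: lower bound of the length of the nodal set in discs -/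
def D5 : Prop := ∀ (M : Type u) (ι : Type v) [MetricSpace M] [CompactSpace M] [ConnectedSpace M]
  [MeasurableSpace M] [BorelSpace M] (U : ι → Set ℂ) (φ : ι → ℂ → M) (ρ : ι → ℂ → ℝ),
  Atl U φ ρ → (∀ i, ∀ z ∈ U i, 0 < ρ i z) → ∃ c K r₀ : ℝ, 0 < c ∧ 0 < K ∧ 0 < r₀ ∧
  ∀ (lam r : ℝ) (x : M) (f : M → ℝ), 0 < lam → Eig U φ ρ lam f → (∃ x, f x ≠ 0) →
    K ≤ r * Real.sqrt lam → r ≤ r₀ →
    ENNReal.ofReal (c * r ^ 2 * Real.sqrt lam) ≤ (μH[1] : Measure M) {y | y ∈ ball x r ∧ f y = 0}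

/-- D6: from lower bounds for the masses of discs to a lower bound of the limit measure -/
def D6 : Prop := ∀ (M : Type u) [MetricSpace M] [CompactSpace M] [MeasurableSpace M]
  [BorelSpace M] (μ : Measure M) (a b r₀ : ℝ), IsFiniteMeasure μ → 0 < a → 0 < b → 0 < r₀ →
  (∀ (x : M) (r : ℝ), 0 < r → r ≤ r₀ → ENNReal.ofReal (a * r ^ 2) ≤ μ (ball x r) ∧
    μ (ball x r) ≤ ENNReal.ofReal (b * r ^ 2)) →
  ∀ c : ℝ, 0 < c → ∃ c' : ℝ, 0 < c' ∧ ∀ (m : ℕ → Measure M) (ν : Measure M),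
    (∀ n, IsFiniteMeasure (m n)) → IsFiniteMeasure ν →
    (∀ g : C(M, ℝ), Tendsto (fun n => ∫ x, g x ∂(m n)) atTop (𝓝 (∫ x, g x ∂ν))) →
    (∀ r : ℝ, 0 < r → r ≤ r₀ → ∀ᶠ n in atTop, ∀ x : M, c * r ^ 2 ≤ (m n).real (ball x r)) →
    ∀ B : Set M, MeasurableSet B → ENNReal.ofReal c' * μ B ≤ ν B

end

end Pool.Agent.H303.NY
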