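import Pool.Agent.H303.NY.DefD
import Pool.Agent.H303.NY.StmD
import Pool.Agent.H303.NP.Fin0
import Pool.Graph.R_pool_sql_team_seeded_3997aac3.Q73.AD.YQF

/-!
# Weak limits of the nodal measures: from the lemmas to the bounds of the public statement
-/

set_option autoImplicit false
open MeasureTheory Filter Topology Complex Bundle
open scoped ContDiff Manifold ENNReal

namespace Pool.Agent.H303.NY

open Pub Pool.Agent.H303.NP Pool.Agent.H303.NP.Pub Pool.Agent.Q73.AD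

universe u v

lemma nodalMeasure_real {M : Type u} [MetricSpace M] [MeasurableSpace M] [BorelSpace M] (f : M → ℝ)
    (x : M) (r : ℝ) : (nodalMeasure f).real (Metric.ball x r) =
      ((μH[1] : Measure M) {y | y ∈ Metric.ball x r ∧ f y = 0}).toReal /
        ((μH[1] : Measure M) {y | f y = 0}).toReal := by
  unfold nodalMeasure Measure.real
  rw [Measure.smul_apply, Measure.restrict_apply Metric.isOpen_ball.measurableSet, smul_eq_mul,
    ENNReal.toReal_mul, ENNReal.toReal_inv, div_eq_inv_mul]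
  rfl

lemma nodalMeasure_finite {M : Type u} [MetricSpace M] [MeasurableSpace M] [BorelSpace M] (f : M → ℝ)
    (h0 : (μH[1] : Measure M) {y | f y = 0} ≠ 0) (h1 : (μH[1] : Measure M) {y | f y = 0} ≠ ⊤) :
    IsFiniteMeasure (nodalMeasure f) := by
  constructor
  unfold nodalMeasure
  rw [Measure.smul_apply, Measure.restrict_apply_univ, smul_eq_mul]
  exact ENNReal.mul_lt_top (ENNReal.inv_lt_top.2 (pos_iff_ne_zero.2 h0)) (lt_top_iff_ne_top.2 h1)

theorem limit_bounds (hU : YU.{u, v}) (hL : YLo.{u, v})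
    (hZ : ∀ α : ℝ, 1 ≤ α → α < 2 → Z5L.{u, v} α) (d1 : D1.{u, v}) (d3 : D3.{u}) (d4 : D4.{u})
    (d5 : D5.{u, v}) (d6 : D6.{u}) (M : Type u) (ι : Type v)
    [MetricSpace M] [CompactSpace M] [ConnectedSpace M] [MeasurableSpace M] [BorelSpace M]
    (U : ι → Set ℂ) (φ : ι → ℂ → M)
    (ρ : ι → ℂ → ℝ) (h : RiemannianSurface U φ ρ) : LimitBounds (IsEigenfunction U φ ρ) := by
  classical
  have hR : Pool.Agent.Q73.AD.Riem U φ ρ := ⟨h.isOpen_domain, h.injective_chart, h.continuous_chart,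
    h.open_chart, h.cover, h.density_pos, h.density_smooth, h.transition, h.geodesic⟩
  have hatl := Pool.Agent.Q73.AD.tr1 M ι U φ ρ hR
  have hE : ∀ lam f, IsEigenfunction U φ ρ lam f → Eig U φ ρ lam f :=
    fun lam f hf i => ⟨hf.smooth i, hf.eq i⟩
  obtain ⟨A, hA, hA'⟩ := hU M ι U φ ρ hatl h.density_pos
  obtain ⟨c, hc, hc'⟩ := hL M ι U φ ρ hatl h.density_pos
  obtain ⟨a, b, r₀, ha, hb, hr₀, hab⟩ := d1 M ι U φ ρ hatl
  have hfin : IsFiniteMeasure (μH[2] : Measure M) := ⟨(tqf.{u, v} M).2 ι U φ ρ hatl⟩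
  -- the total length
  have htot : ∀ (lam : ℝ) (f : M → ℝ), 0 < lam → IsEigenfunction U φ ρ lam f →
      (μH[1] : Measure M) {y | f y = 0} ≠ 0 ∧ (μH[1] : Measure M) {y | f y = 0} ≠ ⊤ ∧
      c * Real.sqrt lam ≤ ((μH[1] : Measure M) {y | f y = 0}).toReal ∧
      ((μH[1] : Measure M) {y | f y = 0}).toReal ≤ A * Real.sqrt lam := by
    intro lam f hlam hf
    have hs : 0 < Real.sqrt lam := Real.sqrt_pos.2 hlam
    have h1 := hc' lam f hlam (hE lam f hf) hf.ne
    have h2 := hA' lam f hlam (hE lam f hf) hf.ne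
    have h3 : (μH[1] : Measure M) {y | f y = 0} ≠ ⊤ := ne_top_of_le_ne_top ENNReal.ofReal_ne_top h2
    refine ⟨?_, h3, ?_, ?_⟩
    · intro h0
      rw [h0] at h1
      have : c * Real.sqrt lam ≤ 0 := ENNReal.ofReal_eq_zero.1 (le_antisymm h1 zero_le)
      nlinarith [mul_pos hc hs]
    · exact (ENNReal.ofReal_le_iff_le_toReal h3).1 h1
    · exact ENNReal.toReal_le_of_le_ofReal (by positivity) h2
  constructor
  · obtain ⟨c₅, K, r₁, hc₅, hK, hr₁, h5⟩ := d5 M ι U φ ρ hatl h.density_pos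
    obtain ⟨c', hc'0, h6⟩ := d6 M μH[2] a b (min r₀ r₁) hfin ha hb (lt_min hr₀ hr₁)
      (fun x r hr hr' => hab x r hr (hr'.trans (min_le_left _ _))) (c₅ / A) (by positivity)
    refine ⟨c', hc'0, fun lam f ν hlam hpos hf hν B hB => ?_⟩
    refine h6 (fun n => nodalMeasure (f n)) ν
      (fun n => nodalMeasure_finite (f n) (htot _ _ (hpos n) (hf n)).1 (htot _ _ (hpos n) (hf n)).2.1)
      hν.1 hν.2 ?_ B hB
    intro r hr hr'
    have h7 : Tendsto (fun n => r * Real.sqrt (lam n)) atTop atTop :=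
      (Real.tendsto_sqrt_atTop.comp hlam).const_mul_atTop hr
    filter_upwards [h7.eventually_ge_atTop K] with n hn x
    obtain ⟨h8, h9, h10, h11⟩ := htot _ _ (hpos n) (hf n)
    have h12 := h5 (lam n) r x (f n) (hpos n) (hE _ _ (hf n)) (hf n).ne hn (hr'.trans (min_le_right _ _))
    have hs : 0 < Real.sqrt (lam n) := Real.sqrt_pos.2 (hpos n)
    have h13 : (μH[1] : Measure M) {y | y ∈ Metric.ball x r ∧ f n y = 0} ≠ ⊤ :=
      ne_top_of_le_ne_top h9 (measure_mono fun y hy => hy.2)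
    have h14 : c₅ * r ^ 2 * Real.sqrt (lam n) ≤
        ((μH[1] : Measure M) {y | y ∈ Metric.ball x r ∧ f n y = 0}).toReal :=
      (ENNReal.ofReal_le_iff_le_toReal h13).1 h12
    rw [nodalMeasure_real, le_div_iff₀ (by nlinarith [mul_pos hc hs])]
    calc c₅ / A * r ^ 2 * ((μH[1] : Measure M) {y | f n y = 0}).toReal
        ≤ c₅ / A * r ^ 2 * (A * Real.sqrt (lam n)) :=
          mul_le_mul_of_nonneg_left h11 (by positivity)
      _ = c₅ * r ^ 2 * Real.sqrt (lam n) := by field_simp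
      _ ≤ _ := h14
  · intro p hp hp2
    have hZ' : ∀ C₁ C₂ : ℝ, ∃ A₅ : ℝ, 0 < C₁ → 0 < C₂ → 0 < A₅ ∧
        ∀ (lam : ℝ) (f : M → ℝ) (κ : Type) [Fintype κ] (b : κ → M), 0 < lam → Eig U φ ρ lam f →
          (∃ x, f x ≠ 0) →
          (∀ x : M, (Set.ncard {i | x ∈ Metric.ball (b i) (1 / Real.sqrt lam)} : ℝ) ≤ C₁) →
          C₂⁻¹ * lam ≤ Fintype.card κ →
          (∑ i, (Real.sqrt lam * ((μH[1] : Measure M)
            {x | x ∈ Metric.ball (b i) (1 / Real.sqrt lam) ∧ f x = 0}).toReal) ^ p) /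
              Fintype.card κ ≤ A₅ := by
      intro C₁ C₂
      by_cases hC : 0 < C₁ ∧ 0 < C₂
      · obtain ⟨A₅, h1, h2⟩ := hZ p hp.le hp2 M ι U φ ρ hatl
          (fun i z hz => (h.density_pos i z hz).le) 1 C₁ C₂ one_pos hC.1 hC.2
        exact ⟨A₅, fun _ _ => ⟨h1, h2⟩⟩
      · exact ⟨0, fun h1 h2 => absurd ⟨h1, h2⟩ hC⟩
    choose A₅ hA₅ using hZ'
    obtain ⟨K, hK, h3⟩ := d3 M μH[2] a b r₀ hfin ha hb hr₀ hab p hp
      (fun C₁ C₂ => (c⁻¹) ^ p * A₅ C₁ C₂ * C₂)
    refine ⟨K ^ p, fun lam f ν hlam hpos hf hν => ?_⟩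
    have hνf := hν.1
    refine d4 M μH[2] ν p K hfin hν.1 hp hK (h3 lam (fun n => nodalMeasure (f n)) ν hlam
      (fun n => nodalMeasure_finite (f n) (htot _ _ (hpos n) (hf n)).1 (htot _ _ (hpos n) (hf n)).2.1)
      hν.1 hν.2 ?_)
    intro C₁ C₂ hC₁ hC₂ n k x hn hmult hlow hup
    obtain ⟨h8, h9, h10, h11⟩ := htot _ _ (hpos n) (hf n)
    have hs : 0 < Real.sqrt (lam n) := Real.sqrt_pos.2 (hpos n)
    obtain ⟨hA0, h12⟩ := hA₅ C₁ C₂ hC₁ hC₂
    have h13 := h12 (lam n) (f n) (Fin k) x hn (hE _ _ (hf n)) (hf n).ne hmult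
      (by rw [Fintype.card_fin]; exact hlow)
    rw [Fintype.card_fin] at h13
    have hk : (0 : ℝ) < k := lt_of_lt_of_le (by positivity) hlow
    rw [div_le_iff₀ hk] at h13
    have hterm : ∀ i, (lam n * (nodalMeasure (f n)).real
        (Metric.ball (x i) (1 / Real.sqrt (lam n)))) ^ p ≤ (c⁻¹) ^ p * (Real.sqrt (lam n) *
          ((μH[1] : Measure M) {y | y ∈ Metric.ball (x i) (1 / Real.sqrt (lam n)) ∧
            f n y = 0}).toReal) ^ p := by
      intro i
      rw [← Real.mul_rpow (by positivity) (by positivity)]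
      refine Real.rpow_le_rpow (by
        rw [nodalMeasure_real]
        positivity) ?_ (by linarith)
      rw [nodalMeasure_real]
      set T := ((μH[1] : Measure M) {y | y ∈ Metric.ball (x i) (1 / Real.sqrt (lam n)) ∧
            f n y = 0}).toReal with hT
      have hT0 : 0 ≤ T := ENNReal.toReal_nonneg
      have hcs : 0 < c * Real.sqrt (lam n) := by positivity
      calc lam n * (T / ((μH[1] : Measure M) {y | f n y = 0}).toReal)
          ≤ lam n * (T / (c * Real.sqrt (lam n))) := by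
            refine mul_le_mul_of_nonneg_left ?_ (hpos n).le
            exact div_le_div_of_nonneg_left hT0 hcs h10
        _ = c⁻¹ * (Real.sqrt (lam n) * T) := by
            have h20 : lam n = Real.sqrt (lam n) * Real.sqrt (lam n) :=
              (Real.mul_self_sqrt (hpos n).le).symm
            have h21 : lam n * (T / (c * Real.sqrt (lam n))) =
                Real.sqrt (lam n) * Real.sqrt (lam n) * (T / (c * Real.sqrt (lam n))) := by
              rw [← h20]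
            rw [h21]
            field_simp
    calc ∑ i, (lam n * (nodalMeasure (f n)).real (Metric.ball (x i) (1 / Real.sqrt (lam n)))) ^ p
        ≤ ∑ i, (c⁻¹) ^ p * (Real.sqrt (lam n) *
          ((μH[1] : Measure M) {y | y ∈ Metric.ball (x i) (1 / Real.sqrt (lam n)) ∧
            f n y = 0}).toReal) ^ p := Finset.sum_le_sum fun i _ => hterm i
      _ = (c⁻¹) ^ p * ∑ i, (Real.sqrt (lam n) *
          ((μH[1] : Measure M) {y | y ∈ Metric.ball (x i) (1 / Real.sqrt (lam n)) ∧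
            f n y = 0}).toReal) ^ p := (Finset.mul_sum _ _ _).symm
      _ ≤ (c⁻¹) ^ p * (A₅ C₁ C₂ * k) := mul_le_mul_of_nonneg_left h13 (by positivity)
      _ ≤ (c⁻¹) ^ p * (A₅ C₁ C₂ * (C₂ * lam n)) :=
          mul_le_mul_of_nonneg_left (mul_le_mul_of_nonneg_left hup hA0.le) (by positivity)
      _ = _ := by ring

theorem manifold_limit (hU : YU.{u, u}) (hL : YLo.{u, u})
    (hZ : ∀ α : ℝ, 1 ≤ α → α < 2 → Z5L.{u, u} α) (d1 : D1.{u, u}) (d3 : D3.{u}) (d4 : D4.{u})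
    (d5 : D5.{u, u}) (d6 : D6.{u}) (E : Type v)
    [NormedAddCommGroup E] [NormedSpace ℝ E] (b : Module.Basis (Fin 2) ℝ E)
    (M : Type u) [MetricSpace M] [ChartedSpace E M] [IsManifold 𝓘(ℝ, E) ∞ M]
    [RiemannianBundle (fun x : M => TangentSpace 𝓘(ℝ, E) x)]
    [IsContMDiffRiemannianBundle 𝓘(ℝ, E) ∞ E (fun x : M => TangentSpace 𝓘(ℝ, E) x)]
    [IsRiemannianManifold 𝓘(ℝ, E) M] [CompactSpace M] [ConnectedSpace M]
    [MeasurableSpace M] [BorelSpace M] : LimitBounds (M := M) (IsEigenfunctionOn b) := by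
  obtain ⟨U, φ, ρ, hR, -, hE⟩ := Pool.Agent.Q63.ISE.atlas b M
  have h := limit_bounds hU hL hZ d1 d3 d4 d5 d6 M M U φ ρ ⟨hR.dom, hR.inj, hR.cont,
    hR.opn, hR.cover, hR.pos, hR.dens, hR.trans, hR.geod⟩
  have hEig : ∀ (lam : ℝ) (f : M → ℝ), IsEigenfunctionOn b lam f → IsEigenfunction U φ ρ lam f := by
    intro lam f hf
    have h := hE lam f ⟨hf.smooth, hf.eq⟩
    exact ⟨fun i => (h i).1, fun i => (h i).2, hf.ne⟩
  obtain ⟨⟨c, hc, h1⟩, h2⟩ := h
  refine ⟨⟨c, hc, fun lam f ν hlam hpos hf => h1 lam f ν hlam hpos fun n => hEig _ _ (hf n)⟩,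
    fun p hp hp2 => ?_⟩
  obtain ⟨K, hK⟩ := h2 p hp hp2
  exact ⟨K, fun lam f ν hlam hpos hf => hK lam f ν hlam hpos fun n => hEig _ _ (hf n)⟩

end Pool.Agent.H303.NY
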