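import Pool.Agent.H303.NY.FinD

/-! # Weak limits and domains: final form -/

set_option autoImplicit false
open MeasureTheory Filter Topology Complex Bundle
open scoped ContDiff Manifold ENNReal

namespace Pool.Agent.H303.NY

open Pub Pool.Agent.H303.NP Pool.Agent.H303.NP.Pub Pool.Agent.Q73.AD

universe u v

theorem LimitBounds.mono {M : Type u} [MetricSpace M] [MeasurableSpace M] [BorelSpace M]
    {E₁ E₂ : ℝ → (M → ℝ) → Prop} (h : ∀ lam f, E₂ lam f → E₁ lam f) (hE : LimitBounds E₁) :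
    LimitBounds E₂ := by
  obtain ⟨⟨c, hc, h1⟩, h2⟩ := hE
  refine ⟨⟨c, hc, fun lam f ν hlam hpos hf => h1 lam f ν hlam hpos fun n => h _ _ (hf n)⟩,
    fun p hp hp2 => ?_⟩
  obtain ⟨K, hK⟩ := h2 p hp hp2
  exact ⟨K, fun lam f ν hlam hpos hf => hK lam f ν hlam hpos fun n => h _ _ (hf n)⟩

theorem DomainBounds.mono {M : Type u} [MetricSpace M] [MeasurableSpace M] [BorelSpace M]
    {E₁ E₂ : ℝ → (M → ℝ) → Prop} (h : ∀ lam f, E₂ lam f → E₁ lam f) (hE : DomainBounds E₁) :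
    DomainBounds E₂ := by
  obtain ⟨⟨c, hc, h1⟩, h2⟩ := hE
  refine ⟨⟨c, hc, fun D ε hD hfr hε => ?_⟩, fun p hp hp2 => ?_⟩
  · obtain ⟨Λ, hΛ⟩ := h1 D ε hD hfr hε
    exact ⟨Λ, fun lam f hlam hl hf => hΛ lam f hlam hl (h _ _ hf)⟩
  · obtain ⟨K, hK⟩ := h2 p hp hp2
    refine ⟨K, fun D ε hD hfr hε => ?_⟩
    obtain ⟨Λ, hΛ⟩ := hK D ε hD hfr hε
    exact ⟨Λ, fun lam f hlam hl hf => hΛ lam f hlam hl (h _ _ hf)⟩

theorem iso_both (M : Type u) (ι : Type v)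
    [MetricSpace M] [CompactSpace M] [ConnectedSpace M] [MeasurableSpace M] [BorelSpace M]
    (U : ι → Set ℂ) (φ : ι → ℂ → M)
    (ρ : ι → ℂ → ℝ) (h : RiemannianSurface U φ ρ) :
    LimitBounds (IsEigenfunction U φ ρ) ∧ DomainBounds (IsEigenfunction U φ ρ) := by
  have h1 := limit_bounds g_yu.{u, v} g_ylo.{u, v} (fun α h1 h2 => g_z5.{u, v} h1 h2) td1.{u, v}
    (td3 td2.{u}) td4.{u} (td5 tn10) (td6 td2.{u}) M ι U φ ρ h
  exact ⟨h1, isothermal_domain g_yu.{u, v} g_ylo.{u, v} td9.{u} M ι U φ ρ h h1⟩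

theorem man_both (E : Type v)
    [NormedAddCommGroup E] [NormedSpace ℝ E] (b : Module.Basis (Fin 2) ℝ E)
    (M : Type u) [MetricSpace M] [ChartedSpace E M] [IsManifold 𝓘(ℝ, E) ∞ M]
    [RiemannianBundle (fun x : M => TangentSpace 𝓘(ℝ, E) x)]
    [IsContMDiffRiemannianBundle 𝓘(ℝ, E) ∞ E (fun x : M => TangentSpace 𝓘(ℝ, E) x)]
    [IsRiemannianManifold 𝓘(ℝ, E) M] [CompactSpace M] [ConnectedSpace M]
    [MeasurableSpace M] [BorelSpace M] : LimitBounds (M := M) (IsEigenfunctionOn b) ∧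
      DomainBounds (M := M) (IsEigenfunctionOn b) := by
  obtain ⟨U, φ, ρ, hR, -, hE⟩ := Pool.Agent.Q63.ISE.atlas b M
  have h := iso_both M M U φ ρ ⟨hR.dom, hR.inj, hR.cont,
    hR.opn, hR.cover, hR.pos, hR.dens, hR.trans, hR.geod⟩
  have hEig : ∀ (lam : ℝ) (f : M → ℝ), IsEigenfunctionOn b lam f → IsEigenfunction U φ ρ lam f := by
    intro lam f hf
    have h := hE lam f ⟨hf.smooth, hf.eq⟩
    exact ⟨fun i => (h i).1, fun i => (h i).2, hf.ne⟩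
  exact ⟨LimitBounds.mono hEig h.1, DomainBounds.mono hEig h.2⟩

end Pool.Agent.H303.NY
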