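import Pool.Agent.H303.NY.DefD

/-!
# The round sphere: the limit of the nodal measures, statements
-/

set_option autoImplicit false
open MeasureTheory Filter Topology Complex Metric
open scoped ENNReal

namespace Pool.Agent.H303.NY

open Pool.Agent.H303.NP Pub

noncomputable section

/-- D7: the nodal measures of `har l` tend to `merMeasure` -/
def D7 : Prop := WeakLimit (fun l => nodalMeasure (har (l + 1))) merMeasure

/-- D8: the density of `merMeasure` is not in `L²` -/
def D8 : Prop := (∃ b r₀ : ℝ, 0 < b ∧ 0 < r₀ ∧ ∀ (x : GS) (r : ℝ), 0 < r → r ≤ r₀ →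
    (μH[2] : Measure GS) (ball x r) ≤ ENNReal.ofReal (b * r ^ 2)) →
  IsFiniteMeasure (μH[2] : Measure GS) →
  merMeasure.AbsolutelyContinuous μH[2] →
  ∫⁻ x, (merMeasure.rnDeriv μH[2] x) ^ (2 : ℝ) ∂μH[2] = ⊤

end

end Pool.Agent.H303.NY
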