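import Pool.Agent.H303.NY.DefD

/-!
# From weak limits to domains: statement
-/

set_option autoImplicit false
open MeasureTheory Filter Topology Complex Metric
open scoped ENNReal

namespace Pool.Agent.H303.NY

open Pub

universe u

/-- D9: from weak limits to domains -/
def D9 : Prop := ∀ (M : Type u) [MetricSpace M] [CompactSpace M] [MeasurableSpace M] [BorelSpace M]
  (Eigen : ℝ → (M → ℝ) → Prop), IsFiniteMeasure (μH[2] : Measure M) →
  (∀ (lam : ℝ) (f : M → ℝ), 0 < lam → Eigen lam f →
    (μH[1] : Measure M) (nodalSet f) ≠ 0 ∧ (μH[1] : Measure M) (nodalSet f) ≠ ⊤ ∧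
      MeasurableSet (nodalSet f)) →
  LimitBounds Eigen → DomainBounds Eigen

end Pool.Agent.H303.NY
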